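import Mathlib.Geometry.Manifold.LocalDiffeomorph
import Mathlib.Geometry.Manifold.MFDeriv.Defs
import Mathlib.Analysis.InnerProductSpace.PiL2
import Mathlib.Analysis.Complex.Basic

/-! Kaehler metrics, one-forms and Stein manifolds. -/

open scoped Manifold ContDiff Topology

noncomputable section

namespace Pool.Agent.MP_8ac6f3_ag.KH

/-- The model space. -/
abbrev M (n : ℕ) := EuclideanSpace ℂ (Fin n)

variable {E : Type} [NormedAddCommGroup E] [NormedSpace ℝ E] [NormedSpace ℂ E]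
  [IsScalarTower ℝ ℂ E] {X : Type} [TopologicalSpace X] [ChartedSpace E X]

/-- The Levi form of `f` at `x` on the tangent vector `v`, computed in the chart at `x`. -/
def levi (f : X → ℝ) (x : X) (v : E) : ℝ :=
  (fderiv ℝ (fderiv ℝ (f ∘ (chartAt E x).symm)) (chartAt E x x) v v +
    fderiv ℝ (fderiv ℝ (f ∘ (chartAt E x).symm)) (chartAt E x x)
      (Complex.I • v) (Complex.I • v)) / 4

/-- `h x v` is the squared length of the tangent vector `v` at `x` in a Kaehler metric: it is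
positive, and locally it is the Levi form of a smooth function. -/
def IsKaehler (h : X → E → ℝ) : Prop :=
  (∀ x v, v ≠ 0 → 0 < h x v) ∧ ∀ x₀ : X, ∃ φ : X → ℝ, ∀ᶠ x in 𝓝 x₀,
    ContMDiffAt 𝓘(ℝ, E) 𝓘(ℝ, ℝ) ∞ φ x ∧ ∀ v, h x v = levi φ x v

/-- The differential of a holomorphic map. -/
def dmap {X' : Type} [TopologicalSpace X'] [ChartedSpace E X'] (f : X → X') (x : X) :
    E →L[ℂ] E :=
  mfderiv 𝓘(ℂ, E) 𝓘(ℂ, E) f x

/-- The real one-form `β` written in the chart at `x₀`. -/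
def inChart (β : X → E →L[ℝ] ℝ) (x₀ : X) (ξ : E) : E →L[ℝ] ℝ :=
  (β ((chartAt E x₀).symm ξ)).comp ((dmap (chartAt E x₀).symm ξ).restrictScalars ℝ)

/-- `β` is a smooth real one-form. -/
def SmoothForm (β : X → E →L[ℝ] ℝ) : Prop :=
  ∀ x : X, ContDiffAt ℝ ∞ (inChart β x) (chartAt E x x)

/-- The exterior derivative of `β` at `x` on the tangent vectors `v`, `w`. -/
def dForm (β : X → E →L[ℝ] ℝ) (x : X) (v w : E) : ℝ :=
  fderiv ℝ (inChart β x) (chartAt E x x) v w - fderiv ℝ (inChart β x) (chartAt E x x) w v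

/-- The Kaehler form of the metric `h`, pulled back by `p`, has a bounded primitive. -/
def BoundedPrimitive {Y : Type} [TopologicalSpace Y] [ChartedSpace E Y] (p : Y → X)
    (h : X → E → ℝ) : Prop :=
  ∃ (β : Y → E →L[ℝ] ℝ) (C : ℝ), SmoothForm β ∧
    (∀ y v, dForm β y v (Complex.I • v) = h (p y) (dmap p y v)) ∧
    ∀ y v, β y v ^ 2 ≤ C * h (p y) (dmap p y v)

/-- A complex manifold is Stein if it is holomorphically convex and holomorphically separable. -/
def Stein (E : Type) [NormedAddCommGroup E] [NormedSpace ℂ E] (Y : Type) [TopologicalSpace Y]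
    [ChartedSpace E Y] : Prop :=
  (∀ K : Set Y, IsCompact K → IsCompact {y | ∀ f : Y → ℂ, MDifferentiable 𝓘(ℂ, E) 𝓘(ℂ, ℂ) f →
    ∀ C : ℝ, (∀ x ∈ K, ‖f x‖ ≤ C) → ‖f y‖ ≤ C}) ∧
  ∀ y y' : Y, y ≠ y' → ∃ f : Y → ℂ, MDifferentiable 𝓘(ℂ, E) 𝓘(ℂ, ℂ) f ∧ f y ≠ f y'

end Pool.Agent.MP_8ac6f3_ag.KH

end
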