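import Mathlib.Analysis.CStarAlgebra.Classes
import Mathlib.Analysis.Calculus.BumpFunction.FiniteDimension
import Mathlib.Analysis.Calculus.BumpFunction.Normed
import Mathlib.Geometry.Manifold.Sheaf.Basic
import Mathlib.Topology.Separation.CompletelyRegular
import Pool.Agent.MP_8ac6f3_ag.kh.Defs
import Pool.Agent.MP_8ac6f3_ag.C01

/-! Internal definitions and the statements of the rows of PROJECT KH. -/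

open Set Metric Complex MeasureTheory Filter Function
open scoped Manifold ContDiff Topology Convolution

set_option maxSynthPendingDepth 3

noncomputable section

namespace Pool.Agent.MP_8ac6f3_ag.KH

/-! ### Algebra -/

/-- Real covectors. -/
abbrev Cv (n : ℕ) := M n →L[ℝ] ℝ

/-- Real bilinear forms. -/
abbrev Bil (n : ℕ) := M n →L[ℝ] M n →L[ℝ] ℝ

variable {n : ℕ}

/-- The Hermitian quadratic form of a real bilinear form. -/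
def hq (B : Bil n) (η : M n) : ℝ := (B η η + B (I • η) (I • η)) / 4

/-- The real Hessian; `hq (D2 u x) η = lev u x η`. -/
def D2 (u : M n → ℝ) (x : M n) : Bil n := fderiv ℝ (fderiv ℝ u) x

/-- Tensor product of two covectors. -/
def ot (a b : Cv n) : Bil n := a.smulRight b

/-- The Euclidean form; `hq Eu η = ‖η‖ ^ 2`. -/
def Eu : Bil n := D2 (fun x => ‖x‖ ^ 2) 0

/-- Evaluation of a bilinear form, as a complex number. -/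
def evc (u v : M n) : Bil n →L[ℝ] ℂ :=
  ofRealCLM.comp ((ContinuousLinearMap.apply ℝ ℝ v).comp (ContinuousLinearMap.apply ℝ (Cv n) u))

/-- The standard basis. -/
def ee (j : Fin n) : M n := EuclideanSpace.single j 1

/-- The entries of the Hermitian matrix `H` with `hq B η = ∑ j k, conj (η j) * H j k * η k`. -/
def ent (j k : Fin n) : Bil n →L[ℝ] ℂ :=
  (1 / 8 : ℂ) • (evc (ee j) (ee k) + evc (ee k) (ee j) + evc (I • ee j) (I • ee k) +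
    evc (I • ee k) (I • ee j) + I • (evc (I • ee j) (ee k) + evc (ee k) (I • ee j) -
      evc (ee j) (I • ee k) - evc (I • ee k) (ee j)))

/-- The mixed discriminant. -/
def md : ContinuousMultilinearMap ℝ (fun _ : Fin n => Bil n) ℝ :=
  reCLM.compContinuousMultilinearMap (∑ σ : Equiv.Perm (Fin n), ∑ τ : Equiv.Perm (Fin n),
    (((Equiv.Perm.sign σ * Equiv.Perm.sign τ : ℤˣ) : ℤ) : ℝ) •
      (ContinuousMultilinearMap.mkPiAlgebra ℝ (Fin n) ℂ).compContinuousLinearMap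
        fun i => ent (σ i) (τ i))

/-- `T` in the first `k` slots, `g` in the others. -/
def fam (k : ℕ) (T g : Bil n) : Fin n → Bil n := fun i => if i.val < k then T else g

/-- Row ALG. -/
structure Alg (n : ℕ) : Prop where
  inv : ∀ (B B' : Fin n → Bil n) (L : M n →L[ℂ] M n), (∀ i η, hq (B' i) η = hq (B i) (L η)) →
    md B' = ‖LinearMap.det (L : M n →ₗ[ℂ] M n)‖ ^ 2 * md B
  pos : ∀ B : Fin n → Bil n, (∀ i η, 0 ≤ hq (B i) η) → 0 ≤ md B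
  eu : 0 < md (fun _ : Fin n => (Eu : Bil n))

/-- Row AL2. -/
def Alg2 (n : ℕ) : Prop :=
  ∀ B g : Bil n, (∀ η, 0 ≤ hq B η) → (∀ η, 0 ≤ hq g η) → (∃ η, η ≠ 0 ∧ hq B η ≤ hq g η) →
    md (fun _ => B) ≤ n * md (fam (n - 1) B g)

/-! ### Analysis in one chart -/

/-- Smooth plurisubharmonic functions. -/
def Ps (U : Set (M n)) (u : M n → ℝ) : Prop :=
  ContDiffOn ℝ 3 u U ∧ ∀ x ∈ U, ∀ η, 0 ≤ lev u x η

/-- Row LST: the local Stokes formula. -/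
def Lst (n : ℕ) : Prop :=
  ∀ (U : Set (M n)) (u : Fin n → M n → ℝ) (γ : M n → Cv n) (i₀ : Fin n), IsOpen U →
    (∀ i, ContDiffOn ℝ 3 (u i) U) → ContDiff ℝ 1 γ → HasCompactSupport γ → tsupport γ ⊆ U →
    ∫ x, md (update (fun i => D2 (u i) x) i₀ (fderiv ℝ γ x)) = 0

/-- Row CL1: the mass bound. -/
def Cln1 (n : ℕ) : Prop :=
  ∀ r R : ℝ, 0 < r → r < R → ∃ C : ℝ, 0 ≤ C ∧ ∀ (u : Fin n → M n → ℝ) (a : ℝ), 0 ≤ a →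
    (∀ i, Ps (ball 0 R) (u i)) → (∀ i, ∀ x ∈ ball (0 : M n) R, |u i x| ≤ a) →
    ∫ x in closedBall (0 : M n) r, md (fun i => D2 (u i) x) ≤ C * a ^ n

/-- Row CL2: continuity of the mixed masses under uniform convergence. -/
def Cln2 (n : ℕ) : Prop :=
  ∀ (r R a ε : ℝ) (Φ : M n → ℝ), 0 < r → r < R → 0 < ε → ContinuousOn Φ (ball 0 R) →
    (∀ x ∈ ball (0 : M n) R, r < ‖x‖ → Φ x = 0) → ∃ ε' : ℝ, 0 < ε' ∧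
    ∀ u u' : Fin n → M n → ℝ, (∀ i, Ps (ball 0 R) (u i) ∧ Ps (ball 0 R) (u' i)) →
      (∀ i, ∀ x ∈ ball (0 : M n) R, |u i x| ≤ a ∧ |u' i x| ≤ a ∧ |u i x - u' i x| ≤ ε') →
      |(∫ x in closedBall (0 : M n) r, Φ x * md (fun i => D2 (u i) x)) -
        ∫ x in closedBall (0 : M n) r, Φ x * md (fun i => D2 (u' i) x)| ≤ ε

/-- Row THR: three circles. -/
def Three (n : ℕ) : Prop :=
  ∀ (U : Set (M n)) (w : M n → ℝ) (z : M n) (r₁ r R a c : ℝ), IsOpen U → Ps U w →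
    closedBall z R ⊆ U → 0 < r₁ → r₁ ≤ r → r ≤ R → r₁ < R → a ≤ c →
    (∀ y ∈ closedBall z r₁, w y ≤ a) → (∀ y ∈ closedBall z R, w y ≤ c) →
    ∀ y ∈ closedBall z r, w y ≤ a + (c - a) * (Real.log (r / r₁) / Real.log (R / r₁))

/-- Row LSE, first part: the Levi form of a weighted soft maximum. -/
def Lse (n : ℕ) : Prop :=
  ∀ (ι : Type) (T : Finset ι) (χ w : ι → M n → ℝ) (σ : ℝ) (x η : M n), 0 < σ →
    (∀ i ∈ T, ContDiffAt ℝ 2 (χ i) x ∧ ContDiffAt ℝ 2 (w i) x) →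
    0 < ∑ i ∈ T, χ i x ^ 2 * Real.exp (w i x / σ) →
    (∑ i ∈ T, (χ i x ^ 2 * Real.exp (w i x / σ) * lev (w i) x η - 2 * σ * Real.exp (w i x / σ) *
        (hq (ot (fderiv ℝ (χ i) x) (fderiv ℝ (χ i) x)) η + |χ i x * lev (χ i) x η|))) /
      (∑ i ∈ T, χ i x ^ 2 * Real.exp (w i x / σ)) ≤
      lev (fun y => σ * Real.log (∑ i ∈ T, χ i y ^ 2 * Real.exp (w i y / σ))) x η

/-- Row LSE, second part: a smooth maximum of finitely many functions. -/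
def Smax (n : ℕ) : Prop :=
  ∀ (ι : Type) (T : Finset ι) (ε : ℝ), T.Nonempty → 0 < ε → ∃ m : (ι → ℝ) → ℝ,
    (∀ s, ∀ i ∈ T, s i ≤ m s) ∧ (∀ s c, (∀ i ∈ T, s i ≤ c) → m s ≤ c + ε) ∧
    ∀ (w : ι → M n → ℝ) (x : M n), (∀ i ∈ T, ContDiffAt ℝ 3 (w i) x) →
      ContDiffAt ℝ 3 (fun y => m fun i => w i y) x ∧ ∃ p : ι → ℝ, (∀ i ∈ T, 0 ≤ p i) ∧
        ∑ i ∈ T, p i = 1 ∧ (m fun i => w i x) - ε ≤ ∑ i ∈ T, p i * w i x ∧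
        ∀ η, ∑ i ∈ T, p i * lev (w i) x η ≤ lev (fun y => m fun i => w i y) x η

/-- Row RMX: the regularised maximum of two functions. -/
def Rmax (n : ℕ) : Prop :=
  ∀ e : ℝ, 0 < e → ∃ m : ℝ → ℝ → ℝ, (∀ a b, max a b ≤ m a b ∧ m a b ≤ max a b + e) ∧
    (∀ a b, b + e ≤ a → m a b = a) ∧ (∀ a b, a + e ≤ b → m a b = b) ∧
    ∀ (f g : M n → ℝ) (x : M n), ContDiffAt ℝ 3 f x → ContDiffAt ℝ 3 g x →
      ContDiffAt ℝ 3 (fun y => m (f y) (g y)) x ∧ ∃ p : ℝ, 0 ≤ p ∧ p ≤ 1 ∧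
        m (f x) (g x) - e ≤ p * f x + (1 - p) * g x ∧
        ∀ η, p * lev f x η + (1 - p) * lev g x η ≤ lev (fun y => m (f y) (g y)) x η

/-- Locally uniform limits of smooth plurisubharmonic functions. -/
def Ap (v : M n → ℝ) : Prop :=
  ∀ R ε : ℝ, 0 < ε → ∃ w, Ps univ w ∧ ∀ x ∈ ball (0 : M n) R, |w x - v x| ≤ ε

/-- Bump functions with shrinking supports. -/
def bp (k : ℕ) : ContDiffBump (0 : M n) :=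
  ⟨1 / (k + 1) / 2, 1 / (k + 1), by positivity, half_lt_self (by positivity)⟩

/-- Mollification. -/
def mol {F : Type} [NormedAddCommGroup F] [NormedSpace ℝ F] (k : ℕ) (v : M n → F) : M n → F :=
  (bp k).normed volume ⋆[ContinuousLinearMap.lsmul ℝ ℝ, volume] v

/-- Row MOL. -/
def Mol (n : ℕ) : Prop :=
  ∀ v : M n → ℝ, Continuous v → (∀ k, ContDiff ℝ 3 (mol k v)) ∧
    (∀ R ε : ℝ, 0 < ε → ∀ᶠ k in atTop, ∀ x ∈ ball (0 : M n) R, |mol k v x - v x| ≤ ε) ∧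
    (Ap v → ∀ k x η, 0 ≤ lev (mol k v) x η) ∧
    (ContDiff ℝ 1 v → ∀ k, fderiv ℝ (mol k v) = mol k (fderiv ℝ v))

/-- Row C1A: plurisubharmonic and semiconcave implies `C^{1,1}`. -/
def C11a (n : ℕ) : Prop :=
  ∀ (v : M n → ℝ) (C : ℝ), Continuous v → Ap v →
    (∀ x h, v (x + h) + v (x - h) - 2 * v x ≤ C * ‖h‖ ^ 2) →
    Differentiable ℝ v ∧ ∃ C' : NNReal, LipschitzWith C' (fderiv ℝ v)

/-- Row C1B: Hessians of the mollifications of a `C^{1,1}` function. -/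
def C11b (n : ℕ) : Prop :=
  ∀ (v : M n → ℝ) (C : NNReal), Differentiable ℝ v → LipschitzWith C (fderiv ℝ v) →
    (∀ k x, ‖D2 (mol k v) x‖ ≤ C) ∧ ∀ᵐ x, ∃ B : Bil n,
      Tendsto (fun k => D2 (mol k v) x) atTop (𝓝 B) ∧ ∀ e : ℝ, 0 < e → ∃ q : M n → ℝ,
        ContDiff ℝ 3 q ∧ IsLocalMin (fun z => v z - q z) x ∧
        ∀ η, lev q x η = hq B η - e * ‖η‖ ^ 2

/-- Row EXT: extension from a ball to the whole space. -/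
def Ext (n : ℕ) : Prop :=
  ∀ (W : M n → ℝ) (a : ℝ), (∀ x ∈ ball (0 : M n) 3, |W x| ≤ a) →
    (∀ ε : ℝ, 0 < ε → ∃ w, Ps (ball 0 3) w ∧ ∀ x ∈ ball (0 : M n) 3, |w x - W x| ≤ ε) →
    ∃ (V : M n → ℝ) (c b : ℝ), EqOn V W (ball 0 (9 / 4)) ∧
      UniformContinuous (fun x => V x - c * ‖x‖ ^ 2) ∧ (∀ x, |V x - c * ‖x‖ ^ 2| ≤ b) ∧
      ∀ ε : ℝ, 0 < ε → ∃ w, Ps univ w ∧ ∀ x, |w x - V x| ≤ ε

/-- Row EVL: the envelope of the inf-convolution. -/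
def Envl (n : ℕ) : Prop :=
  ∀ (V : M n → ℝ) (c b : ℝ), UniformContinuous (fun x => V x - c * ‖x‖ ^ 2) →
    (∀ x, |V x - c * ‖x‖ ^ 2| ≤ b) → (∀ ε : ℝ, 0 < ε → ∃ w, Ps univ w ∧ ∀ x, |w x - V x| ≤ ε) →
    ∀ ε : ℝ, 0 < ε → ∃ (v : M n → ℝ) (C : ℝ), Continuous v ∧ (∀ x, |v x - V x| ≤ ε) ∧ Ap v ∧
      (∀ x h, v (x + h) + v (x - h) - 2 * v x ≤ C * ‖h‖ ^ 2) ∧
      ∀ (x : M n) (q : M n → ℝ), ContDiff ℝ 3 q → IsLocalMin (fun z => v z - q z) x →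
        (∃ η, η ≠ 0 ∧ lev q x η ≤ 0) ∨ ∃ (y : M n) (q' : M n → ℝ), ‖y - x‖ ≤ ε ∧
          ContDiff ℝ 3 q' ∧ IsLocalMin (fun z => V z - q' z) y ∧ ∀ η, lev q' y η = lev q x η

/-- Row LMA: the measure form of the touching property, in one chart. -/
def Locma (n : ℕ) : Prop :=
  ∀ (W φ Φ Φ' β : M n → ℝ) (H : M n → Bil n) (a : ℝ), Ps (ball 0 3) φ →
    (∀ x ∈ ball (0 : M n) 3, |φ x| ≤ a ∧ |W x| ≤ a) → ContinuousOn Φ (ball 0 3) →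
    ContinuousOn Φ' (ball 0 3) → ContinuousOn β (ball 0 3) → ContinuousOn H (ball 0 3) →
    (∀ x ∈ ball (0 : M n) 3, 0 ≤ Φ x ∧ 0 ≤ Φ' x ∧ 0 ≤ β x ∧ ∀ η, 0 ≤ hq (H x) η) →
    (∀ x ∈ ball (0 : M n) 3, 2 < ‖x‖ → Φ x = 0) →
    (∀ ε : ℝ, 0 < ε → ∃ w, Ps (ball 0 3) w ∧ ∀ x ∈ ball (0 : M n) 3, |w x - W x| ≤ ε) →
    (∀ y ∈ ball (0 : M n) 3, ∀ q : M n → ℝ, ContDiff ℝ 3 q → IsLocalMin (fun z => W z - q z) y →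
      Φ y = 0 ∨ (∃ η, η ≠ 0 ∧ lev q y η ≤ β y * lev φ y η) ∨
        (Φ y ≤ Φ' y ∧ ∀ η, lev q y η ≤ hq (H y) η)) →
    ∀ ε : ℝ, 0 < ε → ∃ ε' : ℝ, 0 < ε' ∧ ∀ w, Ps (ball 0 3) w →
      (∀ x ∈ ball (0 : M n) 3, |w x - W x| ≤ ε') →
      ∫ x in closedBall (0 : M n) 2, Φ x * md (fun _ => D2 w x) ≤
        n * (∫ x in closedBall (0 : M n) 2, Φ x * β x * md (fam (n - 1) (D2 w x) (D2 φ x))) +
        (∫ x in closedBall (0 : M n) 2, Φ' x * md (fun _ => H x)) + ε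

/-- Row CHI: a convex function that grows fast, with controlled derivatives. -/
def Chi : Prop :=
  ∀ m : ℝ → ℝ, Monotone m → (∀ x, 1 ≤ m x) → ∃ (χ : ℝ → ℝ) (C : ℝ), ContDiff ℝ 3 χ ∧
    ∀ x, 0 ≤ x → x ≤ 2 * χ x ∧ 1 / 2 ≤ deriv χ x ∧ 0 ≤ deriv (deriv χ) x ∧
      ∀ j : ℕ, 1 ≤ j → j ≤ 3 → m x ^ 3 * |iteratedDeriv j χ x| ≤ C * Real.exp (χ x / 3)

/-! ### The covering space -/

variable {Y A : Type} [TopologicalSpace Y]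

/-- The transition map from the chart `α` to the chart `β`. -/
def tau (a : Atl (M n) Y A) (α β : A) : M n → M n :=
  fun ξ => invFunOn (a.ψ β) (ball 0 3) (a.ψ α ξ)

/-- Row LIP: the transition maps are uniformly Lipschitz. -/
def Lip (a : Atl (M n) Y A) : Prop :=
  ∃ Λ : ℝ, 1 ≤ Λ ∧ ∀ α β, ∀ ξ ∈ ball (0 : M n) 3, ∀ ξ' ∈ ball (0 : M n) 3, ∀ ζ : M n,
    a.ψ β ζ = a.ψ α ξ → ‖ζ‖ + Λ * ‖ξ' - ξ‖ < 3 →
    ∃ ζ', ‖ζ' - ζ‖ ≤ Λ * ‖ξ' - ξ‖ ∧ a.ψ β ζ' = a.ψ α ξ'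

/-- Row COV: change of variables between two charts. -/
def Cov (a : Atl (M n) Y A) : Prop :=
  ∀ (α β : A) (E E' : M n → ℝ),
    (∀ ξ ∈ closedBall (0 : M n) 2, a.ψ α ξ ∈ a.ψ β '' closedBall 0 2 → E ξ =
      ‖LinearMap.det (fderiv ℂ (tau a α β) ξ : M n →ₗ[ℂ] M n)‖ ^ 2 * E' (tau a α β ξ)) →
    (∀ ξ ∈ closedBall (0 : M n) 2, E ξ ≠ 0 → a.ψ α ξ ∈ a.ψ β '' closedBall 0 2) →
    (∀ ζ ∈ closedBall (0 : M n) 2, E' ζ ≠ 0 → a.ψ β ζ ∈ a.ψ α '' closedBall 0 2) →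
    ∫ ξ in closedBall (0 : M n) 2, E ξ = ∫ ζ in closedBall (0 : M n) 2, E' ζ

/-- Row ATL: a finer atlas at a variable scale. -/
def Reatl (a : Atl (M n) Y A) : Prop :=
  ∀ (s : Y → ℝ) (L c₀ : ℝ), (∀ y, 0 < s y ∧ s y ≤ 1) → 0 ≤ L → 0 < c₀ → c₀ ≤ 1 / 4 →
    8 * c₀ * L ≤ 1 →
    (∀ α, ∀ ξ ∈ ball (0 : M n) 2, ∀ ξ' ∈ ball (0 : M n) 2,
      |s (a.ψ α ξ) - s (a.ψ α ξ')| ≤ L * ‖ξ - ξ'‖) →
    ∃ (A' : Type) (a' : Atl (M n) Y A'), (∀ α', ∃ α, ∃ c ∈ ball (0 : M n) 1,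
      ∀ ξ, a'.ψ α' ξ = a.ψ α (c + (c₀ * s (a.ψ α c)) • ξ)) ∧ ∀ g, a'.Hol g → a.Hol g

/-- Local potentials of a closed form of type (1,1). -/
def Pot (a : Atl (M n) Y A) (f : A → M n → ℝ) : Prop :=
  (∀ α, ContDiffOn ℝ 3 (f α) (ball 0 3)) ∧ ∀ α β, ∀ ξ ∈ ball (0 : M n) 3,
    a.ψ α ξ ∈ a.ψ β '' ball 0 3 →
    ∀ η, lev (f α) ξ η = lev (f β) (tau a α β ξ) (fderiv ℂ (tau a α β) ξ η)

/-- A real one-form of class one, in the charts. -/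
def Form (a : Atl (M n) Y A) (γ : A → M n → Cv n) : Prop :=
  (∀ α, ContDiffOn ℝ 1 (γ α) (ball 0 3)) ∧ ∀ α β, ∀ ξ ∈ ball (0 : M n) 3,
    a.ψ α ξ ∈ a.ψ β '' ball 0 3 → ∀ η, γ α ξ η = γ β (tau a α β ξ) (fderiv ℂ (tau a α β) ξ η)

/-- A Kaehler metric of bounded geometry, given by potentials in a uniform atlas. -/
structure Geo (n : ℕ) (Y A : Type) [TopologicalSpace Y] extends Atl (M n) Y A where
  trs : ∀ α β, ∀ ξ ∈ ball (0 : M n) 3, ψ α ξ ∈ ψ β '' ball 0 3 →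
    ContDiffAt ℂ 3 (tau toAtl α β) ξ
  φ : A → M n → ℝ
  B : ℝ
  c : ℝ
  c_pos : 0 < c
  φ_pot : Pot toAtl φ
  φ_bd : ∀ α, Cb (ball 0 3) B (φ α)
  φ_pos : ∀ α, ∀ ξ ∈ ball (0 : M n) 3, ∀ η, c * ‖η‖ ^ 2 ≤ lev (φ α) ξ η

/-- A bounded primitive of the Kaehler form (composed with the complex structure). -/
structure Prim (G : Geo n Y A) where
  γ : A → M n → Cv n
  C : ℝ
  form : Form G.toAtl γ
  bd : ∀ α, ∀ ξ ∈ ball (0 : M n) 3, ‖γ α ξ‖ ≤ C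
  d : ∀ α, ∀ ξ ∈ ball (0 : M n) 3, ∀ η, hq (fderiv ℝ (γ α) ξ) η = lev (G.φ α) ξ η

namespace Geo

variable (G : Geo n Y A)

/-- Of class three in the charts. -/
def Sm (w : Y → ℝ) : Prop := ∀ α, ContDiffOn ℝ 3 (w ∘ G.ψ α) (ball 0 3)

/-- The Levi form of `w` is at least `c` times the metric on `s`. -/
def Lge (w c : Y → ℝ) (s : Set Y) : Prop :=
  ∀ α, ∀ ξ ∈ ball (0 : M n) 3, G.ψ α ξ ∈ s → ∀ η,
    c (G.ψ α ξ) * lev (G.φ α) ξ η ≤ lev (w ∘ G.ψ α) ξ η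

/-- Strictly plurisubharmonic on `s`. -/
def Spsh (w : Y → ℝ) (s : Set Y) : Prop :=
  ∀ α, ∀ ξ ∈ ball (0 : M n) 3, G.ψ α ξ ∈ s → ∀ η, η ≠ 0 → 0 < lev (w ∘ G.ψ α) ξ η

/-- The gradient is at most `L` in the charts. -/
def Gle (w : Y → ℝ) (L : ℝ) : Prop :=
  ∀ α, ∀ ξ ∈ ball (0 : M n) 3, ‖fderiv ℝ (w ∘ G.ψ α) ξ‖ ≤ L

/-- The Levi form is at most `L` in absolute value in the charts. -/
def Lle (w : Y → ℝ) (L : ℝ) : Prop :=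
  ∀ α, ∀ ξ ∈ ball (0 : M n) 3, ∀ η, |lev (w ∘ G.ψ α) ξ η| ≤ L * ‖η‖ ^ 2

/-- Lipschitz in the charts. -/
def Lp (f : Y → ℝ) (L : ℝ) : Prop :=
  ∀ α, ∀ ξ ∈ ball (0 : M n) 3, ∀ ξ' ∈ ball (0 : M n) 3,
    |f (G.ψ α ξ) - f (G.ψ α ξ')| ≤ L * ‖ξ - ξ'‖

/-- `y'` is at distance at most `t` from `y` in some chart. -/
def Nr (t : ℝ) (y y' : Y) : Prop :=
  ∃ α, ∃ ξ ∈ closedBall (0 : M n) 2, ∃ ξ', ‖ξ' - ξ‖ ≤ t ∧ G.ψ α ξ = y ∧ G.ψ α ξ' = y'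

/-- The local potentials of `lam * ω + dd^c u`. -/
def pot (lam : ℝ) (u : Y → ℝ) (α : A) : M n → ℝ := fun ξ => lam * G.φ α ξ + u (G.ψ α ξ)

/-- The density of `(lam * ω + dd^c u) ^ k ∧ ω ^ (n - k)`. -/
def mass (lam : ℝ) (u : Y → ℝ) (k : ℕ) (α : A) (ξ : M n) : ℝ :=
  md (fam k (D2 (G.pot lam u α) ξ) (D2 (G.φ α) ξ))

end Geo

/-- Cut-off functions. -/
structure Kit0 (G : Geo n Y A) where
  χ : A → Y → ℝ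
  nb : A → Finset A
  K₀ : ℝ
  χ_sm : ∀ α, G.Sm (χ α)
  χ_mem : ∀ α y, 0 ≤ χ α y ∧ χ α y ≤ 1
  χ_one : ∀ α, ∀ ξ ∈ closedBall (0 : M n) (3 / 2), χ α (G.ψ α ξ) = 1
  χ_supp : ∀ α y, χ α y ≠ 0 → y ∈ G.ψ α '' closedBall 0 (7 / 4)
  χ_grad : ∀ α, G.Gle (χ α) K₀
  χ_lev : ∀ α, G.Lle (χ α) K₀
  nb_card : ∀ β, ((nb β).card : ℝ) ≤ K₀
  nb_mem : ∀ α β, ∀ ξ ∈ ball (0 : M n) 3, G.ψ β ξ ∈ G.ψ α '' closedBall 0 (7 / 4) → α ∈ nb β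

/-- Partition of unity and a smoothed distance function. -/
structure Kit (G : Geo n Y A) extends Kit0 G where
  θ : A → Y → ℝ
  ρ : Y → ℝ
  T : ℝ → Finset A
  K : ℝ
  one_le : 1 ≤ K
  θ_sm : ∀ α, G.Sm (θ α)
  θ_nonneg : ∀ α y, 0 ≤ θ α y
  θ_supp : ∀ α y, θ α y ≠ 0 → y ∈ G.ψ α '' closedBall 0 (7 / 4)
  θ_sum : ∀ β, ∀ ξ ∈ ball (0 : M n) 3, ∑ α ∈ nb β, θ α (G.ψ β ξ) = 1
  θ_low : ∀ α, ∀ ξ ∈ closedBall (0 : M n) (3 / 2), 1 / K ≤ θ α (G.ψ α ξ)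
  ρ_sm : G.Sm ρ
  ρ_nonneg : ∀ y, 0 ≤ ρ y
  ρ_grad : G.Gle ρ K
  ρ_lev : G.Lle ρ K
  T_mem : ∀ R α, ∀ ξ ∈ closedBall (0 : M n) (7 / 4), ρ (G.ψ α ξ) ≤ R → α ∈ T R
  T_card : ∀ R, 0 ≤ R → ((T R).card : ℝ) ≤ Real.exp (K * (R + 1))

variable {G : Geo n Y A}

/-- The integral of a density supported in `ρ ≤ R`. -/
def Kit.IY (k : Kit G) (R : ℝ) (F : A → M n → ℝ) : ℝ :=
  ∑ α ∈ k.T R, ∫ ξ in closedBall (0 : M n) 2, k.θ α (G.ψ α ξ) * F α ξ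

/-- The integral of `Φ (lam * ω + dd^c u) ^ j ∧ ω ^ (n - j)`. -/
def Kit.IW (k : Kit G) (R : ℝ) (Φ : Y → ℝ) (lam : ℝ) (u : Y → ℝ) (j : ℕ) : ℝ :=
  k.IY R fun α ξ => Φ (G.ψ α ξ) * G.mass lam u j α ξ

/-- The weight `exp o * (- u - τ)_+ ^ p`. -/
def wt (o u : Y → ℝ) (τ : ℝ) (p : ℕ) : Y → ℝ :=
  fun y => Real.exp (o y) * max (-u y - τ) 0 ^ p

/-- Row GST: the global Stokes formula. -/
def Gst (k : Kit G) : Prop :=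
  ∀ (f : Fin n → A → M n → ℝ) (γ : A → M n → Cv n) (i₀ : Fin n) (R : ℝ),
    (∀ i, Pot G.toAtl (f i)) → Form G.toAtl γ →
    (∀ α, ∀ ξ ∈ ball (0 : M n) 3, R < k.ρ (G.ψ α ξ) → γ α ξ = 0) →
    k.IY R (fun α ξ => md (update (fun i => D2 (f i α) ξ) i₀ (fderiv ℝ (γ α) ξ))) = 0

/-- Row CHN: the chain inequality. -/
def Chain (k : Kit G) : Prop :=
  ∃ ε₀ K : ℝ, 0 < ε₀ ∧ ε₀ ≤ 1 ∧ 1 ≤ K ∧ ∀ (u o : Y → ℝ) (lam τ R : ℝ) (j p : ℕ), G.Sm u →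
    G.Sm o → G.Gle o ε₀ → 0 ≤ lam → G.Lge u (fun _ => -lam) univ →
    (∀ y, R < k.ρ y → -τ ≤ u y) → j < n → 2 ≤ p →
    k.IW R (wt o u τ (p + 1)) lam u j ≤ K * p * k.IW R (wt o u τ p) lam u (j + 1)

/-- The size of the error in the regularisation. -/
def sg (D t : ℝ) : ℝ := (D + 1) / Real.log (1 / t) + t

/-- The hypotheses on a family of competitors. -/
structure Fml (G : Geo n Y A) (F : Set (Y → ℝ)) (b : Y → ℝ) (δ κ L : ℝ) : Prop where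
  δ_nonneg : 0 ≤ δ
  δ_le : δ ≤ 1
  κ_nonneg : 0 ≤ κ
  L_nonneg : 0 ≤ L
  b_mem : ∀ y, 0 ≤ b y ∧ b y ≤ 1
  b_lip : G.Lp b L
  mem : ∀ v ∈ F, G.Sm v ∧ (∀ y, v y ≤ 0) ∧ G.Lge v (fun y => max (b y + κ * v y) 0 - δ) univ

/-- Row BK1: regularisation of the supremum over small balls, in one chart. -/
def Bk1 (G : Geo n Y A) : Prop :=
  ∃ K t₀ : ℝ, 1 ≤ K ∧ 0 < t₀ ∧ t₀ ≤ 1 / 2 ∧ ∀ (F : Set (Y → ℝ)) (b s : Y → ℝ) (δ κ L D t : ℝ),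
    Fml G F b δ κ L → 0 ≤ D → 0 < t → t ≤ t₀ → (∀ y, -D ≤ s y) →
    (∀ y, ∀ v ∈ F, ∀ y', G.Nr t y y' → v y' ≤ s y) →
    (∀ y, ∀ ε : ℝ, 0 < ε → ∃ v ∈ F, ∃ y', G.Nr t y y' ∧ s y - ε ≤ v y') →
    ∀ α, ∃ W : M n → ℝ, ContDiffOn ℝ 3 W (ball 0 (5 / 2)) ∧ ∀ ξ ∈ closedBall (0 : M n) 2,
      |W ξ - s (G.ψ α ξ)| ≤ K * sg D t ∧ ∀ η,
        (max (b (G.ψ α ξ) + κ * s (G.ψ α ξ)) 0 - δ - K * (1 + κ + L) * sg D t) *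
          lev (G.φ α) ξ η ≤ lev W ξ η

/-- Row GLU: gluing. -/
def Glue (G : Geo n Y A) : Prop :=
  ∀ K₀ : ℝ, 0 ≤ K₀ → ∃ K₁ : ℝ, 0 ≤ K₁ ∧ ∀ (s c : Y → ℝ) (σ : ℝ) (W : A → M n → ℝ), 0 < σ →
    (∀ α, ContDiffOn ℝ 3 (W α) (ball 0 (5 / 2)) ∧ ∀ ξ ∈ closedBall (0 : M n) 2,
      |W α ξ - s (G.ψ α ξ)| ≤ K₀ * σ ∧ ∀ η, c (G.ψ α ξ) * lev (G.φ α) ξ η ≤ lev (W α) ξ η) →
    ∃ w, G.Sm w ∧ (∀ y, |w y - s y| ≤ K₁ * σ) ∧ G.Lge w (fun y => c y - K₁ * σ) univ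

/-- Row BK: the regularisation theorem. -/
def Bk (G : Geo n Y A) : Prop :=
  ∃ K t₀ : ℝ, 1 ≤ K ∧ 0 < t₀ ∧ t₀ ≤ 1 / 2 ∧ ∀ (F : Set (Y → ℝ)) (b : Y → ℝ) (δ κ L D t : ℝ),
    Fml G F b δ κ L → 0 ≤ D → 0 < t → t ≤ t₀ →
    (∀ y, ∃ v ∈ F, ∃ y', G.Nr t y y' ∧ -D ≤ v y') →
    ∃ w, G.Sm w ∧ (∀ y c, (∀ v ∈ F, ∀ y', G.Nr t y y' → v y' ≤ c) → w y ≤ c + K * sg D t) ∧
      (∀ y, ∀ v ∈ F, ∀ y', G.Nr t y y' → v y' - K * sg D t ≤ w y) ∧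
      G.Lge w (fun y => max (b y + κ * w y) 0 - δ - K * (1 + κ + L) * sg D t) univ

/-- The data of an envelope. -/
structure Data (k : Kit G) where
  δ : ℝ
  κ : ℝ
  L : ℝ
  R : ℝ
  b : Y → ℝ
  h : Y → ℝ
  δ_pos : 0 < δ
  δ_le : δ ≤ 1
  κ_pos : 0 < κ
  L_nonneg : 0 ≤ L
  b_mem : ∀ y, 0 ≤ b y ∧ b y ≤ 1
  b_lip : G.Lp b L
  b_supp : ∀ y, R < k.ρ y → b y = 0
  h_sm : G.Sm h
  h_supp : ∀ y, R < k.ρ y → 0 ≤ h y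

variable {k : Kit G}

/-- The class of competitors. -/
def Data.Mem (d : Data k) (v : Y → ℝ) : Prop :=
  G.Sm v ∧ (∀ y, v y ≤ min (d.h y) 0) ∧ G.Lge v (fun y => max (d.b y + d.κ * v y) 0 - d.δ) univ

/-- `u` is the upper envelope of the class and a uniform limit of members. -/
structure Data.IsEnv (d : Data k) (u : Y → ℝ) : Prop where
  cont : Continuous u
  ge : ∀ v, d.Mem v → ∀ y, v y ≤ u y
  approx : ∀ ε : ℝ, 0 < ε → ∃ v, d.Mem v ∧ ∀ y, u y - ε ≤ v y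
  supp : ∃ R', ∀ y, R' < k.ρ y → u y = 0

/-- Row EN0: the barrier. -/
def Env0 (k : Kit G) : Prop :=
  ∀ d : Data k, ∃ (v : Y → ℝ) (a R' : ℝ), d.Mem v ∧ ∀ y, -a ≤ v y ∧ (R' < k.ρ y → v y = 0)

/-- Row EN1: the envelope. -/
def Env (k : Kit G) : Prop := ∀ d : Data k, ∃ u, d.IsEnv u

/-- Row TCH: the touching property. -/
def Touch (k : Kit G) : Prop :=
  ∀ (d : Data k) (u : Y → ℝ), d.IsEnv u → ∀ α, ∀ ξ ∈ ball (0 : M n) 3, ∀ q : M n → ℝ,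
    ContDiffOn ℝ 3 q (ball 0 3) → IsLocalMin (fun z => u (G.ψ α z) - q z) ξ →
    u (G.ψ α ξ) < min (d.h (G.ψ α ξ)) 0 → ∃ η, η ≠ 0 ∧
      lev q ξ η ≤ (max (d.b (G.ψ α ξ) + d.κ * u (G.ψ α ξ)) 0 - d.δ) * lev (G.φ α) ξ η

/-- Row MEA: the measure inequality. -/
def Meas (k : Kit G) : Prop :=
  ∀ (d : Data k) (u o : Y → ℝ) (lam τ R ε : ℝ), d.IsEnv u → G.Sm o → d.δ ≤ lam →
    G.Lge d.h (fun _ => -lam) univ → 0 < τ → 0 < ε → ∃ ε' : ℝ, 0 < ε' ∧ ∀ v, d.Mem v →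
      (∀ y, u y - ε' ≤ v y) → k.IW R (wt o u τ 2) d.δ v n ≤
        n * k.IW R (fun y => wt o u τ 2 y * d.b y) d.δ v (n - 1) +
          k.IW R (wt o d.h 0 2) lam d.h n + ε

/-- Row DEC: the mass of the deep part decays exponentially. -/
def Decay (k : Kit G) : Prop :=
  ∃ K : ℝ, 1 ≤ K ∧ ∀ (d : Data k) (u : Y → ℝ) (e s : ℝ), d.IsEnv u → (∀ y, d.h y = 0) →
    0 ≤ d.R → 0 < e → e ≤ 1 → K * (d.R + 1 + Real.log (1 / e)) ≤ s → ∃ (v : Y → ℝ) (R' : ℝ),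
      d.Mem v ∧ (∀ y, R' < k.ρ y → -s ≤ v y) ∧ k.IW R' (wt (fun _ => 0) v s 2) d.δ v n ≤ e

/-- Row RF1: the rooftop envelope is small in the mean. -/
def Roof1 (k : Kit G) : Prop :=
  ∃ ε₀ K : ℝ, 0 < ε₀ ∧ ε₀ ≤ 1 ∧ 1 ≤ K ∧ ∀ (δ lam R J : ℝ) (h o : Y → ℝ), 0 < δ → δ ≤ 1 →
    δ ≤ lam → G.Sm h → G.Sm o → G.Gle o ε₀ → G.Lge h (fun _ => -lam) univ →
    (∀ y, R < k.ρ y → 0 ≤ h y) → k.IW R (wt o h 0 2) lam h n < J →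
    ∃ (w : Y → ℝ) (R' : ℝ), G.Sm w ∧ (∀ y, w y ≤ min (h y) 0) ∧ G.Lge w (fun _ => -δ) univ ∧
      (∀ y, R' < k.ρ y → -δ ≤ w y) ∧ k.IW R' (wt o w δ (n + 2)) δ w 0 ≤ K * J

/-- Row PNT: from a mean estimate to a pointwise estimate. -/
def Point (k : Kit G) : Prop :=
  ∃ K : ℝ, 1 ≤ K ∧ ∀ (w o : Y → ℝ) (δ R J : ℝ), 0 < δ → δ ≤ 1 → G.Sm w → G.Sm o → G.Gle o 1 →
    (∀ y, w y ≤ 0) → G.Lge w (fun _ => -δ) univ → (∀ y, R < k.ρ y → -δ ≤ w y) →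
    k.IW R (wt o w δ (n + 2)) δ w 0 ≤ J → ∀ (y : Y) (E t : ℝ), 0 < E →
      K * J ≤ Real.exp (o y) * E ^ (n + 2) → 0 < t → t ≤ 1 / 2 →
      ∃ y', G.Nr t y y' ∧ -(K * (E + δ) * (1 + Real.log (1 / t))) ≤ w y'

/-- Row STA: a strictly plurisubharmonic function on a large ball, with linear oscillation. -/
def Sta (k : Kit G) : Prop :=
  ∃ K : ℝ, 1 ≤ K ∧ ∀ R : ℝ, 0 ≤ R → ∃ f, G.Sm f ∧ (∀ y, |f y| ≤ K * (R + 1)) ∧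
    G.Lge f (fun _ => 1 / 4) {y | k.ρ y ≤ R}

/-- Row STB: an almost plurisubharmonic function with a gap. -/
def Stb (k : Kit G) : Prop :=
  ∃ K : ℝ, 1 ≤ K ∧ ∀ r e : ℝ, 0 ≤ r → 0 < e → e ≤ 1 → ∃ f, G.Sm f ∧
    G.Lge f (fun _ => -e) univ ∧ (∀ y, k.ρ y ≤ r → f y ≤ -(7 / 8)) ∧
    ∀ y, K * (r + 1 + Real.log (1 / e)) ≤ k.ρ y → -(1 / 4) ≤ f y

/-- Row GAP. -/
def Gap (k : Kit G) : Prop :=
  ∃ (R R' : ℕ → ℝ) (f : ℕ → Y → ℝ), Monotone R' ∧ ∀ j : ℕ, (j : ℝ) ≤ R' j ∧ R (j + 1) < R' j ∧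
    G.Sm (f j) ∧ G.Spsh (f j) {y | k.ρ y ≤ R' j} ∧ (∀ y, k.ρ y ≤ j → f j y ≤ -(1 / 8)) ∧
    ∀ y, R j ≤ k.ρ y → 1 / 8 ≤ f j y

/-- Row EXH: a smooth strictly plurisubharmonic exhaustion. -/
def Exh (k : Kit G) : Prop :=
  ∃ Ψ, G.Sm Ψ ∧ G.Spsh Ψ univ ∧ ∀ c : ℝ, ∃ R, ∀ y, Ψ y ≤ c → k.ρ y ≤ R

/-- Row REP: an exhaustion with controlled derivatives. -/
def Rep (k : Kit G) : Prop :=
  ∃ (F : Y → ℝ) (C : ℝ), 1 ≤ C ∧ G.Sm F ∧ (∀ y, 0 ≤ F y) ∧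
    (∀ c : ℝ, ∃ R, ∀ y, F y ≤ c → k.ρ y ≤ R) ∧ ∀ α, ∀ ξ ∈ ball (0 : M n) 2,
      (∀ j : ℕ, 1 ≤ j → j ≤ 3 →
        ‖iteratedFDeriv ℝ j (F ∘ G.ψ α) ξ‖ ≤ C * Real.exp (F (G.ψ α ξ) / 3)) ∧
      ∀ η, Real.exp (-(F (G.ψ α ξ) / 3)) * ‖η‖ ^ 2 ≤ C * lev (F ∘ G.ψ α) ξ η

/-- Row GRA: the Stein property for the functions that are holomorphic in the atlas. -/
def SteinA (a : Atl (M n) Y A) : Prop :=
  (∀ K : Set Y, IsCompact K → ∃ K' : Set Y, IsCompact K' ∧ ∀ y ∉ K', ∃ g : Y → ℂ, a.Hol g ∧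
    1 < ‖g y‖ ∧ ∀ x ∈ K, ‖g x‖ ≤ 1) ∧ ∀ y y' : Y, y ≠ y' → ∃ g : Y → ℂ, a.Hol g ∧ g y ≠ g y'

/-! ### From manifolds to charts -/

/-- The uniform atlas comes from the manifold. -/
structure Link {X : Type} [TopologicalSpace X] [ChartedSpace (M n) X] [ChartedSpace (M n) Y]
    (p : Y → X) (h : X → M n → ℝ) (G : Geo n Y A) : Prop where
  sm : ∀ α, ∀ ξ ∈ ball (0 : M n) 3, ContMDiffAt 𝓘(ℂ, M n) 𝓘(ℂ, M n) 3 (G.ψ α) ξ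
  met : ∀ α, ∀ ξ ∈ ball (0 : M n) 3, ∀ η,
    lev (G.φ α) ξ η = h (p (G.ψ α ξ)) (dmap p (G.ψ α ξ) (dmap (G.ψ α) ξ η))
  hol : ∀ g : Y → ℂ, G.toAtl.Hol g → MDifferentiable 𝓘(ℂ, M n) 𝓘(ℂ, ℂ) g

/-- Row GE1. -/
def Geo1 (n : ℕ) : Prop :=
  ∀ (X : Type) [TopologicalSpace X] [T2Space X] [CompactSpace X] [ChartedSpace (M n) X]
    [IsManifold 𝓘(ℂ, M n) ω X] (h : X → M n → ℝ), IsKaehler h →
    ∀ (Y : Type) [TopologicalSpace Y] [ChartedSpace (M n) Y] [IsManifold 𝓘(ℂ, M n) ω Y]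
    (p : Y → X), IsCoveringMap p → IsLocalDiffeomorph 𝓘(ℂ, M n) 𝓘(ℂ, M n) ω p →
    ∃ (A : Type) (G : Geo n Y A), Link p h G

/-- Row GE2. -/
def Geo2 (n : ℕ) : Prop :=
  ∀ (X : Type) [TopologicalSpace X] [ChartedSpace (M n) X] (h : X → M n → ℝ)
    (Y : Type) [TopologicalSpace Y] [ChartedSpace (M n) Y] [IsManifold 𝓘(ℂ, M n) ω Y]
    (p : Y → X) (A : Type) (G : Geo n Y A), Link p h G → ∀ (β : Y → M n →L[ℝ] ℝ) (C : ℝ),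
    SmoothForm β → (∀ y v, dForm β y v (I • v) = h (p y) (dmap p y v)) →
    (∀ y v, β y v ^ 2 ≤ C * h (p y) (dmap p y v)) → Nonempty (Prim G)

end Pool.Agent.MP_8ac6f3_ag.KH

end
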