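import Mathlib.Algebra.Order.Star.Real
import Mathlib.Order.CompletePartialOrder
import Pool.Agent.MP_8ac6f3_ag.kh.Spec

/-! Basic lemmas on Hermitian forms, mixed discriminants and Levi forms. -/

open Set Metric Complex MeasureTheory Filter Function
open scoped ContDiff Topology

set_option maxSynthPendingDepth 3

namespace Pool.Agent.MP_8ac6f3_ag.KH

variable {n : ℕ}

theorem hq_D2 (u : M n → ℝ) (x η : M n) : hq (D2 u x) η = lev u x η := rfl

theorem hq_add (B B' : Bil n) (η : M n) : hq (B + B') η = hq B η + hq B' η := by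
  simp only [hq, add_apply]; ring

theorem hq_sub (B B' : Bil n) (η : M n) : hq (B - B') η = hq B η - hq B' η := by
  simp only [hq, sub_apply]; ring

theorem hq_smul (c : ℝ) (B : Bil n) (η : M n) : hq (c • B) η = c * hq B η := by
  simp only [hq, smul_apply, smul_eq_mul]; ring

theorem hq_zero (η : M n) : hq (0 : Bil n) η = 0 := by simp [hq]

theorem hq_sum {ι : Type} (T : Finset ι) (B : ι → Bil n) (η : M n) :
    hq (∑ i ∈ T, B i) η = ∑ i ∈ T, hq (B i) η := by
  simp only [hq, sum_apply, ← Finset.sum_add_distrib, Finset.sum_div]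

theorem hq_ot (a b : Cv n) (η : M n) :
    hq (ot a b) η = (a η * b η + a (I • η) * b (I • η)) / 4 := by
  simp [hq, ot]

theorem hq_smul_right (B : Bil n) (c : ℝ) (η : M n) : hq B (c • η) = c ^ 2 * hq B η := by
  rw [hq, smul_comm I c η]
  simp only [hq, map_smul, smul_apply, smul_eq_mul]; ring

theorem abs_hq_le (B : Bil n) (η : M n) : |hq B η| ≤ ‖B‖ * ‖η‖ ^ 2 := by
  have h1 := B.le_opNorm₂ η η
  have h2 := B.le_opNorm₂ (I • η) (I • η)
  rw [norm_smul, norm_I, one_mul] at h2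
  rw [Real.norm_eq_abs] at h1 h2
  have h3 := abs_le.1 h1
  have h4 := abs_le.1 h2
  have h5 : 0 ≤ ‖B‖ * ‖η‖ * ‖η‖ := by positivity
  rw [hq, abs_le]
  constructor <;> nlinarith

theorem hq_ot_nonneg (a : Cv n) (η : M n) : 0 ≤ hq (ot a a) η := by
  rw [hq_ot]; nlinarith [mul_self_nonneg (a η), mul_self_nonneg (a (I • η))]

theorem hq_ot_le (a : Cv n) (η : M n) : hq (ot a a) η ≤ ‖a‖ ^ 2 * ‖η‖ ^ 2 := by
  have h1 := a.le_opNorm η
  have h2 := a.le_opNorm (I • η)
  rw [norm_smul, norm_I, one_mul] at h2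
  have h3 := pow_le_pow_left₀ (norm_nonneg _) h1 2
  have h4 := pow_le_pow_left₀ (norm_nonneg _) h2 2
  rw [Real.norm_eq_abs, sq_abs, mul_pow] at h3 h4
  have h5 : 0 ≤ ‖a‖ ^ 2 * ‖η‖ ^ 2 := by positivity
  rw [hq_ot]; nlinarith

theorem lev_sq (z x η : M n) : lev (fun y : M n => ‖y - z‖ ^ 2) x η = ‖η‖ ^ 2 := by
  have h : ContDiffAt ℂ 2 (fun y : M n => y - z) x := by fun_prop
  rw [lev_normSq_hol h, fderiv_sub_const]; simp

theorem lev_sq0 (x η : M n) : lev (fun y : M n => ‖y‖ ^ 2) x η = ‖η‖ ^ 2 := by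
  simpa using lev_sq 0 x η

theorem contDiff_sq (z : M n) : ContDiff ℝ 3 (fun y : M n => ‖y - z‖ ^ 2) :=
  (contDiff_id.sub contDiff_const).norm_sq ℝ

theorem hq_Eu (η : M n) : hq (Eu : Bil n) η = ‖η‖ ^ 2 := lev_sq0 0 η

theorem continuous_hq : Continuous fun p : Bil n × M n => hq p.1 p.2 := by
  unfold hq; fun_prop

/-- A positive definite form is uniformly positive, uniformly on a compact set of parameters. -/
theorem exists_pos_lower {P : Type} [TopologicalSpace P] {K : Set P} (hK : IsCompact K)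
    {B : P → Bil n} (hB : ContinuousOn B K) (h : ∀ x ∈ K, ∀ η, η ≠ 0 → 0 < hq (B x) η) :
    ∃ a : ℝ, 0 < a ∧ ∀ x ∈ K, ∀ η, a * ‖η‖ ^ 2 ≤ hq (B x) η := by
  have hc : ContinuousOn (fun p : P × M n => hq (B p.1) p.2) (K ×ˢ sphere 0 1) :=
    continuous_hq.comp_continuousOn ((hB.comp continuousOn_fst fun _ hp => hp.1).prodMk
      continuousOn_snd)
  obtain ⟨a, ha, h'⟩ := (hK.prod (isCompact_sphere (0 : M n) 1)).exists_forall_le' hc
    (a := 0) fun p hp => h _ hp.1 _ (by rintro e; simpa [e] using hp.2)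
  refine ⟨a, ha, fun x hx η => ?_⟩
  rcases eq_or_ne η 0 with rfl | h0
  · simp [hq]
  · have hn : 0 < ‖η‖ := norm_pos_iff.2 h0
    have := h' (x, ‖η‖⁻¹ • η) ⟨hx, by simp [norm_smul, hn.ne']⟩
    simp only [hq_smul_right] at this
    rw [inv_pow, ← div_eq_inv_mul, le_div_iff₀ (by positivity)] at this
    exact this

/-! ### Mixed discriminants -/

theorem Alg.congr (h : Alg n) {B B' : Fin n → Bil n} (e : ∀ i η, hq (B' i) η = hq (B i) η) :
    md B' = md B := by
  have := h.inv B B' (ContinuousLinearMap.id ℂ _) e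
  simpa using this

theorem Alg.mono1 (h : Alg n) {B : Fin n → Bil n} {i₀ : Fin n} {X X' : Bil n}
    (hB : ∀ i, i ≠ i₀ → ∀ η, 0 ≤ hq (B i) η) (e : ∀ η, hq X η ≤ hq X' η) :
    md (update B i₀ X) ≤ md (update B i₀ X') := by
  rw [← sub_nonneg, ← md.map_update_sub]
  refine h.pos _ fun i η => ?_
  rcases eq_or_ne i i₀ with rfl | hi
  · rw [update_self, hq_sub, sub_nonneg]; exact e η
  · rw [update_of_ne hi]; exact hB i hi η

theorem Alg.mono (h : Alg n) {B B' : Fin n → Bil n} (hB : ∀ i η, 0 ≤ hq (B i) η)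
    (e : ∀ i η, hq (B i) η ≤ hq (B' i) η) : md B ≤ md B' := by
  classical
  have key : ∀ s : Finset (Fin n), md B ≤ md (s.piecewise B' B) := by
    intro s
    induction s using Finset.induction_on with
    | empty => simp
    | insert j s hj ih =>
      rw [Finset.piecewise_insert]
      refine ih.trans ?_
      conv_lhs => rw [← update_eq_self j (s.piecewise B' B)]
      refine h.mono1 (fun i _ η => ?_) fun η => ?_
      · by_cases hi : i ∈ s
        · rw [Finset.piecewise_eq_of_mem _ _ _ hi]; exact (hB i η).trans (e i η)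
        · rw [Finset.piecewise_eq_of_notMem _ _ _ hi]; exact hB i η
      · rw [Finset.piecewise_eq_of_notMem _ _ _ hj]; exact e j η
  simpa using key Finset.univ

theorem md_smul_Eu (c : ℝ) :
    md (fun _ : Fin n => c • (Eu : Bil n)) = c ^ n * md (fun _ : Fin n => (Eu : Bil n)) := by
  simpa using md.map_smul_univ (fun _ : Fin n => c) fun _ => (Eu : Bil n)

theorem Alg.le_pow (h : Alg n) {B : Fin n → Bil n} {C : ℝ} (hB : ∀ i η, 0 ≤ hq (B i) η)
    (e : ∀ i η, hq (B i) η ≤ C * ‖η‖ ^ 2) :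
    md B ≤ C ^ n * md (fun _ : Fin n => (Eu : Bil n)) := by
  rw [← md_smul_Eu]
  exact h.mono hB fun i η => by rw [hq_smul, hq_Eu]; exact e i η

theorem Alg.pow_le (h : Alg n) {B : Fin n → Bil n} {c : ℝ} (hc : 0 ≤ c)
    (e : ∀ i η, c * ‖η‖ ^ 2 ≤ hq (B i) η) :
    c ^ n * md (fun _ : Fin n => (Eu : Bil n)) ≤ md B := by
  rw [← md_smul_Eu]
  exact h.mono (fun i η => by rw [hq_smul, hq_Eu]; positivity) fun i η => by
    rw [hq_smul, hq_Eu]; exact e i η

theorem fam_top (T g : Bil n) : fam n T g = fun _ => T := funext fun i => if_pos i.2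

theorem fam_zero (T g : Bil n) : fam 0 T g = fun _ => g := funext fun _ => if_neg (by omega)

theorem fam_update_left {j : ℕ} (hj : j < n) (T g : Bil n) :
    update (fam j T g) ⟨j, hj⟩ g = fam j T g := by
  rw [update_eq_self_iff]; simp [fam]

theorem fam_update_right {j : ℕ} (hj : j < n) (T g : Bil n) :
    update (fam j T g) ⟨j, hj⟩ T = fam (j + 1) T g := by
  funext i
  rcases eq_or_ne i ⟨j, hj⟩ with rfl | hi
  · simp [fam]
  · have : i.val ≠ j := fun e => hi (Fin.ext e)
    rw [update_of_ne hi, fam, fam]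
    congr 1
    exact propext (by omega)

/-- In `fam (n - 1) T g` only the last slot holds `g`. -/
theorem fam_pred (hn : n - 1 < n) (T g : Bil n) :
    fam (n - 1) T g = update (fun _ => T) ⟨n - 1, hn⟩ g := by
  funext i
  rcases eq_or_ne i ⟨n - 1, hn⟩ with rfl | hi
  · simp [fam]
  · have : i.val ≠ n - 1 := fun e => hi (Fin.ext e)
    rw [update_of_ne hi, fam, if_pos (by omega)]

theorem hq_fam_nonneg {j : ℕ} {T g : Bil n} (hT : ∀ η, 0 ≤ hq T η) (hg : ∀ η, 0 ≤ hq g η)
    (i : Fin n) (η : M n) : 0 ≤ hq (fam j T g i) η := by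
  unfold fam; split_ifs
  exacts [hT η, hg η]

theorem fam_D2 (j : ℕ) (u v : M n → ℝ) (x : M n) :
    fam j (D2 u x) (D2 v x) = fun i : Fin n => D2 (if i.val < j then u else v) x := by
  funext i; unfold fam; split_ifs <;> rfl

/-! ### Levi forms -/

theorem contDiffOn_D2 {U : Set (M n)} (hU : IsOpen U) {u : M n → ℝ} (hu : ContDiffOn ℝ 3 u U) :
    ContDiffOn ℝ 1 (D2 u) U :=
  (hu.fderiv_of_isOpen hU (m := 2) (by norm_num)).fderiv_of_isOpen hU (by norm_num)

theorem continuousOn_D2 {U : Set (M n)} (hU : IsOpen U) {u : M n → ℝ} (hu : ContDiffOn ℝ 3 u U) :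
    ContinuousOn (D2 u) U := (contDiffOn_D2 hU hu).continuousOn

theorem continuousOn_md {P : Type} [TopologicalSpace P] {s : Set P} {B : P → Fin n → Bil n}
    (h : ∀ i, ContinuousOn (fun x => B x i) s) : ContinuousOn (fun x => md (B x)) s :=
  md.cont.comp_continuousOn (continuousOn_pi.2 h)

theorem continuousOn_md_fam {P : Type} [TopologicalSpace P] {s : Set P} {T g : P → Bil n} (j : ℕ)
    (hT : ContinuousOn T s) (hg : ContinuousOn g s) :
    ContinuousOn (fun x => md (fam j (T x) (g x))) s :=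
  continuousOn_md fun i => by unfold fam; split_ifs; exacts [hT, hg]

theorem d2_nonneg_of_isLocalMin {f : M n → ℝ} {x : M n} (hf : ContDiffAt ℝ 2 f x)
    (h : IsLocalMin f x) (η : M n) : 0 ≤ d2 f x η := by
  by_contra hneg
  rw [not_le] at hneg
  have hl : ∀ t : ℝ, HasDerivAt (fun t : ℝ => x + t • η) η t := fun t => by
    simpa using ((hasDerivAt_id t).smul_const η).const_add x
  have hc : Tendsto (fun t : ℝ => x + t • η) (𝓝 0) (𝓝 x) := by
    simpa using (hl 0).continuousAt.tendsto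
  have e : deriv (fun t : ℝ => f (x + t • η)) =ᶠ[𝓝 0] fun t => fderiv ℝ f (x + t • η) η := by
    filter_upwards [hc.eventually (L1.ev hf)] with t ht
    exact (ht.hasFDerivAt.comp_hasDerivAt t (hl t)).deriv
  have h2 : HasDerivAt (fun t : ℝ => fderiv ℝ f (x + t • η) η) (d2 f x η) 0 := by
    have h3 := L1.has hf η
    have h4 : x = x + (0 : ℝ) • η := by simp
    rw [h4] at h3
    simpa [d2, Function.comp_def] using h3.comp_hasDerivAt (0 : ℝ) (hl 0)
  have hm : IsLocalMin (fun t : ℝ => f (x + t • η)) 0 := by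
    have : IsLocalMin f (x + (0 : ℝ) • η) := by simpa using h
    exact this.comp_continuous (g := fun t : ℝ => x + t • η) (hl 0).continuousAt
  have h5 : HasDerivAt (deriv fun t : ℝ => f (x + t • η)) (d2 f x η) 0 :=
    h2.congr_of_eventuallyEq e
  have h6 : ∀ᶠ t in 𝓝[>] (0 : ℝ), deriv (fun t : ℝ => f (x + t • η)) t < 0 := by
    have h7 := (hasDerivAt_iff_tendsto_slope_zero.1 h5).mono_left (nhdsGT_le_nhdsNE 0)
    filter_upwards [h7.eventually (gt_mem_nhds hneg), self_mem_nhdsWithin] with t h8 h9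
    rw [hm.deriv_eq_zero, zero_add, sub_zero, smul_eq_mul] at h8
    by_contra h10
    exact absurd h8 (not_lt.2 (mul_nonneg (inv_nonneg.2 (le_of_lt h9)) (not_lt.1 h10)))
  have h8 : ∀ᶠ t in 𝓝 (0 : ℝ), DifferentiableAt ℝ (fun t : ℝ => f (x + t • η)) t := by
    filter_upwards [hc.eventually (L1.ev hf)] with t ht
    exact (ht.hasFDerivAt.comp_hasDerivAt t (hl t)).differentiableAt
  obtain ⟨r, hr, h9⟩ := Metric.eventually_nhds_iff.1
    ((h8.and hm).and (eventually_nhdsWithin_iff.1 h6))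
  have hd : ∀ t ∈ Icc (0 : ℝ) (r / 2), dist t 0 < r := fun t ht => by
    rw [Real.dist_eq, sub_zero, abs_of_nonneg ht.1]; linarith [ht.2]
  obtain ⟨t, ht, h10⟩ := exists_deriv_eq_slope (fun t : ℝ => f (x + t • η)) (half_pos hr)
    (fun t ht => (h9 (hd t ht)).1.1.continuousAt.continuousWithinAt)
    (fun t ht => (h9 (hd t (Ioo_subset_Icc_self ht))).1.1.differentiableWithinAt)
  have h11 := (h9 (hd t (Ioo_subset_Icc_self ht))).2 ht.1
  have h12 := (h9 (hd (r / 2) ⟨by linarith, le_rfl⟩)).1.2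
  rw [h10, div_neg_iff] at h11
  rcases h11 with h11 | h11 <;> linarith [h11.1, h11.2]

theorem lev_nonneg_of_isLocalMin {f : M n → ℝ} {x : M n} (hf : ContDiffAt ℝ 2 f x)
    (h : IsLocalMin f x) (η : M n) : 0 ≤ lev f x η := by
  have := d2_nonneg_of_isLocalMin hf h η
  have := d2_nonneg_of_isLocalMin hf h (I • η)
  rw [lev]; positivity

/-- The chain rule for the Levi form. -/
theorem lev_comp_hol {f : M n → ℝ} {τ : M n → M n} {x : M n} (hτ : ContDiffAt ℂ 2 τ x)
    (hf : ContDiffAt ℝ 2 f (τ x)) (η : M n) :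
    lev (fun y => f (τ y)) x η = lev f (τ x) (fderiv ℂ τ x η) := by
  have h1 := (hτ.differentiableAt two_ne_zero).hasFDerivAt.restrictScalars ℝ
  have key : ∀ v, d2 (fun y => f (τ y)) x v = d2 f (τ x) (fderiv ℂ τ x v) +
      fderiv ℝ f (τ x) (fderiv ℂ (fderiv ℂ τ) x v v) := fun v => by
    rw [L1.d2_of (f := fun y => f (τ y)) (hf.comp x (hτ.restrict_scalars ℝ))
      (k := fun y => fderiv ℝ f (τ y) (fderiv ℂ τ y v)) _
      (((L1.dd hf).hasFDerivAt.comp x h1).clm_apply ((L1.has hτ v).restrictScalars ℝ))]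
    · simp [d2, add_comm]
    · filter_upwards [L1.ev hτ, h1.continuousAt.eventually (L1.ev hf)] with y h2 h3
      exact congrArg (fun l : Cv n => l v)
        (h3.hasFDerivAt.comp y (h2.hasFDerivAt.restrictScalars ℝ)).fderiv
  simp only [lev, key, map_smul, smul_apply, smul_smul, I_mul_I, neg_one_smul,
    map_neg]
  ring

theorem lev_translate (f : M n → ℝ) (w x η : M n) :
    lev (fun y => f (y + w)) x η = lev f (x + w) η := by
  have e : fderiv ℝ (fun y => f (y + w)) = fun y => fderiv ℝ f (y + w) :=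
    funext fun y => fderiv_comp_add_right w
  simp only [lev, d2, e, fderiv_comp_add_right]

theorem lev_clm (l : Cv n) (x η : M n) : lev (fun y => l y) x η = 0 := by
  have e : fderiv ℝ (fun y => l y) = fun _ => l := funext fun y => l.fderiv
  simp [lev, d2, e]

end Pool.Agent.MP_8ac6f3_ag.KH
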