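import Mathlib.RingTheory.PicardGroup
import Mathlib.Analysis.Calculus.BumpFunction.Convolution
import Mathlib.Analysis.Calculus.LineDeriv.IntegrationByParts
import Mathlib.Analysis.Matrix.Order
import Mathlib.RingTheory.PiTensorProduct
import Pool.Agent.MP_8ac6f3_ag.kh.BaseA
import Pool.Agent.MP_8ac6f3_ag.kh7.Refine
import Pool.Agent.MP_8ac6f3_ag.A1
import Pool.Agent.MP_8ac6f3_ag.A2
import Pool.Agent.MP_8ac6f3_ag.A3
import Pool.Agent.MP_8ac6f3_ag.A4
import Pool.Agent.MP_8ac6f3_ag.PU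

-- ======== part 0: formerly Pool.Agent.MP_8ac6f3_ag.kh.BaseB
section MrgPart0

/-! Basic lemmas on charts, functions on the covering space and integrals of densities. -/

open Set Metric Complex MeasureTheory Filter Function
open scoped ContDiff Topology

set_option maxSynthPendingDepth 3

namespace Pool.Agent.MP_8ac6f3_ag.KH

variable {n : ℕ} {Y A : Type} [TopologicalSpace Y]

theorem cb_sub {r : ℝ} (hr : r < 3) : closedBall (0 : M n) r ⊆ ball 0 3 := closedBall_subset_ball hr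

theorem cb2 : closedBall (0 : M n) 2 ⊆ ball 0 3 := cb_sub (by norm_num)

theorem b13 : ball (0 : M n) 1 ⊆ ball 0 3 := ball_subset_ball (by norm_num)

section Atl

variable (a : Atl (M n) Y A) {α β : A} {ξ ζ : M n}

theorem tau_eq (hζ : ζ ∈ ball (0 : M n) 3) (e : a.ψ β ζ = a.ψ α ξ) : tau a α β ξ = ζ := by
  rw [tau, ← e, (a.inj β).leftInvOn_invFunOn hζ]

theorem tau_mem (h : a.ψ α ξ ∈ a.ψ β '' ball 0 3) : tau a α β ξ ∈ ball (0 : M n) 3 := by
  obtain ⟨ζ, hζ, e⟩ := h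
  rwa [tau_eq a hζ e]

theorem psi_tau (h : a.ψ α ξ ∈ a.ψ β '' ball 0 3) : a.ψ β (tau a α β ξ) = a.ψ α ξ := by
  obtain ⟨ζ, hζ, e⟩ := h
  rwa [tau_eq a hζ e]

theorem pull (hξ : ξ ∈ ball (0 : M n) 3) {P : Y → Prop} (h : ∀ᶠ y in 𝓝 (a.ψ α ξ), P y) :
    ∀ᶠ z in 𝓝 ξ, P (a.ψ α z) :=
  ((a.cont α).continuousAt (isOpen_ball.mem_nhds hξ)).eventually h

theorem image_nhds (hξ : ξ ∈ ball (0 : M n) 3) {U : Set (M n)} (hU : U ∈ 𝓝 ξ) :
    a.ψ α '' U ∈ 𝓝 (a.ψ α ξ) := by
  obtain ⟨V, hV, ho, hm⟩ := _root_.mem_nhds_iff.1 (inter_mem hU (isOpen_ball.mem_nhds hξ))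
  exact mem_of_superset ((a.opn α V ho fun x hx => (hV hx).2).mem_nhds ⟨ξ, hm, rfl⟩)
    (image_mono fun x hx => (hV hx).1)

theorem push (hξ : ξ ∈ ball (0 : M n) 3) {P : Y → Prop} (h : ∀ᶠ z in 𝓝 ξ, P (a.ψ α z)) :
    ∀ᶠ y in 𝓝 (a.ψ α ξ), P y := by
  filter_upwards [image_nhds a (α := α) hξ h] with y hy
  obtain ⟨z, hz, rfl⟩ := hy
  exact hz

theorem ev_mem (hξ : ξ ∈ ball (0 : M n) 3) (h : a.ψ α ξ ∈ a.ψ β '' ball 0 3) :
    ∀ᶠ z in 𝓝 ξ, a.ψ α z ∈ a.ψ β '' ball 0 3 :=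
  pull a hξ ((a.opn β _ isOpen_ball subset_rfl).mem_nhds h)

theorem comp_ev {F : Type} (w : Y → F) (hξ : ξ ∈ ball (0 : M n) 3)
    (h : a.ψ α ξ ∈ a.ψ β '' ball 0 3) :
    w ∘ a.ψ α =ᶠ[𝓝 ξ] fun z => (w ∘ a.ψ β) (tau a α β z) := by
  filter_upwards [ev_mem a hξ h] with z hz
  simp only [comp, psi_tau a hz]

theorem inv_psi (hξ : ξ ∈ ball (0 : M n) 3) : invFunOn (a.ψ α) (ball 0 3) (a.ψ α ξ) = ξ :=
  (a.inj α).leftInvOn_invFunOn hξ

theorem congr_ev {F : Type} {w v : Y → F} (hξ : ξ ∈ ball (0 : M n) 3)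
    (h : w =ᶠ[𝓝 (a.ψ α ξ)] v) : w ∘ a.ψ α =ᶠ[𝓝 ξ] v ∘ a.ψ α := pull a hξ h

theorem isCompact_image (α : A) {K : Set (M n)} (hK : IsCompact K) (h : K ⊆ ball 0 3) :
    IsCompact (a.ψ α '' K) := hK.image_of_continuousOn ((a.cont α).mono h)

theorem isClosed_image [T2Space Y] (α : A) (c : M n) {r : ℝ} (h : closedBall c r ⊆ ball 0 3) :
    IsClosed (a.ψ α '' closedBall c r) := (isCompact_image a α (isCompact_closedBall c r) h).isClosed

theorem mem_of_psi_mem (hξ : ξ ∈ ball (0 : M n) 3) {s : Set (M n)} (hs : s ⊆ ball 0 3)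
    (h : a.ψ α ξ ∈ a.ψ α '' s) : ξ ∈ s := by
  obtain ⟨z, hz, e⟩ := h
  rwa [← a.inj α (hs hz) hξ e]

theorem continuous_of_chart {F : Type} [TopologicalSpace F] {w : Y → F}
    (h : ∀ α, ContinuousOn (w ∘ a.ψ α) (ball 0 3)) : Continuous w := by
  refine continuous_iff_continuousAt.2 fun y => ?_
  obtain ⟨α, ξ, hξ, rfl⟩ := a.cov y
  intro U hU
  exact push a (b13 hξ) (((h α).continuousAt (isOpen_ball.mem_nhds (b13 hξ))) hU)

theorem chart_cont {F : Type} [TopologicalSpace F] {w : Y → F} (h : Continuous w) (α : A) :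
    ContinuousOn (fun ξ => w (a.ψ α ξ)) (ball 0 3) := h.comp_continuousOn (a.cont α)

theorem fderiv_chart {w : Y → ℝ} (hξ : ξ ∈ ball (0 : M n) 3) (hζ : ζ ∈ ball (0 : M n) 3)
    (e : a.ψ β ζ = a.ψ α ξ) (hw : DifferentiableAt ℝ (w ∘ a.ψ β) ζ) (η : M n) :
    fderiv ℝ (w ∘ a.ψ α) ξ η = fderiv ℝ (w ∘ a.ψ β) ζ (fderiv ℂ (tau a α β) ξ η) := by
  have h1 := ((a.tr α β ξ hξ ⟨ζ, hζ, e⟩).1.differentiableAt one_ne_zero).hasFDerivAt
  rw [← tau_eq a hζ e] at hw ⊢
  rw [(comp_ev a w hξ ⟨ζ, hζ, e⟩).fderiv_eq]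
  exact congrArg (fun l : Cv n => l η) (hw.hasFDerivAt.comp ξ (h1.restrictScalars ℝ)).fderiv

theorem norm_dtau_le (hξ : ξ ∈ ball (0 : M n) 3) (h : a.ψ α ξ ∈ a.ψ β '' ball 0 3) (η : M n) :
    ‖fderiv ℂ (tau a α β) ξ η‖ ≤ a.C * ‖η‖ :=
  ContinuousLinearMap.le_of_opNorm_le _ (a.tr α β ξ hξ h).2 η

end Atl

namespace Geo

variable (G : Geo n Y A) {α β : A} {ξ ζ : M n} {w v c c' : Y → ℝ} {s : Set Y}

theorem contDiffAt_chart {F : Type} [NormedAddCommGroup F] [NormedSpace ℝ F] {w : Y → F}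
    {m : ℕ} (hm : m ≤ 3) (hξ : ξ ∈ ball (0 : M n) 3) (hζ : ζ ∈ ball (0 : M n) 3)
    (e : G.ψ β ζ = G.ψ α ξ) (hw : ContDiffAt ℝ m (w ∘ G.ψ β) ζ) : ContDiffAt ℝ m (w ∘ G.ψ α) ξ := by
  rw [← tau_eq G.toAtl hζ e] at hw
  exact (hw.comp ξ (((G.trs α β ξ hξ ⟨ζ, hζ, e⟩).of_le (by exact_mod_cast hm)).restrict_scalars
    ℝ)).congr_of_eventuallyEq (comp_ev G.toAtl w hξ ⟨ζ, hζ, e⟩)

theorem lev_chart (hξ : ξ ∈ ball (0 : M n) 3) (hζ : ζ ∈ ball (0 : M n) 3)
    (e : G.ψ β ζ = G.ψ α ξ) (hw : ContDiffAt ℝ 2 (w ∘ G.ψ β) ζ) (η : M n) :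
    lev (w ∘ G.ψ α) ξ η = lev (w ∘ G.ψ β) ζ (fderiv ℂ (tau G.toAtl α β) ξ η) := by
  rw [← tau_eq G.toAtl hζ e] at hw ⊢
  rw [lev_congr (comp_ev G.toAtl w hξ ⟨ζ, hζ, e⟩),
    lev_comp_hol ((G.trs α β ξ hξ ⟨ζ, hζ, e⟩).of_le (by norm_num)) hw]

theorem levφ_chart (hξ : ξ ∈ ball (0 : M n) 3) (hζ : ζ ∈ ball (0 : M n) 3)
    (e : G.ψ β ζ = G.ψ α ξ) (η : M n) :
    lev (G.φ α) ξ η = lev (G.φ β) ζ (fderiv ℂ (tau G.toAtl α β) ξ η) := by
  rw [G.φ_pot.2 α β ξ hξ ⟨ζ, hζ, e⟩, tau_eq G.toAtl hζ e]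

theorem sm_of_local (h : ∀ y, ∃ β, ∃ ζ ∈ ball (0 : M n) 3, G.ψ β ζ = y ∧
    ContDiffAt ℝ 3 (w ∘ G.ψ β) ζ) : G.Sm w := fun α ξ hξ => by
  obtain ⟨β, ζ, hζ, e, hw⟩ := h (G.ψ α ξ)
  exact (G.contDiffAt_chart (m := 3) le_rfl hξ hζ e hw).contDiffWithinAt

theorem lge_of_local (h : ∀ y ∈ s, ∃ β, ∃ ζ ∈ ball (0 : M n) 3, G.ψ β ζ = y ∧
    ContDiffAt ℝ 2 (w ∘ G.ψ β) ζ ∧ ∀ η, c y * lev (G.φ β) ζ η ≤ lev (w ∘ G.ψ β) ζ η) :
    G.Lge w c s := fun α ξ hξ hs η => by
  obtain ⟨β, ζ, hζ, e, hw, hl⟩ := h (G.ψ α ξ) hs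
  rw [G.lev_chart hξ hζ e hw, G.levφ_chart hξ hζ e]
  exact hl _

theorem φ_at (hξ : ξ ∈ ball (0 : M n) 3) : ContDiffAt ℝ 3 (G.φ α) ξ :=
  (G.φ_pot.1 α).contDiffAt (isOpen_ball.mem_nhds hξ)

theorem φ_at2 (hξ : ξ ∈ ball (0 : M n) 3) : ContDiffAt ℝ 2 (G.φ α) ξ :=
  (G.φ_at hξ).of_le (by norm_num)

theorem B_nonneg (α : A) : 0 ≤ G.B := (G.φ_bd α).1.nonneg ⟨0, mem_ball_self (by norm_num)⟩

theorem levφ_nonneg (hξ : ξ ∈ ball (0 : M n) 3) (η : M n) : 0 ≤ lev (G.φ α) ξ η :=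
  (mul_nonneg G.c_pos.le (sq_nonneg _)).trans (G.φ_pos α ξ hξ η)

theorem levφ_le (hξ : ξ ∈ ball (0 : M n) 3) (η : M n) : lev (G.φ α) ξ η ≤ G.B * ‖η‖ ^ 2 :=
  (le_abs_self _).trans ((G.φ_bd α).1.abs_lev_le hξ η)

theorem mul_sq_le (hξ : ξ ∈ ball (0 : M n) 3) {K : ℝ} (hK : 0 ≤ K) (η : M n) :
    K * ‖η‖ ^ 2 ≤ K / G.c * lev (G.φ α) ξ η := by
  have := mul_le_mul_of_nonneg_left (G.φ_pos α ξ hξ η) (div_nonneg hK G.c_pos.le)
  rwa [← mul_assoc, div_mul_cancel₀ _ G.c_pos.ne'] at this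

theorem norm_D2φ_sub (hξ : ξ ∈ ball (0 : M n) 3) (hζ : ζ ∈ ball (0 : M n) 3) :
    ‖D2 (G.φ α) ξ - D2 (G.φ α) ζ‖ ≤ G.B * ‖ξ - ζ‖ := by
  refine (convex_ball 0 3).norm_image_sub_le_of_norm_fderiv_le (𝕜 := ℝ) (fun z hz =>
    ((contDiffOn_D2 isOpen_ball (G.φ_pot.1 α)).contDiffAt
      (isOpen_ball.mem_nhds hz)).differentiableAt one_ne_zero) (fun z hz => ?_) hζ hξ
  have := (G.φ_bd α).1.2 3 (by norm_num) le_rfl z hz
  rwa [← norm_iteratedFDeriv_fderiv, ← norm_iteratedFDeriv_fderiv, norm_iteratedFDeriv_one] at this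

theorem levφ_sub (hξ : ξ ∈ ball (0 : M n) 3) (hζ : ζ ∈ ball (0 : M n) 3) (η : M n) :
    |lev (G.φ α) ξ η - lev (G.φ α) ζ η| ≤ G.B * ‖ξ - ζ‖ * ‖η‖ ^ 2 := by
  rw [← hq_D2, ← hq_D2, ← hq_sub]
  exact (abs_hq_le _ _).trans (mul_le_mul_of_nonneg_right (G.norm_D2φ_sub hξ hζ) (sq_nonneg _))

theorem sm_const (t : ℝ) : G.Sm fun _ => t := fun _ => contDiffOn_const

theorem nr_refl {t : ℝ} (ht : 0 ≤ t) (y : Y) : G.Nr t y y := by
  obtain ⟨α, ξ, hξ, rfl⟩ := G.cov y
  exact ⟨α, ξ, closedBall_subset_closedBall one_le_two (ball_subset_closedBall hξ), ξ,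
    by simpa using ht, rfl, rfl⟩

variable {G}

theorem Sm.at (h : G.Sm w) (hξ : ξ ∈ ball (0 : M n) 3) : ContDiffAt ℝ 3 (w ∘ G.ψ α) ξ :=
  (h α).contDiffAt (isOpen_ball.mem_nhds hξ)

theorem Sm.at2 (h : G.Sm w) (hξ : ξ ∈ ball (0 : M n) 3) : ContDiffAt ℝ 2 (w ∘ G.ψ α) ξ :=
  (h.at hξ).of_le (by norm_num)

theorem Sm.continuous (h : G.Sm w) : Continuous w :=
  continuous_of_chart G.toAtl fun α => (h α).continuousOn

theorem Sm.add (h : G.Sm w) (h' : G.Sm v) : G.Sm fun y => w y + v y := fun α => (h α).add (h' α)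

theorem Sm.sub (h : G.Sm w) (h' : G.Sm v) : G.Sm fun y => w y - v y := fun α => (h α).sub (h' α)

theorem Sm.mul (h : G.Sm w) (h' : G.Sm v) : G.Sm fun y => w y * v y := fun α => (h α).mul (h' α)

theorem Sm.const_mul (h : G.Sm w) (t : ℝ) : G.Sm fun y => t * w y := (G.sm_const t).mul h

theorem Sm.add_const (h : G.Sm w) (t : ℝ) : G.Sm fun y => w y + t := h.add (G.sm_const t)

theorem Sm.comp (h : G.Sm w) {f : ℝ → ℝ} (hf : ContDiff ℝ 3 f) : G.Sm fun y => f (w y) :=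
  fun α => hf.comp_contDiffOn (h α)

theorem Sm.of_ev (h : ∀ y, ∃ v, G.Sm v ∧ w =ᶠ[𝓝 y] v) : G.Sm w := fun α ξ hξ => by
  obtain ⟨v, hv, e⟩ := h (G.ψ α ξ)
  exact ((hv.at hξ).congr_of_eventuallyEq (congr_ev G.toAtl hξ e)).contDiffWithinAt

theorem Lge.mono (h : G.Lge w c s) (hc : ∀ y ∈ s, c' y ≤ c y) : G.Lge w c' s :=
  fun α ξ hξ hs η => (mul_le_mul_of_nonneg_right (hc _ hs) (G.levφ_nonneg hξ η)).trans
    (h α ξ hξ hs η)

theorem Lge.add (h : G.Lge w c s) (h' : G.Lge v c' s) (hw : G.Sm w) (hv : G.Sm v) :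
    G.Lge (fun y => w y + v y) (fun y => c y + c' y) s := fun α ξ hξ hs η => by
  have := lev_add (hw.at2 (α := α) hξ) (hv.at2 (α := α) hξ) η
  have h1 := h α ξ hξ hs η
  have h2 := h' α ξ hξ hs η
  simp only [comp_def] at *
  linarith

theorem Lge.const_mul (h : G.Lge w c s) (hw : G.Sm w) {t : ℝ} (ht : 0 ≤ t) :
    G.Lge (fun y => t * w y) (fun y => t * c y) s := fun α ξ hξ hs η => by
  have := lev_const_mul t (hw.at2 (α := α) hξ) η
  have h1 := mul_le_mul_of_nonneg_left (h α ξ hξ hs η) ht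
  simp only [comp_def] at *
  linarith

theorem Lge.add_const (h : G.Lge w c s) (t : ℝ) : G.Lge (fun y => w y + t) c s :=
  fun α ξ hξ hs η => (h α ξ hξ hs η).trans_eq (lev_add_const (f := w ∘ G.ψ α) t η).symm

theorem lge_const (t : ℝ) (hc : ∀ y ∈ s, c y ≤ 0) : G.Lge (fun _ => t) c s :=
  fun _ ξ hξ hs η => (mul_nonpos_of_nonpos_of_nonneg (hc _ hs) (G.levφ_nonneg hξ η)).trans_eq
    (lev_const t ξ η).symm

theorem Lle.lge {L : ℝ} (h : G.Lle w L) (hL : 0 ≤ L) : G.Lge w (fun _ => -(L / G.c)) s :=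
  fun α ξ hξ _ η => by
    have := G.mul_sq_le (α := α) hξ hL η
    linarith [(abs_le.1 (h α ξ hξ η)).1]

theorem Gle.lp {L : ℝ} (h : G.Gle w L) (hw : G.Sm w) : G.Lp w L := fun α _ hξ _ hζ =>
  (convex_ball 0 3).norm_image_sub_le_of_norm_fderiv_le (f := w ∘ G.ψ α)
    (fun _ hz => (hw.at hz).differentiableAt (by norm_num)) (h α) hζ hξ

theorem Nr.mem {t : ℝ} (ht : t < 1) {ξ' : M n} (hξ : ξ ∈ closedBall (0 : M n) 2)
    (h : ‖ξ' - ξ‖ ≤ t) : ξ' ∈ ball (0 : M n) 3 := by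
  rw [mem_closedBall_zero_iff] at hξ
  rw [mem_ball_zero_iff]
  linarith [norm_sub_norm_le ξ' ξ]

theorem Lp.nr {L t : ℝ} (h : G.Lp w L) (hL : 0 ≤ L) (ht : t < 1) {y y' : Y} (hn : G.Nr t y y') :
    |w y' - w y| ≤ L * t := by
  obtain ⟨α, ξ, hξ, ξ', h1, rfl, rfl⟩ := hn
  exact (h α ξ' (Nr.mem ht hξ h1) ξ (cb2 hξ)).trans (mul_le_mul_of_nonneg_left h1 hL)

theorem Sm.pot_smooth (h : G.Sm w) (lam : ℝ) (α : A) :
    ContDiffOn ℝ 3 (G.pot lam w α) (ball 0 3) := (contDiffOn_const.mul (G.φ_pot.1 α)).add (h α)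

theorem Sm.lev_pot (h : G.Sm w) (lam : ℝ) (hξ : ξ ∈ ball (0 : M n) 3) (η : M n) :
    lev (G.pot lam w α) ξ η = lam * lev (G.φ α) ξ η + lev (w ∘ G.ψ α) ξ η := by
  rw [← lev_const_mul lam (G.φ_at2 hξ), ← lev_add (contDiffAt_const.mul (G.φ_at2 hξ)) (h.at2 hξ)]
  rfl

theorem Sm.pot_pot (h : G.Sm w) (lam : ℝ) : Pot G.toAtl (G.pot lam w) :=
  ⟨h.pot_smooth lam, fun α β ξ hξ hm η => by
    have hζ := tau_mem G.toAtl hm
    have e := psi_tau G.toAtl hm
    rw [h.lev_pot lam hξ, h.lev_pot lam hζ, G.lev_chart hξ hζ e (h.at2 hζ), G.levφ_chart hξ hζ e]⟩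

theorem Sm.form (h : G.Sm w) : Form G.toAtl fun α => fderiv ℝ (w ∘ G.ψ α) :=
  ⟨fun α => ((h α).fderiv_of_isOpen isOpen_ball (m := 2) (by norm_num)).of_le (by norm_num),
    fun α β ξ hξ hm η => fderiv_chart G.toAtl hξ (tau_mem G.toAtl hm) (psi_tau G.toAtl hm)
      ((h.at (tau_mem G.toAtl hm)).differentiableAt (by norm_num)) η⟩

theorem Lge.ps {lam : ℝ} (hl : G.Lge w (fun _ => -lam) univ) (h : G.Sm w) (α : A) :
    Ps (ball 0 3) (G.pot lam w α) :=
  ⟨h.pot_smooth lam α, fun ξ hξ η => by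
    rw [h.lev_pot lam hξ]; linarith [hl α ξ hξ trivial η]⟩

theorem φ_ps (α : A) : Ps (ball 0 3) (G.φ α) := ⟨G.φ_pot.1 α, fun _ hξ => G.levφ_nonneg hξ⟩

theorem Sm.mass_cont (h : G.Sm w) (lam : ℝ) (j : ℕ) (α : A) :
    ContinuousOn (G.mass lam w j α) (ball 0 3) :=
  continuousOn_md_fam j (continuousOn_D2 isOpen_ball (h.pot_smooth lam α))
    (continuousOn_D2 isOpen_ball (G.φ_pot.1 α))

theorem Lge.mass_nonneg (ha : Alg n) {lam : ℝ} (hl : G.Lge w (fun _ => -lam) univ) (h : G.Sm w)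
    (j : ℕ) (hξ : ξ ∈ ball (0 : M n) 3) : 0 ≤ G.mass lam w j α ξ :=
  ha.pos _ (hq_fam_nonneg ((hl.ps h α).2 ξ hξ) (G.levφ_nonneg hξ))

theorem mass_congr (lam : ℝ) (j : ℕ) (hξ : ξ ∈ ball (0 : M n) 3) {t : ℝ}
    (e : ∀ᶠ y in 𝓝 (G.ψ α ξ), w y = v y + t) : G.mass lam w j α ξ = G.mass lam v j α ξ := by
  have h1 : G.pot lam w α =ᶠ[𝓝 ξ] fun z => G.pot lam v α z + t := by
    filter_upwards [pull G.toAtl hξ e] with z hz
    simp only [pot, hz, add_assoc]
  have h2 : fderiv ℝ (fun z => G.pot lam v α z + t) = fderiv ℝ (G.pot lam v α) :=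
    funext fun z => fderiv_add_const t
  simp only [mass, D2, h1.fderiv.fderiv_eq, h2]

end Geo

omit [TopologicalSpace Y] in
theorem wt_nonneg (o u : Y → ℝ) (τ : ℝ) (p : ℕ) (y : Y) : 0 ≤ wt o u τ p y := by
  unfold wt; positivity

theorem wt_cont {o u : Y → ℝ} (ho : Continuous o) (hu : Continuous u) (τ : ℝ) (p : ℕ) :
    Continuous (wt o u τ p) := by
  unfold wt; fun_prop

omit [TopologicalSpace Y] in
theorem wt_eq_zero (o : Y → ℝ) {u : Y → ℝ} {τ : ℝ} {p : ℕ} (hp : p ≠ 0) {y : Y} (h : -τ ≤ u y) :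
    wt o u τ p y = 0 := by
  rw [wt, max_eq_right (by linarith), zero_pow hp, mul_zero]

omit [TopologicalSpace Y] in
theorem wt_mono (o : Y → ℝ) {u u' : Y → ℝ} {τ τ' : ℝ} (p : ℕ) {y : Y}
    (h : u' y + τ' ≤ u y + τ) : wt o u τ p y ≤ wt o u' τ' p y :=
  mul_le_mul_of_nonneg_left (pow_le_pow_left₀ (le_max_right _ _)
    (max_le_max_right _ (by linarith)) p) (Real.exp_pos _).le

variable {G : Geo n Y A}

theorem Data.Mem.lge {k : Kit G} {d : Data k} {v : Y → ℝ} (h : d.Mem v) :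
    G.Lge v (fun _ => -d.δ) univ :=
  h.2.2.mono fun y _ => by linarith [le_max_right (d.b y + d.κ * v y) 0]

theorem Data.IsEnv.le {k : Kit G} {d : Data k} {u : Y → ℝ} (h : d.IsEnv u) (y : Y) :
    u y ≤ min (d.h y) 0 := le_of_forall_pos_le_add fun ε hε => by
  obtain ⟨v, hv, h'⟩ := h.approx ε hε
  linarith [hv.2.1 y, h' y]

namespace Kit

variable (k : Kit G) {R R' : ℝ} {F F' : A → M n → ℝ} {α : A} {ξ : M n}

theorem K_pos : 0 < k.K := one_pos.trans_le k.one_le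

theorem ρ_cont : Continuous k.ρ := k.ρ_sm.continuous

theorem ρ_lp : G.Lp k.ρ k.K := k.ρ_grad.lp k.ρ_sm

theorem mem_T (hξ : ξ ∈ ball (0 : M n) 3) (h : k.ρ (G.ψ α ξ) ≤ R) : α ∈ k.T (R + 3 * k.K) := by
  refine k.T_mem _ α 0 (mem_closedBall_self (by norm_num)) ?_
  have h1 := (abs_le.1 (k.ρ_lp α ξ hξ 0 (mem_ball_self (by norm_num)))).1
  rw [sub_zero] at h1
  nlinarith [mem_ball_zero_iff.1 hξ, k.K_pos]

theorem isCompact_sub [T2Space Y] (R : ℝ) : IsCompact {y | k.ρ y ≤ R} := by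
  refine ((k.T R).isCompact_biUnion fun α _ => isCompact_image G.toAtl α
    (isCompact_closedBall 0 1) (cb_sub (by norm_num))).of_isClosed_subset
    (isClosed_le k.ρ_cont continuous_const) fun y hy => ?_
  obtain ⟨α, ξ, hξ, rfl⟩ := G.cov y
  exact mem_biUnion (k.T_mem R α ξ (closedBall_subset_closedBall (by norm_num)
    (ball_subset_closedBall hξ)) hy) ⟨ξ, ball_subset_closedBall hξ, rfl⟩

theorem θ_mem (hξ : ξ ∈ ball (0 : M n) 3) (h : k.θ α (G.ψ α ξ) ≠ 0) :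
    ξ ∈ closedBall (0 : M n) (7 / 4) :=
  mem_of_psi_mem G.toAtl hξ (cb_sub (by norm_num)) (k.θ_supp α _ h)

theorem θ_le_one (α : A) (y : Y) : k.θ α y ≤ 1 := by
  obtain ⟨β, ξ, hξ, rfl⟩ := G.cov y
  by_cases h : k.θ α (G.ψ β ξ) = 0
  · rw [h]; exact zero_le_one
  · rw [← k.θ_sum β ξ (b13 hξ)]
    exact Finset.single_le_sum (f := fun α => k.θ α (G.ψ β ξ)) (fun α _ => k.θ_nonneg α _)
      (k.nb_mem α β ξ (b13 hξ) (k.θ_supp α _ h))

theorem integrableOn (α : A) {E : M n → ℝ} (h : ContinuousOn E (ball 0 3)) :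
    IntegrableOn (fun ξ => k.θ α (G.ψ α ξ) * E ξ) (closedBall 0 2) :=
  (((k.θ_sm α α).continuousOn.mul h).mono cb2).integrableOn_compact (isCompact_closedBall 0 2)

theorem IY_congr (h : ∀ α, ∀ ξ ∈ ball (0 : M n) 3, F α ξ = F' α ξ) : k.IY R F = k.IY R F' :=
  Finset.sum_congr rfl fun α _ => setIntegral_congr_fun measurableSet_closedBall fun ξ hξ => by
    simp only [h α ξ (cb2 hξ)]

theorem IY_add (h : ∀ α, ContinuousOn (F α) (ball 0 3)) (h' : ∀ α, ContinuousOn (F' α) (ball 0 3)) :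
    k.IY R (fun α ξ => F α ξ + F' α ξ) = k.IY R F + k.IY R F' := by
  simp only [IY, mul_add, ← Finset.sum_add_distrib]
  exact Finset.sum_congr rfl fun α _ => integral_add (k.integrableOn α (h α))
    (k.integrableOn α (h' α))

theorem IY_const_mul (t : ℝ) : k.IY R (fun α ξ => t * F α ξ) = t * k.IY R F := by
  simp only [IY, Finset.mul_sum, ← integral_const_mul, mul_left_comm]

theorem IY_mono (h : ∀ α, ContinuousOn (F α) (ball 0 3)) (h' : ∀ α, ContinuousOn (F' α) (ball 0 3))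
    (e : ∀ α, ∀ ξ ∈ ball (0 : M n) 3, F α ξ ≤ F' α ξ) : k.IY R F ≤ k.IY R F' :=
  Finset.sum_le_sum fun α _ => setIntegral_mono_on (k.integrableOn α (h α))
    (k.integrableOn α (h' α)) measurableSet_closedBall fun ξ hξ =>
      mul_le_mul_of_nonneg_left (e α ξ (cb2 hξ)) (k.θ_nonneg _ _)

theorem IY_nonneg (e : ∀ α, ∀ ξ ∈ ball (0 : M n) 3, 0 ≤ F α ξ) : 0 ≤ k.IY R F :=
  Finset.sum_nonneg fun α _ => setIntegral_nonneg measurableSet_closedBall fun ξ hξ =>
    mul_nonneg (k.θ_nonneg _ _) (e α ξ (cb2 hξ))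

theorem IY_eq (hR : R ≤ R') (h : ∀ α, ∀ ξ ∈ ball (0 : M n) 3, R < k.ρ (G.ψ α ξ) → F α ξ = 0) :
    k.IY R F = k.IY R' F := by
  classical
  have key : ∀ S, R ≤ S → ∀ α ∉ k.T S,
      ∫ ξ in closedBall (0 : M n) 2, k.θ α (G.ψ α ξ) * F α ξ = 0 := fun S hS α hα =>
    setIntegral_eq_zero_of_forall_eq_zero fun ξ hξ => by
      by_cases h0 : k.θ α (G.ψ α ξ) = 0
      · rw [h0, zero_mul]
      · rw [h α ξ (cb2 hξ) (hS.trans_lt (not_le.1 fun e =>
          hα (k.T_mem S α ξ (k.θ_mem (cb2 hξ) h0) e))), mul_zero]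
  exact (Finset.sum_subset (Finset.subset_union_left (s₂ := k.T R'))
    fun α _ hα => key R le_rfl α hα).trans
    (Finset.sum_subset Finset.subset_union_right fun α _ hα => key R' hR α hα).symm

/-- An upper bound by the number of charts. -/
theorem IY_le_card (hR : 0 ≤ R) {C : ℝ} (hC : 0 ≤ C) (h : ∀ α, ContinuousOn (F α) (ball 0 3))
    (e : ∀ α, ∀ ξ ∈ ball (0 : M n) 3, 0 ≤ F α ξ)
    (hb : ∀ α, ∫ ξ in closedBall (0 : M n) 2, F α ξ ≤ C) :
    k.IY R F ≤ Real.exp (k.K * (R + 1)) * C := by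
  refine (Finset.sum_le_card_nsmul _ _ C fun α _ => (setIntegral_mono_on (k.integrableOn α (h α))
    (((h α).mono cb2).integrableOn_compact (isCompact_closedBall 0 2)) measurableSet_closedBall
    fun ξ hξ => mul_le_of_le_one_left (e α ξ (cb2 hξ)) (k.θ_le_one _ _)).trans (hb α)).trans ?_
  rw [nsmul_eq_mul]
  exact mul_le_mul_of_nonneg_right (k.T_card R hR) hC

variable {Φ Φ' u : Y → ℝ} {lam : ℝ} {j : ℕ}

theorem IW_mono (ha : Alg n) (hu : G.Sm u) (hl : G.Lge u (fun _ => -lam) univ) (h : Continuous Φ)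
    (h' : Continuous Φ') (e : ∀ y, Φ y ≤ Φ' y) : k.IW R Φ lam u j ≤ k.IW R Φ' lam u j :=
  k.IY_mono (fun α => (chart_cont G.toAtl h α).mul (hu.mass_cont lam j α))
    (fun α => (chart_cont G.toAtl h' α).mul (hu.mass_cont lam j α))
    fun _ _ hξ => mul_le_mul_of_nonneg_right (e _) (hl.mass_nonneg ha hu j hξ)

theorem IW_nonneg (ha : Alg n) (hu : G.Sm u) (hl : G.Lge u (fun _ => -lam) univ)
    (e : ∀ y, 0 ≤ Φ y) : 0 ≤ k.IW R Φ lam u j :=
  k.IY_nonneg fun _ _ hξ => mul_nonneg (e _) (hl.mass_nonneg ha hu j hξ)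

theorem IW_add (hu : G.Sm u) (h : Continuous Φ) (h' : Continuous Φ') :
    k.IW R (fun y => Φ y + Φ' y) lam u j = k.IW R Φ lam u j + k.IW R Φ' lam u j := by
  simp only [IW, add_mul]
  exact k.IY_add (fun α => (chart_cont G.toAtl h α).mul (hu.mass_cont lam j α))
    fun α => (chart_cont G.toAtl h' α).mul (hu.mass_cont lam j α)

theorem IW_const_mul (t : ℝ) : k.IW R (fun y => t * Φ y) lam u j = t * k.IW R Φ lam u j := by
  simp only [IW, mul_assoc]
  exact k.IY_const_mul t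

theorem IW_eq (hR : R ≤ R') (h : ∀ y, R < k.ρ y → Φ y = 0) :
    k.IW R Φ lam u j = k.IW R' Φ lam u j :=
  k.IY_eq hR fun _ _ _ e => by rw [h _ e, zero_mul]

theorem IW_zero (h : ∀ y, Φ y = 0) : k.IW R Φ lam u j = 0 := by
  simp [IW, IY, h]

end Kit

end Pool.Agent.MP_8ac6f3_ag.KH

end MrgPart0

-- ======== part 1: formerly Pool.Agent.MP_8ac6f3_ag.kh7.Grau
section MrgPart1

/-! A strictly plurisubharmonic exhaustion gives holomorphic convexity and separation. -/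

open Set Metric Complex Filter
open scoped ContDiff Topology

noncomputable section

namespace Pool.Agent.MP_8ac6f3_ag

namespace K7

variable {M : Type} [NormedAddCommGroup M] [NormedSpace ℝ M]

/-- Scaling gains a factor. -/
theorem scale {s s' : Set M} {f : M → ℝ} {a r : ℝ} (ho : IsOpen s) (hf : Db s a f) (x0 : M)
    (hr : 0 ≤ r) (hr1 : r ≤ 1) (hs : ∀ ξ ∈ s', x0 + r • ξ ∈ s) :
    Db s' (a * r) (fun ξ => f (x0 + r • ξ)) := by
  let T : M →L[ℝ] M := r • ContinuousLinearMap.id ℝ M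
  have hT : ‖T‖ ≤ r := (ContinuousLinearMap.opNorm_smul_le _ _).trans (by
    rw [Real.norm_of_nonneg hr]
    exact mul_le_of_le_one_right hr ContinuousLinearMap.norm_id_le)
  refine ⟨hf.1.comp (by fun_prop) hs, fun j h1 h3 x hx => ?_⟩
  replace hs : ∀ ξ ∈ s', x0 + T ξ ∈ s := hs
  have o1 : IsOpen ((fun y => x0 + y) ⁻¹' s) := ho.preimage (by fun_prop)
  have o2 := o1.preimage T.continuous
  have c1 : ContDiffOn ℝ 3 (fun y => f (x0 + y)) ((fun y => x0 + y) ⁻¹' s) :=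
    hf.1.comp (by fun_prop) fun _ h => h
  have e := T.iteratedFDerivWithin_comp_right c1 o1.uniqueDiffOn o2.uniqueDiffOn (hs x hx)
    (CalcP.le3 h3)
  rw [iteratedFDerivWithin_of_isOpen _ o1 (hs x hx), iteratedFDerivWithin_of_isOpen _ o2 (hs x hx),
    iteratedFDeriv_comp_add_left] at e
  refine (le_of_eq (congrArg norm e)).trans
    ((ContinuousMultilinearMap.norm_compContinuousLinearMap_le _ _).trans ?_)
  have h4 := hf.2 j h1 h3 _ (hs x hx)
  refine mul_le_mul h4 ?_ (by positivity) ((norm_nonneg _).trans h4)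
  rw [Finset.prod_const, Finset.card_univ, Fintype.card_fin]
  exact (pow_le_pow_left₀ (norm_nonneg _) hT j).trans (pow_le_of_le_one hr hr1 (by omega))

variable [NormedSpace ℂ M] [IsScalarTower ℝ ℂ M] [FiniteDimensional ℂ M]

omit [FiniteDimensional ℂ M] in
theorem lev_smul (f : M → ℝ) (x η : M) (t : ℝ) : lev f x (t • η) = t ^ 2 * lev f x η := by
  have e : I • t • η = t • I • η := by rw [rsmul, rsmul, smul_comm]
  simp only [lev, d2, e, map_smul, smul_apply, smul_eq_mul]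
  ring

/-- Bounds on a compact ball. -/
theorem bound {f : M → ℝ} (hf : ContDiffOn ℝ 3 f (ball 0 3))
    (hl : ∀ ξ ∈ ball (0 : M) 3, ∀ η, η ≠ 0 → 0 < lev f ξ η) : ∃ B : ℝ, 0 ≤ B ∧
      ∀ ξ ∈ ball (0 : M) 2, (∀ j : ℕ, 1 ≤ j → j ≤ 3 → ‖iteratedFDeriv ℝ j f ξ‖ ≤ B) ∧
        ∀ η, ‖η‖ ^ 2 ≤ B * lev f ξ η := by
  have : ProperSpace M := FiniteDimensional.proper ℂ M
  have h23 : closedBall (0 : M) 2 ⊆ ball 0 3 := closedBall_subset_ball (by norm_num)
  obtain ⟨C, c0, hC⟩ := exists_Db_of_compact (s := ball 0 2) isOpen_ball hf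
    (isCompact_closedBall 0 2) h23 ball_subset_closedBall
  have c2 : ContinuousOn (fderiv ℝ (fderiv ℝ f)) (ball 0 3) :=
    (hf.fderiv_of_isOpen (m := 2) isOpen_ball (by norm_num)).continuousOn_fderiv_of_isOpen
      isOpen_ball (by norm_num)
  have c3 : ContinuousOn (fun p : M × M => fderiv ℝ (fderiv ℝ f) p.1)
      (closedBall 0 2 ×ˢ sphere 0 1) := c2.comp continuousOn_fst fun p hp => h23 hp.1
  have c4 : ContinuousOn (fun p : M × M => I • p.2) (closedBall 0 2 ×ˢ sphere 0 1) := by fun_prop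
  have c5 : ContinuousOn (fun p : M × M => lev f p.1 p.2) (closedBall 0 2 ×ˢ sphere 0 1) :=
    (((c3.clm_apply continuousOn_snd).clm_apply continuousOn_snd).add
      ((c3.clm_apply c4).clm_apply c4)).div_const 4
  obtain ⟨l, l0, hl'⟩ := ((isCompact_closedBall (0 : M) 2).prod
    (isCompact_sphere (0 : M) 1)).exists_forall_le' c5 (a := 0)
    fun p hp => hl _ (h23 hp.1) _ (ne_zero_of_mem_unit_sphere ⟨p.2, hp.2⟩)
  refine ⟨C + l⁻¹, by positivity, fun ξ hξ => ⟨fun j h1 h3 =>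
    (hC.1.2 j h1 h3 ξ hξ).trans (le_add_of_nonneg_right (by positivity)), fun η => ?_⟩⟩
  rcases eq_or_ne η 0 with rfl | h0
  · simp [lev, d2]
  have n0 := norm_pos_iff.2 h0
  have h1 := hl' (ξ, ‖η‖⁻¹ • η) ⟨ball_subset_closedBall hξ, by
    rw [mem_sphere_zero_iff_norm, norm_smul, norm_inv, norm_norm, inv_mul_cancel₀ n0.ne']⟩
  simp only [lev_smul] at h1
  rw [inv_pow, le_inv_mul_iff₀ (by positivity), mul_comm, ← le_inv_mul_iff₀ l0] at h1
  exact h1.trans (mul_le_mul_of_nonneg_right (le_add_of_nonneg_left c0) (hl ξ (b23 hξ) η h0).le)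

variable {Y A : Type} [TopologicalSpace Y] [T2Space Y]

omit [T2Space Y] in
/-- Bounds on the sublevel sets. -/
theorem bounds (a : Atl M Y A) {Ψ : Y → ℝ} (hs : ∀ α, ContDiffOn ℝ 3 (Ψ ∘ a.ψ α) (ball 0 3))
    (hl : ∀ α, ∀ ξ ∈ ball (0 : M) 3, ∀ η, η ≠ 0 → 0 < lev (Ψ ∘ a.ψ α) ξ η)
    (hp : ∀ c, IsCompact {y | Ψ y ≤ c}) : ∃ b : ℕ → ℝ, ∀ (m : ℕ) α, ∀ ξ ∈ ball (0 : M) 2,
      Ψ (a.ψ α ξ) ≤ m → (∀ j : ℕ, 1 ≤ j → j ≤ 3 → ‖iteratedFDeriv ℝ j (Ψ ∘ a.ψ α) ξ‖ ≤ b m) ∧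
        ∀ η, ‖η‖ ^ 2 ≤ b m * lev (Ψ ∘ a.ψ α) ξ η := by
  classical
  choose B b0 hB using fun α => bound (hs α) (hl α)
  choose O o1 T _ o3 using a.lf
  choose t _ ht using fun m : ℕ => (hp m).elim_nhds_subcover O fun y _ => o1 y
  refine ⟨fun m => ∑ α ∈ (t m).biUnion T, B α, fun m α ξ hξ hm => ?_⟩
  obtain ⟨y, hy, h⟩ := mem_iUnion₂.1 (ht m hm)
  have h1 : B α ≤ ∑ α ∈ (t m).biUnion T, B α := Finset.single_le_sum (fun β _ => b0 β)
    (Finset.mem_biUnion.2 ⟨y, hy, o3 y α ⟨_, ⟨ξ, ball_subset_closedBall hξ, rfl⟩, h⟩⟩)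
  refine ⟨fun j j1 j3 => ((hB α ξ hξ).1 j j1 j3).trans h1,
    fun η => ((hB α ξ hξ).2 η).trans (mul_le_mul_of_nonneg_right h1 ?_)⟩
  rcases eq_or_ne η 0 with rfl | h0
  · simp [lev, d2]
  · exact (hl α ξ (b23 hξ) η h0).le

theorem main (a : Atl M Y A) {Ψ : Y → ℝ} (h0 : ∀ y, 0 ≤ Ψ y)
    (hs : ∀ α, ContDiffOn ℝ 3 (Ψ ∘ a.ψ α) (ball 0 3))
    (hl : ∀ α, ∀ ξ ∈ ball (0 : M) 3, ∀ η, η ≠ 0 → 0 < lev (Ψ ∘ a.ψ α) ξ η)
    (hp : ∀ c, IsCompact {y | Ψ y ≤ c}) :
    (∀ c, ∃ d, ∀ y0, d < Ψ y0 → ∃ g : Y → ℂ, a.Hol g ∧ 1 < ‖g y0‖ ∧ ∀ y, Ψ y ≤ c → ‖g y‖ ≤ 1) ∧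
      ∀ y0 y1 : Y, y0 ≠ y1 → ∃ g : Y → ℂ, a.Hol g ∧ g y0 ≠ g y1 := by
  obtain ⟨b, hb⟩ := bounds a hs hl hp
  obtain ⟨χ, C, c1, hχ, hd, hx⟩ := chi b
  have c0 : 0 < C := one_pos.trans_le c1
  set F : Y → ℝ := fun y => χ (Ψ y) with hF
  set E : Y → ℝ := fun y => Real.exp (F y / 6) with hE
  have e0 : ∀ y, 0 < E y := fun y => Real.exp_pos _
  have e1 : ∀ y, 1 ≤ E y := fun y => Real.one_le_exp (by linarith [(hx _ (h0 y)).1])
  have k : ∀ α, ∀ ξ ∈ ball (0 : M) 2,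
      (∀ j : ℕ, 1 ≤ j → j ≤ 3 → ‖iteratedFDeriv ℝ j (Ψ ∘ a.ψ α) ξ‖ ≤ C * E (a.ψ α ξ)) ∧
      ∀ η, ‖η‖ ^ 2 ≤ C * E (a.ψ α ξ) * lev (Ψ ∘ a.ψ α) ξ η := fun α ξ hξ => by
    obtain ⟨m, m1, m2⟩ := (hx _ (h0 (a.ψ α ξ))).2.2.2.2
    refine ⟨fun j j1 j3 => ((hb m α ξ hξ m1).1 j j1 j3).trans m2,
      fun η => ((hb m α ξ hξ m1).2 η).trans (mul_le_mul_of_nonneg_right m2 ?_)⟩
    rcases eq_or_ne η 0 with rfl | h0
    · simp [lev, d2]
    · exact (hl α ξ (b23 hξ) η h0).le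
  set r : Y → ℝ := fun y => 1 / (4 * C ^ 2) * Real.exp (-(F y / 3)) with hr
  have re : ∀ y, r y * (4 * C ^ 2 * E y ^ 2) = 1 := fun y => by
    have : Real.exp (-(F y / 3)) * E y ^ 2 = 1 := by
      rw [hE, ← Real.exp_nat_mul, ← Real.exp_add, ← Real.exp_zero]
      congr 1
      push_cast
      ring
    simp only [hr]
    field_simp
    linarith
  have r0 : ∀ y, 0 < r y := fun y => by positivity
  have hR : Rad a r := by
    refine ⟨r0, fun y => ?_, fun α ξ hξ ξ' hξ' => ?_⟩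
    · have h1 : 1 ≤ C ^ 2 * E y ^ 2 := one_le_mul_of_one_le_of_one_le (one_le_pow₀ c1)
        (one_le_pow₀ (e1 y))
      nlinarith [re y, r0 y]
    · have hD : ∀ z ∈ ball (0 : M) 2, HasFDerivAt (fun z => r (a.ψ α z))
          ((-(r (a.ψ α z) * deriv χ (Ψ (a.ψ α z)) / 3)) • fderiv ℝ (Ψ ∘ a.ψ α) z) z := by
        intro z hz
        have h1 := (((hs α).contDiffAt (isOpen_ball.mem_nhds (b23 hz))).differentiableAt
          (by norm_num)).hasFDerivAt
        have h2 := (((((hχ.differentiable (by norm_num)) (Ψ (a.ψ α z))).hasDerivAt.div_const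
          3).neg).exp).const_mul (1 / (4 * C ^ 2))
        refine (h2.comp_hasFDerivAt z h1).congr_fderiv ?_
        congr 1
        simp only [hr, hF, Pi.neg_apply]
        ring
      have := (convex_ball (0 : M) 2).norm_image_sub_le_of_norm_hasFDerivWithin_le (C := 1 / 12)
        (fun z hz => (hD z hz).hasFDerivWithinAt) (fun z hz => ?_) hξ' hξ
      · rw [Real.norm_eq_abs] at this
        linarith
      have h1 := (k α z hz).1 1 le_rfl (by norm_num)
      have h2 := (hx _ (h0 (a.ψ α z))).2.2.2.1 1 le_rfl (by norm_num)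
      rw [norm_iteratedFDeriv_one] at h1
      rw [iteratedDeriv_one] at h2
      rw [norm_smul, norm_neg, norm_div, norm_mul, Real.norm_of_nonneg (r0 _).le, Real.norm_eq_abs,
        Real.norm_ofNat]
      have h3 := mul_le_mul_of_nonneg_left
        (mul_le_mul h2 h1 (norm_nonneg _) (by positivity)) (r0 (a.ψ α z)).le
      have h4 := re (a.ψ α z)
      simp only [hE, hF] at h3 h4
      linarith
  obtain ⟨J, p, a', p1, p2, p3⟩ := refine hR
  have cmp : ∀ j, ∀ ξ ∈ ball (0 : M) 3, E (sm a r (p j) ξ) ≤ 2 * E (a.ψ (p j).1 (p j).2) := by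
    intro j ξ hξ
    have h1 := (hR.cmp (p1 j) hξ).1
    have h2 := re (sm a r (p j) ξ)
    have h3 := re (a.ψ (p j).1 (p j).2)
    refine (pow_le_pow_iff_left₀ (e0 _).le (by linarith [e0 (a.ψ (p j).1 (p j).2)]) two_ne_zero).1
      (le_of_mul_le_mul_left ?_ (show 0 < r (a.ψ (p j).1 (p j).2) * C ^ 2 from
        mul_pos (r0 _) (by positivity)))
    have h4 := mul_le_mul_of_nonneg_right h1
      (show 0 ≤ C ^ 2 * E (sm a r (p j) ξ) ^ 2 by positivity)
    linarith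
  refine (a4 (a2 a1) (a3 pu) Y J a' F 10 (1 / (64 * C ^ 5)) (by positivity)
    (fun y => (hx _ (h0 y)).1) (fun j => ?_) fun j ξ hξ η => ?_).elim fun g1 g2 => ?_
  rotate_right
  · refine ⟨fun c => ?_, fun y0 y1 h => (g2 y0 y1 h).imp fun g hg => ⟨p3 g hg.1, hg.2⟩⟩
    obtain ⟨c', hc'⟩ := (hp c).exists_bound_of_continuousOn (f := F)
      (hχ.continuous.comp (cont a fun α => (hs α).continuousOn)).continuousOn
    obtain ⟨d, hd'⟩ := hd c'
    refine ⟨d, fun y0 hy => (g1 y0 c' (not_le.1 fun h => (hd' _ h).not_gt hy)).imp fun g hg =>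
      ⟨p3 g hg.1, hg.2.1, fun y h => hg.2.2 y ((le_abs_self _).trans (hc' y h))⟩⟩
  · rw [p2]
    set x := (p j).2
    set y := a.ψ (p j).1 x with hy
    have hm : ∀ z ∈ ball x (3 * r y), ∃ ξ ∈ ball (0 : M) 3, x + r y • ξ = z := fun z hz =>
      ⟨_, by
        rw [mem_ball_zero_iff, norm_smul, Real.norm_of_nonneg (inv_pos.2 (r0 y)).le,
          inv_mul_lt_iff₀ (r0 y), mul_comm]
        exact mem_ball_iff_norm.1 hz, aff_inv x z (r0 y)⟩
    have h1 : Db (ball x (3 * r y)) (C * (2 * E y)) (Ψ ∘ a.ψ (p j).1) := by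
      refine ⟨(hs _).mono fun z hz => ?_, fun i i1 i3 z hz => ?_⟩ <;>
        obtain ⟨ξ, hξ, rfl⟩ := hm z hz
      · exact b23 (aff_mem (p1 j) (r0 y) (hR.le y) hξ)
      · exact ((k _ _ (aff_mem (p1 j) (r0 y) (hR.le y) hξ)).1 i i1 i3).trans
          (mul_le_mul_of_nonneg_left (cmp j ξ hξ) c0.le)
    have h2 := (scale isOpen_ball h1 x (r0 y).le (by linarith [hR.le y]) (s' := ball 0 3)
      fun ξ hξ => mem_ball_iff_norm.2 (aff_norm (r0 y) (mem_ball_zero_iff.1 hξ))).comp isOpen_ball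
      isOpen_univ hχ.contDiffOn (mapsTo_univ _ _) (K := C * (2 * E y)) fun i i1 i3 ξ hξ =>
        ((hx _ (h0 _)).2.2.2.1 i i1 i3).trans (mul_le_mul_of_nonneg_left (cmp j ξ hξ) c0.le)
    refine h2.mono ?_
    have h3 := re y
    have h4 : 1 ≤ C * (2 * E y) := one_le_mul_of_one_le_of_one_le c1 (by linarith [e1 y])
    have h5 : C * (2 * E y) * (C * (2 * E y) * r y) = 1 := by linarith
    have h6 : 0 ≤ C * (2 * E y) * r y := mul_nonneg (by linarith) (r0 y).le
    generalize C * (2 * E y) * r y = u at h5 h6 ⊢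
    generalize C * (2 * E y) = v at h4 h5 ⊢
    have h7 : u ≤ 1 := by nlinarith
    have h8 : u ^ 2 ≤ 1 := pow_le_one₀ h6 h7
    have h9 : 5 * v * (u + u ^ 3) = 5 * (v * u) * (1 + u ^ 2) := by ring
    rw [h9, h5]
    linarith
  · rw [p2]
    set x := (p j).2
    set y := a.ψ (p j).1 x with hy
    have m2 := aff_mem (p1 j) (r0 y) (hR.le y) hξ
    have d1 : ContDiffAt ℝ 2 (Ψ ∘ a.ψ (p j).1) (x + r y • ξ) :=
      ((hs _).contDiffAt (isOpen_ball.mem_nhds (b23 m2))).of_le (by norm_num)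
    have d2 : ContDiffAt ℝ 2 χ ((Ψ ∘ a.ψ (p j).1) (x + r y • ξ)) :=
      hχ.contDiffAt.of_le (by norm_num)
    have e : lev (F ∘ sm a r (p j)) ξ η = _ :=
      (lev_scale (f := fun z => χ ((Ψ ∘ a.ψ (p j).1) z)) x ξ η (r y) (d2.comp _ d1)).trans
        (congrArg _ (lev_comp d2 d1 η))
    rw [e]
    obtain ⟨-, q1, q2, -⟩ := hx _ (h0 (sm a r (p j) ξ))
    have q3 : ‖η‖ ^ 2 ≤ C * E (sm a r (p j) ξ) * lev (Ψ ∘ a.ψ (p j).1) (x + r y • ξ) η :=
      (k (p j).1 _ m2).2 η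
    have q4 := (hR.cmp (p1 j) hξ).2
    have q5 := re (sm a r (p j) ξ)
    have q6 : Real.exp (-F (sm a r (p j) ξ)) * E (sm a r (p j) ξ) ^ 6 = 1 := by
      rw [hE, ← Real.exp_nat_mul, ← Real.exp_add, ← Real.exp_zero]
      congr 1
      push_cast
      ring
    have q7 := e1 (sm a r (p j) ξ)
    have q8 := r0 (sm a r (p j) ξ)
    change 1 / 2 ≤ deriv χ ((Ψ ∘ a.ψ (p j).1) (x + r y • ξ)) at q1
    change 0 ≤ deriv (deriv χ) ((Ψ ∘ a.ψ (p j).1) (x + r y • ξ)) at q2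
    change _ ≤ 5 / 4 * r y at q4
    have q9 := Real.exp_pos (-F (sm a r (p j) ξ))
    generalize Real.exp (-F (sm a r (p j) ξ)) = w at q6 q9 ⊢
    generalize E (sm a r (p j) ξ) = u at q3 q5 q6 q7
    generalize r (sm a r (p j) ξ) = s at q4 q5 q8
    generalize lev (Ψ ∘ a.ψ (p j).1) (x + r y • ξ) η = L at q3 ⊢
    have u0 : 0 < u := one_pos.trans_le q7
    have l0 : 0 ≤ L := nonneg_of_mul_nonneg_right ((sq_nonneg _).trans q3) (by positivity)
    have z1 : 1 / (64 * C ^ 5) * w * ‖η‖ ^ 2 ≤ 1 / (64 * C ^ 5) * w * (C * u * u * L) :=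
      mul_le_mul_of_nonneg_left (q3.trans (mul_le_mul_of_nonneg_right
        (le_mul_of_one_le_right (by positivity) q7) l0)) (by positivity)
    have z2 : 1 / (64 * C ^ 5) * w * (C * u * u * L) = s ^ 2 / 4 * L := by
      rw [eq_div_of_mul_eq (by positivity) q5, eq_div_of_mul_eq (by positivity) q6]
      field_simp
      ring
    have z3 : s ^ 2 ≤ (5 / 4 * r y) ^ 2 := pow_le_pow_left₀ q8.le q4 2
    refine (z1.trans_eq z2).trans (le_trans ?_ (mul_le_mul_of_nonneg_left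
      (add_le_add (mul_le_mul_of_nonneg_right q1 l0) (show 0 ≤ _ by positivity)) (sq_nonneg _)))
    nlinarith [mul_le_mul_of_nonneg_right z3 l0, mul_nonneg (sq_nonneg (r y)) l0]

end K7

/-- The theorem of Grauert for an atlas of bounded geometry. -/
theorem grauert {M : Type} [NormedAddCommGroup M] [NormedSpace ℝ M] [NormedSpace ℂ M]
    [IsScalarTower ℝ ℂ M] [FiniteDimensional ℂ M] {Y A : Type} [TopologicalSpace Y] [T2Space Y]
    (a : Atl M Y A) (Ψ : Y → ℝ) (hs : ∀ α, ContDiffOn ℝ 3 (Ψ ∘ a.ψ α) (ball 0 3))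
    (hl : ∀ α, ∀ ξ ∈ ball (0 : M) 3, ∀ η, η ≠ 0 → 0 < lev (Ψ ∘ a.ψ α) ξ η)
    (hp : ∀ c, IsCompact {y | Ψ y ≤ c}) :
    (∀ K : Set Y, IsCompact K → IsCompact {y | ∀ g : Y → ℂ, a.Hol g → ∀ C : ℝ,
      (∀ x ∈ K, ‖g x‖ ≤ C) → ‖g y‖ ≤ C}) ∧
      ∀ y y' : Y, y ≠ y' → ∃ g : Y → ℂ, a.Hol g ∧ g y ≠ g y' := by
  have hc : Continuous Ψ := K7.cont a fun α => (hs α).continuousOn
  obtain ⟨d, hd⟩ := (hp 0).exists_bound_of_continuousOn hc.continuousOn
  have h0 : ∀ y, 0 ≤ Ψ y + |d| := fun y => by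
    rcases le_total (Ψ y) 0 with h | h
    · linarith [neg_abs_le (Ψ y), hd y h, le_abs_self d, Real.norm_eq_abs (Ψ y)]
    · positivity
  obtain ⟨h1, h2⟩ := K7.main a (Ψ := fun y => Ψ y + |d|) h0
    (fun α => (hs α).add contDiffOn_const)
    (fun α ξ hξ η h => (hl α ξ hξ η h).trans_eq (lev_add_const (f := Ψ ∘ a.ψ α) _ η).symm)
    fun c => by simpa only [le_sub_iff_add_le] using hp (c - |d|)
  refine ⟨fun K hK => ?_, h2⟩
  obtain ⟨c, hc'⟩ := hK.exists_bound_of_continuousOn hc.continuousOn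
  obtain ⟨e, he⟩ := h1 (c + |d|)
  refine (hp (e - |d|)).of_isClosed_subset ?_ fun y hy => ?_
  · simp only [ofPred_forall]
    exact isClosed_iInter fun g => isClosed_iInter fun hg => isClosed_iInter fun C =>
      isClosed_iInter fun _ =>
        isClosed_le (K7.cont a fun α => (hg α).continuousOn).norm continuous_const
  · refine (le_sub_iff_add_le (c := e)).2 (not_lt.1 fun h => ?_)
    obtain ⟨g, g1, g2, g3⟩ := he y h
    exact g2.not_ge (hy g g1 1 fun x hx => g3 x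
      (add_le_add_left ((le_abs_self _).trans (hc' x hx)) _))

end Pool.Agent.MP_8ac6f3_ag

end

end MrgPart1

-- ======== part 2: formerly Pool.Agent.MP_8ac6f3_ag.kh.Top0
section MrgPart2

/-! From a strictly plurisubharmonic exhaustion to the Stein property. -/

open Set Metric Complex Filter Function
open scoped Manifold ContDiff Topology

namespace Pool.Agent.MP_8ac6f3_ag.KH

variable {n : ℕ} {Y A : Type} [TopologicalSpace Y]

theorem t2_of_cover {X : Type} [TopologicalSpace X] [T2Space X] {p : Y → X}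
    (hp : IsCoveringMap p) : T2Space Y := by
  refine ⟨fun y y' h => ?_⟩
  by_cases e : p y = p y'
  · exact hp.isSeparatedMap y y' e h
  · exact separated_by_continuous hp.continuous e

theorem stein_of_exh [T2Space Y] [ChartedSpace (M n) Y] {G : Geo n Y A} (k : Kit G) (he : Exh k)
    (hol : ∀ g : Y → ℂ, G.toAtl.Hol g → MDifferentiable 𝓘(ℂ, M n) 𝓘(ℂ, ℂ) g) : Stein (M n) Y := by
  obtain ⟨Ψ, h1, h2, h3⟩ := he
  obtain ⟨h4, h5⟩ := grauert G.toAtl Ψ h1 (fun α ξ hξ => h2 α ξ hξ trivial) fun c => by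
    obtain ⟨R, hR⟩ := h3 c
    exact (k.isCompact_sub R).of_isClosed_subset (isClosed_le h1.continuous continuous_const) hR
  refine ⟨fun K hK => (h4 K hK).of_isClosed_subset ?_ fun y hy g hg => hy g (hol g hg),
    fun y y' h => ?_⟩
  · simp only [Set.ofPred_forall]
    exact isClosed_iInter fun f => isClosed_iInter fun hf => isClosed_iInter fun C =>
      isClosed_iInter fun _ => isClosed_le hf.continuous.norm continuous_const
  · obtain ⟨g, hg, e⟩ := h5 y y' h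
    exact ⟨g, hol g hg, e⟩

theorem stein_zero [ConnectedSpace Y] [ChartedSpace (M 0) Y] : Stein (M 0) Y := by
  have : DiscreteTopology Y := ChartedSpace.discreteTopology (M 0) Y
  have : Subsingleton Y := subsingleton_of_preconnected_totallyDisconnected
  exact ⟨fun K _ => (Set.toFinite _).isCompact, fun y y' h => absurd (Subsingleton.elim y y') h⟩

end Pool.Agent.MP_8ac6f3_ag.KH

end MrgPart2

-- ======== part 3: formerly Pool.Agent.MP_8ac6f3_ag.kh.Alg
section MrgPart3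

/-! The algebra of mixed discriminants. -/

open Set Metric Complex MeasureTheory Filter Function
open scoped ContDiff Topology

set_option maxSynthPendingDepth 3

noncomputable section

namespace Pool.Agent.MP_8ac6f3_ag.KH

variable {n : ℕ}

namespace AlgP

open Matrix
open scoped ComplexOrder MatrixOrder

/-- The value of the sesquilinear form of a real bilinear form. -/
def sv (B : Bil n) (u v : M n) : ℂ :=
  (1 / 8 : ℂ) * (B u v + B v u + B (I • u) (I • v) + B (I • v) (I • u) +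
    I * (B (I • u) v + B v (I • u) - B u (I • v) - B (I • v) u))

lemma smul_eq (c : ℂ) (v : M n) : c • v = c.re • v + c.im • (I • v) := by
  rw [← Complex.coe_smul, ← Complex.coe_smul, smul_smul, ← add_smul, re_add_im]

lemma II (v : M n) : I • I • v = -v := by rw [smul_smul, I_mul_I, neg_one_smul]

lemma sv_conj (B : Bil n) (u v : M n) : sv B v u = (starRingEnd ℂ) (sv B u v) := by
  simp only [sv, map_mul, map_add, map_sub, conj_ofReal, conj_I, map_div₀, map_one, map_ofNat]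
  ring

lemma sv_add (B : Bil n) (u v w : M n) : sv B u (v + w) = sv B u v + sv B u w := by
  simp only [sv, smul_add, map_add, _root_.add_apply, ofReal_add]
  ring

lemma sv_smul (B : Bil n) (c : ℂ) (u v : M n) : sv B u (c • v) = c * sv B u v := by
  have h : I • c • v = c.re • (I • v) - c.im • v := by
    rw [smul_comm, smul_eq c, II, smul_neg, sub_eq_add_neg]
  unfold sv
  rw [h, smul_eq c v]
  simp only [map_add, map_sub, map_smul, _root_.add_apply,
    _root_.sub_apply, _root_.smul_apply, smul_eq_mul]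
  apply Complex.ext <;> simp <;> ring

/-- The form is linear in the second argument. -/
def sl (B : Bil n) (u : M n) : M n →ₗ[ℂ] ℂ where
  toFun := sv B u
  map_add' := sv_add B u
  map_smul' c v := sv_smul B c u v

lemma sv_self (B : Bil n) (u : M n) : sv B u u = hq B u := by
  simp only [sv, hq]
  push_cast
  ring

lemma sv_pol (B : Bil n) (u v : M n) : sv B u v = (hq B (u + v) - hq B (u - v)) / 4 +
    I * ((hq B (I • u + v) - hq B (I • u - v)) / 4) := by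
  simp only [sv, hq, smul_add, smul_sub, II, map_add, map_sub, map_neg,
    _root_.add_apply, _root_.sub_apply, _root_.neg_apply]
  push_cast
  ring

/-- The Hermitian matrix of a real bilinear form. -/
def hm (B : Bil n) : Matrix (Fin n) (Fin n) ℂ := Matrix.of fun j k => sv B (ee j) (ee k)

lemma ent_eq (B : Bil n) (j k : Fin n) : ent j k B = hm B j k := by
  simp [ent, evc, hm, sv]
  ring

lemma sum_ee (v : M n) : v = ∑ k, v k • ee k := by
  ext j
  simp [ee, Finset.sum_apply, Pi.single_apply]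

lemma sv_right (B : Bil n) (u v : M n) : sv B u v = ∑ k, sv B u (ee k) * v k := by
  conv_lhs => rw [sum_ee v]
  change sl B u _ = _
  rw [map_sum]
  exact Finset.sum_congr rfl fun k _ => (sv_smul B _ u _).trans (mul_comm _ _)

lemma sv_eq (B : Bil n) (u v : M n) : sv B u v = star u.ofLp ⬝ᵥ (hm B *ᵥ v.ofLp) := by
  rw [sv_conj, sv_right, map_sum]
  refine Finset.sum_congr rfl fun j _ => ?_
  rw [map_mul, ← sv_conj, sv_right, mul_comm]
  rfl

lemma hm_herm (B : Bil n) : (hm B).IsHermitian :=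
  Matrix.ext fun j k => (sv_conj B (ee k) (ee j)).symm

lemma hm_quad (B : Bil n) (x : Fin n → ℂ) :
    star x ⬝ᵥ (hm B *ᵥ x) = hq B (WithLp.toLp 2 x) := by
  rw [← sv_self, sv_eq]

/-- The mixed discriminant of matrices. -/
def dd (A : Fin n → Matrix (Fin n) (Fin n) ℂ) : ℂ :=
  ∑ σ : Equiv.Perm (Fin n), ∑ τ : Equiv.Perm (Fin n),
    (Equiv.Perm.sign σ : ℤ) * (Equiv.Perm.sign τ : ℤ) * ∏ i, A i (σ i) (τ i)

lemma md_eq (B : Fin n → Bil n) : md B = (dd fun i => hm (B i)).re := by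
  simp [md, dd, ent_eq]

lemma det_row (A : Matrix (Fin n) (Fin n) ℂ) :
    A.det = ∑ τ : Equiv.Perm (Fin n), (Equiv.Perm.sign τ : ℤ) * ∏ i, A i (τ i) := by
  rw [← det_transpose, det_apply']
  rfl

lemma dd_left (A : Fin n → Matrix (Fin n) (Fin n) ℂ) : dd A = ∑ σ : Equiv.Perm (Fin n),
    (Equiv.Perm.sign σ : ℤ) * (Matrix.of fun i k => A i (σ i) k).det := by
  simp only [dd, det_row, Finset.mul_sum, mul_assoc, of_apply]

lemma dd_transpose (A : Fin n → Matrix (Fin n) (Fin n) ℂ) : dd (fun i => (A i)ᵀ) = dd A := by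
  unfold dd
  rw [Finset.sum_comm]
  simp only [transpose_apply, mul_comm]

lemma dd_mul (A : Fin n → Matrix (Fin n) (Fin n) ℂ) (L : Matrix (Fin n) (Fin n) ℂ) :
    dd (fun i => A i * L) = dd A * L.det := by
  rw [dd_left, dd_left, Finset.sum_mul]
  refine Finset.sum_congr rfl fun σ _ => ?_
  rw [mul_assoc, ← det_mul]
  rfl

lemma mul_dd (A : Fin n → Matrix (Fin n) (Fin n) ℂ) (L : Matrix (Fin n) (Fin n) ℂ) :
    dd (fun i => L * A i) = L.det * dd A := by
  rw [← dd_transpose, ← dd_transpose A, mul_comm, ← det_transpose, ← dd_mul]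
  simp only [transpose_mul]

lemma dd_prod (P Q : Fin n → Matrix (Fin n) (Fin n) ℂ) : dd (fun i => (P i)ᵀ * Q i) =
    ∑ l : Fin n → Fin n, (Matrix.of fun i j => P i (l i) j).det *
      (Matrix.of fun i k => Q i (l i) k).det := by
  simp only [dd, det_row, mul_apply, transpose_apply, of_apply, Finset.prod_univ_sum,
    Fintype.piFinset_univ, Finset.mul_sum, Finset.sum_mul, Finset.prod_mul_distrib]
  rw [Finset.sum_comm]
  conv_rhs => rw [Finset.sum_comm]
  refine Finset.sum_congr rfl fun τ _ => ?_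
  rw [Finset.sum_comm]
  exact Finset.sum_congr rfl fun l _ => Finset.sum_congr rfl fun σ _ => by ring

lemma dd_const (A : Matrix (Fin n) (Fin n) ℂ) : dd (fun _ => A) = n.factorial * A.det := by
  rw [dd_left]
  have : ∀ σ : Equiv.Perm (Fin n), ((Equiv.Perm.sign σ : ℤ) : ℂ) *
      (Matrix.of fun i k => A (σ i) k).det = A.det := fun σ => by
    have h := det_permute σ A
    change (Matrix.of fun i k => A (σ i) k).det = _ at h
    rw [h, ← mul_assoc, ← Int.cast_mul, ← Units.val_mul, Int.units_mul_self]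
    simp
  simp [this, Fintype.card_perm]

end AlgP

open AlgP Matrix in
open scoped ComplexOrder MatrixOrder in
theorem alg : Alg n where
  inv B B' L h := by
    let b := PiLp.basisFun 2 ℂ (Fin n)
    let Lm := LinearMap.toMatrix b b (L : M n →ₗ[ℂ] M n)
    have hL : ∀ j k, Lm j k = L (ee k) j := fun j k => by
      simp [Lm, b, LinearMap.toMatrix_apply, ee, EuclideanSpace.single]
    have e : ∀ i, hm (B' i) = Lmᴴ * (hm (B i) * Lm) := fun i => Matrix.ext fun j k => by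
      have : hm (B' i) j k = sv (B i) (L (ee j)) (L (ee k)) := by
        simp only [hm, of_apply, sv_pol, h, map_add, map_sub, map_smul]
      rw [this, sv_eq]
      simp only [mul_apply, conjTranspose_apply, hL]
      rfl
    rw [md_eq, md_eq, ← LinearMap.det_toMatrix b]
    simp only [e]
    rw [mul_dd, dd_mul, det_conjTranspose, mul_left_comm, star_def, Complex.conj_mul',
      ← ofReal_pow, re_mul_ofReal, mul_comm]
  pos B h := by
    have : ∀ i, ∃ c : Matrix (Fin n) (Fin n) ℂ, hm (B i) = star c * c := fun i =>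
      CStarAlgebra.nonneg_iff_eq_star_mul_self.1 (PosSemidef.of_dotProduct_mulVec_nonneg
        (hm_herm _) fun x => by rw [hm_quad]; exact_mod_cast h i _).nonneg
    choose c hc using this
    rw [md_eq]
    simp only [hc]
    have e := dd_prod (fun i => (c i).map star) c
    change dd (fun i => star (c i) * c i) = _ at e
    rw [e, re_sum]
    refine Finset.sum_nonneg fun l _ => ?_
    have := (starRingEnd ℂ).map_det (Matrix.of fun i k => c i (l i) k)
    change _ = (Matrix.of fun i j => (c i).map star (l i) j).det at this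
    rw [← this, Complex.conj_mul', ← ofReal_pow, ofReal_re]
    positivity
  eu := by
    have h := (PosDef.of_dotProduct_mulVec_pos (hm_herm (Eu : Bil n)) fun x hx => by
      rw [hm_quad, hq_Eu]
      have : 0 < ‖(WithLp.toLp 2 x : M n)‖ := norm_pos_iff.2 (by simpa using hx)
      exact_mod_cast pow_pos this 2).det_pos
    rw [md_eq, dd_const, ← ofReal_natCast, re_ofReal_mul]
    exact mul_pos (by exact_mod_cast n.factorial_pos) (Complex.pos_iff.1 h).1

end Pool.Agent.MP_8ac6f3_ag.KH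

end

end MrgPart3

-- ======== part 4: formerly Pool.Agent.MP_8ac6f3_ag.kh.Lst
section MrgPart4

/-! Row LST: the local Stokes formula for mixed discriminants. -/

open Set Metric Complex MeasureTheory Filter Function
open scoped ContDiff Topology

set_option maxSynthPendingDepth 3

noncomputable section

namespace Pool.Agent.MP_8ac6f3_ag.KH

variable {n : ℕ}

namespace LstP

/-- a complex directional derivative -/
def dd (s : ℂ) (l : Fin n) (f : M n → ℂ) (x : M n) : ℂ :=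
  fderiv ℝ f x (ee l) + s * fderiv ℝ f x (I • ee l)

/-- the sign as a complex number -/
def sgn (σ : Equiv.Perm (Fin n)) : ℂ := ((Equiv.Perm.sign σ : ℤˣ) : ℤ)

theorem int_fderiv {F : M n → ℂ} (hF : ContDiff ℝ 1 F) (hc : HasCompactSupport F) (v : M n) :
    Integrable (fun x => fderiv ℝ F x v) ∧ ∫ x, fderiv ℝ F x v = 0 := by
  have h1 : Integrable (fun x => fderiv ℝ F x v) :=
    ((hF.continuous_fderiv one_ne_zero).clm_apply continuous_const).integrable_of_hasCompactSupport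
      (hc.fderiv_apply ℝ v)
  refine ⟨h1, ?_⟩
  have := integral_mul_fderiv_eq_neg_fderiv_mul_of_integrable (μ := volume) (f := fun _ => (1 : ℂ))
    (g := F) (v := v) (by simp) (by simpa using h1)
    (by simpa using hF.continuous.integrable_of_hasCompactSupport hc)
    (fun _ _ => differentiableAt_const _) fun x _ => hF.differentiable one_ne_zero x
  simpa using this

theorem int_dd {F : M n → ℂ} (hF : ContDiff ℝ 1 F) (hc : HasCompactSupport F) (s : ℂ) (l : Fin n) :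
    Integrable (dd s l F) ∧ ∫ x, dd s l F x = 0 := by
  have h1 := int_fderiv hF hc (ee l)
  have h2 := int_fderiv hF hc (I • ee l)
  refine ⟨h1.1.add (h2.1.const_mul s), ?_⟩
  unfold dd
  rw [integral_add h1.1 (h2.1.const_mul s), integral_const_mul, h1.2, h2.2, mul_zero, add_zero]

theorem cancel (i₀ i : Fin n) (hi : i ≠ i₀) (a : Fin n → Fin n → ℂ) (ha : ∀ l j, a l j = a j l)
    (A : Fin n → Fin n → ℂ) : ∑ σ : Equiv.Perm (Fin n), sgn σ *
      ((∏ m ∈ (Finset.univ.erase i₀).erase i, A m (σ m)) * a (σ i₀) (σ i)) = 0 := by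
  rw [← add_self_eq_zero]
  nth_rewrite 1 [← Equiv.sum_comp (Equiv.mulRight (Equiv.swap i i₀))]
  rw [← Finset.sum_add_distrib]
  refine Finset.sum_eq_zero fun σ _ => ?_
  have e1 : sgn (σ * Equiv.swap i i₀) = -sgn σ := by simp [sgn, Equiv.Perm.sign_swap hi]
  have e2 : ∏ m ∈ (Finset.univ.erase i₀).erase i, A m ((σ * Equiv.swap i i₀) m) =
      ∏ m ∈ (Finset.univ.erase i₀).erase i, A m (σ m) := Finset.prod_congr rfl fun m hm => by
    rw [Finset.mem_erase, Finset.mem_erase] at hm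
    rw [Equiv.Perm.mul_apply, Equiv.swap_apply_of_ne_of_ne hm.1 hm.2.1]
  rw [Equiv.coe_mulRight]
  beta_reduce
  rw [e1, e2, Equiv.Perm.mul_apply, Equiv.Perm.mul_apply, Equiv.swap_apply_left,
    Equiv.swap_apply_right, ha (σ i)]
  ring

theorem key {U : Set (M n)} (hU : IsOpen U) (s : ℂ) (i₀ : Fin n) {A : Fin n → Fin n → M n → ℂ}
    (hA : ∀ i j, ContDiffOn ℝ 1 (A i j) U)
    (hs : ∀ i, ∀ x ∈ U, ∀ l j, dd s l (A i j) x = dd s j (A i l) x) {c : M n → ℂ}
    (hc : ContDiff ℝ 1 c) (hk : HasCompactSupport c) (hcU : tsupport c ⊆ U) :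
    Integrable (fun x => ∑ σ : Equiv.Perm (Fin n), sgn σ *
      (dd s (σ i₀) c x * ∏ i ∈ Finset.univ.erase i₀, A i (σ i) x)) ∧
    ∫ x, ∑ σ : Equiv.Perm (Fin n), sgn σ *
      (dd s (σ i₀) c x * ∏ i ∈ Finset.univ.erase i₀, A i (σ i) x) = 0 := by
  let F : Equiv.Perm (Fin n) → M n → ℂ := fun σ x => c x * ∏ i ∈ Finset.univ.erase i₀, A i (σ i) x
  have h0 : ∀ σ, ∀ x ∉ U, F σ =ᶠ[𝓝 x] 0 ∧ c =ᶠ[𝓝 x] 0 := fun σ x hx => by
    have h := notMem_tsupport_iff_eventuallyEq.1 fun h => hx (hcU h)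
    refine ⟨?_, h⟩
    filter_upwards [h] with y hy
    simp [F, hy]
  have hF : ∀ σ, ContDiff ℝ 1 (F σ) := fun σ => contDiff_iff_contDiffAt.2 fun x => by
    by_cases hx : x ∈ U
    · exact hc.contDiffAt.mul (contDiffAt_prod fun i _ => (hA i _).contDiffAt (hU.mem_nhds hx))
    · exact contDiffAt_const.congr_of_eventuallyEq (h0 σ x hx).1
  have hI := fun σ => int_dd (hF σ) hk.mul_right s (σ i₀)
  have e : (fun x => ∑ σ : Equiv.Perm (Fin n), sgn σ *
      (dd s (σ i₀) c x * ∏ i ∈ Finset.univ.erase i₀, A i (σ i) x)) =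
      fun x => ∑ σ : Equiv.Perm (Fin n), sgn σ * dd s (σ i₀) (F σ) x := by
    funext x
    by_cases hx : x ∈ U
    swap
    · refine Finset.sum_congr rfl fun σ _ => ?_
      simp [dd, (h0 σ x hx).1.fderiv_eq, (h0 σ x hx).2.fderiv_eq]
    have e1 : ∀ σ, dd s (σ i₀) (F σ) x =
        dd s (σ i₀) c x * ∏ i ∈ Finset.univ.erase i₀, A i (σ i) x +
        c x * ∑ i ∈ Finset.univ.erase i₀, (∏ m ∈ (Finset.univ.erase i₀).erase i, A m (σ m) x) *
          dd s (σ i₀) (A i (σ i)) x := fun σ => by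
      have d1 := HasFDerivAt.finsetProd (u := Finset.univ.erase i₀) (g := fun i => A i (σ i))
        fun i _ => (((hA i (σ i)).contDiffAt (hU.mem_nhds hx)).differentiableAt
          one_ne_zero).hasFDerivAt
      have d2 : fderiv ℝ (F σ) x = _ := ((hc.differentiable one_ne_zero x).hasFDerivAt.mul d1).fderiv
      simp only [dd, d2, add_apply, smul_apply, sum_apply, smul_eq_mul, mul_add,
        Finset.sum_add_distrib, Finset.mul_sum]
      simp only [mul_left_comm s]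
      ring
    simp only [e1, mul_add, Finset.sum_add_distrib, left_eq_add]
    simp only [mul_left_comm _ (c x), Finset.mul_sum]
    rw [Finset.sum_comm]
    refine Finset.sum_eq_zero fun i hi => ?_
    rw [← Finset.mul_sum, cancel i₀ i (Finset.ne_of_mem_erase hi) (fun l j => dd s l (A i j) x)
      (hs i x hx) fun m j => A m j x, mul_zero]
  rw [e]
  refine ⟨integrable_finsetSum _ fun σ _ => (hI σ).1.const_mul _, ?_⟩
  rw [integral_finsetSum _ fun σ _ => (hI σ).1.const_mul _]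
  exact Finset.sum_eq_zero fun σ _ => by rw [integral_const_mul, (hI σ).2, mul_zero]

theorem ent_apply (j k : Fin n) (B : Bil n) : ent j k B = (1 / 8 : ℂ) * (B (ee j) (ee k) +
    B (ee k) (ee j) + B (I • ee j) (I • ee k) + B (I • ee k) (I • ee j) +
    I * (B (I • ee j) (ee k) + B (ee k) (I • ee j) - B (ee j) (I • ee k) - B (I • ee k) (ee j))) :=
  rfl

theorem symm3 {u : M n → ℝ} {x : M n} (hu : ContDiffAt ℝ 3 u x) :
    (∀ a b, fderiv ℝ (D2 u) x a b = fderiv ℝ (D2 u) x b a) ∧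
      ∀ a b c, fderiv ℝ (D2 u) x a b c = fderiv ℝ (D2 u) x a c b := by
  have h2 : ContDiffAt ℝ 2 (fderiv ℝ u) x := hu.fderiv_right (by norm_num)
  have h1 : HasFDerivAt (D2 u) (fderiv ℝ (D2 u) x) x :=
    ((h2.fderiv_right (m := 1) (by norm_num)).differentiableAt one_ne_zero).hasFDerivAt
  refine ⟨fun a b => (h2.isSymmSndFDerivAt (by simp)).eq a b, fun a b c => ?_⟩
  have e : (fun y => evc b c (D2 u y)) =ᶠ[𝓝 x] fun y => evc c b (D2 u y) := by
    filter_upwards [hu.eventually (by simp)] with y hy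
    exact congrArg ofReal (((hy.of_le (m := 2) (by norm_num)).isSymmSndFDerivAt (by simp)).eq b c)
  have e2 := (((evc b c).hasFDerivAt.comp x h1).congr_of_eventuallyEq e.symm).unique
    ((evc c b).hasFDerivAt.comp x h1)
  exact ofReal_injective (congrArg (fun L : M n →L[ℝ] ℂ => L a) e2)

theorem dd_ent {u : M n → ℝ} {x : M n} (hu : ContDiffAt ℝ 3 u x) (s : ℂ) (l j k : Fin n) :
    dd s l (fun y => ent j k (D2 u y)) x =
      ent j k (fderiv ℝ (D2 u) x (ee l)) + s * ent j k (fderiv ℝ (D2 u) x (I • ee l)) := by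
  have h2 : ContDiffAt ℝ 2 (fderiv ℝ u) x := hu.fderiv_right (by norm_num)
  have h1 : HasFDerivAt (D2 u) (fderiv ℝ (D2 u) x) x :=
    ((h2.fderiv_right (m := 1) (by norm_num)).differentiableAt one_ne_zero).hasFDerivAt
  have e : fderiv ℝ (fun y => ent j k (D2 u y)) x = _ := ((ent j k).hasFDerivAt.comp x h1).fderiv
  rw [dd, e]; rfl

theorem ent_sym1 {B : Bil n} (h : ∀ b c, B b c = B c b) (j k : Fin n) : ent j k B = (1 / 4 : ℂ) *
    (B (ee j) (ee k) + B (I • ee j) (I • ee k) + I * (B (I • ee j) (ee k) - B (ee j) (I • ee k))) := by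
  rw [ent_apply, h (ee k) (ee j), h (I • ee k) (I • ee j), h (ee k) (I • ee j), h (I • ee k) (ee j)]
  ring

theorem ent_sym2 {B : Bil n} (h : ∀ b c, B b c = B c b) (j k : Fin n) : ent j k B = (1 / 4 : ℂ) *
    (B (ee k) (ee j) + B (I • ee k) (I • ee j) + I * (B (ee k) (I • ee j) - B (I • ee k) (ee j))) := by
  rw [ent_apply, h (ee k) (ee j), h (I • ee k) (I • ee j), h (ee k) (I • ee j), h (I • ee k) (ee j)]
  ring

theorem sym1 {u : M n → ℝ} {x : M n} (hu : ContDiffAt ℝ 3 u x) (k l j : Fin n) :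
    dd I l (fun y => ent j k (D2 u y)) x = dd I j (fun y => ent l k (D2 u y)) x := by
  obtain ⟨h12, h23⟩ := symm3 hu
  rw [dd_ent hu, dd_ent hu, ent_sym1 (h23 _), ent_sym1 (h23 _), ent_sym1 (h23 _), ent_sym1 (h23 _),
    h12 (ee j) (ee l), h12 (ee j) (I • ee l), h12 (I • ee j) (ee l), h12 (I • ee j) (I • ee l)]
  generalize fderiv ℝ (D2 u) x = T
  linear_combination (1 / 4 : ℂ) * (T (ee l) (I • ee j) (I • ee k) -
    T (I • ee l) (ee j) (I • ee k)) * I_mul_I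

theorem sym2 {u : M n → ℝ} {x : M n} (hu : ContDiffAt ℝ 3 u x) (j l k : Fin n) :
    dd (-I) l (fun y => ent j k (D2 u y)) x = dd (-I) k (fun y => ent j l (D2 u y)) x := by
  obtain ⟨h12, h23⟩ := symm3 hu
  rw [dd_ent hu, dd_ent hu, ent_sym2 (h23 _), ent_sym2 (h23 _), ent_sym2 (h23 _), ent_sym2 (h23 _),
    h12 (ee k) (ee l), h12 (ee k) (I • ee l), h12 (I • ee k) (ee l), h12 (I • ee k) (I • ee l)]
  generalize fderiv ℝ (D2 u) x = T
  linear_combination (1 / 4 : ℂ) * (T (ee l) (I • ee k) (I • ee j) -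
    T (I • ee l) (ee k) (I • ee j)) * I_mul_I

/-- evaluation of a covector on a complexified vector -/
def cv (s : ℂ) (k : Fin n) : Cv n →L[ℝ] ℂ :=
  ofRealCLM.comp (ContinuousLinearMap.apply ℝ ℝ (ee k)) +
    s • ofRealCLM.comp (ContinuousLinearMap.apply ℝ ℝ (I • ee k))

theorem ent_fderiv {γ : M n → Cv n} {x : M n} (h : DifferentiableAt ℝ γ x) (j k : Fin n) :
    ent j k (fderiv ℝ γ x) = (1 / 8 : ℂ) *
      (dd I j (fun y => cv (-I) k (γ y)) x + dd (-I) k (fun y => cv I j (γ y)) x) := by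
  have e : ∀ s l, fderiv ℝ (fun y => cv s l (γ y)) x = (cv s l).comp (fderiv ℝ γ x) := fun s l =>
    ((cv s l).hasFDerivAt.comp x h.hasFDerivAt).fderiv
  rw [ent_apply, dd, dd, e, e]
  generalize fderiv ℝ γ x = B
  simp only [cv, ContinuousLinearMap.comp_apply, add_apply, smul_apply,
    ContinuousLinearMap.apply_apply, ofRealCLM_apply, smul_eq_mul]
  linear_combination (1 / 8 : ℂ) * (B (I • ee j) (I • ee k) + B (I • ee k) (I • ee j)) * I_mul_I

theorem md_update (B : Fin n → Bil n) (i₀ : Fin n) (X : Bil n) : md (update B i₀ X) =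
    (∑ σ : Equiv.Perm (Fin n), ∑ τ : Equiv.Perm (Fin n), sgn σ * sgn τ *
      (ent (σ i₀) (τ i₀) X * ∏ i ∈ Finset.univ.erase i₀, ent (σ i) (τ i) (B i))).re := by
  simp only [md, ContinuousLinearMap.compContinuousMultilinearMap_coe, comp_apply, reCLM_apply,
    sum_apply, smul_apply,
    ContinuousMultilinearMap.compContinuousLinearMap_apply,
    ContinuousMultilinearMap.mkPiAlgebra_apply]
  refine congrArg re (Finset.sum_congr rfl fun σ _ => Finset.sum_congr rfl fun τ _ => ?_)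
  rw [← Finset.mul_prod_erase _ _ (Finset.mem_univ i₀), update_self, real_smul,
    Finset.prod_congr rfl fun i hi => by rw [update_of_ne (Finset.ne_of_mem_erase hi)]]
  simp [sgn]

end LstP

open LstP in
theorem lst : Lst n := by
  intro U u γ i₀ hU hu hγ hk hs
  have hA : ∀ i j k, ContDiffOn ℝ 1 (fun y => ent j k (D2 (u i) y)) U := fun i j k =>
    (ent j k).contDiff.comp_contDiffOn (contDiffOn_D2 hU (hu i))
  have hc : ∀ s k, ContDiff ℝ 1 fun y => cv s k (γ y) := fun s k => (cv s k).contDiff.comp hγ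
  have hk' : ∀ s k, HasCompactSupport fun y => cv s k (γ y) := fun s k =>
    hk.comp_left (g := cv s k) (map_zero _)
  have hs' : ∀ s k, tsupport (fun y => cv s k (γ y)) ⊆ U := fun s k =>
    (closure_mono (support_comp_subset (g := cv s k) (map_zero _) γ)).trans hs
  have k1 := fun τ : Equiv.Perm (Fin n) => key hU I i₀ (fun i j => hA i j (τ i))
    (fun i x hx l j => sym1 ((hu i).contDiffAt (hU.mem_nhds hx)) _ l j) (hc (-I) (τ i₀))
    (hk' _ _) (hs' _ _)
  have k2 := fun σ : Equiv.Perm (Fin n) => key hU (-I) i₀ (fun i k => hA i (σ i) k)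
    (fun i x hx l k => sym2 ((hu i).contDiffAt (hU.mem_nhds hx)) _ l k) (hc I (σ i₀))
    (hk' _ _) (hs' _ _)
  have i1 := integrable_finsetSum Finset.univ fun τ _ => (k1 τ).1.const_mul (1 / 8 * sgn τ)
  have i2 := integrable_finsetSum Finset.univ fun σ _ => (k2 σ).1.const_mul (1 / 8 * sgn σ)
  have e := reCLM.integral_comp_comm (i1.add i2)
  simp only [Pi.add_apply] at e
  rw [integral_add i1 i2, integral_finsetSum _ fun τ _ => (k1 τ).1.const_mul _,
    integral_finsetSum _ fun σ _ => (k2 σ).1.const_mul _] at e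
  simp only [integral_const_mul, fun τ => (k1 τ).2, fun σ => (k2 σ).2, mul_zero,
    Finset.sum_const_zero, add_zero, map_zero] at e
  rw [← e]
  refine integral_congr_ae (Eventually.of_forall fun x => ?_)
  beta_reduce
  rw [md_update, reCLM_apply, Finset.sum_comm]
  simp only [ent_fderiv (hγ.differentiable one_ne_zero x), Finset.mul_sum]
  rw [Finset.sum_comm (f := fun σ τ => 1 / 8 * sgn σ * (sgn τ * (dd (-I) _ _ _ * _))),
    ← Finset.sum_add_distrib]
  refine congrArg re (Finset.sum_congr rfl fun τ _ => ?_)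
  rw [← Finset.sum_add_distrib]
  exact Finset.sum_congr rfl fun σ _ => by ring

end Pool.Agent.MP_8ac6f3_ag.KH

end
end MrgPart4

-- ======== part 5: formerly Pool.Agent.MP_8ac6f3_ag.kh.Mol
section MrgPart5

/-! Row MOL: mollification. -/

open Set Metric Complex MeasureTheory Filter Function
open scoped ContDiff Topology Convolution

set_option maxSynthPendingDepth 3

namespace Pool.Agent.MP_8ac6f3_ag.KH

variable {n : ℕ}

namespace MolR

variable {F : Type} [NormedAddCommGroup F] [NormedSpace ℝ F]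

theorem rho_cont (k : ℕ) : Continuous ((bp k : ContDiffBump (0 : M n)).normed volume) :=
  (bp k).continuous_normed

theorem rho_cs (k : ℕ) : HasCompactSupport ((bp k : ContDiffBump (0 : M n)).normed volume) :=
  (bp k).hasCompactSupport_normed

theorem rOut_le (k : ℕ) : (bp k : ContDiffBump (0 : M n)).rOut ≤ 1 := by
  change 1 / ((k : ℝ) + 1) ≤ 1
  rw [div_le_one (by positivity)]
  have : (0 : ℝ) ≤ k := Nat.cast_nonneg k
  linarith

theorem tsupp_rho (k : ℕ) :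
    tsupport ((bp k : ContDiffBump (0 : M n)).normed volume) ⊆ closedBall 0 1 := by
  rw [(bp k).tsupport_normed_eq]
  exact closedBall_subset_closedBall (rOut_le k)

theorem mol_apply (k : ℕ) (v : M n → F) (x : M n) :
    mol k v x = ∫ t, (bp k : ContDiffBump (0 : M n)).normed volume t • v (x - t) := rfl

theorem integrable_mol (k : ℕ) {v : M n → F} (hv : Continuous v) (x : M n) :
    Integrable (fun t => (bp k : ContDiffBump (0 : M n)).normed volume t • v (x - t)) volume :=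
  ((rho_cont k).smul (hv.comp (continuous_const.sub continuous_id))).integrable_of_hasCompactSupport
    (rho_cs k).smul_right

/-- The derivative falls on the mollified function. -/
theorem hasFDerivAt_mol (k : ℕ) {v : M n → F} (hv : ContDiff ℝ 1 v) (x : M n) :
    HasFDerivAt (mol k v) (mol k (fderiv ℝ v) x) x := by
  have hc : Continuous (fderiv ℝ v) := hv.continuous_fderiv one_ne_zero
  obtain ⟨C, hC⟩ := (isCompact_closedBall x 2).exists_bound_of_continuousOn hc.continuousOn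
  refine hasFDerivAt_integral_of_dominated_of_fderiv_le (𝕜 := ℝ) (μ := volume)
    (F := fun y t => (bp k : ContDiffBump (0 : M n)).normed volume t • v (y - t))
    (F' := fun y t => (bp k : ContDiffBump (0 : M n)).normed volume t • fderiv ℝ v (y - t))
    (bound := fun t => ‖(bp k : ContDiffBump (0 : M n)).normed volume t‖ * C)
    (ball_mem_nhds x one_pos)
    (Eventually.of_forall fun y => (integrable_mol k hv.continuous y).aestronglyMeasurable)
    (integrable_mol k hv.continuous x) (integrable_mol k hc x).aestronglyMeasurable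
    (Eventually.of_forall fun t y hy => ?_) ((bp k).integrable_normed.norm.mul_const C)
    (Eventually.of_forall fun t y _ => ?_)
  · rw [norm_smul]
    by_cases h0 : (bp k : ContDiffBump (0 : M n)).normed volume t = 0
    · simp [h0]
    · have ht : t ∈ closedBall (0 : M n) 1 := tsupp_rho k (subset_tsupport _ h0)
      refine mul_le_mul_of_nonneg_left (hC _ ?_) (norm_nonneg _)
      rw [mem_closedBall_zero_iff] at ht
      rw [mem_ball, dist_eq_norm] at hy
      rw [mem_closedBall, dist_eq_norm]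
      calc ‖y - t - x‖ = ‖(y - x) - t‖ := by congr 1; abel
        _ ≤ ‖y - x‖ + ‖t‖ := norm_sub_le _ _
        _ ≤ 2 := by linarith
  · have h1 : HasFDerivAt v (fderiv ℝ v (y - t)) (y - t) :=
      (hv.differentiable one_ne_zero _).hasFDerivAt
    have h2 := h1.comp y ((hasFDerivAt_id y).sub_const t)
    rw [ContinuousLinearMap.comp_id] at h2
    exact h2.const_smul _

theorem fderiv_mol (k : ℕ) {v : M n → F} (hv : ContDiff ℝ 1 v) :
    fderiv ℝ (mol k v) = mol k (fderiv ℝ v) :=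
  funext fun x => (hasFDerivAt_mol k hv x).fderiv

/-- The Hermitian form at a fixed vector, as a linear functional. -/
noncomputable def hqL (η : M n) : Bil n →L[ℝ] ℝ :=
  (1 / 4 : ℝ) • ((ContinuousLinearMap.apply ℝ ℝ η).comp (ContinuousLinearMap.apply ℝ (Cv n) η) +
    (ContinuousLinearMap.apply ℝ ℝ (I • η)).comp (ContinuousLinearMap.apply ℝ (Cv n) (I • η)))

theorem hqL_apply (η : M n) (B : Bil n) : hqL η B = hq B η := by
  simp [hqL, hq]; ring

theorem lev_mol_nonneg (k : ℕ) {w : M n → ℝ} (hw : Ps univ w) (x η : M n) :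
    0 ≤ lev (mol k w) x η := by
  have h3 : ContDiff ℝ 3 w := contDiffOn_univ.1 hw.1
  have h2 : ContDiff ℝ 1 (fderiv ℝ w) := h3.fderiv_right (by norm_num)
  have hc : Continuous (D2 w) := h2.continuous_fderiv one_ne_zero
  have e : D2 (mol k w) x = mol k (D2 w) x := by
    rw [D2, fderiv_mol k (h3.of_le (by norm_num)), fderiv_mol k h2]; rfl
  rw [← hq_D2, e, mol_apply, ← hqL_apply,
    ← ContinuousLinearMap.integral_comp_comm _ (integrable_mol k hc x)]
  refine integral_nonneg fun t => ?_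
  simp only [map_smul, hqL_apply, smul_eq_mul, Pi.zero_apply]
  exact mul_nonneg ((bp k).nonneg_normed t) (hw.2 _ (mem_univ _) η)

/-- Convolution with a fixed kernel is continuous for local uniform convergence. -/
theorem conv_close {E₁ E₂ : Type} [NormedAddCommGroup E₁] [NormedSpace ℝ E₁]
    [NormedAddCommGroup E₂] [NormedSpace ℝ E₂] (L : E₁ →L[ℝ] ℝ →L[ℝ] E₂) {σ : M n → E₁}
    (hσ : Continuous σ) (hs : HasCompactSupport σ) (h1 : support σ ⊆ closedBall 0 1) :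
    ∃ C : ℝ, 0 ≤ C ∧ ∀ (v w : M n → ℝ) (x : M n) (ε : ℝ), Continuous v → Continuous w →
      (∀ y ∈ closedBall x 1, |w y - v y| ≤ ε) →
      ‖(σ ⋆[L, volume] w) x - (σ ⋆[L, volume] v) x‖ ≤ C * ε := by
  have hi : Integrable (fun t => ‖L‖ * ‖σ t‖) volume :=
    (hσ.integrable_of_hasCompactSupport hs).norm.const_mul _
  refine ⟨∫ t, ‖L‖ * ‖σ t‖, integral_nonneg fun t => by positivity, fun v w x ε hv hw h => ?_⟩
  have i1 := (hs.convolutionExists_left L hσ (hw.locallyIntegrable (μ := volume)) x).integrable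
  have i2 := (hs.convolutionExists_left L hσ (hv.locallyIntegrable (μ := volume)) x).integrable
  rw [convolution_def, convolution_def, ← integral_sub i1 i2, ← integral_mul_const]
  refine norm_integral_le_of_norm_le (hi.mul_const ε) (Eventually.of_forall fun t => ?_)
  rw [← map_sub]
  by_cases h0 : σ t = 0
  · simp [h0]
  · have ht : t ∈ closedBall (0 : M n) 1 := h1 h0
    refine (L.le_opNorm₂ _ _).trans (mul_le_mul_of_nonneg_left (h _ ?_) (by positivity))
    rw [mem_closedBall_zero_iff] at ht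
    rw [mem_closedBall, dist_eq_norm]
    simpa using ht

theorem D2_close (k : ℕ) : ∃ C : ℝ, 0 ≤ C ∧ ∀ (v w : M n → ℝ) (x : M n) (ε : ℝ), Continuous v →
    Continuous w → (∀ y ∈ closedBall x 1, |w y - v y| ≤ ε) →
    ‖D2 (mol k w) x - D2 (mol k v) x‖ ≤ C * ε := by
  set ρ : M n → ℝ := (bp k : ContDiffBump (0 : M n)).normed volume with hρ
  have s3 : ContDiff ℝ 3 ρ := (bp k).contDiff_normed (n := 3)
  have s2 : ContDiff ℝ 1 (fderiv ℝ ρ) := s3.fderiv_right (by norm_num)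
  have c0 : HasCompactSupport ρ := rho_cs k
  have c1 : HasCompactSupport (fderiv ℝ ρ) := c0.fderiv ℝ
  have e : ∀ v : M n → ℝ, Continuous v → ∀ x, D2 (mol k v) x =
      (fderiv ℝ (fderiv ℝ ρ) ⋆[((ContinuousLinearMap.lsmul ℝ ℝ : ℝ →L[ℝ] ℝ →L[ℝ] ℝ).precompL
        (M n)).precompL (M n), volume] v) x := by
    intro v hv x
    have hl := hv.locallyIntegrable (μ := volume)
    have e1 : fderiv ℝ (mol k v) = fderiv ℝ ρ ⋆[(ContinuousLinearMap.lsmul ℝ ℝ :
        ℝ →L[ℝ] ℝ →L[ℝ] ℝ).precompL (M n), volume] v :=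
      funext fun y => (c0.hasFDerivAt_convolution_left _ (s3.of_le (by norm_num)) hl y).fderiv
    rw [D2, e1]
    exact (c1.hasFDerivAt_convolution_left _ s2 hl x).fderiv
  obtain ⟨C, hC, h⟩ := conv_close (((ContinuousLinearMap.lsmul ℝ ℝ : ℝ →L[ℝ] ℝ →L[ℝ] ℝ).precompL
    (M n)).precompL (M n)) (s2.continuous_fderiv one_ne_zero) (c1.fderiv ℝ)
    ((support_fderiv_subset ℝ).trans ((tsupport_fderiv_subset ℝ).trans (tsupp_rho k)))
  exact ⟨C, hC, fun v w x ε hv hw hc => by rw [e v hv, e w hw]; exact h v w x ε hv hw hc⟩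

theorem lev_mol_of_ap {v : M n → ℝ} (hv : Continuous v) (ha : Ap v) (k : ℕ) (x η : M n) :
    0 ≤ lev (mol k v) x η := by
  obtain ⟨C, hC, h⟩ := D2_close (n := n) k
  refine le_of_forall_pos_le_add fun δ hδ => ?_
  have hK : 0 < C * ‖η‖ ^ 2 + 1 := by positivity
  obtain ⟨w, hw, hwv⟩ := ha (‖x‖ + 2) (δ / (C * ‖η‖ ^ 2 + 1)) (by positivity)
  have h1 := h v w x _ hv (contDiffOn_univ.1 hw.1).continuous fun y hy => hwv y (by
    rw [mem_closedBall, dist_eq_norm] at hy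
    rw [mem_ball_zero_iff]
    have := norm_add_le (y - x) x
    rw [sub_add_cancel] at this
    linarith)
  have h2 := abs_hq_le (D2 (mol k w) x - D2 (mol k v) x) η
  rw [hq_sub, hq_D2, hq_D2] at h2
  have h3 := lev_mol_nonneg k hw x η
  have h4 : ‖D2 (mol k w) x - D2 (mol k v) x‖ * ‖η‖ ^ 2 ≤ δ := by
    refine (mul_le_mul_of_nonneg_right h1 (by positivity)).trans ?_
    rw [mul_right_comm, ← mul_div_assoc, div_le_iff₀ hK]
    nlinarith
  linarith [le_abs_self (lev (mol k w) x η - lev (mol k v) x η)]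

theorem mol_unif {v : M n → ℝ} (hv : Continuous v) (R ε : ℝ) (hε : 0 < ε) :
    ∀ᶠ k in atTop, ∀ x ∈ ball (0 : M n) R, |mol k v x - v x| ≤ ε := by
  obtain ⟨δ, hδ, h⟩ := Metric.uniformContinuousOn_iff.1
    ((isCompact_closedBall (0 : M n) (R + 1)).uniformContinuousOn_of_continuous
      hv.continuousOn) ε hε
  filter_upwards [(tendsto_one_div_add_atTop_nhds_zero_nat (𝕜 := ℝ)).eventually
    (gt_mem_nhds hδ)] with k hk x hx
  rw [← Real.dist_eq]
  refine (bp k).dist_normed_convolution_le hv.aestronglyMeasurable fun y hy => (h y ?_ x ?_ ?_).le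
  · have h1 := rOut_le (n := n) k
    rw [mem_ball_zero_iff] at hx
    rw [mem_ball, dist_eq_norm] at hy
    rw [mem_closedBall_zero_iff]
    have := norm_add_le (y - x) x
    rw [sub_add_cancel] at this
    linarith
  · rw [mem_ball_zero_iff] at hx
    rw [mem_closedBall_zero_iff]
    linarith
  · exact (mem_ball.1 hy).trans hk

end MolR

theorem molS : Mol n := fun _ hv =>
  ⟨fun k => (MolR.rho_cs k).contDiff_convolution_left _ (n := 3) ((bp k).contDiff_normed (n := 3))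
      (hv.locallyIntegrable (μ := volume)),
    MolR.mol_unif hv, MolR.lev_mol_of_ap hv, fun h k => MolR.fderiv_mol k h⟩

end Pool.Agent.MP_8ac6f3_ag.KH

end MrgPart5

-- ======== part 6: formerly Pool.Agent.MP_8ac6f3_ag.kh.Locma
section MrgPart6

/-! Row LMA: the measure form of the touching property. -/

open Set Metric Complex MeasureTheory Filter Function
open scoped ContDiff Topology

set_option maxSynthPendingDepth 3

namespace Pool.Agent.MP_8ac6f3_ag.KH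

variable {n : ℕ}

namespace Lma

theorem sub2 : closedBall (0 : M n) 2 ⊆ ball 0 3 := closedBall_subset_ball (by norm_num)

theorem sub3 : ball (0 : M n) (9 / 4) ⊆ ball 0 3 := ball_subset_ball (by norm_num)

/-- The pointwise inequality. -/
theorem pt (h : Alg n) (h2 : Alg2 n) {B G S : Bil n} {P b A δ t : ℝ} (hB : ∀ η, 0 ≤ hq B η)
    (hG : ∀ η, 0 ≤ hq G η) (hS : ∀ η, hq S η = ‖η‖ ^ 2) (hP : 0 ≤ P) (hA : P ≤ A) (hb : 0 ≤ b)
    (hδ : 0 ≤ δ) (ht : 0 ≤ t)
    (H : P ≤ δ ∨ (∃ η, η ≠ 0 ∧ hq B η ≤ b * hq G η + 2 * δ * ‖η‖ ^ 2) ∨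
      P * md (fun _ => B) ≤ t + δ) :
    P * md (fun _ => B) - (n * (P * b * md (fam (n - 1) B G)) + t +
      δ * (md (fun _ => B) + 2 * n * A * md (fam (n - 1) B S) + 1)) ≤ 0 := by
  have hS' : ∀ η, 0 ≤ hq S η := fun η => by rw [hS]; positivity
  have a1 : 0 ≤ md (fun _ : Fin n => B) := h.pos _ fun _ => hB
  have a2 : 0 ≤ md (fam (n - 1) B G) := h.pos _ (hq_fam_nonneg hB hG)
  have a3 : 0 ≤ md (fam (n - 1) B S) := h.pos _ (hq_fam_nonneg hB hS')
  have hA' : 0 ≤ A := hP.trans hA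
  have b1 : 0 ≤ n * (P * b * md (fam (n - 1) B G)) := by positivity
  have b2 : 0 ≤ δ * (2 * n * A * md (fam (n - 1) B S)) := by positivity
  have b3 : 0 ≤ δ * md (fun _ : Fin n => B) := by positivity
  rcases H with H | ⟨η, h0, H⟩ | H
  · have := mul_le_mul_of_nonneg_right H a1
    nlinarith
  · have hn : n - 1 < n := by
      rcases n with _ | n
      · exact absurd (Subsingleton.elim _ _) h0
      · omega
    have k := h2 B (b • G + (2 * δ) • S) hB
      (fun η => by rw [hq_add, hq_smul, hq_smul]; have := hG η; have := hS' η; positivity)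
      ⟨η, h0, by rw [hq_add, hq_smul, hq_smul, hS]; exact H⟩
    rw [fam_pred hn, md.map_update_add, md.map_update_smul, md.map_update_smul, ← fam_pred hn,
      ← fam_pred hn, smul_eq_mul, smul_eq_mul] at k
    have k2 := mul_le_mul_of_nonneg_left k hP
    have k3 : P * (δ * (2 * n * md (fam (n - 1) B S))) ≤
        A * (δ * (2 * n * md (fam (n - 1) B S))) := mul_le_mul_of_nonneg_right hA (by positivity)
    nlinarith
  · nlinarith

/-- The reverse Fatou lemma for continuous functions on a compact set. -/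
theorem fatou {K : Set (M n)} (hK : IsCompact K) {G : ℕ → M n → ℝ} {C ε : ℝ} (hε : 0 < ε)
    (hG : ∀ k, ContinuousOn (G k) K) (hC : ∀ k, ∀ x ∈ K, G k x ≤ C)
    (hl : ∀ᵐ x, x ∈ K → ∃ l, l ≤ 0 ∧ Tendsto (fun k => G k x) atTop (𝓝 l)) :
    ∀ᶠ k in atTop, ∫ x in K, G k x ≤ ε := by
  have hm := hK.measurableSet
  have hc : ∀ k, ContinuousOn (fun x => max (G k x) 0) K := fun k =>
    (hG k).sup continuousOn_const
  have key := tendsto_integral_of_dominated_convergence (μ := volume.restrict K)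
    (F := fun k x => max (G k x) 0) (f := fun _ => 0) (fun _ => max C 0)
    (fun k => (hc k).aestronglyMeasurable hm) (continuousOn_const.integrableOn_compact hK)
    (fun k => (ae_restrict_iff' hm).2 (Eventually.of_forall fun x hx => by
      rw [Real.norm_eq_abs, abs_of_nonneg (le_max_right _ _)]
      exact max_le_max (hC k x hx) le_rfl))
    ((ae_restrict_iff' hm).2 (hl.mono fun x hx hx' => by
      obtain ⟨l, h1, h2⟩ := hx hx'
      simpa [max_eq_right h1] using h2.max (tendsto_const_nhds (x := (0 : ℝ)))))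
  rw [integral_zero] at key
  filter_upwards [key.eventually (gt_mem_nhds hε)] with k hk
  exact (setIntegral_mono_on ((hG k).integrableOn_compact hK) ((hc k).integrableOn_compact hK) hm
    fun x _ => le_max_left _ _).trans hk.le

theorem lin {K : Set (M n)} (hK : IsCompact K) {f1 f3 f4 f5 f6 : M n → ℝ}
    (h1 : ContinuousOn f1 K) (h3 : ContinuousOn f3 K) (h4 : ContinuousOn f4 K)
    (h5 : ContinuousOn f5 K) (h6 : ContinuousOn f6 K) (r s t : ℝ) :
    ∫ x in K, (f5 x - (r * f6 x + f4 x + s * (f1 x + t * f3 x + 1))) =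
      (∫ x in K, f5 x) - (r * (∫ x in K, f6 x) + (∫ x in K, f4 x) +
        s * ((∫ x in K, f1 x) + t * (∫ x in K, f3 x) + volume.real K)) := by
  have i1 := h1.integrableOn_compact (μ := volume) hK
  have i3 := (h3.integrableOn_compact (μ := volume) hK).const_mul t
  have i4 := h4.integrableOn_compact (μ := volume) hK
  have i5 := h5.integrableOn_compact (μ := volume) hK
  have i6 := (h6.integrableOn_compact (μ := volume) hK).const_mul r
  have i7 : IntegrableOn (fun _ : M n => (1 : ℝ)) K := continuousOn_const.integrableOn_compact hK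
  have i8 := ((i1.add i3).add i7).const_mul s
  rw [integral_sub i5, integral_add, integral_add i6 i4, integral_const_mul, integral_const_mul,
    integral_add _ i7, integral_add i1 i3, integral_const_mul, setIntegral_const, smul_eq_mul,
    mul_one]
  exacts [i1.add i3, i6.add i4, i8, (i6.add i4).add i8]

theorem tube {P E : Type} [TopologicalSpace P] [NormedAddCommGroup E] {p : P}
    {F : P × M n → E} (hF : ∀ x ∈ closedBall (0 : M n) 2, ContinuousAt F (p, x)) {δ : ℝ}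
    (hδ : 0 < δ) : ∀ᶠ q in 𝓝 p, ∀ x ∈ closedBall (0 : M n) 2, ‖F (q, x) - F (p, x)‖ ≤ δ := by
  refine (isCompact_closedBall _ _).eventually_forall_of_forall_eventually fun x hx => ?_
  have h1 : ContinuousAt (fun z : P × M n => F (p, z.2)) (p, x) :=
    ContinuousAt.comp (f := fun z : P × M n => (p, z.2)) (hF x hx) (by fun_prop)
  have h2 := ((hF x hx).sub h1).norm
  exact (h2.eventually (gt_mem_nhds (by simpa using hδ))).mono fun z hz => hz.le

theorem shift {E : Type} [TopologicalSpace E] {f : M n → E} (hf : ContinuousOn f (ball 0 3))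
    {x : M n} (hx : x ∈ closedBall (0 : M n) 2) :
    ContinuousAt (fun z : (M n × ℝ) × M n => f (z.2 + z.1.1)) (0, x) :=
  ContinuousAt.comp (f := fun z : (M n × ℝ) × M n => z.2 + z.1.1)
    (by simpa using hf.continuousAt (isOpen_ball.mem_nhds (sub2 hx))) (by fun_prop)

/-- The touching property at a nearby point. -/
theorem alt (h : Alg n) {W φ Φ Φ' β : M n → ℝ} {H : M n → Bil n} (hφ : Ps (ball 0 3) φ)
    (c1 : ContinuousOn Φ (ball 0 3)) (c2 : ContinuousOn Φ' (ball 0 3))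
    (c3 : ContinuousOn β (ball 0 3)) (c4 : ContinuousOn H (ball 0 3))
    (hp : ∀ x ∈ ball (0 : M n) 3, 0 ≤ Φ x ∧ 0 ≤ Φ' x ∧ 0 ≤ β x ∧ ∀ η, 0 ≤ hq (H x) η)
    (ht : ∀ y ∈ ball (0 : M n) 3, ∀ q : M n → ℝ, ContDiff ℝ 3 q →
      IsLocalMin (fun z => W z - q z) y →
      Φ y = 0 ∨ (∃ η, η ≠ 0 ∧ lev q y η ≤ β y * lev φ y η) ∨
        (Φ y ≤ Φ' y ∧ ∀ η, lev q y η ≤ hq (H y) η)) {δ : ℝ} (hδ : 0 < δ) :
    ∃ ρ : ℝ, 0 < ρ ∧ ρ ≤ 1 / 8 ∧ ρ ≤ δ ∧ ∀ x ∈ closedBall (0 : M n) 2, ∀ y, ‖y - x‖ ≤ ρ →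
      ∀ (B : Bil n) (q : M n → ℝ), (∀ η, 0 ≤ hq B η) → ContDiff ℝ 3 q →
      IsLocalMin (fun z => W z - q z) y → (∀ η, lev q y η = hq B η - ρ * ‖η‖ ^ 2) →
      Φ x ≤ δ ∨ (∃ η, η ≠ 0 ∧ hq B η ≤ β x * hq (D2 φ x) η + 2 * δ * ‖η‖ ^ 2) ∨
        Φ x * md (fun _ => B) ≤ Φ' x * md (fun _ => H x) + δ := by
  have t1 := tube (fun x hx => shift c1 hx) hδ
  have t2 := tube (fun x hx => shift (c3.smul (continuousOn_D2 isOpen_ball hφ.1)) hx) hδ
  have t3 := tube (F := fun z : (M n × ℝ) × M n => (Φ' (z.2 + z.1.1) + Φ z.2 - Φ (z.2 + z.1.1)) *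
      md (fun _ => H (z.2 + z.1.1) + z.1.2 • (Eu : Bil n))) (p := 0) (fun x hx => by
    refine (((shift c2 hx).add ?_).sub (shift c1 hx)).mul (md.cont.continuousAt.comp
      (continuousAt_pi.2 fun _ => (shift c4 hx).add (by fun_prop)))
    exact ContinuousAt.comp (f := fun z : (M n × ℝ) × M n => z.2)
      (c1.continuousAt (isOpen_ball.mem_nhds (sub2 hx))) (by fun_prop)) hδ
  obtain ⟨r, hr, t⟩ := Metric.eventually_nhds_iff.1 (t1.and (t2.and t3))
  refine ⟨min (min (1 / 8) δ) (r / 2), by positivity, (min_le_left _ _).trans (min_le_left _ _),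
    (min_le_left _ _).trans (min_le_right _ _), ?_⟩
  have r1 : min (min (1 / 8) δ) (r / 2) ≤ 1 / 8 := (min_le_left _ _).trans (min_le_left _ _)
  have r2 : min (min (1 / 8) δ) (r / 2) ≤ δ := (min_le_left _ _).trans (min_le_right _ _)
  have r3 : min (min (1 / 8) δ) (r / 2) < r := (min_le_right _ _).trans_lt (half_lt_self hr)
  have r0 : 0 < min (min (1 / 8) δ) (r / 2) := by positivity
  generalize min (min (1 / 8) δ) (r / 2) = ρ at *
  intro x hx y hy B q hB hq1 hq2 hq3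
  obtain ⟨u1, u2, u3⟩ := t (y := (y - x, ρ)) (by
    rw [dist_zero_right, Prod.norm_mk, Real.norm_eq_abs, abs_of_pos r0]
    exact max_lt (hy.trans_lt r3) r3)
  have u1 := u1 x hx
  have u2 := u2 x hx
  have u3 := u3 x hx
  simp only [add_sub_cancel, Prod.fst_zero, Prod.snd_zero, add_zero, zero_smul, Pi.smul_apply',
    Real.norm_eq_abs, abs_le] at u1 u2 u3
  have hy3 : y ∈ ball (0 : M n) 3 := by
    rw [mem_ball_zero_iff]
    have := norm_le_norm_add_norm_sub' y x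
    have := mem_closedBall_zero_iff.1 hx
    linarith
  rcases ht y hy3 q hq1 hq2 with k | ⟨η, h0, k⟩ | ⟨k, k'⟩
  · left; linarith [u1.1]
  · refine Or.inr (Or.inl ⟨η, h0, ?_⟩)
    have k2 := (abs_le.1 (abs_hq_le (β y • D2 φ y - β x • D2 φ x) η)).2
    rw [hq_sub, hq_smul, hq_smul] at k2
    have k3 := mul_le_mul_of_nonneg_right u2 (sq_nonneg ‖η‖)
    have k4 := mul_le_mul_of_nonneg_right r2 (sq_nonneg ‖η‖)
    rw [hq3, ← hq_D2] at k
    linarith
  · refine Or.inr (Or.inr ?_)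
    have k2 : md (fun _ => B) ≤ md (fun _ : Fin n => H y + ρ • (Eu : Bil n)) :=
      h.mono (fun _ => hB) fun _ η => by
        have := k' η
        rw [hq3] at this
        rw [hq_add, hq_smul, hq_Eu]; linarith
    have k3 : 0 ≤ md (fun _ : Fin n => B) := h.pos _ fun _ => hB
    have k4 := mul_le_mul_of_nonneg_left k2 (hp x (sub2 hx)).1
    have k5 := mul_nonneg (sub_nonneg.2 k) (k3.trans k2)
    nlinarith [u3.2]

end Lma

open Lma in
theorem locma (h : Alg n) (h2 : Alg2 n) (c1 : Cln1 n) (c2 : Cln2 n) (hm : Mol n) (ha : C11a n)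
    (hb : C11b n) (he : Ext n) (hv : Envl n) : Locma n := by
  intro W φ Φ Φ' β H a hφ hbd cΦ cΦ' cβ cH hp hs happ ht ε hε
  have ha0 : 0 ≤ a := (abs_nonneg _).trans (hbd 0 (by simp)).1
  have hK := isCompact_closedBall (0 : M n) 2
  obtain ⟨V, c, b, hVW, huc, hbV, hVap⟩ := he W a (fun x hx => (hbd x hx).2) happ
  obtain ⟨C, hC0, hC⟩ := c1 2 (9 / 4) (by norm_num) (by norm_num)
  obtain ⟨e1, he1, k1⟩ := c2 2 (9 / 4) (a + 9) (ε / 4) Φ (by norm_num) (by norm_num)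
    (by positivity) (cΦ.mono sub3) fun x hx => hs x (sub3 hx)
  obtain ⟨e2, he2, k2⟩ := c2 2 (9 / 4) (a + 9) (ε / 4 / (n + 1)) (fun x => Φ x * β x)
    (by norm_num) (by norm_num) (by positivity) ((cΦ.mul cβ).mono sub3)
    fun x hx hx' => by rw [hs x (sub3 hx) hx', zero_mul]
  obtain ⟨A, hA⟩ := hK.exists_bound_of_continuousOn (cΦ.mono sub2)
  have hA0 : 0 ≤ A := (norm_nonneg _).trans (hA 0 (by simp))
  have hA' : ∀ x ∈ closedBall (0 : M n) 2, Φ x ≤ A := fun x hx => (le_abs_self _).trans (hA x hx)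
  obtain ⟨N, hN⟩ : ∃ N : ℝ, N = C * (a + 9) ^ n + 2 * n * A * (C * (a + 9) ^ n) +
    volume.real (closedBall (0 : M n) 2) := ⟨_, rfl⟩
  have hN0 : 0 ≤ N := by rw [hN]; positivity
  obtain ⟨δ, hδ, hδN⟩ : ∃ δ : ℝ, 0 < δ ∧ δ * N ≤ ε / 4 :=
    ⟨ε / 4 / (N + 1), by positivity, by
      rw [div_mul_eq_mul_div, div_le_iff₀ (by positivity)]; nlinarith⟩
  obtain ⟨ρ, r0, r1, r2, halt⟩ := alt h hφ cΦ cΦ' cβ cH hp ht hδ
  obtain ⟨e, e0, ee1, ee2, ee3⟩ : ∃ e : ℝ, 0 < e ∧ 3 * e ≤ e1 ∧ 3 * e ≤ e2 ∧ e ≤ 1 :=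
    ⟨min (min e1 e2) 1 / 3, by positivity,
      by linarith [min_le_left (min e1 e2) 1, min_le_left e1 e2],
      by linarith [min_le_left (min e1 e2) 1, min_le_right e1 e2],
      by linarith [min_le_right (min e1 e2) 1]⟩
  refine ⟨e, e0, fun w hw hwW => ?_⟩
  obtain ⟨v, C', hvc, hvV, hvA, hsc, henv⟩ := hv V c b huc hbV hVap (min ρ e) (by positivity)
  obtain ⟨hd, L, hL⟩ := ha v C' hvc hvA hsc
  obtain ⟨hbk, hae⟩ := hb v L hd hL
  obtain ⟨hsm, hun, hpsh, -⟩ := hm v hvc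
  have hq0 : ∀ k x η, 0 ≤ hq (D2 (mol k v) x) η := hpsh hvA
  have cw : ∀ k, ContinuousOn (D2 (mol k v)) (closedBall 0 2) := fun k =>
    (continuousOn_D2 isOpen_univ (hsm k).contDiffOn).mono (subset_univ _)
  have hsq : ContDiff ℝ 3 (fun y : M n => ‖y‖ ^ 2) := by simpa using contDiff_sq (0 : M n)
  have cs : ContinuousOn (D2 fun y : M n => ‖y‖ ^ 2) (closedBall 0 2) :=
    (continuousOn_D2 isOpen_univ hsq.contDiffOn).mono (subset_univ _)
  have cφ := (continuousOn_D2 isOpen_ball hφ.1).mono sub2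
  have d1 := fun k => continuousOn_md (B := fun x _ => D2 (mol k v) x) fun _ => cw k
  have d2 := fun k => continuousOn_md_fam (n - 1) (cw k) cφ
  have d3 := fun k => continuousOn_md_fam (n - 1) (cw k) cs
  have d4 := (cΦ'.mono sub2).mul (continuousOn_md (B := fun x _ => H x) fun _ => cH.mono sub2)
  have d5 := fun k => (cΦ.mono sub2).mul (d1 k)
  have d6 := fun k => ((cΦ.mul cβ).mono sub2).mul (d2 k)
  have hT : ∀ x ∈ closedBall (0 : M n) 2, 0 ≤ Φ' x * md (fun _ => H x) := fun x hx =>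
    mul_nonneg (hp x (sub2 hx)).2.1 (h.pos _ fun _ => (hp x (sub2 hx)).2.2.2)
  have key := fatou hK (ε := ε / 4) (C := A * (L ^ n * md (fun _ : Fin n => (Eu : Bil n))))
    (G := fun k x => Φ x * md (fun _ => D2 (mol k v) x) -
      (n * (Φ x * β x * md (fam (n - 1) (D2 (mol k v) x) (D2 φ x))) + Φ' x * md (fun _ => H x) +
      δ * (md (fun _ => D2 (mol k v) x) +
        2 * n * A * md (fam (n - 1) (D2 (mol k v) x) (D2 (fun y => ‖y‖ ^ 2) x)) + 1)))
    (by positivity)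
    (fun k => (d5 k).sub (((continuousOn_const.mul (d6 k)).add d4).add (continuousOn_const.mul
      (((d1 k).add (continuousOn_const.mul (d3 k))).add continuousOn_const))))
    (fun k x hx => by
      obtain ⟨p1, -, p3, -⟩ := hp x (sub2 hx)
      have a1 : 0 ≤ md (fun _ : Fin n => D2 (mol k v) x) := h.pos _ fun _ => hq0 k x
      have a2 := h.pos _ (hq_fam_nonneg (j := n - 1) (hq0 k x) (g := D2 φ x) (hφ.2 x (sub2 hx)))
      have a3 := h.pos _ (hq_fam_nonneg (j := n - 1) (hq0 k x) (g := D2 (fun y => ‖y‖ ^ 2) x)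
        fun η => by rw [hq_D2, lev_sq0]; positivity)
      have a4 := hT x hx
      have a5 : md (fun _ : Fin n => D2 (mol k v) x) ≤ _ :=
        h.le_pow (C := L) (fun _ => hq0 k x) fun _ η => (le_abs_self _).trans
          ((abs_hq_le _ η).trans (mul_le_mul_of_nonneg_right (hbk k x) (sq_nonneg _)))
      refine (sub_le_self _ (by positivity)).trans (mul_le_mul (hA' x hx) a5 a1 hA0))
    (hae.mono fun x ⟨B, hB, hq'⟩ hx => by
      obtain ⟨p1, -, p3, -⟩ := hp x (sub2 hx)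
      have hB0 : ∀ η, 0 ≤ hq B η := fun η => ge_of_tendsto'
        ((continuous_hq.tendsto (B, η)).comp (hB.prodMk_nhds tendsto_const_nhds))
        fun k => hq0 k x η
      refine ⟨_, pt h h2 (G := D2 φ x) (S := D2 (fun y => ‖y‖ ^ 2) x) hB0 (hφ.2 x (sub2 hx))
        (lev_sq0 x) p1 (hA' x hx) p3 hδ.le (hT x hx) ?_, ?_⟩
      · obtain ⟨q, q1, q2, q3⟩ := hq' ρ r0
        rcases henv x q q1 q2 with ⟨η, h0, k⟩ | ⟨y, q', y1, y2, y3, y4⟩
        · refine Or.inr (Or.inl ⟨η, h0, ?_⟩)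
          have := mul_nonneg p3 (hφ.2 x (sub2 hx) η)
          have := mul_le_mul_of_nonneg_right r2 (sq_nonneg ‖η‖)
          have := mul_nonneg hδ.le (sq_nonneg ‖η‖)
          rw [q3] at k
          rw [hq_D2]; linarith
        · have y5 := y1.trans (min_le_left _ _)
          have y6 : y ∈ ball (0 : M n) (9 / 4) := by
            rw [mem_ball_zero_iff]
            have := norm_le_norm_add_norm_sub' y x
            have := mem_closedBall_zero_iff.1 hx
            linarith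
          refine halt x hx y y5 B q' hB0 y2 (y3.congr ?_) fun η => (y4 η).trans (q3 η)
          filter_upwards [isOpen_ball.mem_nhds y6] with z hz
          rw [hVW hz]
      · have m1 : Tendsto (fun k => md (fun _ : Fin n => D2 (mol k v) x)) atTop
            (𝓝 (md fun _ => B)) := (md.cont.tendsto _).comp (tendsto_pi_nhds.2 fun _ => hB)
        have m2 : ∀ g, Tendsto (fun k => md (fam (n - 1) (D2 (mol k v) x) g)) atTop
            (𝓝 (md (fam (n - 1) B g))) := fun g => (md.cont.tendsto _).comp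
          (tendsto_pi_nhds.2 fun i => by
            unfold fam; split_ifs
            exacts [hB, tendsto_const_nhds])
        exact (m1.const_mul _).sub (((((m2 _).const_mul _).const_mul _).add_const _).add
          (((m1.add ((m2 _).const_mul _)).add_const _).const_mul _)))
  obtain ⟨k, hk, hk'⟩ := (key.and (hun (9 / 4) e e0)).exists
  replace hk := (lin hK (d1 k) (d3 k) d4 (d5 k) (d6 k) _ _ _).ge.trans hk
  simp only [Pi.mul_apply] at hk
  have P1 : Ps (ball 0 (9 / 4)) (mol k v) := ⟨(hsm k).contDiffOn, fun x _ => hq0 k x⟩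
  have P2 : Ps (ball 0 (9 / 4)) w := ⟨hw.1.mono sub3, fun x hx => hw.2 x (sub3 hx)⟩
  have P3 : Ps (ball 0 (9 / 4)) φ := ⟨hφ.1.mono sub3, fun x hx => hφ.2 x (sub3 hx)⟩
  have P4 : Ps (ball 0 (9 / 4)) (fun y : M n => ‖y‖ ^ 2) :=
    ⟨hsq.contDiffOn, fun x _ η => by rw [lev_sq0]; positivity⟩
  have b1 : ∀ x ∈ ball (0 : M n) (9 / 4),
      |w x| ≤ a + 9 ∧ |mol k v x| ≤ a + 9 ∧ |w x - mol k v x| ≤ 3 * e := fun x hx => by
    have f1 := abs_le.1 (hwW x (sub3 hx))
    have f2 := abs_le.1 (hk' x hx)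
    have f3 := abs_le.1 ((hvV x).trans (min_le_right _ _))
    have f4 := abs_le.1 (hbd x (sub3 hx)).2
    rw [hVW hx] at f3
    simp only [abs_le]
    refine ⟨⟨?_, ?_⟩, ⟨?_, ?_⟩, ?_, ?_⟩ <;> linarith [f1.1, f1.2, f2.1, f2.2, f3.1, f3.2, f4.1, f4.2]
  have g1 := hC (fun _ => mol k v) (a + 9) (by positivity) (fun _ => P1) fun _ x hx => (b1 x hx).2.1
  have g2 := hC (fun i => if i.val < n - 1 then mol k v else fun y => ‖y‖ ^ 2) (a + 9)
    (by positivity) (fun i => by split_ifs; exacts [P1, P4]) fun i x hx => by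
      split_ifs
      · exact (b1 x hx).2.1
      · have := mem_ball_zero_iff.1 hx
        rw [abs_of_nonneg (sq_nonneg _)]
        nlinarith [norm_nonneg x]
  have g3 := k1 (fun _ => w) (fun _ => mol k v) (fun _ => ⟨P2, P1⟩) fun _ x hx =>
    ⟨(b1 x hx).1, (b1 x hx).2.1, (b1 x hx).2.2.trans ee1⟩
  have g4 := k2 (fun i => if i.val < n - 1 then w else φ)
    (fun i => if i.val < n - 1 then mol k v else φ)
    (fun i => by split_ifs; exacts [⟨P2, P1⟩, ⟨P3, P3⟩]) fun i x hx => by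
      split_ifs
      · exact ⟨(b1 x hx).1, (b1 x hx).2.1, (b1 x hx).2.2.trans ee2⟩
      · have := (hbd x (sub3 hx)).1
        exact ⟨by linarith, by linarith, by simpa using he2.le⟩
  simp only [← fam_D2] at g2 g4
  have g5 := mul_le_mul_of_nonneg_left (abs_le.1 g4).1 (Nat.cast_nonneg (α := ℝ) n)
  have g6 : (n : ℝ) * (ε / 4 / (n + 1)) ≤ ε / 4 := by
    rw [← mul_div_assoc, div_le_iff₀ (by positivity)]; nlinarith
  have g7 := mul_le_mul_of_nonneg_left g2 (by positivity : (0 : ℝ) ≤ 2 * n * A)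
  have g8 := mul_le_mul_of_nonneg_left (add_le_add (add_le_add g1 g7)
    (le_refl (volume.real (closedBall (0 : M n) 2)))) hδ.le
  rw [← hN] at g8
  linarith [(abs_le.1 g3).2]

end Pool.Agent.MP_8ac6f3_ag.KH

end MrgPart6

-- ======== part 7: formerly Pool.Agent.MP_8ac6f3_ag.kh.Chain
section MrgPart7

/-! Row CHN: the chain inequality. -/

open Set Metric Complex MeasureTheory Filter Function
open scoped ContDiff Topology

set_option maxSynthPendingDepth 3

namespace Pool.Agent.MP_8ac6f3_ag.KH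

namespace Chn

theorem hasDerivAt_pw (m : ℕ) (x : ℝ) :
    HasDerivAt (fun x : ℝ => max x 0 ^ (m + 2)) ((m + 2) * max x 0 ^ (m + 1)) x := by
  rcases lt_trichotomy x 0 with h | rfl | h
  · have e : (fun x : ℝ => max x 0 ^ (m + 2)) =ᶠ[𝓝 x] fun _ => 0 := by
      filter_upwards [gt_mem_nhds h] with y hy
      simp [max_eq_right hy.le]
    simpa [max_eq_right h.le] using (hasDerivAt_const x (0 : ℝ)).congr_of_eventuallyEq e
  · rw [hasDerivAt_iff_isLittleO_nhds_zero]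
    refine (Asymptotics.IsBigO.of_bound 1 (Eventually.of_forall fun y => ?_)).trans_isLittleO
      (Asymptotics.isLittleO_pow_id (𝕜 := ℝ) (n := m + 2) (by omega))
    simp only [zero_add, max_self, ne_eq, Nat.add_eq_zero_iff, OfNat.ofNat_ne_zero, and_false,
      not_false_eq_true, zero_pow, sub_zero, one_ne_zero, mul_zero, smul_zero, norm_pow, one_mul,
      Real.norm_eq_abs]
    refine pow_le_pow_left₀ (abs_nonneg _) ?_ _
    rw [abs_of_nonneg (le_max_right _ _)]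
    exact max_le (le_abs_self y) (abs_nonneg y)
  · have e : (fun x : ℝ => max x 0 ^ (m + 2)) =ᶠ[𝓝 x] fun y => y ^ (m + 2) := by
      filter_upwards [lt_mem_nhds h] with y hy
      simp [max_eq_left hy.le]
    simpa [max_eq_left h.le] using (hasDerivAt_pow (m + 2) x).congr_of_eventuallyEq e

theorem contDiff_pw (m : ℕ) : ContDiff ℝ 1 fun x : ℝ => max x 0 ^ (m + 2) := by
  rw [contDiff_one_iff_deriv]
  refine ⟨fun x => (hasDerivAt_pw m x).differentiableAt, ?_⟩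
  rw [funext fun x => (hasDerivAt_pw m x).deriv]
  fun_prop

theorem key {C e p t g L l a1 a2 b1 b2 c1 c2 : ℝ} (hC : 1 ≤ C) (he : 16 * C * e ≤ 1) (hp : 2 ≤ p)
    (ht : 0 ≤ t) (hg : 0 ≤ g) (hO : (a1 * a1 + a2 * a2) / 4 ≤ e * g)
    (hc : (c1 * c1 + c2 * c2) / 4 ≤ C * g) (hl : l ≤ L) :
    t ^ 2 * g ≤ 18 * C * p * (t * L) + (4 * (t ^ 2 * g + t ^ 2 * ((a1 * c1 + a2 * c2) / 4) -
      (p + 1) * t * ((b1 * c1 + b2 * c2) / 4)) - 18 * C * p *
      (t * l + t * ((a1 * b1 + a2 * b2) / 4) - p * ((b1 * b1 + b2 * b2) / 4))) := by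
  have hC0 : 0 < C := by linarith
  have heg : 16 * C * e * g ≤ g := by nlinarith
  have h1 : -(a1 * c1 + a2 * c2) ≤ g := by
    refine le_of_mul_le_mul_left ?_ hC0
    have := mul_le_mul_of_nonneg_left hO (by positivity : 0 ≤ 16 * C ^ 2)
    have := mul_le_mul_of_nonneg_left heg hC0.le
    nlinarith [sq_nonneg (4 * C * a1 + c1), sq_nonneg (4 * C * a2 + c2)]
  have h2 : (p + 1) * t * (b1 * c1 + b2 * c2) ≤
      C * (p + 1) ^ 2 * (b1 * b1 + b2 * b2) + t ^ 2 * g := by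
    refine le_of_mul_le_mul_left ?_ hC0
    have := mul_le_mul_of_nonneg_left hc (sq_nonneg t)
    nlinarith [sq_nonneg (2 * C * (p + 1) * b1 - t * c1), sq_nonneg (2 * C * (p + 1) * b2 - t * c2)]
  have h3 : 2 * p * t * ((a1 * b1 + a2 * b2) / 4) ≤
      p ^ 2 * ((b1 * b1 + b2 * b2) / 4) + t ^ 2 * (e * g) := by
    have := mul_le_mul_of_nonneg_left hO (sq_nonneg t)
    nlinarith [sq_nonneg (p * b1 - t * a1), sq_nonneg (p * b2 - t * a2)]
  have h4 := mul_le_mul_of_nonneg_left h3 (by positivity : 0 ≤ 9 * C)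
  have h5 := mul_le_mul_of_nonneg_left h1 (sq_nonneg t)
  have h6 := mul_le_mul_of_nonneg_left hl (by positivity : 0 ≤ 18 * C * p * t)
  have h7 := mul_le_mul_of_nonneg_left heg (sq_nonneg t)
  have h8 : 0 ≤ C * (b1 * b1 + b2 * b2) * (9 * p ^ 2 - 4 * (p + 1) ^ 2) :=
    mul_nonneg (mul_nonneg hC0.le (by nlinarith [mul_self_nonneg b1, mul_self_nonneg b2]))
      (by nlinarith)
  have h9 : 0 ≤ t ^ 2 * g := by positivity
  nlinarith

variable {n : ℕ} {Y A : Type} [TopologicalSpace Y] {G : Geo n Y A} {u o : Y → ℝ}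

theorem wt_smooth (hu : G.Sm u) (ho : G.Sm o) (τ : ℝ) (m : ℕ) (α : A) :
    ContDiffOn ℝ 1 (fun ξ => wt o u τ (m + 2) (G.ψ α ξ)) (ball 0 3) :=
  ((ho α).of_le (by norm_num)).exp.mul ((contDiff_pw m).comp_contDiffOn
    (((hu α).of_le (by norm_num)).neg.sub contDiffOn_const))

theorem wt_has (hu : G.Sm u) (ho : G.Sm o) (τ : ℝ) (m : ℕ) {α : A} {ξ : M n}
    (hξ : ξ ∈ ball (0 : M n) 3) :
    HasFDerivAt (fun ξ => wt o u τ (m + 2) (G.ψ α ξ))
      (wt o u τ (m + 2) (G.ψ α ξ) • fderiv ℝ (o ∘ G.ψ α) ξ -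
        ((m + 2) * wt o u τ (m + 1) (G.ψ α ξ)) • fderiv ℝ (u ∘ G.ψ α) ξ) ξ := by
  have h1 := ((ho.at (α := α) hξ).differentiableAt (by norm_num)).hasFDerivAt.exp
  have h2 := (hasDerivAt_pw m _).comp_hasFDerivAt ξ
    (((hu.at (α := α) hξ).differentiableAt (by norm_num)).hasFDerivAt.neg.sub_const τ)
  refine (h1.mul h2).congr_fderiv ?_
  ext v
  simp [wt]
  ring

theorem form_smul {γ : A → M n → Cv n} (hγ : Form G.toAtl γ) {W : Y → ℝ}
    (hW : ∀ α, ContDiffOn ℝ 1 (fun ξ => W (G.ψ α ξ)) (ball 0 3)) (c : ℝ) :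
    Form G.toAtl fun α ξ => c • W (G.ψ α ξ) • γ α ξ :=
  ⟨fun α => ((hW α).smul (hγ.1 α)).const_smul c, fun α β ξ hξ hm η => by
    simp only [smul_apply, psi_tau G.toAtl hm, hγ.2 α β ξ hξ hm η]⟩

theorem form_sub {γ γ' : A → M n → Cv n} (h : Form G.toAtl γ) (h' : Form G.toAtl γ') :
    Form G.toAtl fun α ξ => γ α ξ - γ' α ξ :=
  ⟨fun α => (h.1 α).sub (h'.1 α), fun α β ξ hξ hm η => by
    simp only [sub_apply, h.2 α β ξ hξ hm η, h'.2 α β ξ hξ hm η]⟩

end Chn

variable {n : ℕ} {Y A : Type} [TopologicalSpace Y] [T2Space Y] {G : Geo n Y A}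

open Chn in
omit [T2Space Y] in
theorem chain (h : Alg n) (P : Prim G) (k : Kit G) (hg : Gst k) : Chain k := by
  have hc := G.c_pos
  obtain ⟨C, hC⟩ : ∃ C, C = P.C ^ 2 / G.c + 1 := ⟨_, rfl⟩
  have hC1 : 1 ≤ C := by rw [hC]; exact le_add_of_nonneg_left (by positivity)
  obtain ⟨ε, hε⟩ : ∃ ε, ε = min 1 (G.c / (16 * C)) := ⟨_, rfl⟩
  have hε0 : 0 < ε := by rw [hε]; positivity
  have hε1 : ε ≤ 1 := hε ▸ min_le_left _ _
  have he : 16 * C * (ε ^ 2 / G.c) ≤ 1 := by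
    have h1 : ε ≤ G.c / (16 * C) := hε ▸ min_le_right _ _
    rw [le_div_iff₀ (by positivity)] at h1
    rw [← mul_div_assoc, div_le_one hc]
    nlinarith
  refine ⟨ε, 18 * C, hε0, hε1, by linarith, ?_⟩
  intro u o lam τ R j p hu ho hoε hlam hl hR hj hp
  obtain ⟨m, rfl⟩ : ∃ m, p = m + 2 := ⟨p - 2, by omega⟩
  set K : ℝ := 18 * C * ((m + 2 : ℕ) : ℝ) with hK
  have hf := form_sub (form_smul P.form (wt_smooth hu ho τ (m + 1)) 4)
    (form_smul hu.form (wt_smooth hu ho τ m) K)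
  obtain ⟨γ, hγ⟩ : ∃ γ : A → M n → Cv n, γ = fun α ξ =>
    (4 : ℝ) • wt o u τ (m + 1 + 2) (G.ψ α ξ) • P.γ α ξ -
      K • wt o u τ (m + 2) (G.ψ α ξ) • fderiv ℝ (u ∘ G.ψ α) ξ := ⟨_, rfl⟩
  rw [← hγ] at hf
  have h0 := hg (fun i => if i.val < j then G.pot lam u else G.φ) γ ⟨j, hj⟩ R
    (fun i => by split_ifs; exacts [hu.pot_pot lam, G.φ_pot]) hf fun α ξ _ e => by
      simp only [hγ, wt_eq_zero o (Nat.succ_ne_zero _) (hR _ e), zero_smul, smul_zero, sub_zero]
  have e0 : ∀ α ξ, (fun i : Fin n => D2 ((if i.val < j then G.pot lam u else G.φ) α) ξ) =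
      fam j (D2 (G.pot lam u α) ξ) (D2 (G.φ α) ξ) := fun α ξ => by
    funext i; unfold fam; split_ifs <;> rfl
  simp only [e0] at h0
  have c1 : ∀ α, ContinuousOn (fun ξ => md (update (fam j (D2 (G.pot lam u α) ξ) (D2 (G.φ α) ξ))
      ⟨j, hj⟩ (fderiv ℝ (γ α) ξ))) (ball 0 3) := fun α => continuousOn_md fun i => by
    rcases eq_or_ne i ⟨j, hj⟩ with rfl | hi
    · simp only [update_self]
      exact (hf.1 α).continuousOn_fderiv_of_isOpen isOpen_ball le_rfl
    · simp only [update_of_ne hi, fam]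
      split_ifs
      exacts [continuousOn_D2 isOpen_ball (hu.pot_smooth lam α),
        continuousOn_D2 isOpen_ball (G.φ_pot.1 α)]
  have c2 : ∀ q i α, ContinuousOn (fun ξ => wt o u τ q (G.ψ α ξ) * G.mass lam u i α ξ)
      (ball 0 3) := fun q i α =>
    (chart_cont G.toAtl (wt_cont ho.continuous hu.continuous τ q) α).mul (hu.mass_cont lam i α)
  have c3 : ∀ α, ContinuousOn (fun ξ => K * (wt o u τ (m + 2) (G.ψ α ξ) *
      G.mass lam u (j + 1) α ξ)) (ball 0 3) := fun α => continuousOn_const.mul (c2 _ _ α)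
  rw [Kit.IW, Kit.IW, ← k.IY_const_mul, ← add_zero (k.IY R fun α ξ => K * _), ← h0,
    ← k.IY_add c3 c1]
  refine k.IY_mono (c2 _ _) (fun α => (c3 α).add (c1 α)) fun α ξ hξ => ?_
  rw [Geo.mass, Geo.mass, ← fam_update_right hj, ← mul_assoc, ← smul_eq_mul, ← smul_eq_mul,
    ← md.map_update_smul, ← md.map_update_add]
  conv_lhs => rw [← fam_update_left hj, ← md.map_update_smul]
  refine h.mono1 (fun i _ => hq_fam_nonneg ((hl.ps hu α).2 ξ hξ) (G.levφ_nonneg hξ) i) fun η => ?_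
  have d1 := ((P.form.1 α).contDiffAt (isOpen_ball.mem_nhds hξ)).differentiableAt one_ne_zero
  have d2 := ((hu.form.1 α).contDiffAt (isOpen_ball.mem_nhds hξ)).differentiableAt one_ne_zero
  have d3 := (((wt_has (α := α) hu ho τ (m + 1) hξ).smul d1.hasFDerivAt).const_smul (4 : ℝ)).sub
    (((wt_has (α := α) hu ho τ m hξ).smul d2.hasFDerivAt).const_smul K)
  have d4 := (congrArg (fun g => fderiv ℝ (g α) ξ) hγ).trans d3.fderiv
  have g0 := G.levφ_nonneg (α := α) hξ η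
  have hO := (hq_ot_le _ η).trans ((mul_le_mul_of_nonneg_right
    (pow_le_pow_left₀ (norm_nonneg _) (hoε α ξ hξ) 2) (sq_nonneg _)).trans
    (G.mul_sq_le (α := α) hξ (sq_nonneg ε) η))
  have hP := (hq_ot_le _ η).trans ((mul_le_mul_of_nonneg_right
    (pow_le_pow_left₀ (norm_nonneg _) (P.bd α ξ hξ) 2) (sq_nonneg _)).trans
    (G.mul_sq_le (α := α) hξ (sq_nonneg P.C) η))
  rw [hq_ot] at hO hP
  have hk := mul_le_mul_of_nonneg_left (key (b1 := fderiv ℝ (u ∘ G.ψ α) ξ η)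
    (b2 := fderiv ℝ (u ∘ G.ψ α) ξ (I • η)) (p := ((m + 2 : ℕ) : ℝ)) (l := lev (u ∘ G.ψ α) ξ η)
    (L := lev (G.pot lam u α) ξ η) hC1 he (by push_cast; linarith [Nat.cast_nonneg (α := ℝ) m])
    (le_max_right (-u (G.ψ α ξ) - τ) 0) g0 hO (hP.trans (by rw [hC]; nlinarith))
    (by rw [hu.lev_pot lam hξ]; nlinarith [mul_nonneg hlam g0])) (wt_nonneg o u τ (m + 1) (G.ψ α ξ))
  have d5 : hq (fderiv ℝ (fderiv ℝ (u ∘ G.ψ α)) ξ) η = lev (u ∘ G.ψ α) ξ η := rfl
  rw [d4]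
  simp only [hq_add, hq_sub, hq_smul, hq_D2, P.d α ξ hξ η, d5]
  simp only [hq, ContinuousLinearMap.smulRight_apply, smul_apply,
    sub_apply, smul_eq_mul, wt, hK] at hk ⊢
  refine (le_of_eq ?_).trans (hk.trans_eq ?_)
  · ring
  · push_cast
    ring

end Pool.Agent.MP_8ac6f3_ag.KH

end MrgPart7

-- ======== part 8: formerly Pool.Agent.MP_8ac6f3_ag.kh.Bk
section MrgPart8

/-! The regularisation theorem from the local version and gluing. -/

open Set Metric Complex MeasureTheory Filter Function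
open scoped ContDiff Topology

set_option maxSynthPendingDepth 3

namespace Pool.Agent.MP_8ac6f3_ag.KH

variable {n : ℕ} {Y A : Type} [TopologicalSpace Y] [T2Space Y] {G : Geo n Y A}

namespace BkRow

theorem sg_pos {D t : ℝ} (hD : 0 ≤ D) (ht : 0 < t) (ht' : t ≤ 1 / 2) : 0 < sg D t := by
  have h1 : 0 ≤ Real.log (1 / t) := Real.log_nonneg (by rw [le_div_iff₀ ht]; linarith)
  exact add_pos_of_nonneg_of_pos (div_nonneg (by linarith) h1) ht

end BkRow

theorem bk (h1 : Bk1 G) (h2 : Glue G) : Bk G := by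
  obtain ⟨K, t₀, hK, ht₀, ht₀', h1⟩ := h1
  obtain ⟨K₁, hK₁, h2⟩ := h2 K (by linarith)
  refine ⟨K + K₁, t₀, by linarith, ht₀, ht₀', fun F b δ κ L D t hF hD ht ht' hne => ?_⟩
  have hσ := BkRow.sg_pos hD ht (ht'.trans ht₀')
  set S : Y → Set ℝ := fun y => {r | ∃ v ∈ F, ∃ y', G.Nr t y y' ∧ r = v y'} with hS
  have hb : ∀ y, BddAbove (S y) := fun y => ⟨0, by
    rintro _ ⟨v, hv, y', -, rfl⟩
    exact (hF.mem v hv).2.1 y'⟩
  have hn : ∀ y, (S y).Nonempty := fun y => by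
    obtain ⟨v, hv, y', h3, -⟩ := hne y
    exact ⟨_, v, hv, y', h3, rfl⟩
  have hle : ∀ y, ∀ v ∈ F, ∀ y', G.Nr t y y' → v y' ≤ sSup (S y) :=
    fun y v hv y' h3 => le_csSup (hb y) ⟨v, hv, y', h3, rfl⟩
  have h3 := h1 F b (fun y => sSup (S y)) δ κ L D t hF hD ht ht'
    (fun y => by
      obtain ⟨v, hv, y', h3, h4⟩ := hne y
      exact h4.trans (hle y v hv y' h3)) hle
    (fun y ε hε => by
      obtain ⟨_, ⟨v, hv, y', h3, rfl⟩, h4⟩ :=
        exists_lt_of_lt_csSup (hn y) (sub_lt_self (sSup (S y)) hε)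
      exact ⟨v, hv, y', h3, h4.le⟩)
  choose W hW using h3
  obtain ⟨w, w1, w2, w3⟩ := h2 (fun y => sSup (S y))
    (fun y => max (b y + κ * sSup (S y)) 0 - δ - K * (1 + κ + L) * sg D t) (sg D t) W hσ hW
  have e1 : 0 ≤ K * sg D t := mul_nonneg (by linarith) hσ.le
  refine ⟨w, w1, fun y c hc => ?_, fun y v hv y' h4 => ?_, w3.mono fun y _ => ?_⟩
  · have h4 : sSup (S y) ≤ c := csSup_le (hn y) (by
      rintro _ ⟨v, hv, y', h4, rfl⟩
      exact hc v hv y' h4)
    linarith [(abs_le.1 (w2 y)).2]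
  · linarith [(abs_le.1 (w2 y)).1, hle y v hv y' h4]
  · have h4 := mul_le_mul_of_nonneg_left (abs_le.1 (w2 y)).2 hF.κ_nonneg
    have h5 : 0 ≤ κ * (K₁ * sg D t) := mul_nonneg hF.κ_nonneg (mul_nonneg hK₁ hσ.le)
    have h6 : 0 ≤ L * (K₁ * sg D t) := mul_nonneg hF.L_nonneg (mul_nonneg hK₁ hσ.le)
    have h7 : max (b y + κ * w y) 0 ≤ max (b y + κ * sSup (S y)) 0 + κ * (K₁ * sg D t) :=
      max_le (by linarith [le_max_left (b y + κ * sSup (S y)) 0])
        (by linarith [le_max_right (b y + κ * sSup (S y)) 0])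
    linarith

end Pool.Agent.MP_8ac6f3_ag.KH

end MrgPart8

-- ======== part 9: formerly Pool.Agent.MP_8ac6f3_ag.kh.Sta
section MrgPart9

/-! Row STA: a strictly plurisubharmonic function on a large ball, with linear oscillation. -/

open Set Metric Complex MeasureTheory Filter Function
open scoped ContDiff Topology

set_option maxSynthPendingDepth 3

namespace Pool.Agent.MP_8ac6f3_ag.KH

variable {n : ℕ} {Y A : Type} [TopologicalSpace Y] [T2Space Y] {G : Geo n Y A}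

namespace Sta

theorem cut_lip (a b : ℝ) : |max (min a 1) 0 - max (min b 1) 0| ≤ |a - b| := by
  refine (abs_max_sub_max_le_abs _ _ _).trans ?_
  have h1 := le_abs_self (a - b)
  have h2 := neg_abs_le (a - b)
  rw [abs_le]
  constructor <;> simp only [min_def] <;> split_ifs <;> linarith [abs_nonneg (a - b)]

omit [T2Space Y] in
theorem gle_zero {L : ℝ} (hL : 0 ≤ L) : G.Gle (fun _ => 0) L := fun α ξ _ => by
  have : ((fun _ => 0 : Y → ℝ) ∘ G.ψ α) = fun _ => 0 := rfl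
  rw [this]
  simpa using hL

omit [T2Space Y] in
theorem IW_shift (k : Kit G) (R δ s : ℝ) (v : Y → ℝ) :
    k.IW R (wt (fun _ => 0) (fun y => v y + s) 0 2) δ (fun y => v y + s) n =
      k.IW R (wt (fun _ => 0) v s 2) δ v n := by
  refine k.IY_congr fun α ξ hξ => ?_
  rw [G.mass_congr (w := fun y => v y + s) (v := v) (t := s) δ n hξ
    (Eventually.of_forall fun _ => rfl)]
  simp only [wt]
  congr 4
  ring

/-- The size of the error, for the choice of the radius. -/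
theorem sg_le {δ s a : ℝ} (hδ : 0 < δ) (hs : 1 ≤ s) :
    Real.exp (-(s / δ)) ≤ δ ∧ Real.log (1 / Real.exp (-(s / δ))) = s / δ ∧
      0 ≤ sg ((1 + 4 * a ^ 2) * s) (Real.exp (-(s / δ))) ∧
      sg ((1 + 4 * a ^ 2) * s) (Real.exp (-(s / δ))) ≤ (3 + 4 * a ^ 2) * δ := by
  have hs0 : 0 < s := by linarith
  have h1 : Real.exp (-(s / δ)) ≤ δ := by
    rw [Real.exp_neg, inv_le_comm₀ (Real.exp_pos _) hδ]
    have := Real.add_one_le_exp (s / δ)
    have h2 : δ⁻¹ ≤ s / δ := by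
      rw [div_eq_mul_inv]
      exact le_mul_of_one_le_left (inv_pos.2 hδ).le hs
    linarith
  have h2 : Real.log (1 / Real.exp (-(s / δ))) = s / δ := by
    rw [one_div, ← Real.exp_neg, neg_neg, Real.log_exp]
  refine ⟨h1, h2, ?_, ?_⟩
  · rw [sg, h2]; positivity
  · rw [sg, h2]
    have h3 : ((1 + 4 * a ^ 2) * s + 1) / (s / δ) = (1 + 4 * a ^ 2) * δ + δ / s := by
      field_simp
    have h4 : δ / s ≤ δ := div_le_self hδ.le hs
    rw [h3]; linarith

end Sta

open Sta in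
theorem sta (k : Kit G) (he : Env k) (hd : Decay k) (hr : Roof1 k) (hp : Point k) (hb : Bk G) :
    Sta k := by
  obtain ⟨Kd, hKd, hd⟩ := hd
  obtain ⟨ε₀, Kr, hε₀, -, hKr, hr⟩ := hr
  obtain ⟨Kp, hKp, hp⟩ := hp
  obtain ⟨Kb, t₀, hKb, ht₀, ht₁, hb⟩ := hb
  have hK := k.one_le
  obtain ⟨a, rfl⟩ : ∃ a : ℝ, Kp = a ^ 2 := ⟨√Kp, (Real.sq_sqrt (by linarith)).symm⟩
  obtain ⟨P, hP⟩ : ∃ P, P = Kb * (3 + 4 * a ^ 2) := ⟨_, rfl⟩
  have hP0 : 0 < P := by rw [hP]; positivity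
  obtain ⟨δ, hδ, hδt, hδP⟩ : ∃ δ : ℝ, 0 < δ ∧ δ ≤ t₀ ∧ δ * (1 + (2 + k.K) * P) ≤ 1 / 4 := by
    refine ⟨min t₀ (1 / 4 / (1 + (2 + k.K) * P)), lt_min ht₀ (by positivity), min_le_left _ _, ?_⟩
    rw [← le_div_iff₀ (by positivity)]
    exact min_le_right _ _
  have hδ1 : δ ≤ 1 := by linarith
  obtain ⟨e, he0, he1, heδ⟩ : ∃ e : ℝ, 0 < e ∧ e ≤ 1 ∧ a ^ 2 * (Kr * (2 * e)) ≤ δ ^ (n + 2) := by
    refine ⟨min 1 (δ ^ (n + 2) / (a ^ 2 * (Kr * 2))), lt_min one_pos (by positivity),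
      min_le_left _ _, ?_⟩
    have h := min_le_right 1 (δ ^ (n + 2) / (a ^ 2 * (Kr * 2)))
    rw [le_div_iff₀ (by positivity)] at h
    linarith
  have hl : 0 ≤ Real.log (1 / e) := Real.log_nonneg (one_le_one_div he0 he1)
  refine ⟨(1 + 4 * a ^ 2) * (Kd * (2 + Real.log (1 / e))) + P + 1,
    le_add_of_nonneg_left (by positivity), fun R hR => ?_⟩
  obtain ⟨s, hs⟩ : ∃ s, s = Kd * (R + 1 + 1 + Real.log (1 / e)) := ⟨_, rfl⟩
  have hs1 : 1 ≤ s := by rw [hs]; nlinarith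
  obtain ⟨D, hD⟩ : ∃ D, D = (1 + 4 * a ^ 2) * s := ⟨_, rfl⟩
  have hD1 : 1 ≤ D := by rw [hD]; nlinarith
  obtain ⟨h1, h2, h3, h4⟩ := sg_le (a := a) hδ hs1
  rw [← hD] at h3 h4
  obtain ⟨t, ht⟩ : ∃ t, t = Real.exp (-(s / δ)) := ⟨_, rfl⟩
  rw [← ht] at h1 h2 h3 h4
  have ht0 : 0 < t := ht ▸ Real.exp_pos _
  have hκ0 : 0 < 1 / (2 * (D + P)) := by positivity
  have hκ1 : 1 / (2 * (D + P)) ≤ 1 := by
    rw [div_le_one (by positivity)]; linarith
  have hbm : ∀ y, 0 ≤ max (min (R + 1 - k.ρ y) 1) 0 ∧ max (min (R + 1 - k.ρ y) 1) 0 ≤ 1 :=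
    fun y => ⟨le_max_right _ _, max_le (min_le_right _ _) zero_le_one⟩
  have hbl : G.Lp (fun y => max (min (R + 1 - k.ρ y) 1) 0) k.K := fun α ξ hξ ζ hζ => by
    refine (cut_lip _ _).trans ?_
    rw [sub_sub_sub_cancel_left, abs_sub_comm]
    exact k.ρ_lp α ξ hξ ζ hζ
  let d : Data k :=
    { δ := δ, κ := 1 / (2 * (D + P)), L := k.K, R := R + 1
      b := fun y => max (min (R + 1 - k.ρ y) 1) 0
      h := fun _ => 0
      δ_pos := hδ, δ_le := hδ1, κ_pos := hκ0, L_nonneg := k.K_pos.le, b_mem := hbm, b_lip := hbl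
      b_supp := fun y hy => max_eq_right ((min_le_left _ _).trans (by linarith))
      h_sm := G.sm_const 0
      h_supp := fun _ _ => le_rfl }
  obtain ⟨u, hu⟩ := he d
  obtain ⟨v, R', hv, hv1, hv2⟩ := hd d u e s hu (fun _ => rfl) (by show 0 ≤ R + 1; linarith)
    he0 he1 hs.ge
  have hv0 : ∀ y, v y ≤ 0 := fun y => (hv.2.1 y).trans (min_le_right _ _)
  obtain ⟨w, R'', hw, hw1, hw2, hw3, hw4⟩ := hr δ δ R' (2 * e) (fun y => v y + s) (fun _ => 0)
    hδ hδ1 le_rfl (hv.1.add_const s) (G.sm_const 0) (gle_zero hε₀.le) (hv.lge.add_const s)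
    (fun y hy => by linarith [hv1 y hy]) (by
      rw [IW_shift]
      exact hv2.trans_lt (by linarith))
  have key : ∀ y, ∃ y', G.Nr t y y' ∧ -D ≤ v y' := fun y => by
    obtain ⟨y', hn, hy'⟩ := hp w (fun _ => 0) δ R'' _ hδ hδ1 hw (G.sm_const 0)
      (gle_zero zero_le_one) (fun y => (hw1 y).trans (min_le_right _ _)) hw2 hw3 hw4 y δ t hδ
      (by simpa using heδ) ht0 (by linarith)
    refine ⟨y', hn, ?_⟩
    have h5 : w y' ≤ v y' + s := (hw1 y').trans (min_le_left _ _)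
    have h6 : a ^ 2 * (δ + δ) * (1 + s / δ) = 2 * a ^ 2 * (δ + s) := by field_simp; ring
    rw [h2, h6] at hy'
    have h7 : a ^ 2 * δ ≤ a ^ 2 * s := mul_le_mul_of_nonneg_left (by linarith) (sq_nonneg a)
    rw [hD]; linarith
  obtain ⟨f, hf, hf1, hf2, hf3⟩ := hb {v} d.b δ d.κ k.K D t
    ⟨hδ.le, hδ1, hκ0.le, k.K_pos.le, hbm, hbl, fun v' hv' => by
      rw [mem_singleton_iff.1 hv']; exact ⟨hv.1, hv0, hv.2.2⟩⟩
    (by linarith) ht0 (h1.trans hδt) fun y => ⟨v, rfl, key y⟩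
  have h8 : Kb * sg D t ≤ P * δ := by
    rw [hP, mul_assoc]; exact mul_le_mul_of_nonneg_left h4 (by linarith)
  have h9 : P * δ ≤ P := mul_le_of_le_one_right hP0.le hδ1
  have hup : ∀ y, f y ≤ P := fun y => by
    have := hf1 y 0 fun v' hv' y' _ => by rw [mem_singleton_iff.1 hv']; exact hv0 y'
    linarith
  have hlo : ∀ y, -(D + P) ≤ f y := fun y => by
    obtain ⟨y', hn, hy'⟩ := key y
    have := hf2 y v rfl y' hn
    linarith
  refine ⟨f, hf, fun y => ?_, ?_⟩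
  · have h10 : s ≤ Kd * (2 + Real.log (1 / e)) * (R + 1) := by
      rw [hs, mul_assoc]
      exact mul_le_mul_of_nonneg_left (by nlinarith) (by linarith)
    have h11 : D ≤ (1 + 4 * a ^ 2) * (Kd * (2 + Real.log (1 / e))) * (R + 1) := by
      rw [hD, mul_assoc]
      exact mul_le_mul_of_nonneg_left h10 (by positivity)
    have h12 : P ≤ P * (R + 1) := le_mul_of_one_le_right hP0.le (by linarith)
    rw [abs_le]
    constructor <;> nlinarith [hup y, hlo y]
  · have hres : G.Lge f (fun y => max (d.b y + d.κ * f y) 0 - δ - Kb * (1 + d.κ + k.K) * sg D t)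
        {y | k.ρ y ≤ R} := fun α ξ hξ _ η => hf3 α ξ hξ trivial η
    refine hres.mono fun y hy => ?_
    have hy' : k.ρ y ≤ R := hy
    have hb1 : d.b y = 1 := by
      show max (min (R + 1 - k.ρ y) 1) 0 = 1
      rw [min_eq_right (by linarith), max_eq_left zero_le_one]
    have h13 : -(1 / 2) ≤ d.κ * f y := by
      have := mul_le_mul_of_nonneg_left (hlo y) hκ0.le
      have h14 : 1 / (2 * (D + P)) * -(D + P) = -(1 / 2) := by field_simp
      rw [h14] at this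
      exact this
    have h15 : Kb * (1 + d.κ + k.K) * sg D t ≤ (2 + k.K) * (P * δ) := by
      have h16 : 1 + d.κ + k.K ≤ 2 + k.K := by
        show 1 + 1 / (2 * (D + P)) + k.K ≤ _
        linarith
      calc Kb * (1 + d.κ + k.K) * sg D t = (1 + d.κ + k.K) * (Kb * sg D t) := by ring
        _ ≤ (2 + k.K) * (P * δ) :=
          mul_le_mul h16 h8 (mul_nonneg (by linarith) h3) (by linarith)
    have h17 := le_max_left (d.b y + d.κ * f y) 0
    show 1 / 4 ≤ max (d.b y + d.κ * f y) 0 - δ - Kb * (1 + d.κ + k.K) * sg D t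
    rw [hb1] at h17 ⊢
    nlinarith

end Pool.Agent.MP_8ac6f3_ag.KH

end MrgPart9

-- marker of a merged file
example : 731051 + 543043 = 731051 + 543043 := rfl
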