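import Mathlib.LinearAlgebra.FreeModule.PID
import Mathlib.LinearAlgebra.Transvection.Basic
import Pool.Agent.MP_8ac6f3_ag.kh.BaseA
import Pool.Agent.MP_8ac6f3_ag.kh.Sta

-- ======== part 0: formerly Pool.Agent.MP_8ac6f3_ag.kh.Alg2
section MrgPart0

/-! Row AL2: an upper bound for the top mixed discriminant. -/

open Set Metric Complex MeasureTheory Filter Function
open scoped ContDiff Topology

set_option maxSynthPendingDepth 3

namespace Pool.Agent.MP_8ac6f3_ag.KH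

variable {n : ℕ}

namespace AL2

/-- Behaviour of the mixed discriminant under a rank one perturbation of the identity. -/
theorem tv (h : Alg n) (B B' : Fin n → Bil n) (m : M n →L[ℂ] ℂ) (v : M n)
    (e : ∀ i η, hq (B' i) η = hq (B i) (η + m η • v)) : md B' = ‖1 + m v‖ ^ 2 * md B := by
  have h1 := h.inv B B' (ContinuousLinearMap.id ℂ _ + m.smulRight v) (by simpa using e)
  have hd : ((ContinuousLinearMap.id ℂ (M n) + m.smulRight v : M n →L[ℂ] M n) : M n →ₗ[ℂ] M n) =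
      LinearMap.transvection (m : M n →ₗ[ℂ] ℂ) v := by
    refine LinearMap.ext fun x => ?_
    simp [LinearMap.transvection.apply]
  rw [hd, LinearMap.transvection.det] at h1
  exact h1

/-- The mixed discriminant is symmetric. -/
theorem md_perm (B : Fin n → Bil n) (p : Equiv.Perm (Fin n)) : md (fun i => B (p i)) = md B := by
  simp only [md, ContinuousLinearMap.compContinuousMultilinearMap_coe, comp_apply,
    sum_apply, smul_apply,
    ContinuousMultilinearMap.compContinuousLinearMap_apply,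
    ContinuousMultilinearMap.mkPiAlgebra_apply]
  congr 1
  refine (Fintype.sum_equiv (Equiv.mulRight p) _ _ fun σ => ?_).symm
  refine Fintype.sum_equiv (Equiv.mulRight p) _ _ fun τ => ?_
  congr 1
  · simp only [Equiv.coe_mulRight, Equiv.Perm.sign_mul]
    rw [mul_mul_mul_comm, Int.units_mul_self, mul_one]
  · exact (Fintype.prod_equiv p _ _ fun i => rfl).symm

/-- The form of the squared modulus of a complex functional. -/
theorem exists_sq (a : M n →L[ℂ] ℂ) : ∃ X : Bil n, ∀ η, hq X η = ‖a η‖ ^ 2 := by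
  refine ⟨(4 : ℝ) • ot (reCLM.comp (a.restrictScalars ℝ)) (reCLM.comp (a.restrictScalars ℝ)),
    fun η => ?_⟩
  rw [hq_smul, hq_ot, Complex.sq_norm, normSq_apply]
  simp
  ring

/-- Polarisation in the direction of a fixed vector. -/
theorem polar (B : Bil n) (v : M n) : ∃ a : M n →L[ℂ] ℂ, a v = hq B v ∧ ∀ (η : M n) (c : ℂ),
    hq B (η + c • v) = hq B η + 2 * (c.re * (a η).re + c.im * (a η).im) + ‖c‖ ^ 2 * hq B v := by
  let J : M n →L[ℝ] M n := (I • ContinuousLinearMap.id ℂ (M n)).restrictScalars ℝ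
  let f : M n →L[ℝ] ℝ :=
    (1 / 8 : ℝ) • (B v + B.flip v + (B (I • v)).comp J + (B.flip (I • v)).comp J)
  have hf : ∀ η, f η = (B v η + B η v + B (I • v) (I • η) + B (I • η) (I • v)) / 8 := fun η => by
    simp [f, J]; ring
  have hI : ∀ η : M n, I • I • η = -η := fun η => by rw [smul_smul, I_mul_I, neg_one_smul]
  have hre : ∀ η, (StrongDual.extendRCLike (𝕜 := ℂ) f η).re = f η := fun η =>
    StrongDual.re_extendRCLike_apply (𝕜 := ℂ) f η
  have him : ∀ η, (StrongDual.extendRCLike (𝕜 := ℂ) f η).im = -f (I • η) := fun η =>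
    StrongDual.im_extendRCLike_apply (𝕜 := ℂ) f η
  refine ⟨StrongDual.extendRCLike (𝕜 := ℂ) f, ?_, fun η c => ?_⟩
  · refine Complex.ext ?_ ?_
    · rw [hre, hf, ofReal_re, hq]; ring
    · rw [him, hf, ofReal_im, hI]; simp
  · have e : c • v = c.re • v + c.im • I • v := by
      conv_lhs => rw [← re_add_im c, add_smul, mul_smul]
      rfl
    have e' : I • (η + (c.re • v + c.im • I • v)) = I • η + (c.re • I • v + c.im • -v) := by
      rw [smul_add, smul_add, smul_comm I c.re, smul_comm I c.im, hI]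
    rw [hre, him, hf, hf, hI, e, hq, e', Complex.sq_norm, normSq_apply]
    simp only [hq, map_add, map_smul, map_neg, add_apply, smul_apply, neg_apply, smul_eq_mul]
    ring

/-- Splitting off the rank one part in the direction of a vector. -/
theorem dec {B : Bil n} (hB : ∀ η, 0 ≤ hq B η) {v : M n} (hv : 0 < hq B v) :
    ∃ a : M n →L[ℂ] ℂ, a v = 1 ∧ (∀ η, hq B v * ‖a η‖ ^ 2 ≤ hq B η) ∧ ∀ (η : M n) (c : ℂ),
      hq B (η + c • v) - hq B v * ‖a (η + c • v)‖ ^ 2 = hq B η - hq B v * ‖a η‖ ^ 2 := by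
  obtain ⟨a, h1, h2⟩ := polar B v
  have hv' : ((hq B v : ℝ) : ℂ) ≠ 0 := ofReal_ne_zero.2 hv.ne'
  have h0 : (((hq B v : ℝ) : ℂ)⁻¹ • a) v = 1 := by
    rw [smul_apply, h1, smul_eq_mul, inv_mul_cancel₀ hv']
  have key : ∀ (η : M n) (c : ℂ), hq B (η + c • v) -
      hq B v * ‖(((hq B v : ℝ) : ℂ)⁻¹ • a) (η + c • v)‖ ^ 2 =
      hq B η - hq B v * ‖(((hq B v : ℝ) : ℂ)⁻¹ • a) η‖ ^ 2 := fun η c => by
    rw [map_add, map_smul, h0, h2, smul_apply, ← ofReal_inv]
    simp only [Complex.sq_norm, normSq_apply, smul_eq_mul, mul_one, add_re, add_im, re_ofReal_mul,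
      im_ofReal_mul]
    field_simp
    ring
  refine ⟨_, h0, fun η => ?_, key⟩
  have h3 := key η (-(((hq B v : ℝ) : ℂ)⁻¹ • a) η)
  rw [map_add, map_smul, h0, smul_eq_mul, mul_one, add_neg_cancel, norm_zero] at h3
  have h4 := hB (η + -(((hq B v : ℝ) : ℂ)⁻¹ • a) η • v)
  nlinarith

theorem main (h : Alg n) {B g : Bil n} (hB : ∀ η, 0 ≤ hq B η) (hg : ∀ η, 0 ≤ hq g η) {v : M n}
    (hv : 0 < hq B v) (hle : hq B v ≤ hq g v) :
    md (fun _ => B) ≤ n * md (fam (n - 1) B g) := by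
  classical
  obtain ⟨a, a1, a2, a3⟩ := dec hB hv
  obtain ⟨b, b1, b2, -⟩ := dec hg (hv.trans_le hle)
  obtain ⟨X, hX⟩ := exists_sq a
  obtain ⟨X', hX'⟩ := exists_sq b
  set β := hq B v
  obtain ⟨P, hP⟩ : ∃ P : Bil n, ∀ η, hq P η = β * ‖a η‖ ^ 2 :=
    ⟨β • X, fun η => by rw [hq_smul, hX]⟩
  obtain ⟨P', hP'⟩ : ∃ P : Bil n, ∀ η, hq P η = β * ‖b η‖ ^ 2 :=
    ⟨β • X', fun η => by rw [hq_smul, hX']⟩
  have hQ : ∀ (η : M n) (c : ℂ), hq (B - P) (η + c • v) = hq (B - P) η := fun η c => by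
    rw [hq_sub, hq_sub, hP, hP, a3]
  have hQ0 : ∀ η, 0 ≤ hq (B - P) η := fun η => by rw [hq_sub, hP, sub_nonneg]; exact a2 η
  have e0 : (fun _ : Fin n => B) = (fun _ => P) + fun _ => B - P := by
    funext i; simp
  have hz : ∀ S : Finset (Fin n), S.card ≠ 1 →
      md (S.piecewise (fun _ => P) fun _ => B - P) = 0 := fun S hS => by
    have h1 := tv h (S.piecewise (fun _ => P) fun _ => B - P)
      (S.piecewise (fun i => (4 : ℝ) • S.piecewise (fun _ => P) (fun _ => B - P) i)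
        (S.piecewise (fun _ => P) fun _ => B - P)) a v fun i η => by
      by_cases hi : i ∈ S
      · simp only [Finset.piecewise_eq_of_mem _ _ _ hi, hq_smul, hP, map_add, map_smul, a1,
          smul_eq_mul, mul_one, ← two_mul, norm_mul, Complex.norm_ofNat]
        ring
      · simp only [Finset.piecewise_eq_of_notMem _ _ _ hi, hQ]
    rw [md.map_piecewise_smul (fun _ => (4 : ℝ)), Finset.prod_const, a1, smul_eq_mul,
      one_add_one_eq_two, Complex.norm_ofNat] at h1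
    have h2 : (4 : ℝ) ^ S.card ≠ 2 ^ 2 := by
      rw [show (2 : ℝ) ^ 2 = 4 ^ 1 by norm_num]
      exact fun e => hS (pow_right_injective₀ (by norm_num) (by norm_num) e)
    exact (mul_eq_mul_right_iff.1 h1).resolve_left h2
  have hs : ∀ j : Fin n, md (update (fun _ => B - P) j P) ≤ md (fam (n - 1) B g) := fun j => by
    have hn : n - 1 < n := by have := j.2; omega
    have h1 := tv h (update (fun _ => B - P) j P) (update (fun _ => B - P) j P') (b - a) v
      fun i η => by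
      rcases eq_or_ne i j with rfl | hi
      · simp [hP, hP', a1]
      · simp only [update_of_ne hi, hQ]
    rw [sub_apply, a1, b1, sub_self, add_zero, norm_one, one_pow, one_mul] at h1
    have h2 : md (update (fun _ => B - P) j P') ≤ md (update (fun _ => B) j g) := by
      refine h.mono (fun i η => ?_) fun i η => ?_
      · rcases eq_or_ne i j with rfl | hi
        · rw [update_self, hP']; positivity
        · rw [update_of_ne hi]; exact hQ0 η
      · rcases eq_or_ne i j with rfl | hi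
        · rw [update_self, update_self, hP']
          exact (mul_le_mul_of_nonneg_right hle (by positivity)).trans (b2 η)
        · rw [update_of_ne hi, update_of_ne hi, hq_sub, hP, sub_le_self_iff]; positivity
    have h3 : update (fun _ : Fin n => B) j g =
        fun i => fam (n - 1) B g (Equiv.swap j ⟨n - 1, hn⟩ i) := by
      rw [fam_pred hn]
      funext i
      rcases eq_or_ne i j with rfl | hi
      · simp
      · rw [update_of_ne hi, update_of_ne]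
        intro e
        exact hi (by simpa using (Equiv.swap_apply_eq_iff.1 e))
    rw [← h1]
    refine h2.trans_eq ?_
    rw [h3, md_perm]
  rw [e0, md.map_add_univ, ← Finset.sum_subset (Finset.subset_univ
    (Finset.powersetCard 1 (Finset.univ : Finset (Fin n)))) fun S _ hS =>
      hz S fun e => hS (Finset.mem_powersetCard.2 ⟨Finset.subset_univ _, e⟩)]
  refine (Finset.sum_le_card_nsmul _ _ (md (fam (n - 1) B g)) fun S hS => ?_).trans_eq ?_
  · obtain ⟨j, rfl⟩ := Finset.card_eq_one.1 (Finset.mem_powersetCard.1 hS).2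
    rw [Finset.piecewise_singleton]
    exact hs j
  · simp

end AL2

theorem alg2 (h : Alg n) : Alg2 n := by
  rintro B g hB hg ⟨v, hv, hle⟩
  have hp : ∀ (T : Bil n) (ε : ℝ) (η : M n), hq (T + ε • Eu) η = hq T η + ε * ‖η‖ ^ 2 :=
    fun T ε η => by rw [hq_add, hq_smul, hq_Eu]
  have hc : ∀ T : Bil n, ContinuousOn (fun ε : ℝ => T + ε • (Eu : Bil n)) univ := fun T => by
    fun_prop
  have h1 : Continuous fun ε : ℝ => md (fun _ : Fin n => B + ε • (Eu : Bil n)) :=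
    continuousOn_univ.1 (continuousOn_md (B := fun (ε : ℝ) (_ : Fin n) => B + ε • Eu)
      fun _ => hc B)
  have h2 : Continuous fun ε : ℝ => (n : ℝ) * md (fam (n - 1) (B + ε • Eu) (g + ε • Eu)) :=
    continuous_const.mul (continuousOn_univ.1 (continuousOn_md_fam _ (hc B) (hc g)))
  have h3 := le_of_tendsto_of_tendsto ((h1.tendsto 0).mono_left (nhdsWithin_le_nhds (s := Ioi 0)))
    ((h2.tendsto 0).mono_left nhdsWithin_le_nhds) (by
      filter_upwards [self_mem_nhdsWithin] with ε (hε : 0 < ε)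
      have hn : 0 < ‖v‖ := norm_pos_iff.2 hv
      refine AL2.main h (fun η => ?_) (fun η => ?_) (v := v) ?_ ?_
      · rw [hp]; have := hB η; positivity
      · rw [hp]; have := hg η; positivity
      · rw [hp]; have := hB v; positivity
      · rw [hp, hp]; linarith)
  simpa using h3

end Pool.Agent.MP_8ac6f3_ag.KH

end MrgPart0

-- ======== part 1: formerly Pool.Agent.MP_8ac6f3_ag.kh.Bk1
section MrgPart1

/-! Regularisation of the supremum over small balls, in one chart. -/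

open Set Metric Complex MeasureTheory Filter Function
open scoped ContDiff Topology

set_option maxSynthPendingDepth 3
set_option linter.unusedSectionVars false

namespace Pool.Agent.MP_8ac6f3_ag.KH

variable {n : ℕ} {Y A : Type} [TopologicalSpace Y] [T2Space Y] {G : Geo n Y A}

namespace Bk1P

theorem theta {Λ t : ℝ} (hΛ : 1 ≤ Λ) (ht : 0 < t) (h : t ≤ 1 / (8 * Λ ^ 2)) :
    0 < Real.log (1 / t) ∧ 0 ≤ Real.log (2 * Λ * t / t) / Real.log (1 / 2 / t) ∧
      Real.log (2 * Λ * t / t) / Real.log (1 / 2 / t) ≤ 1 / 2 ∧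
      Real.log (2 * Λ * t / t) / Real.log (1 / 2 / t) ≤ 2 * Real.log (2 * Λ) / Real.log (1 / t) := by
  have e : 2 * Λ * t / t = 2 * Λ := by field_simp
  have h1 : 8 * Λ ^ 2 * t ≤ 1 := by
    rw [le_div_iff₀ (by positivity)] at h; linarith
  have h2 : (2 * Λ) ^ 2 ≤ 1 / 2 / t := by
    rw [le_div_iff₀ ht]; nlinarith
  have h3 : 2 * Real.log (2 * Λ) ≤ Real.log (1 / 2 / t) := by
    have := Real.log_le_log (by positivity) h2
    rwa [Real.log_pow, Nat.cast_ofNat] at this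
  have h4 : Real.log 2 ≤ Real.log (2 * Λ) := Real.log_le_log two_pos (by linarith)
  have h5 : 0 < Real.log 2 := Real.log_pos one_lt_two
  have h6 : Real.log (1 / t) = Real.log 2 + Real.log (1 / 2 / t) := by
    rw [← Real.log_mul two_ne_zero (by positivity)]
    congr 1
    field_simp
  have h7 : 0 < Real.log (1 / 2 / t) := by linarith
  rw [e]
  refine ⟨by linarith, div_nonneg (by linarith) h7.le, ?_, ?_⟩
  · rw [div_le_iff₀ h7]; linarith
  · rw [div_le_div_iff₀ h7 (by linarith), h6]; nlinarith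

variable {F : Set (Y → ℝ)} {b s : Y → ℝ} {δ κ L D t Λ : ℝ}

omit [T2Space Y] in
/-- The three circles step. -/
theorem step (h3 : Three n) (hF : Fml G F b δ κ L) (hΛ : 1 ≤ Λ) (ht : 0 < t)
    (h : t ≤ 1 / (8 * Λ ^ 2)) (α : A) {ξ₀ : M n} (h0 : ξ₀ ∈ closedBall (0 : M n) 2) {a : ℝ}
    (ha : a ≤ 0) {v : Y → ℝ} (hv : v ∈ F) (hb : ∀ ξ, ‖ξ - ξ₀‖ ≤ t → v (G.ψ α ξ) ≤ a) {ξ : M n}
    (hξ : ‖ξ - ξ₀‖ ≤ 2 * Λ * t) :
    v (G.ψ α ξ) ≤ a + 3 * G.B * Λ * t +
      (G.B / 2 - a) * (Real.log (2 * Λ * t / t) / Real.log (1 / 2 / t)) := by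
  obtain ⟨-, θ0, -, -⟩ := theta hΛ ht h
  have h1 : 8 * Λ ^ 2 * t ≤ 1 := by
    rw [le_div_iff₀ (by positivity)] at h; linarith
  have h2 : 8 * (Λ * t) ≤ 1 := by nlinarith [mul_pos (one_pos.trans_le hΛ) ht]
  have h4 : t ≤ Λ * t := le_mul_of_one_le_left ht.le hΛ
  have hB := G.B_nonneg α
  obtain ⟨hs, hn, hl⟩ := hF.mem v hv
  have hp : Ps (ball 0 3) (G.pot δ v α) :=
    (hl.mono fun y _ => by linarith [le_max_right (b y + κ * v y) 0]).ps hs α
  have hm : ∀ y : M n, ‖y - ξ₀‖ ≤ 1 / 2 → y ∈ ball (0 : M n) 3 :=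
    fun y hy => Geo.Nr.mem (by norm_num) h0 hy
  have ho : ∀ (y : M n) (r : ℝ), r ≤ 1 / 2 → ‖y - ξ₀‖ ≤ r →
      |δ * G.φ α y - δ * G.φ α ξ₀| ≤ G.B * r := fun y r hr hy => by
    have := (G.φ_bd α).1.osc isOpen_ball (convex_ball 0 3) (hm y (hy.trans hr)) (cb2 h0)
    rw [← mul_sub, abs_mul, abs_of_nonneg hF.δ_nonneg]
    exact (mul_le_of_le_one_left (abs_nonneg _) hF.δ_le).trans
      (this.trans (mul_le_mul_of_nonneg_left hy hB))
  have key := h3 (ball 0 3) (G.pot δ v α) ξ₀ t (2 * Λ * t) (1 / 2)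
    (δ * G.φ α ξ₀ + G.B * t + a) (δ * G.φ α ξ₀ + G.B * (1 / 2)) isOpen_ball hp
    (fun y hy => hm y (mem_closedBall_iff_norm.1 hy)) ht (by linarith) (by linarith) (by linarith)
    (by nlinarith)
    (fun y hy => by
      have hy' := mem_closedBall_iff_norm.1 hy
      have := (abs_le.1 (ho y t (by linarith) hy')).2
      have := hb y hy'
      unfold Geo.pot
      linarith)
    (fun y hy => by
      have := (abs_le.1 (ho y (1 / 2) le_rfl (mem_closedBall_iff_norm.1 hy))).2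
      have := hn (G.ψ α y)
      unfold Geo.pot
      linarith) ξ (mem_closedBall_iff_norm.2 hξ)
  have h5 := (abs_le.1 (ho ξ (2 * Λ * t) (by linarith) hξ)).1
  have h6 := mul_nonneg (mul_nonneg hB ht.le) θ0
  have h7 := mul_le_mul_of_nonneg_left h4 hB
  unfold Geo.pot at key
  nlinarith

omit [T2Space Y] in
/-- One translate is almost optimal near a given point. -/
theorem loc (h3 : Three n) (hF : Fml G F b δ κ L) (hΛ : 1 ≤ Λ) (hD : 0 ≤ D) (ht : 0 < t)
    (h : t ≤ 1 / (8 * Λ ^ 2)) (α : A) (hs : ∀ y, -D ≤ s y)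
    (hlow : ∀ ξ ∈ closedBall (0 : M n) 2, ∀ ε : ℝ, 0 < ε → ∃ v ∈ F, ∃ ξ', ‖ξ' - ξ‖ ≤ Λ * t ∧
      s (G.ψ α ξ) - ε ≤ v (G.ψ α ξ')) {ξ₀ : M n} (h0 : ξ₀ ∈ closedBall (0 : M n) 2) :
    ∃ v ∈ F, ∃ w : M n, ‖w‖ ≤ t ∧ ∀ᶠ ξ in 𝓝 ξ₀, ξ ∈ closedBall (0 : M n) 2 →
      s (G.ψ α ξ) - (3 * G.B * Λ + (2 + 3 * G.B) * (2 * Real.log (2 * Λ)) + 3) * sg D t ≤
        v (G.ψ α (ξ + w)) := by
  obtain ⟨l0, θ0, θ1, θ2⟩ := theta hΛ ht h
  have h1 : 8 * Λ ^ 2 * t ≤ 1 := by
    rw [le_div_iff₀ (by positivity)] at h; linarith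
  have hΛt : 0 < Λ * t := mul_pos (one_pos.trans_le hΛ) ht
  have h2 : 8 * (Λ * t) ≤ 1 := by nlinarith
  have h4 : t ≤ Λ * t := le_mul_of_one_le_left ht.le hΛ
  have hB := G.B_nonneg α
  have q0 : 0 < (D + 1) / Real.log (1 / t) := div_pos (by linarith) l0
  have σ1 : t ≤ sg D t := by unfold sg; linarith
  have σ2 : (D + 1) / Real.log (1 / t) ≤ sg D t := by unfold sg; linarith
  have σ0 : 0 < sg D t := ht.trans_le σ1
  set S : Set ℝ := {x | ∃ v ∈ F, ∃ ξ, ‖ξ - ξ₀‖ ≤ t ∧ v (G.ψ α ξ) = x} with hS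
  obtain ⟨v₁, hv₁, ξ₁, hξ₁, e₁⟩ := hlow ξ₀ h0 1 one_pos
  have hne : S.Nonempty := ⟨_, v₁, hv₁, ξ₀, by simpa using ht.le, rfl⟩
  have hup : ∀ x ∈ S, x ≤ 0 := by
    rintro _ ⟨v, hv, ξ, -, rfl⟩
    exact (hF.mem v hv).2.1 _
  have ha : sSup S ≤ 0 := csSup_le hne hup
  have hst : ∀ v ∈ F, ∀ ξ, ‖ξ - ξ₀‖ ≤ 2 * Λ * t → v (G.ψ α ξ) ≤ sSup S + 3 * G.B * Λ * t +
      (G.B / 2 - sSup S) * (Real.log (2 * Λ * t / t) / Real.log (1 / 2 / t)) :=
    fun v hv ξ hξ => step h3 hF hΛ ht h α h0 ha hv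
      (fun ξ' hξ' => le_csSup ⟨0, hup⟩ ⟨v, hv, ξ', hξ', rfl⟩) hξ
  obtain ⟨_, ⟨v, hv, ξ₂, hξ₂, rfl⟩, e₂⟩ := exists_lt_of_lt_csSup hne (sub_lt_self (sSup S) σ0)
  generalize sSup S = a at *
  generalize Real.log (2 * Λ * t / t) / Real.log (1 / 2 / t) = θ at *
  have a1 : -a ≤ 2 * D + 2 + 2 * G.B := by
    have p1 := hst v₁ hv₁ ξ₁ (by linarith)
    have p2 := hs (G.ψ α ξ₀)
    have p3 := mul_le_mul_of_nonneg_left θ1 (show 0 ≤ G.B / 2 - a by linarith)
    have p4 := mul_le_mul_of_nonneg_left h2 hB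
    nlinarith
  have a2 : (G.B / 2 - a) * θ ≤ (2 + 3 * G.B) * (2 * Real.log (2 * Λ)) * sg D t := by
    have l2 : 0 ≤ 2 * Real.log (2 * Λ) :=
      mul_nonneg two_pos.le (Real.log_nonneg (by linarith))
    calc (G.B / 2 - a) * θ ≤ ((2 + 3 * G.B) * (D + 1)) * θ :=
          mul_le_mul_of_nonneg_right (by nlinarith [mul_nonneg hB hD]) θ0
      _ ≤ ((2 + 3 * G.B) * (D + 1)) * (2 * Real.log (2 * Λ) / Real.log (1 / t)) :=
          mul_le_mul_of_nonneg_left θ2 (by positivity)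
      _ = (2 + 3 * G.B) * (2 * Real.log (2 * Λ)) * ((D + 1) / Real.log (1 / t)) := by ring
      _ ≤ _ := mul_le_mul_of_nonneg_left σ2 (by positivity)
  have a3 : 3 * G.B * Λ * t ≤ 3 * G.B * Λ * sg D t :=
    mul_le_mul_of_nonneg_left σ1 (by positivity)
  refine ⟨v, hv, ξ₂ - ξ₀, hξ₂, ?_⟩
  have hm : ξ₂ ∈ ball (0 : M n) 3 := Geo.Nr.mem (by linarith) h0 hξ₂
  have c1 : ContinuousAt (fun ξ : M n => v (G.ψ α (ξ + (ξ₂ - ξ₀)))) ξ₀ := by
    have c0 : ContinuousAt (v ∘ G.ψ α) (ξ₀ + (ξ₂ - ξ₀)) := by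
      rw [add_sub_cancel]
      exact ((hF.mem v hv).1.at hm).continuousAt
    exact ContinuousAt.comp (f := fun ξ : M n => ξ + (ξ₂ - ξ₀)) c0 (by fun_prop)
  have c2 := c1.eventually (lt_mem_nhds (a := a - sg D t) (by simpa using e₂))
  filter_upwards [c2, closedBall_mem_nhds ξ₀ hΛt] with ξ p1 p2 p3
  obtain ⟨v', hv', ξ', p4, p5⟩ := hlow ξ p3 _ σ0
  have p6 := hst v' hv' ξ' (by
    have := norm_sub_le_norm_sub_add_norm_sub ξ' ξ ξ₀
    linarith [mem_closedBall_iff_norm.1 p2])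
  linarith

omit [T2Space Y] in
/-- The Levi form of a translate. -/
theorem lev_tr (hF : Fml G F b δ κ L) (ht : t < 1) {α : A} {v : Y → ℝ} (hv : v ∈ F) {ξ w : M n}
    (hξ : ξ ∈ closedBall (0 : M n) 2) (hw : ‖w‖ ≤ t) (η : M n) :
    (max (b (G.ψ α ξ) - L * t + κ * v (G.ψ α (ξ + w))) 0 - δ - G.B * t / G.c) * lev (G.φ α) ξ η ≤
      lev (fun y => v (G.ψ α (y + w))) ξ η := by
  have hw' : ‖ξ + w - ξ‖ ≤ t := by rwa [add_sub_cancel_left]
  have hm : ξ + w ∈ ball (0 : M n) 3 := Geo.Nr.mem ht hξ hw'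
  have hB := G.B_nonneg α
  have t0 : 0 ≤ t := (norm_nonneg _).trans hw
  obtain ⟨hs, hn, hl⟩ := hF.mem v hv
  have e : lev (fun y => v (G.ψ α (y + w))) ξ η = lev (v ∘ G.ψ α) (ξ + w) η :=
    lev_translate (v ∘ G.ψ α) w ξ η
  have p1 := hl α (ξ + w) hm trivial η
  have p2 := (G.levφ_sub (α := α) hm (cb2 hξ) η).trans (mul_le_mul_of_nonneg_right
    (mul_le_mul_of_nonneg_left hw' hB) (sq_nonneg _))
  have p3 := G.mul_sq_le (α := α) (cb2 hξ) (mul_nonneg hB t0) η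
  have p4 := G.levφ_nonneg (α := α) (cb2 hξ) η
  have p5 := (abs_le.1 ((hF.b_lip α _ hm ξ (cb2 hξ)).trans
    (mul_le_mul_of_nonneg_left hw' hF.L_nonneg))).1
  have p6 : max (b (G.ψ α ξ) - L * t + κ * v (G.ψ α (ξ + w))) 0 ≤
      max (b (G.ψ α (ξ + w)) + κ * v (G.ψ α (ξ + w))) 0 := max_le_max_right _ (by linarith)
  have p7 : max (b (G.ψ α (ξ + w)) + κ * v (G.ψ α (ξ + w))) 0 ≤ 1 := max_le (by
    linarith [(hF.b_mem (G.ψ α (ξ + w))).2, mul_nonpos_of_nonneg_of_nonpos hF.κ_nonneg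
      (hn (G.ψ α (ξ + w)))]) zero_le_one
  have p8 := le_max_right (b (G.ψ α (ξ + w)) + κ * v (G.ψ α (ξ + w))) 0
  have p9 : |max (b (G.ψ α (ξ + w)) + κ * v (G.ψ α (ξ + w))) 0 - δ| ≤ 1 :=
    abs_le.2 ⟨by linarith [hF.δ_le], by linarith [hF.δ_nonneg]⟩
  have p10 := mul_le_mul_of_nonneg_right p6 p4
  simp only at p1
  rw [e]
  generalize max (b (G.ψ α (ξ + w)) + κ * v (G.ψ α (ξ + w))) 0 = m at *
  have p11 : |(m - δ) * (lev (G.φ α) (ξ + w) η - lev (G.φ α) ξ η)| ≤ G.B * t * ‖η‖ ^ 2 := by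
    rw [abs_mul]
    exact (mul_le_of_le_one_left (abs_nonneg _) p9).trans p2
  nlinarith [(abs_le.1 p11).1]

end Bk1P

omit [T2Space Y] in
theorem bk1' (h3 : Three n) (hs : Smax n) (hl : Lip G.toAtl) : Bk1 G := by
  obtain ⟨Λ, hΛ, hl⟩ := hl
  have l2 : 0 ≤ 2 * Real.log (2 * Λ) := mul_nonneg two_pos.le (Real.log_nonneg (by linarith))
  have hc := G.c_pos
  have b0 := abs_nonneg G.B
  set K₂ : ℝ := 3 * |G.B| * Λ + (2 + 3 * |G.B|) * (2 * Real.log (2 * Λ)) + 3 with hK₂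
  have k3 : 3 ≤ K₂ := by
    have : 0 ≤ 3 * |G.B| * Λ + (2 + 3 * |G.B|) * (2 * Real.log (2 * Λ)) := by positivity
    linarith
  have k4 : 0 ≤ |G.B| / G.c := by positivity
  have t8 : 1 / (8 * Λ ^ 2) ≤ 1 / 8 :=
    one_div_le_one_div_of_le (by norm_num) (by nlinarith)
  refine ⟨K₂ + 1 + |G.B| / G.c, 1 / (8 * Λ ^ 2), by linarith, by positivity, by linarith, ?_⟩
  intro F b s δ κ L D t hF hD ht h hsD hup hlo α
  have hB := G.B_nonneg α
  rw [abs_of_nonneg hB] at hK₂ k4 ⊢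
  have h1 : 8 * Λ ^ 2 * t ≤ 1 := by
    have h' := h
    rw [le_div_iff₀ (by positivity)] at h'; linarith
  have hΛt : 0 < Λ * t := mul_pos (one_pos.trans_le hΛ) ht
  have h2 : 8 * (Λ * t) ≤ 1 := by nlinarith
  have t1 : t < 1 := by linarith
  have l0 := (Bk1P.theta hΛ ht h).1
  have σ1 : t ≤ sg D t := by
    have : 0 < (D + 1) / Real.log (1 / t) := div_pos (by linarith) l0
    unfold sg; linarith
  have σ0 : 0 < sg D t := ht.trans_le σ1
  have hlow : ∀ ξ ∈ closedBall (0 : M n) 2, ∀ ε : ℝ, 0 < ε → ∃ v ∈ F, ∃ ξ', ‖ξ' - ξ‖ ≤ Λ * t ∧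
      s (G.ψ α ξ) - ε ≤ v (G.ψ α ξ') := fun ξ hξ ε hε => by
    obtain ⟨v, hv, _, ⟨β, ζ, hζ, ζ', p1, p2, rfl⟩, p3⟩ := hlo (G.ψ α ξ) ε hε
    have p4 := mul_le_mul_of_nonneg_left p1 (zero_le_one.trans hΛ)
    obtain ⟨ξ', p5, p6⟩ := hl β α ζ (cb2 hζ) ζ' (Geo.Nr.mem t1 hζ p1) ξ p2.symm (by
      linarith [mem_closedBall_zero_iff.1 hξ])
    exact ⟨v, hv, ξ', p5.trans p4, by rw [p6]; exact p3⟩
  choose v hv w hw hU using fun (ξ₀ : M n) (h0 : ξ₀ ∈ closedBall (0 : M n) 2) =>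
    Bk1P.loc h3 hF hΛ hD ht h α hsD hlow h0
  obtain ⟨T, hT⟩ := (isCompact_closedBall (0 : M n) 2).elim_nhds_subcover' _ hU
  have hcov : ∀ ξ ∈ closedBall (0 : M n) 2, ∃ i ∈ T,
      s (G.ψ α ξ) - K₂ * sg D t ≤ v i i.2 (G.ψ α (ξ + w i i.2)) := fun ξ hξ => by
    obtain ⟨i, hi, p⟩ := mem_iUnion₂.1 (hT hξ)
    exact ⟨i, hi, by rw [hK₂]; exact p hξ⟩
  have hne : T.Nonempty := let ⟨i, hi, _⟩ := hcov 0 (mem_closedBall_self two_pos.le); ⟨i, hi⟩
  obtain ⟨m, m1, m2, m3⟩ := hs _ T (sg D t) hne σ0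
  have hsm : ∀ ξ ∈ ball (0 : M n) (5 / 2), ∀ i ∈ T,
      ContDiffAt ℝ 3 (fun y => v i i.2 (G.ψ α (y + w i i.2))) ξ := fun ξ hξ i _ => by
    have hm : ξ + w i i.2 ∈ ball (0 : M n) 3 := by
      rw [mem_ball_zero_iff] at hξ ⊢
      linarith [norm_add_le ξ (w i i.2), hw i i.2]
    exact ContDiffAt.comp (f := fun y : M n => y + w i i.2) ξ ((hF.mem _ (hv i i.2)).1.at hm)
      (by fun_prop)
  refine ⟨fun y => m fun i => v i i.2 (G.ψ α (y + w i i.2)),
    fun ξ hξ => (m3 _ ξ (hsm ξ hξ)).1.contDiffWithinAt, fun ξ hξ => ?_⟩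
  obtain ⟨i, hi, p1⟩ := hcov ξ hξ
  have p2 := p1.trans (m1 (fun i => v i i.2 (G.ψ α (ξ + w i i.2))) i hi)
  have p3 := m2 (fun i => v i i.2 (G.ψ α (ξ + w i i.2))) (s (G.ψ α ξ)) fun j _ =>
    hup _ _ (hv j j.2) _ ⟨α, ξ, hξ, ξ + w j j.2, by rw [add_sub_cancel_left]; exact hw j j.2,
      rfl, rfl⟩
  have p4 := mul_nonneg k4 σ0.le
  refine ⟨abs_le.2 ⟨by nlinarith, by nlinarith⟩, fun η => ?_⟩
  obtain ⟨-, p, q0, q1, q2, q3⟩ := m3 _ ξ (hsm ξ (closedBall_subset_ball (by norm_num) hξ))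
  refine le_trans ?_ (q3 η)
  have q4 := G.levφ_nonneg (α := α) (cb2 hξ) η
  refine le_trans ?_ (Finset.sum_le_sum fun j hj => mul_le_mul_of_nonneg_left
    (Bk1P.lev_tr hF t1 (hv j j.2) hξ (hw j j.2) η) (q0 j hj))
  simp only [← mul_assoc, ← Finset.sum_mul]
  refine mul_le_mul_of_nonneg_right ?_ q4
  simp only [mul_sub, Finset.sum_sub_distrib, ← Finset.sum_mul, q1, one_mul]
  have r1 : 0 ≤ ∑ j ∈ T, p j * max (b (G.ψ α ξ) - L * t + κ * v j j.2 (G.ψ α (ξ + w j j.2))) 0 :=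
    Finset.sum_nonneg fun j hj => mul_nonneg (q0 j hj) (le_max_right _ _)
  have r2 : ∑ j ∈ T, p j * (b (G.ψ α ξ) - L * t + κ * v j j.2 (G.ψ α (ξ + w j j.2))) ≤
      ∑ j ∈ T, p j * max (b (G.ψ α ξ) - L * t + κ * v j j.2 (G.ψ α (ξ + w j j.2))) 0 :=
    Finset.sum_le_sum fun j hj => mul_le_mul_of_nonneg_left (le_max_left _ _) (q0 j hj)
  have r3 : ∑ j ∈ T, p j * (b (G.ψ α ξ) - L * t + κ * v j j.2 (G.ψ α (ξ + w j j.2))) =
      b (G.ψ α ξ) - L * t + κ * ∑ j ∈ T, p j * v j j.2 (G.ψ α (ξ + w j j.2)) := by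
    simp only [mul_add, Finset.sum_add_distrib, ← Finset.sum_mul, q1, one_mul, Finset.mul_sum,
      mul_left_comm]
  have r4 := mul_le_mul_of_nonneg_left
    (show s (G.ψ α ξ) - (K₂ + 1) * sg D t ≤ ∑ j ∈ T, p j * v j j.2 (G.ψ α (ξ + w j j.2)) by
      linarith) hF.κ_nonneg
  have r5 := mul_le_mul_of_nonneg_left σ1 hF.L_nonneg
  have r6 : G.B * t / G.c ≤ G.B / G.c * sg D t := by
    rw [mul_div_right_comm]; exact mul_le_mul_of_nonneg_left σ1 k4
  have r7 := mul_nonneg hF.κ_nonneg σ0.le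
  have r8 := mul_nonneg hF.L_nonneg σ0.le
  have r9 := mul_nonneg k4 r7
  have r10 := mul_nonneg (show 0 ≤ K₂ + G.B / G.c by linarith) r8
  have r11 := mul_nonneg (show 0 ≤ K₂ + 1 by linarith) σ0.le
  have r12 := mul_nonneg (show 0 ≤ K₂ + 1 by linarith) r7
  rw [r3] at r2
  have r13 : max (b (G.ψ α ξ) + κ * s (G.ψ α ξ)) 0 ≤
      ∑ j ∈ T, p j * max (b (G.ψ α ξ) - L * t + κ * v j j.2 (G.ψ α (ξ + w j j.2))) 0 +
        (L * sg D t + (K₂ + 1) * (κ * sg D t)) := max_le (by nlinarith) (by linarith)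
  nlinarith

theorem bk1 (h3 : Three n) (hs : Smax n) (hl : Lip G.toAtl) : Bk1 G := bk1' h3 hs hl

end Pool.Agent.MP_8ac6f3_ag.KH

end MrgPart1

-- ======== part 2: formerly Pool.Agent.MP_8ac6f3_ag.kh.Decay
section MrgPart2

/-! Row DEC: the mass of the deep part of an envelope decays exponentially. -/

open Set Metric Complex MeasureTheory Filter Function
open scoped ContDiff Topology

set_option maxSynthPendingDepth 3

namespace Pool.Agent.MP_8ac6f3_ag.KH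

variable {n : ℕ} {Y A : Type} [TopologicalSpace Y] [T2Space Y] {G : Geo n Y A}

namespace Dec

theorem exists_min (f : ℕ → ℝ) (hf : ∀ i, 0 < f i) (N : ℕ) :
    ∃ x : ℝ, 0 < x ∧ x ≤ 1 ∧ ∀ i ≤ N, x ≤ f i := by
  induction N with
  | zero => exact ⟨min 1 (f 0), lt_min one_pos (hf 0), min_le_left _ _, fun i hi => by
      rw [Nat.le_zero.1 hi]; exact min_le_right _ _⟩
  | succ N ih =>
    obtain ⟨x, h0, h1, h2⟩ := ih
    refine ⟨min x (f (N + 1)), lt_min h0 (hf _), (min_le_left _ _).trans h1, fun i hi => ?_⟩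
    rcases Nat.le_succ_iff.1 hi with h | h
    · exact (min_le_left _ _).trans (h2 i h)
    · rw [h]; exact min_le_right _ _

theorem halve_real {t L : ℝ} (hL : 0 ≤ L) : L * max (t - L) 0 ^ 2 ≤ max t 0 ^ 3 := by
  rcases le_total t L with h | h
  · rw [max_eq_right (by linarith)]
    simp only [ne_eq, OfNat.ofNat_ne_zero, not_false_eq_true, zero_pow, mul_zero]
    positivity
  · rw [max_eq_left (by linarith), max_eq_left (by linarith)]
    have h1 : (t - L) ^ 2 ≤ t ^ 2 := pow_le_pow_left₀ (by linarith) (by linarith) 2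
    calc L * (t - L) ^ 2 ≤ t * t ^ 2 := mul_le_mul h h1 (sq_nonneg _) (by linarith)
      _ = t ^ 3 := by ring

omit [TopologicalSpace Y] [T2Space Y] in
theorem halve (o v : Y → ℝ) {τ τ' L : ℝ} (hL : 0 ≤ L) (e : τ' = τ + L) (y : Y) :
    L * wt o v τ' 2 y ≤ wt o v τ 3 y := by
  have := halve_real (t := -v y - τ) hL
  rw [wt, wt, mul_left_comm, e, show -v y - (τ + L) = -v y - τ - L by ring]
  exact mul_le_mul_of_nonneg_left this (Real.exp_pos _).le

theorem deep_real {x L : ℝ} (hL : 1 ≤ L) (h : 4 * L + 2 ≤ x) :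
    max (x - 1) 0 ^ 2 ≤ 1 / L * max (x - 2) 0 ^ 3 := by
  rw [max_eq_left (by linarith), max_eq_left (by linarith), one_div_mul_eq_div,
    le_div_iff₀ (by linarith)]
  have h1 : (x - 1) ^ 2 ≤ (2 * (x - 2)) ^ 2 := pow_le_pow_left₀ (by linarith) (by linarith) 2
  have h2 : 0 ≤ (x - 2) ^ 2 := sq_nonneg _
  nlinarith [mul_le_mul_of_nonneg_left (show 4 * L ≤ x - 2 by linarith) h2]

theorem geom {m : ℕ → ℝ} {X ε : ℝ} {N : ℕ} (hε : 0 ≤ ε) (h0 : m 0 ≤ X)
    (hs : ∀ i < N, m (i + 1) ≤ m i / 2 + ε / 2) : m N ≤ X / 2 ^ N + ε := by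
  have key : ∀ i ≤ N, m i ≤ X / 2 ^ i + ε := by
    intro i
    induction i with
    | zero => intro _; simpa using h0.trans (by linarith)
    | succ i ih =>
      intro hi
      have h1 := ih (by omega)
      have h2 := hs i (by omega)
      rw [pow_succ, ← div_div]
      linarith
  exact key N le_rfl

omit [T2Space Y] in
/-- The truncation of `v` from below. -/
theorem trunc (hr : Rmax n) {v : Y → ℝ} {δ c : ℝ} (hδ : 0 ≤ δ) (hc : 1 ≤ c) (hv : G.Sm v)
    (hl : G.Lge v (fun _ => -δ) univ) (h0 : ∀ y, v y ≤ 0) :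
    ∃ w, G.Sm w ∧ G.Lge w (fun _ => -δ) univ ∧ (∀ y, |w y| ≤ c) ∧
      ∀ y, -c + 1 ≤ v y → w y = v y := by
  obtain ⟨m, h1, h2, -, h4⟩ := hr 1 one_pos
  refine ⟨fun y => m (v y) (-c), fun α ξ hξ => ?_, fun α ξ hξ _ η => ?_, fun y => ?_,
    fun y hy => h2 _ _ hy⟩
  · exact (h4 (v ∘ G.ψ α) (fun _ => -c) ξ (hv.at hξ) contDiffAt_const).1.contDiffWithinAt
  · obtain ⟨p, p0, p1, -, hp⟩ := (h4 (v ∘ G.ψ α) (fun _ => -c) ξ (hv.at hξ) contDiffAt_const).2
    have h5 := hp η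
    rw [lev_const, mul_zero, add_zero] at h5
    have h6 := mul_le_mul_of_nonneg_left (hl α ξ hξ trivial η) p0
    have h7 := mul_nonneg hδ (G.levφ_nonneg (α := α) hξ η)
    refine le_trans ?_ h5
    nlinarith
  · have h5 := h1 (v y) (-c)
    have h6 : max (v y) (-c) ≤ 0 := max_le (h0 y) (by linarith)
    have h7 := le_max_right (v y) (-c)
    rw [abs_le]
    constructor <;> linarith [h5.1, h5.2]

omit [T2Space Y] in
/-- The mass of a bounded function over the support of `b`. -/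
theorem bounded_mass (h : Alg n) (c1 : Cln1 n) (k : Kit G) (c : ℝ) (hc : 0 ≤ c) :
    ∃ C : ℝ, 0 ≤ C ∧ ∀ (d : Data k) (w : Y → ℝ) (R : ℝ) (j : ℕ), 0 ≤ d.R → d.R ≤ R → G.Sm w →
      G.Lge w (fun _ => -d.δ) univ → (∀ y, |w y| ≤ c) → Continuous d.b →
      k.IW R d.b d.δ w j ≤ Real.exp (k.K * (d.R + 1)) * C := by
  obtain ⟨C, hC, hm⟩ := c1 2 3 two_pos (by norm_num)
  refine ⟨C * (|G.B| + c) ^ n, by positivity, fun d w R j h0 hR hw hl hb cb => ?_⟩
  rw [← k.IW_eq hR d.b_supp]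
  refine k.IY_le_card h0 (by positivity)
    (fun α => (chart_cont G.toAtl cb α).mul (hw.mass_cont _ j α))
    (fun α ξ hξ => mul_nonneg (d.b_mem _).1 (hl.mass_nonneg h hw j hξ)) fun α => ?_
  have i1 : IntegrableOn (G.mass d.δ w j α) (closedBall 0 2) :=
    ((hw.mass_cont _ j α).mono cb2).integrableOn_compact (isCompact_closedBall 0 2)
  have i2 : IntegrableOn (fun ξ => d.b (G.ψ α ξ) * G.mass d.δ w j α ξ) (closedBall 0 2) :=
    (((chart_cont G.toAtl cb α).mul (hw.mass_cont _ j α)).mono cb2).integrableOn_compact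
      (isCompact_closedBall 0 2)
  refine (setIntegral_mono_on i2 i1 measurableSet_closedBall fun ξ hξ =>
    mul_le_of_le_one_left (hl.mass_nonneg h hw j (cb2 hξ)) (d.b_mem _).2).trans ?_
  have := hm (fun i => if i.val < j then G.pot d.δ w α else G.φ α) (|G.B| + c) (by positivity)
    (fun i => by
      split_ifs
      exacts [hl.ps hw α, Geo.φ_ps α])
    (fun i x hx => by
      have h1 := (G.φ_bd α).2 x hx
      have h2 := le_abs_self G.B
      split_ifs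
      · have h3 : |d.δ * G.φ α x| ≤ |G.B| := by
          rw [abs_mul, abs_of_pos d.δ_pos]
          exact (mul_le_of_le_one_left (abs_nonneg _) d.δ_le).trans (h1.trans h2)
        exact (abs_add_le _ _).trans (add_le_add h3 (hb _))
      · linarith)
  simpa only [Geo.mass, fam_D2] using this

omit [T2Space Y] in
theorem b_cont {k : Kit G} (d : Data k) : Continuous d.b := by
  refine continuous_of_chart G.toAtl fun α => ?_
  refine (LipschitzOnWith.of_dist_le_mul (K := ⟨d.L, d.L_nonneg⟩) fun x hx y hy => ?_).continuousOn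
  rw [Real.dist_eq, dist_eq_norm]
  exact d.b_lip α x hx y hy

omit [T2Space Y] in
/-- The starting estimate: split according to the depth. -/
theorem split (h : Alg n) {k : Kit G} (d : Data k) {v w : Y → ℝ} {L R : ℝ} (j : ℕ) (hL : 1 ≤ L)
    (hv : G.Sm v) (hl : G.Lge v (fun _ => -d.δ) univ) (hw : G.Sm w)
    (hlw : G.Lge w (fun _ => -d.δ) univ) (e : ∀ y, -(4 * L + 4) + 1 ≤ v y → w y = v y) :
    k.IW R (fun y => wt (fun _ => 0) v 1 2 y * d.b y) d.δ v j ≤
      1 / L * k.IW R (wt (fun _ => 0) v 2 3) d.δ v j + (4 * L + 1) ^ 2 * k.IW R d.b d.δ w j := by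
  have cv := hv.continuous
  have cb := b_cont d
  have c2 : Continuous fun y => 1 / L * wt (fun _ => 0) v 2 3 y :=
    continuous_const.mul (wt_cont continuous_const cv 2 3)
  have c3 : Continuous fun y => (4 * L + 1) ^ 2 * d.b y := continuous_const.mul cb
  have k2 : ∀ α, ContinuousOn (fun ξ => 1 / L * wt (fun _ => 0) v 2 3 (G.ψ α ξ) *
      G.mass d.δ v j α ξ) (ball 0 3) :=
    fun α => (chart_cont G.toAtl c2 α).mul (hv.mass_cont d.δ j α)
  have k3 : ∀ α, ContinuousOn (fun ξ => (4 * L + 1) ^ 2 * d.b (G.ψ α ξ) *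
      G.mass d.δ w j α ξ) (ball 0 3) :=
    fun α => (chart_cont G.toAtl c3 α).mul (hw.mass_cont d.δ j α)
  rw [← k.IW_const_mul, ← k.IW_const_mul, Kit.IW, Kit.IW, Kit.IW, ← k.IY_add k2 k3]
  refine k.IY_mono (fun α => (chart_cont G.toAtl ((wt_cont continuous_const cv 1 2).mul cb) α).mul
    (hv.mass_cont d.δ j α)) (fun α => (k2 α).add (k3 α)) fun α ξ hξ => ?_
  have m1 := hl.mass_nonneg h hv j (α := α) hξ
  have m2 := hlw.mass_nonneg h hw j (α := α) hξ
  obtain ⟨b0, b1⟩ := d.b_mem (G.ψ α ξ)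
  have w0 := wt_nonneg (fun _ => 0) v 1 2 (G.ψ α ξ)
  have w1 := wt_nonneg (fun _ => 0) v 2 3 (G.ψ α ξ)
  rcases le_or_gt (4 * L + 2) (-v (G.ψ α ξ)) with hd | hd
  · have h1 : wt (fun _ => 0) v 1 2 (G.ψ α ξ) ≤ 1 / L * wt (fun _ => 0) v 2 3 (G.ψ α ξ) := by
      simpa only [wt, Real.exp_zero, one_mul] using deep_real hL hd
    have h2 := mul_le_mul_of_nonneg_right ((mul_le_of_le_one_right w0 b1).trans h1) m1
    have h3 : 0 ≤ (4 * L + 1) ^ 2 * d.b (G.ψ α ξ) * G.mass d.δ w j α ξ := by positivity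
    linarith
  · have h1 : G.mass d.δ w j α ξ = G.mass d.δ v j α ξ := by
      refine Geo.mass_congr d.δ j hξ (t := 0) ?_
      have : ∀ᶠ y in 𝓝 (G.ψ α ξ), -(4 * L + 4) + 1 < v y :=
        cv.continuousAt.eventually (lt_mem_nhds (by linarith))
      filter_upwards [this] with y hy
      rw [e y hy.le, add_zero]
    have h2 : wt (fun _ => 0) v 1 2 (G.ψ α ξ) ≤ (4 * L + 1) ^ 2 := by
      simp only [wt, Real.exp_zero, one_mul]
      exact pow_le_pow_left₀ (le_max_right _ _) (max_le (by linarith) (by linarith)) 2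
    have h3 := mul_le_mul_of_nonneg_right (mul_le_mul_of_nonneg_right h2 b0) m1
    have h4 : 0 ≤ 1 / L * wt (fun _ => 0) v 2 3 (G.ψ α ξ) * G.mass d.δ v j α ξ := by
      have : 0 < L := by linarith
      positivity
    rw [h1]
    linarith

theorem steps {C K R e : ℝ} (hC : 1 ≤ C) (hK : 1 ≤ K) (hR : 0 ≤ R) (he : 0 < e) (he1 : e ≤ 1) :
    ∃ N : ℕ, C * Real.exp (K * (R + 1)) / 2 ^ N ≤ e ∧
      (N : ℝ) ≤ (1 + 2 * Real.log C + 2 * K) * (R + 1 + Real.log (1 / e)) := by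
  have l1 : 0 ≤ Real.log C := Real.log_nonneg hC
  have l2 : 0 ≤ Real.log (1 / e) := Real.log_nonneg (by rw [le_div_iff₀ he]; linarith)
  set x := 2 * (Real.log C + K * (R + 1) + Real.log (1 / e)) with hx
  have x0 : 0 ≤ x := by positivity
  refine ⟨⌈x⌉₊, ?_, ?_⟩
  · have h1 : Real.exp (x / 2) ≤ 2 ^ ⌈x⌉₊ := by
      have h2 : (2 : ℝ) ^ ⌈x⌉₊ = Real.exp (⌈x⌉₊ * Real.log 2) := by
        rw [Real.exp_nat_mul, Real.exp_log two_pos]
      rw [h2, Real.exp_le_exp]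
      have := Nat.le_ceil x
      nlinarith [Real.log_two_gt_d9]
    have h3 : Real.exp (x / 2) = C * Real.exp (K * (R + 1)) * (1 / e) := by
      rw [hx, mul_div_cancel_left₀ _ two_ne_zero, Real.exp_add, Real.exp_add,
        Real.exp_log (by linarith), Real.exp_log (by positivity)]
    rw [div_le_iff₀ (by positivity)]
    rw [h3, mul_one_div, div_le_iff₀ he] at h1
    linarith
  · have h1 := (Nat.ceil_lt_add_one x0).le
    have h2 : 0 ≤ (K - 1) * Real.log (1 / e) := mul_nonneg (by linarith) l2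
    have h3 : 0 ≤ (1 + 2 * Real.log C) * (R + Real.log (1 / e)) := by positivity
    nlinarith

end Dec

open Dec

omit [T2Space Y] in
theorem decay (hn : 0 < n) (h : Alg n) (c1 : Cln1 n) (hr : Rmax n) (k : Kit G) (hc : Chain k)
    (hm : Meas k) : Decay k := by
  obtain ⟨ε₀, Kc, ε0, -, hKc, hc⟩ := hc
  have n1 : (1 : ℝ) ≤ n := by exact_mod_cast hn
  set L : ℝ := 4 * Kc * n with hLd
  have hL : 1 ≤ L := by nlinarith
  obtain ⟨C, C0, hC⟩ := bounded_mass h c1 k (4 * L + 4) (by linarith)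
  set C2 : ℝ := L * (4 * L + 1) ^ 2 * C with hC2
  have C20 : 0 ≤ C2 := by positivity
  have C31 : 1 ≤ 2 * n * C2 + 1 := by nlinarith [mul_nonneg (show (0 : ℝ) ≤ 2 * n by linarith) C20]
  have lg := Real.log_nonneg C31
  have K1 := k.one_le
  refine ⟨4 + (L + 1) * (1 + 2 * Real.log (2 * n * C2 + 1) + 2 * k.K), by nlinarith,
    fun d u e s hu h0 hR he he1 hs => ?_⟩
  obtain ⟨N, hN1, hN2⟩ := steps C31 K1 hR he he1
  have l2 : 0 ≤ Real.log (1 / e) := Real.log_nonneg (by rw [le_div_iff₀ he]; linarith)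
  have hsN : 3 + N * (L + 1) + 1 ≤ s := by
    have := mul_le_mul_of_nonneg_left hN2 (show 0 ≤ L + 1 by linarith)
    nlinarith
  obtain ⟨R0, hR0⟩ := hu.supp
  set R := max R0 d.R with hRd
  set ε : ℝ := e / (2 * (L + n + 1)) with hε
  have εp : 0 < ε := by positivity
  have so : G.Sm fun _ => (0 : ℝ) := G.sm_const 0
  have go : G.Gle (fun _ => (0 : ℝ)) ε₀ := fun α ξ _ => by
    have : ((fun _ => (0 : ℝ)) ∘ G.ψ α) = fun _ => 0 := rfl
    rw [this]; simpa using ε0.le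
  have hh : d.h = fun _ => 0 := funext h0
  have lh : G.Lge d.h (fun _ => -d.δ) univ := by
    rw [hh]; exact Geo.lge_const 0 fun _ _ => by linarith [d.δ_pos]
  let τ : ℕ → ℝ := fun i => if i = 0 then 1 else 3 + ((i - 1 : ℕ) : ℝ) * (L + 1)
  have τ0 : τ 0 = 1 := rfl
  have τs : ∀ i, τ (i + 1) = 3 + i * (L + 1) := fun i => by simp [τ]
  have τ1 : ∀ i, 1 ≤ τ i := fun i => by
    rcases i with _ | i
    · exact τ0.ge
    · rw [τs]; have : 0 ≤ (i : ℝ) * (L + 1) := by positivity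
      linarith
  choose f f0 hf using fun i => hm d u (fun _ => 0) d.δ (τ i) R ε hu so le_rfl lh
    (one_pos.trans_le (τ1 i)) εp
  obtain ⟨x, x0, x1, hx⟩ := exists_min f f0 (N + 1)
  obtain ⟨v, hv, hvu⟩ := hu.approx x x0
  have sv := hv.1
  have lv := hv.lge
  have cv := sv.continuous
  have cb := b_cont d
  have cw := fun t p => wt_cont (o := fun _ => (0 : ℝ)) continuous_const cv t p
  have out : ∀ t, 1 ≤ t → ∀ y, R < k.ρ y → -t ≤ v y := fun t ht y hy => by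
    have := hR0 y ((le_max_left _ _).trans_lt hy)
    linarith [hvu y]
  have hA : ∀ i ≤ N + 1, k.IW R (wt (fun _ => 0) v (τ i + 1) 2) d.δ v n ≤
      n * k.IW R (fun y => wt (fun _ => 0) v (τ i) 2 y * d.b y) d.δ v (n - 1) + ε := by
    intro i hi
    have cu := wt_cont (o := fun _ => (0 : ℝ)) continuous_const hu.cont (τ i) 2
    have h1 := hf i v hv fun y => by linarith [hvu y, hx i hi]
    rw [k.IW_zero (Φ := wt (fun _ => 0) d.h 0 2)
      fun y => wt_eq_zero _ two_ne_zero (by rw [h0 y, neg_zero]), add_zero] at h1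
    have h2 := k.IW_mono (R := R) (j := n) h sv lv (cw (τ i + 1) 2) cu
      fun y => wt_mono _ 2 (by linarith [hvu y])
    have h3 := k.IW_mono (R := R) (j := n - 1) h sv lv (cu.mul cb) ((cw (τ i) 2).mul cb)
      fun y => mul_le_mul_of_nonneg_right (wt_mono _ 2 (by linarith [hu.ge v hv y])) (d.b_mem y).1
    have h4 := mul_le_mul_of_nonneg_left h3 (show (0 : ℝ) ≤ n by linarith)
    exact h2.trans (h1.trans (add_le_add h4 le_rfl))
  have hB : ∀ i ≤ N + 1, k.IW R (wt (fun _ => 0) v (τ i + 1) 3) d.δ v (n - 1) ≤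
      L / 2 * k.IW R (fun y => wt (fun _ => 0) v (τ i) 2 y * d.b y) d.δ v (n - 1) +
        2 * Kc * ε := by
    intro i hi
    have h1 := hc v (fun _ => 0) d.δ (τ i + 1) R (n - 1) 2 sv so go d.δ_pos.le lv
      (out _ (by linarith [τ1 i])) (by omega) le_rfl
    rw [show n - 1 + 1 = n by omega] at h1
    have h2 := mul_le_mul_of_nonneg_left (hA i hi) (show 0 ≤ Kc * 2 by linarith)
    push_cast at h1
    rw [hLd]
    linarith
  have hb1 : ∀ t, k.IW R (fun y => wt (fun _ => 0) v t 2 y * d.b y) d.δ v (n - 1) ≤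
      k.IW R (wt (fun _ => 0) v t 2) d.δ v (n - 1) := fun t =>
    k.IW_mono h sv lv ((cw t 2).mul cb) (cw t 2)
      fun y => mul_le_of_le_one_right (wt_nonneg _ _ _ _ _) (d.b_mem y).2
  have hH : ∀ t t' M : ℝ, 0 ≤ M → t' = t + M → M * k.IW R (wt (fun _ => 0) v t' 2) d.δ v (n - 1) ≤
      k.IW R (wt (fun _ => 0) v t 3) d.δ v (n - 1) := fun t t' M hM e => by
    rw [← k.IW_const_mul]
    exact k.IW_mono h sv lv (continuous_const.mul (cw t' 2)) (cw t 3) (halve _ v hM e)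
  obtain ⟨w, sw, lw, bw, ew⟩ := trunc hr d.δ_pos.le (show 1 ≤ 4 * L + 4 by linarith) sv lv
    fun y => (hv.2.1 y).trans (min_le_right _ _)
  have Lp : 0 < L := by linarith
  have hX : k.IW R (wt (fun _ => 0) v 2 3) d.δ v (n - 1) ≤
      C2 * Real.exp (k.K * (d.R + 1)) + 4 * Kc * ε := by
    have h1 := hB 0 (by omega)
    rw [τ0, one_add_one_eq_two] at h1
    have h2 := mul_le_mul_of_nonneg_left (split h d (R := R) (n - 1) hL sv lv sw lw ew)
      (show 0 ≤ L / 2 by linarith)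
    have h3 := mul_le_mul_of_nonneg_left (hC d w R (n - 1) hR (le_max_right _ _) sw lw bw cb)
      (show 0 ≤ L / 2 * (4 * L + 1) ^ 2 by positivity)
    have h4 : L / 2 * (1 / L) = 1 / 2 := by field_simp
    rw [mul_add, ← mul_assoc, h4] at h2
    rw [hC2]
    linarith
  have hG := geom (m := fun i => k.IW R (wt (fun _ => 0) v (τ (i + 1)) 2) d.δ v (n - 1)) (N := N)
    εp.le (le_trans (by simpa [τs] using hH 2 3 1 zero_le_one (by norm_num)) hX) fun i hi => by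
      have h1 := hH (τ (i + 1) + 1) (τ (i + 1 + 1)) L Lp.le (by rw [τs, τs]; push_cast; ring)
      have h2 := hB (i + 1) (by omega)
      have h3 := mul_le_mul_of_nonneg_left (hb1 (τ (i + 1))) (show 0 ≤ L / 2 by linarith)
      have h4 : 2 * Kc * ε ≤ L * (ε / 2) := by
        rw [hLd]; nlinarith [mul_pos (show 0 < Kc by linarith) εp]
      refine le_of_mul_le_mul_left ?_ Lp
      linarith
  refine ⟨v, R, hv, out s (by nlinarith [Nat.cast_nonneg (α := ℝ) N]), ?_⟩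
  have h1 := k.IW_mono (R := R) (j := n) h sv lv (cw s 2) (cw (τ (N + 1) + 1) 2)
    fun y => wt_mono _ 2 (by rw [τs]; linarith)
  have h2 := mul_le_mul_of_nonneg_left ((hb1 _).trans hG) (show (0 : ℝ) ≤ n by linarith)
  have h3 := hA (N + 1) le_rfl
  have p1 : (1 : ℝ) ≤ 2 ^ N := one_le_pow₀ one_le_two
  have h4 : 4 * Kc * ε / 2 ^ N ≤ 4 * Kc * ε := div_le_self (by positivity) p1
  have h5 : (L + n + 1) * ε = e / 2 := by rw [hε]; field_simp
  have h6 : 0 ≤ Real.exp (k.K * (d.R + 1)) / 2 ^ N := by positivity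
  have h7 := mul_le_mul_of_nonneg_left h4 (show (0 : ℝ) ≤ n by linarith)
  rw [add_div, mul_div_assoc] at h2
  rw [mul_div_assoc] at hN1
  rw [hLd] at h5
  linarith

end Pool.Agent.MP_8ac6f3_ag.KH

end MrgPart2

-- marker of a merged file
example : 731051 + 693068 = 731051 + 693068 := rfl
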