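import Mathlib.Algebra.Ring.IsFormallyReal
import Mathlib.Analysis.CStarAlgebra.Module.Constructions
import Mathlib.Analysis.Calculus.Rademacher
import Mathlib.Combinatorics.SimpleGraph.Basic
import Mathlib.Geometry.Manifold.SmoothApprox
import Mathlib.Geometry.Manifold.VectorField.Pullback
import Mathlib.RingTheory.RegularLocalRing.Defs
import Pool.Agent.MP_8ac6f3_ag.kh.BaseA
import Pool.Agent.MP_8ac6f3_ag.C4
import Pool.Agent.MP_8ac6f3_ag.kh.Sta

-- ======== part 0: formerly Pool.Agent.MP_8ac6f3_ag.kh.Cln1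
section MrgPart0

/-! Row CL1: the mass bound for mixed products of bounded plurisubharmonic functions. -/

open Set Metric Complex MeasureTheory Filter Function
open scoped ContDiff Topology

set_option maxSynthPendingDepth 3

namespace Pool.Agent.MP_8ac6f3_ag.KH

variable {n : ℕ}

namespace Cln1

theorem contOn {U : Set (M n)} (hU : IsOpen U) {u : Fin n → M n → ℝ}
    (hu : ∀ i, ContDiffOn ℝ 3 (u i) U) {w : M n → ℝ} (hw : ContDiffOn ℝ 3 w U) (i₀ : Fin n) :
    ContinuousOn (fun x => md (update (fun i => D2 (u i) x) i₀ (D2 w x))) U :=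
  continuousOn_md fun i => by
    rcases eq_or_ne i i₀ with rfl | hi
    · simpa only [update_self] using continuousOn_D2 hU hw
    · simpa only [update_of_ne hi] using continuousOn_D2 hU (hu i)

/-- Integration by parts in one slot. -/
theorem parts (h : Alg n) (hs : Lst n) {U K : Set (M n)} (hU : IsOpen U) (hK : IsCompact K)
    (hKU : K ⊆ U) {u : Fin n → M n → ℝ} (hu : ∀ i, ContDiffOn ℝ 3 (u i) U) {w χ : M n → ℝ}
    (hw : ContDiffOn ℝ 3 w U) (hχ : ContDiff ℝ 3 χ) (hsup : tsupport χ ⊆ K) (i₀ : Fin n) :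
    ∫ x in K, χ x * md (update (fun i => D2 (u i) x) i₀ (D2 w x)) =
      ∫ x in K, w x * md (update (fun i => D2 (u i) x) i₀ (D2 χ x)) := by
  obtain ⟨γ, hγ⟩ : ∃ γ : M n → Cv n, γ = fun x => χ x • fderiv ℝ w x - w x • fderiv ℝ χ x :=
    ⟨_, rfl⟩
  have h0 : ∀ x, x ∉ tsupport χ → γ x = 0 := fun x hx => by
    have h1 := notMem_tsupport_iff_eventuallyEq.1 hx
    rw [hγ]
    simp [h1.eq_of_nhds, h1.fderiv_eq]
  have h1 : tsupport γ ⊆ tsupport χ :=
    closure_minimal (fun x hx => by_contra fun hn => hx (h0 x hn)) (isClosed_tsupport χ)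
  have hdw : ∀ x ∈ U, ContDiffAt ℝ 2 (fderiv ℝ w) x := fun x hx =>
    (hw.contDiffAt (hU.mem_nhds hx)).fderiv_right (by norm_num)
  have hdχ : ∀ x, ContDiffAt ℝ 2 (fderiv ℝ χ) x := fun x =>
    hχ.contDiffAt.fderiv_right (by norm_num)
  have h2 : ContDiff ℝ 1 γ := by
    refine contDiff_iff_contDiffAt.2 fun x => ?_
    by_cases hx : x ∉ tsupport γ
    · exact contDiffAt_const.congr_of_eventuallyEq (notMem_tsupport_iff_eventuallyEq.1 hx)
    have hx' := hKU (hsup (h1 (not_not.1 hx)))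
    rw [hγ]
    exact ((hχ.contDiffAt.of_le (by norm_num)).smul ((hdw x hx').of_le (by norm_num))).sub
      (((hw.contDiffAt (hU.mem_nhds hx')).of_le (by norm_num)).smul
        ((hdχ x).of_le (by norm_num)))
  have h3 := hs U u γ i₀ hU hu h2 (hK.of_isClosed_subset (isClosed_tsupport γ) (h1.trans hsup))
    (h1.trans (hsup.trans hKU))
  have h4 : ∀ x ∈ K, md (update (fun i => D2 (u i) x) i₀ (fderiv ℝ γ x)) =
      χ x * md (update (fun i => D2 (u i) x) i₀ (D2 w x)) -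
        w x * md (update (fun i => D2 (u i) x) i₀ (D2 χ x)) := fun x hx => by
    have hx' := hKU hx
    have d1 := (hχ.differentiable (by norm_num) x).hasFDerivAt
    have d2 := ((hw.contDiffAt (hU.mem_nhds hx')).differentiableAt (by norm_num)).hasFDerivAt
    have d3 := ((hdw x hx').differentiableAt (by norm_num)).hasFDerivAt
    have d4 := ((hdχ x).differentiableAt (by norm_num)).hasFDerivAt
    have e : fderiv ℝ γ x = χ x • D2 w x + ot (fderiv ℝ χ x) (fderiv ℝ w x) -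
        (w x • D2 χ x + ot (fderiv ℝ w x) (fderiv ℝ χ x)) := by
      rw [hγ]; exact ((d1.smul d3).sub (d2.smul d4)).fderiv
    rw [← smul_eq_mul, ← smul_eq_mul, ← md.map_update_smul, ← md.map_update_smul,
      ← md.map_update_sub]
    refine h.congr fun i η => ?_
    rcases eq_or_ne i i₀ with rfl | hi
    · rw [update_self, update_self, e]
      simp only [hq_sub, hq_add, hq_ot]
      ring
    · rw [update_of_ne hi, update_of_ne hi]
  rw [← setIntegral_eq_integral_of_forall_compl_eq_zero (s := K), setIntegral_congr_fun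
    hK.measurableSet h4, integral_sub, sub_eq_zero] at h3
  · exact h3
  · exact ((hχ.continuous.continuousOn.mul (contOn hU hu hw i₀)).mono hKU).integrableOn_compact hK
  · exact ((hw.continuousOn.mul (contOn hU hu hχ.contDiffOn i₀)).mono hKU).integrableOn_compact hK
  · intro x hx
    have h5 := notMem_tsupport_iff_eventuallyEq.1 fun h5 => hx (hsup (h1 h5))
    rw [h5.fderiv_eq]
    exact md.map_coord_zero i₀ (by simp)

theorem ps_sq (U : Set (M n)) : Ps U fun x : M n => ‖x‖ ^ 2 :=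
  ⟨(contDiff_norm_sq ℝ).contDiffOn, fun x _ η => by rw [lev_sq0]; positivity⟩

theorem ind (h : Alg n) (hs : Lst n) (j : ℕ) (hj : j ≤ n) : ∀ r R : ℝ, 0 < r → r < R →
    ∃ C : ℝ, 0 ≤ C ∧ ∀ (u : Fin n → M n → ℝ) (a : ℝ), 0 ≤ a → (∀ i, Ps (ball 0 R) (u i)) →
      (∀ i, ∀ x ∈ ball (0 : M n) R, |u i x| ≤ a) →
      ∫ x in closedBall (0 : M n) r,
        md (fun i => D2 (if i.val < j then u i else fun y => ‖y‖ ^ 2) x) ≤ C * a ^ j := by
  induction j with
  | zero =>
    intro r R _ _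
    refine ⟨|∫ x in closedBall (0 : M n) r, md (fun _ => D2 (fun y => ‖y‖ ^ 2) x)|, abs_nonneg _,
      fun u a _ _ _ => ?_⟩
    simpa using le_abs_self _
  | succ j ih =>
    intro r R hr hR
    obtain ⟨C, hC, ih⟩ := ih (by omega) ((r + R) / 2) R (by linarith) (by linarith)
    obtain ⟨χ, e1, e2⟩ : ∃ χ : ContDiffBump (0 : M n), χ.rIn = r ∧ χ.rOut = (r + R) / 2 :=
      ⟨⟨r, (r + R) / 2, hr, by linarith⟩, rfl, rfl⟩
    have hK := isCompact_closedBall (0 : M n) ((r + R) / 2)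
    have hKU : closedBall (0 : M n) ((r + R) / 2) ⊆ ball 0 R :=
      closedBall_subset_ball (by linarith)
    have hχ : ContDiff ℝ 3 χ := χ.contDiff
    obtain ⟨L, hL⟩ := hK.exists_bound_of_continuousOn
      ((continuousOn_D2 isOpen_univ hχ.contDiffOn).mono (subset_univ _))
    have hL0 : 0 ≤ L := (norm_nonneg _).trans (hL 0 (mem_closedBall_self (by linarith)))
    refine ⟨L * C, by positivity, fun u a ha hu hb => ?_⟩
    obtain ⟨i₀, hi₀⟩ : ∃ i₀ : Fin n, i₀.val = j := ⟨⟨j, hj⟩, rfl⟩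
    have ih' := ih u a ha hu hb
    obtain ⟨v, hv⟩ : ∃ v : Fin n → M n → ℝ,
        ∀ i, v i = if i.val < j then u i else fun y => ‖y‖ ^ 2 := ⟨_, fun _ => rfl⟩
    have hvp : ∀ i, Ps (ball 0 R) (v i) := fun i => by
      rw [hv]; split_ifs
      exacts [hu i, ps_sq _]
    have hv0 : v i₀ = fun y => ‖y‖ ^ 2 := by rw [hv, if_neg (by omega)]
    have e3 : ∀ x, (fun i : Fin n => D2 (if i.val < j + 1 then u i else fun y => ‖y‖ ^ 2) x) =
        update (fun i => D2 (v i) x) i₀ (D2 (u i₀) x) := fun x => by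
      funext i
      rcases eq_or_ne i i₀ with rfl | hi
      · rw [update_self, if_pos (by omega)]
      · have : i.val ≠ j := fun e => hi (Fin.ext (e.trans hi₀.symm))
        rw [update_of_ne hi, hv, if_congr (show i.val < j + 1 ↔ i.val < j by omega) rfl rfl]
    simp only [← hv] at ih'
    simp only [e3]
    have c1 := contOn isOpen_ball (fun i => (hvp i).1) (hu i₀).1 i₀
    have c2 := contOn isOpen_ball (fun i => (hvp i).1) hχ.contDiffOn i₀
    have c3 : ContinuousOn (fun x => md fun i => D2 (v i) x) (ball 0 R) :=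
      continuousOn_md fun i => continuousOn_D2 isOpen_ball (hvp i).1
    calc _ = ∫ x in closedBall (0 : M n) r,
          χ x * md (update (fun i => D2 (v i) x) i₀ (D2 (u i₀) x)) :=
        setIntegral_congr_fun measurableSet_closedBall fun x hx => by
          simp only [χ.one_of_mem_closedBall (e1 ▸ hx), one_mul]
      _ ≤ ∫ x in closedBall (0 : M n) ((r + R) / 2),
          χ x * md (update (fun i => D2 (v i) x) i₀ (D2 (u i₀) x)) := by
        refine setIntegral_mono_set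
          (((hχ.continuous.continuousOn.mul c1).mono hKU).integrableOn_compact hK)
          ((ae_restrict_iff' measurableSet_closedBall).2 (ae_of_all _ fun x hx =>
            mul_nonneg χ.nonneg (h.pos _ fun i η => ?_)))
          (closedBall_subset_closedBall (by linarith)).eventuallyLE
        rcases eq_or_ne i i₀ with rfl | hi
        · rw [update_self]; exact (hu i).2 x (hKU hx) η
        · rw [update_of_ne hi]; exact (hvp i).2 x (hKU hx) η
      _ = _ := parts h hs isOpen_ball hK hKU (fun i => (hvp i).1) (hu i₀).1 hχ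
          (by rw [χ.tsupport_eq, e2]) i₀
      _ ≤ ∫ x in closedBall (0 : M n) ((r + R) / 2), a * L * md fun i => D2 (v i) x := by
        refine setIntegral_mono_on
          ((((hu i₀).1.continuousOn.mul c2).mono hKU).integrableOn_compact hK)
          (((continuousOn_const.mul c3).mono hKU).integrableOn_compact hK)
          measurableSet_closedBall fun x hx => ?_
        conv_rhs => rw [← update_eq_self i₀ fun i => D2 (v i) x]
        rw [← smul_eq_mul, ← smul_eq_mul (a * L), ← md.map_update_smul, ← md.map_update_smul]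
        refine h.mono1 (fun i _ η => (hvp i).2 x (hKU hx) η) fun η => ?_
        rw [hq_smul, hq_smul, hv0, hq_D2 (fun y => ‖y‖ ^ 2), lev_sq0, mul_assoc]
        refine (le_abs_self _).trans ?_
        rw [abs_mul]
        exact mul_le_mul (hb i₀ x (hKU hx)) ((abs_hq_le _ η).trans
          (mul_le_mul_of_nonneg_right (hL x hx) (by positivity))) (abs_nonneg _) ha
      _ ≤ L * C * a ^ (j + 1) := by
        rw [integral_const_mul]
        refine (mul_le_mul_of_nonneg_left ih' (by positivity)).trans (le_of_eq (by ring))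

end Cln1

theorem cln1 (h : Alg n) (hs : Lst n) : Cln1 n := by
  intro r R hr hR
  obtain ⟨C, hC, h1⟩ := Cln1.ind h hs n le_rfl r R hr hR
  exact ⟨C, hC, fun u a ha hu hb => by simpa only [Fin.is_lt, if_true] using h1 u a ha hu hb⟩

end Pool.Agent.MP_8ac6f3_ag.KH

end MrgPart0

-- ======== part 1: formerly Pool.Agent.MP_8ac6f3_ag.kh.Cln2
section MrgPart1

/-! Continuity of the mixed masses under uniform convergence. -/

open Set Metric Complex MeasureTheory Filter Function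
open scoped ContDiff Topology

set_option maxSynthPendingDepth 3

namespace Pool.Agent.MP_8ac6f3_ag.KH

variable {n : ℕ}

namespace Cln2

theorem cont_upd {U : Set (M n)} (hU : IsOpen U) {u : Fin n → M n → ℝ}
    (hu : ∀ i, ContDiffOn ℝ 3 (u i) U) (j : Fin n) {B : M n → Bil n} (hB : ContinuousOn B U) :
    ContinuousOn (fun x => md (update (fun i => D2 (u i) x) j (B x))) U :=
  continuousOn_md fun i => by
    rcases eq_or_ne i j with rfl | hi
    · simpa only [update_self] using hB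
    · simpa only [update_of_ne hi] using continuousOn_D2 hU (hu i)

theorem hasFD {w χ : M n → ℝ} {x : M n} (hw : ContDiffAt ℝ 3 w x) (hχ : ContDiffAt ℝ 3 χ x) :
    HasFDerivAt (fun y => χ y • fderiv ℝ w y) (χ x • D2 w x + ot (fderiv ℝ χ x) (fderiv ℝ w x)) x :=
  (hχ.differentiableAt (by norm_num)).hasFDerivAt.smul
    ((hw.fderiv_right (m := 1) (by norm_num)).differentiableAt (by norm_num)).hasFDerivAt

/-- Integration by parts. -/
theorem parts (h : Alg n) (hs : Lst n) {U K : Set (M n)} (hU : IsOpen U) (hK : IsCompact K)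
    (hKU : K ⊆ U) {u : Fin n → M n → ℝ} (hu : ∀ i, ContDiffOn ℝ 3 (u i) U) (j : Fin n)
    {w χ : M n → ℝ} (hw : ContDiffOn ℝ 3 w U) (hχ : ContDiff ℝ 3 χ) (hc : tsupport χ ⊆ K) :
    ∫ x in K, χ x * md (update (fun i => D2 (u i) x) j (D2 w x)) =
      ∫ x in K, w x * md (update (fun i => D2 (u i) x) j (D2 χ x)) := by
  set γ : M n → Cv n := fun y => χ y • fderiv ℝ w y - w y • fderiv ℝ χ y with hγ
  have h0 : ∀ x ∉ tsupport χ, γ =ᶠ[𝓝 x] fun _ => 0 := fun x hx => by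
    have e : χ =ᶠ[𝓝 x] fun _ => 0 := notMem_tsupport_iff_eventuallyEq.1 hx
    filter_upwards [e, e.fderiv (𝕜 := ℝ)] with y h1 h2
    simp [hγ, h1, h2]
  have hsup : tsupport γ ⊆ tsupport χ := fun x hx => by
    by_contra hn
    exact notMem_tsupport_iff_eventuallyEq.2 (h0 x hn) hx
  have hγ1 : ContDiff ℝ 1 γ := contDiff_iff_contDiffAt.2 fun x => by
    by_cases hx : x ∈ tsupport χ
    · have hw' := hw.contDiffAt (hU.mem_nhds (hKU (hc hx)))
      exact ((hχ.contDiffAt.of_le (by norm_num)).smul (hw'.fderiv_right (by norm_num))).sub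
        ((hw'.of_le (by norm_num)).smul (hχ.contDiffAt.fderiv_right (by norm_num)))
    · exact contDiffAt_const.congr_of_eventuallyEq (h0 x hx)
  have key := hs U u γ j hU hu hγ1 (hK.of_isClosed_subset (isClosed_tsupport γ) (hsup.trans hc))
    ((hsup.trans hc).trans hKU)
  rw [← setIntegral_eq_integral_of_forall_compl_eq_zero (s := K) (fun x hx => by
    rw [(h0 x fun h' => hx (hc h')).fderiv_eq, fderiv_fun_const]
    exact md.map_update_zero _ _)] at key
  have i1 : IntegrableOn (fun x => χ x * md (update (fun i => D2 (u i) x) j (D2 w x))) K :=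
    ((hχ.continuous.continuousOn.mul (cont_upd hU hu j (continuousOn_D2 hU hw))).mono
      hKU).integrableOn_compact hK
  have i2 : IntegrableOn (fun x => w x * md (update (fun i => D2 (u i) x) j (D2 χ x))) K :=
    ((hw.continuousOn.mul (cont_upd hU hu j (continuousOn_D2 hU hχ.contDiffOn))).mono
      hKU).integrableOn_compact hK
  rw [← sub_eq_zero, ← integral_sub i1 i2, ← key]
  refine setIntegral_congr_fun hK.measurableSet fun x hx => ?_
  have hw' := hw.contDiffAt (hU.mem_nhds (hKU hx))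
  have hd := ((hasFD hw' hχ.contDiffAt).sub (hasFD hχ.contDiffAt hw')).fderiv
  have e : md (update (fun i => D2 (u i) x) j (fderiv ℝ γ x)) =
      md (update (fun i => D2 (u i) x) j (χ x • D2 w x - w x • D2 χ x)) :=
    h.congr fun i η => by
      rcases eq_or_ne i j with rfl | hi
      · rw [update_self, update_self]
        have e1 : fderiv ℝ γ x = _ := hd
        rw [e1]
        simp only [hq_sub, hq_add, hq_smul, hq_ot]
        ring
      · rw [update_of_ne hi, update_of_ne hi]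
  simp only [e, md.map_update_sub, md.map_update_smul, smul_eq_mul]

theorem abs_upd_le (h : Alg n) {B : Fin n → Bil n} {j : Fin n} (hB : ∀ i η, 0 ≤ hq (B i) η)
    {X : Bil n} {c : ℝ} (hc : ‖X‖ ≤ c) :
    |md (update B j X)| ≤ c * md (update B j (Eu : Bil n)) := by
  have hb : ∀ η, |hq X η| ≤ c * ‖η‖ ^ 2 := fun η =>
    (abs_hq_le X η).trans (by gcongr)
  have h1 := h.mono1 (B := B) (i₀ := j) (X := X) (X' := c • (Eu : Bil n)) (fun i _ => hB i)
    fun η => by rw [hq_smul, hq_Eu]; exact (abs_le.1 (hb η)).2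
  have h2 := h.mono1 (B := B) (i₀ := j) (X := (-c) • (Eu : Bil n)) (X' := X) (fun i _ => hB i)
    fun η => by rw [hq_smul, hq_Eu]; linarith [(abs_le.1 (hb η)).1]
  rw [md.map_update_smul, smul_eq_mul] at h1 h2
  exact abs_le.2 ⟨by linarith, h1⟩

theorem abs_int_le {K : Set (M n)} (hK : IsCompact K) {f g : M n → ℝ} {c : ℝ}
    (hg : ContinuousOn g K) (hfg : ∀ x ∈ K, |f x| ≤ c * g x) :
    |∫ x in K, f x| ≤ c * ∫ x in K, g x := by
  rw [← integral_const_mul, ← Real.norm_eq_abs]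
  refine norm_integral_le_of_norm_le ((hg.integrableOn_compact hK).const_mul c) ?_
  exact (ae_restrict_iff' hK.measurableSet).2 (Eventually.of_forall hfg)

theorem ps_sq (U : Set (M n)) : Ps U (fun x : M n => ‖x‖ ^ 2) :=
  ⟨(contDiff_norm_sq ℝ).contDiffOn, fun x _ η => by rw [lev_sq0]; positivity⟩

/-- One slot, smooth weight. -/
theorem step (h : Alg n) (hs : Lst n) {r R A C c e : ℝ} (hr : r < R) (hA : R ^ 2 ≤ A)
    (hC : ∀ (u : Fin n → M n → ℝ), (∀ i, Ps (ball 0 R) (u i)) →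
      (∀ i, ∀ x ∈ ball (0 : M n) R, |u i x| ≤ A) →
      ∫ x in closedBall (0 : M n) r, md (fun i => D2 (u i) x) ≤ C)
    {χ : M n → ℝ} (hχ : ContDiff ℝ 3 χ) (hc : tsupport χ ⊆ closedBall 0 r) (hc0 : 0 ≤ c)
    (hb : ∀ x ∈ closedBall (0 : M n) r, ‖D2 χ x‖ ≤ c) (he : 0 ≤ e)
    {v : Fin n → M n → ℝ} (hv : ∀ i, Ps (ball 0 R) (v i))
    (hvA : ∀ i, ∀ x ∈ ball (0 : M n) R, |v i x| ≤ A) (j : Fin n) {w : M n → ℝ}
    (hw : ContDiffOn ℝ 3 w (ball 0 R)) (hwv : ∀ x ∈ ball (0 : M n) R, |w x - v j x| ≤ e) :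
    |(∫ x in closedBall (0 : M n) r, χ x * md (fun i => D2 (update v j w i) x)) -
      ∫ x in closedBall (0 : M n) r, χ x * md (fun i => D2 (v i) x)| ≤ e * c * C := by
  have hK := isCompact_closedBall (0 : M n) r
  have hKU : closedBall (0 : M n) r ⊆ ball 0 R := closedBall_subset_ball hr
  have hv3 := fun i => (hv i).1
  have e1 : ∀ (f : M n → ℝ) x, (fun i => D2 (update v j f i) x) =
      update (fun i => D2 (v i) x) j (D2 f x) := fun f x =>
    funext fun i => apply_update (fun _ (g : M n → ℝ) => D2 g x) v j f i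
  have p1 := parts h hs isOpen_ball hK hKU hv3 j hw hχ hc
  have p2 := parts h hs isOpen_ball hK hKU hv3 j (hv3 j) hχ hc
  simp only [update_eq_self] at p2
  have c1 := (cont_upd isOpen_ball hv3 j (continuousOn_D2 isOpen_ball hχ.contDiffOn)).mono hKU
  have i1 : IntegrableOn (fun x => w x * md (update (fun i => D2 (v i) x) j (D2 χ x)))
      (closedBall 0 r) := ((hw.continuousOn.mono hKU).mul c1).integrableOn_compact hK
  have i2 : IntegrableOn (fun x => v j x * md (update (fun i => D2 (v i) x) j (D2 χ x)))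
      (closedBall 0 r) := (((hv3 j).continuousOn.mono hKU).mul c1).integrableOn_compact hK
  simp only [e1]
  rw [p1, p2, ← integral_sub i1 i2]
  have c2 := (cont_upd isOpen_ball hv3 j (B := fun _ => (Eu : Bil n)) continuousOn_const).mono hKU
  refine (abs_int_le hK (c := e * c) c2 fun x hx => ?_).trans ?_
  · rw [← sub_mul, abs_mul, mul_assoc]
    exact mul_le_mul (hwv x (hKU hx)) (abs_upd_le h (fun i η => (hv i).2 x (hKU hx) η) (hb x hx))
      (abs_nonneg _) he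
  · refine mul_le_mul_of_nonneg_left ?_ (mul_nonneg he hc0)
    have h3 := hC (update v j fun x => ‖x‖ ^ 2) (fun i => ?_) (fun i x hx => ?_)
    · refine le_of_eq_of_le (setIntegral_congr_fun hK.measurableSet fun x _ => ?_) h3
      simp only [e1]
      refine h.congr fun i η => ?_
      rcases eq_or_ne i j with rfl | hi
      · rw [update_self, update_self, hq_Eu, hq_D2, lev_sq0]
      · rw [update_of_ne hi, update_of_ne hi]
    · rcases eq_or_ne i j with rfl | hi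
      · rw [update_self]; exact ps_sq _
      · rw [update_of_ne hi]; exact hv i
    · rcases eq_or_ne i j with rfl | hi
      · rw [update_self, abs_of_nonneg (by positivity)]
        exact (pow_le_pow_left₀ (norm_nonneg _) (mem_ball_zero_iff.1 hx).le 2).trans hA
      · rw [update_of_ne hi]; exact hvA i x hx

/-- All slots, smooth weight. -/
theorem tele (h : Alg n) (hs : Lst n) {r R A C c e : ℝ} (hr : r < R) (hA : R ^ 2 ≤ A)
    (hC : ∀ (u : Fin n → M n → ℝ), (∀ i, Ps (ball 0 R) (u i)) →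
      (∀ i, ∀ x ∈ ball (0 : M n) R, |u i x| ≤ A) →
      ∫ x in closedBall (0 : M n) r, md (fun i => D2 (u i) x) ≤ C)
    {χ : M n → ℝ} (hχ : ContDiff ℝ 3 χ) (hc : tsupport χ ⊆ closedBall 0 r) (hc0 : 0 ≤ c)
    (hb : ∀ x ∈ closedBall (0 : M n) r, ‖D2 χ x‖ ≤ c) (he : 0 ≤ e)
    {u u' : Fin n → M n → ℝ} (hu : ∀ i, Ps (ball 0 R) (u i) ∧ Ps (ball 0 R) (u' i))
    (hb' : ∀ i, ∀ x ∈ ball (0 : M n) R, |u i x| ≤ A ∧ |u' i x| ≤ A ∧ |u i x - u' i x| ≤ e) :
    |(∫ x in closedBall (0 : M n) r, χ x * md (fun i => D2 (u i) x)) -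
      ∫ x in closedBall (0 : M n) r, χ x * md (fun i => D2 (u' i) x)| ≤ n * (e * c * C) := by
  classical
  have key : ∀ s : Finset (Fin n),
      |(∫ x in closedBall (0 : M n) r, χ x * md (fun i => D2 (s.piecewise u u' i) x)) -
        ∫ x in closedBall (0 : M n) r, χ x * md (fun i => D2 (u' i) x)| ≤ s.card * (e * c * C) := by
    intro s
    induction s using Finset.induction_on with
    | empty => simp
    | insert j s hj ih =>
      rw [Finset.piecewise_insert, Finset.card_insert_of_notMem hj]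
      have h1 := step h hs hr hA hC hχ hc hc0 hb he (v := s.piecewise u u') (fun i => ?_)
        (fun i x hx => ?_) j (hu j).1.1 (fun x hx => ?_)
      · refine (abs_sub_le _ _ _).trans ((add_le_add h1 ih).trans (le_of_eq ?_))
        push_cast; ring
      · by_cases hi : i ∈ s
        · rw [Finset.piecewise_eq_of_mem _ _ _ hi]; exact (hu i).1
        · rw [Finset.piecewise_eq_of_notMem _ _ _ hi]; exact (hu i).2
      · by_cases hi : i ∈ s
        · rw [Finset.piecewise_eq_of_mem _ _ _ hi]; exact (hb' i x hx).1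
        · rw [Finset.piecewise_eq_of_notMem _ _ _ hi]; exact (hb' i x hx).2.1
      · rw [Finset.piecewise_eq_of_notMem _ _ _ hj]; exact (hb' j x hx).2.2
  simpa using key Finset.univ

theorem approx {r R δ : ℝ} {Φ : M n → ℝ} (hr : r < R) (hδ : 0 < δ) (hΦ : ContinuousOn Φ (ball 0 R))
    (h0 : ∀ x ∈ ball (0 : M n) R, r < ‖x‖ → Φ x = 0) :
    ∃ χ : M n → ℝ, ContDiff ℝ 3 χ ∧ tsupport χ ⊆ closedBall 0 r ∧
      ∀ x ∈ ball (0 : M n) R, |Φ x - χ x| ≤ δ := by
  have hz : ∀ x : M n, r < ‖x‖ → indicator (ball (0 : M n) R) Φ x = 0 := fun x hx => by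
    by_cases h : x ∈ ball (0 : M n) R
    · rw [indicator_of_mem h, h0 x h hx]
    · rw [indicator_of_notMem h]
  have hcont : Continuous (indicator (ball (0 : M n) R) Φ) := continuous_iff_continuousAt.2 fun x => by
    by_cases h : x ∈ ball (0 : M n) R
    · refine (hΦ.continuousAt (isOpen_ball.mem_nhds h)).congr ?_
      filter_upwards [isOpen_ball.mem_nhds h] with y hy
      rw [indicator_of_mem hy]
    · have hx : r < ‖x‖ := hr.trans_le (not_lt.1 fun h' => h (mem_ball_zero_iff.2 h'))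
      refine (continuousAt_const (y := (0 : ℝ))).congr ?_
      filter_upwards [(isOpen_lt continuous_const continuous_norm).mem_nhds hx] with y hy
      rw [hz y hy]
  obtain ⟨χ, h1, h2, h3⟩ := hcont.exists_contDiff_approx 3 (ε := fun _ => δ) continuous_const
    fun _ => hδ
  refine ⟨χ, h1, closure_minimal (fun x hx => ?_) isClosed_closedBall, fun x hx => ?_⟩
  · exact mem_closedBall_zero_iff.2 (not_lt.1 fun h => h3 hx (hz x h))
  · have := h2 x
    rw [indicator_of_mem hx, dist_comm, Real.dist_eq] at this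
    exact this.le

end Cln2

open Cln2 in
theorem cln2 (h : Alg n) (hs : Lst n) (h1 : Cln1 n) : Cln2 n := by
  intro r R a ε Φ hr0 hr hε hΦ h0
  obtain ⟨C0, hC0, hC⟩ := h1 r R hr0 hr
  have hK := isCompact_closedBall (0 : M n) r
  have hKU : closedBall (0 : M n) r ⊆ ball 0 R := closedBall_subset_ball hr
  set A := max a (R ^ 2) with hA
  have hA0 : 0 ≤ A := le_max_of_le_right (by positivity)
  set C := C0 * A ^ n with hCd
  have hCn : 0 ≤ C := by positivity
  have hC' := fun u => hC u A hA0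
  have hδ : 0 < ε / (4 * (C + 1)) := by positivity
  obtain ⟨χ, hχ, hc, hap⟩ := approx hr hδ hΦ h0
  obtain ⟨c, hb⟩ := hK.exists_bound_of_continuousOn
    ((continuousOn_D2 isOpen_ball hχ.contDiffOn).mono hKU)
  have hc0 : 0 ≤ c := (norm_nonneg _).trans (hb 0 (mem_closedBall_self hr0.le))
  have he : 0 < ε / (2 * (n * c * C + 1)) := by positivity
  refine ⟨_, he, fun u u' hu hb' => ?_⟩
  have t := tele h hs hr (le_max_right _ _) hC' hχ hc hc0 hb he.le hu fun i x hx =>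
    ⟨(hb' i x hx).1.trans (le_max_left _ _), (hb' i x hx).2.1.trans (le_max_left _ _),
      (hb' i x hx).2.2⟩
  have side : ∀ v : Fin n → M n → ℝ, (∀ i, Ps (ball 0 R) (v i)) →
      (∀ i, ∀ x ∈ ball (0 : M n) R, |v i x| ≤ A) →
      |(∫ x in closedBall (0 : M n) r, Φ x * md (fun i => D2 (v i) x)) -
        ∫ x in closedBall (0 : M n) r, χ x * md (fun i => D2 (v i) x)| ≤ ε / 4 := by
    intro v hv hvA
    have c1 : ContinuousOn (fun x => md (fun i => D2 (v i) x)) (closedBall 0 r) :=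
      (continuousOn_md fun i => continuousOn_D2 isOpen_ball (hv i).1).mono hKU
    have i1 : IntegrableOn (fun x => Φ x * md (fun i => D2 (v i) x)) (closedBall 0 r) :=
      ((hΦ.mono hKU).mul c1).integrableOn_compact hK
    have i2 : IntegrableOn (fun x => χ x * md (fun i => D2 (v i) x)) (closedBall 0 r) :=
      (hχ.continuous.continuousOn.mul c1).integrableOn_compact hK
    rw [← integral_sub i1 i2]
    refine (abs_int_le hK (c := ε / (4 * (C + 1))) c1 fun x hx => ?_).trans ?_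
    · have hp : 0 ≤ md (fun i => D2 (v i) x) := h.pos _ fun i η => (hv i).2 x (hKU hx) η
      rw [← sub_mul, abs_mul, abs_of_nonneg hp]
      exact mul_le_mul_of_nonneg_right (hap x (hKU hx)) hp
    · refine (mul_le_mul_of_nonneg_left (hC' v hv hvA) hδ.le).trans ?_
      rw [div_mul_eq_mul_div, div_le_div_iff₀ (by positivity) (by positivity)]
      nlinarith
  have s1 := side u (fun i => (hu i).1) fun i x hx => (hb' i x hx).1.trans (le_max_left _ _)
  have s2 := side u' (fun i => (hu i).2) fun i x hx => (hb' i x hx).2.1.trans (le_max_left _ _)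
  have t' : (n : ℝ) * (ε / (2 * (n * c * C + 1)) * c * C) ≤ ε / 2 := by
    have e : (n : ℝ) * (ε / (2 * (n * c * C + 1)) * c * C) =
        ε * (n * c * C) / (2 * (n * c * C + 1)) := by ring
    have hp : 0 ≤ (n : ℝ) * c * C := by positivity
    rw [e, div_le_div_iff₀ (by positivity) (by positivity)]
    nlinarith
  obtain ⟨a1, a2⟩ := abs_le.1 s1
  obtain ⟨a3, a4⟩ := abs_le.1 s2
  obtain ⟨a5, a6⟩ := abs_le.1 (t.trans t')
  rw [abs_le]
  constructor <;> linarith

end Pool.Agent.MP_8ac6f3_ag.KH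

end MrgPart1

-- ======== part 2: formerly Pool.Agent.MP_8ac6f3_ag.kh.Three
section MrgPart2

/-! The three circles inequality. -/

open Set Metric Complex MeasureTheory Filter Function
open scoped ContDiff Topology

set_option maxSynthPendingDepth 3

namespace Pool.Agent.MP_8ac6f3_ag.KH

variable {n : ℕ}

namespace Thr

theorem no_max {w : M n → ℝ} {z v : M n} {k ε : ℝ} {ζ : ℂ} (hv : ‖v‖ = 1) (hε : 0 < ε)
    (h0 : ζ ≠ 0) (hw : ContDiffAt ℝ 2 w (z + ζ • v)) (hl : 0 ≤ lev w (z + ζ • v) v) :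
    ¬ IsLocalMax (fun s : ℂ => w (z + s • v) - k * Real.log (‖s‖ ^ 2) + ε * ‖s‖ ^ 2) ζ := by
  intro hm
  let l : M n →L[ℂ] ℂ := innerSL ℂ v
  have lv : l v = 1 := by
    show inner ℂ v v = 1
    rw [inner_self_eq_norm_sq_to_K, hv]
    simp
  have lx : l (ζ • v) = ζ := by rw [map_smul, lv, smul_eq_mul, mul_one]
  have c0 : ContDiffAt ℂ 2 (fun x : M n => l x) (ζ • v) := l.contDiff.contDiffAt
  have cτ : ContDiffAt ℂ 2 (fun x : M n => z + l x • v) (ζ • v) :=
    contDiffAt_const.add (c0.smul contDiffAt_const)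
  have dτ : fderiv ℂ (fun x : M n => z + l x • v) (ζ • v) v = v := by
    rw [((l.hasFDerivAt.smul_const v).const_add z).fderiv]
    simp [lv]
  have hw' : ContDiffAt ℝ 2 w (z + l (ζ • v) • v) := by rwa [lx]
  have c1 : ContDiffAt ℝ 2 (fun x : M n => w (z + l x • v)) (ζ • v) :=
    hw'.comp (ζ • v) (cτ.restrict_scalars ℝ)
  have c2 : ContDiffAt ℝ 2 (fun x : M n => ‖l x‖ ^ 2) (ζ • v) := (c0.restrict_scalars ℝ).norm_sq ℂ
  have c3 : ContDiffAt ℝ 2 (fun x : M n => Real.log (‖l x‖ ^ 2)) (ζ • v) :=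
    c2.log (by rw [lx]; simpa using h0)
  have c4 := c1.sub ((contDiffAt_const (c := k)).mul c3)
  have c5 := (contDiffAt_const (c := ε)).mul c2
  have hm' : IsLocalMin (fun x : M n => (-1) * (w (z + l x • v) - k * Real.log (‖l x‖ ^ 2) +
      ε * ‖l x‖ ^ 2)) (ζ • v) := by
    rw [← lx] at hm
    simp only [neg_one_mul]
    exact (hm.comp_continuous l.continuous.continuousAt).neg
  have h := lev_nonneg_of_isLocalMin (contDiffAt_const.mul (c4.add c5)) hm' v
  rw [lev_const_mul _ (c4.add c5), lev_add c4 c5, lev_sub c1 (contDiffAt_const.mul c3),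
    lev_const_mul _ c3, lev_const_mul _ c2, lev_log_hol c0 (by rwa [lx]), lev_normSq_hol c0,
    lev_comp_hol cτ hw', dτ, lx, l.fderiv, lv] at h
  simp only [norm_one, one_pow] at h
  linarith

theorem annulus {U : Set (M n)} {w : M n → ℝ} {z v : M n} {r₁ R k ε m : ℝ} (hU : IsOpen U)
    (hw : Ps U w) (hR : closedBall z R ⊆ U) (h1 : 0 < r₁) (hv : ‖v‖ = 1) (hε : 0 < ε)
    (hb : ∀ s : ℂ, ‖s‖ ≤ R → ‖s‖ = r₁ ∨ ‖s‖ = R →
      w (z + s • v) - k * Real.log (‖s‖ ^ 2) + ε * ‖s‖ ^ 2 ≤ m) {ζ : ℂ} (k1 : r₁ ≤ ‖ζ‖)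
    (k2 : ‖ζ‖ ≤ R) : w (z + ζ • v) - k * Real.log (‖ζ‖ ^ 2) + ε * ‖ζ‖ ^ 2 ≤ m := by
  have hK : IsCompact (closedBall (0 : ℂ) R \ ball 0 r₁) :=
    (isCompact_closedBall 0 R).diff isOpen_ball
  have mem : ∀ s : ℂ, s ∈ closedBall (0 : ℂ) R \ ball 0 r₁ ↔ ‖s‖ ≤ R ∧ r₁ ≤ ‖s‖ := fun s => by simp
  have inU : ∀ s : ℂ, ‖s‖ ≤ R → z + s • v ∈ U := fun s hs =>
    hR (by rwa [mem_closedBall, dist_eq_norm, add_sub_cancel_left, norm_smul, hv, mul_one])
  have hc : ContinuousOn (fun s : ℂ => w (z + s • v) - k * Real.log (‖s‖ ^ 2) + ε * ‖s‖ ^ 2)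
      (closedBall (0 : ℂ) R \ ball 0 r₁) := by
    refine ((hw.1.continuousOn.comp (by fun_prop) fun s hs => inU s ((mem s).1 hs).1).sub
      (continuousOn_const.mul (ContinuousOn.log (by fun_prop) fun s hs => ?_))).add (by fun_prop)
    exact (pow_pos (h1.trans_le ((mem s).1 hs).2) 2).ne'
  obtain ⟨s, hs, hm⟩ := hK.exists_isMaxOn ⟨ζ, (mem ζ).2 ⟨k2, k1⟩⟩ hc
  obtain ⟨s1, s2⟩ := (mem s).1 hs
  refine le_trans (hm ((mem ζ).2 ⟨k2, k1⟩)) (hb s s1 ?_)
  by_contra hn
  rw [not_or] at hn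
  have t1 : r₁ < ‖s‖ := lt_of_le_of_ne s2 (Ne.symm hn.1)
  have t2 : ‖s‖ < R := lt_of_le_of_ne s1 hn.2
  refine no_max (k := k) hv hε (norm_pos_iff.1 (h1.trans t1))
    ((hw.1.contDiffAt (hU.mem_nhds (inU s s1))).of_le (by norm_num)) (hw.2 _ (inU s s1) v)
    (hm.isLocalMax ?_)
  filter_upwards [continuous_norm.continuousAt.eventually (Ioo_mem_nhds t1 t2)] with t ht
  exact (mem t).2 ⟨ht.2.le, ht.1.le⟩

end Thr

theorem three : Three n := by
  intro U w z r₁ r R a c hU hw hR h1 h2 h3 h4 hac ha hc y hy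
  have hL : 0 < Real.log (R / r₁) := Real.log_pos ((one_lt_div h1).2 h4)
  have hR0 : 0 < R := h1.trans h4
  rw [mem_closedBall, dist_eq_norm] at hy
  rcases le_total ‖y - z‖ r₁ with h | h
  · have := mul_nonneg (sub_nonneg.2 hac)
      (div_nonneg (Real.log_nonneg ((one_le_div h1).2 h2)) hL.le)
    linarith [ha y (by rwa [mem_closedBall, dist_eq_norm])]
  have hρ : 0 < ‖y - z‖ := h1.trans_le h
  set k := (c - a) / Real.log (R / r₁) with hk
  have hk0 : 0 ≤ k := div_nonneg (sub_nonneg.2 hac) hL.le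
  have hk1 : k * (Real.log R - Real.log r₁) = c - a := by
    rw [← Real.log_div hR0.ne' h1.ne', hk, div_mul_cancel₀ _ hL.ne']
  have hv : ‖((‖y - z‖ : ℂ))⁻¹ • (y - z)‖ = 1 := by
    rw [norm_smul, norm_inv, norm_real, norm_norm, inv_mul_cancel₀ hρ.ne']
  have e : z + (‖y - z‖ : ℂ) • ((‖y - z‖ : ℂ))⁻¹ • (y - z) = y := by
    rw [smul_smul, mul_inv_cancel₀ (ofReal_ne_zero.2 hρ.ne'), one_smul, add_sub_cancel]
  have hn : ‖(‖y - z‖ : ℂ)‖ = ‖y - z‖ := by rw [norm_real, norm_norm]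
  rw [← mul_div_assoc, mul_div_right_comm, ← hk, Real.log_div (h1.trans_le h2).ne' h1.ne']
  refine le_of_forall_pos_le_add fun δ hδ => ?_
  have key := Thr.annulus (k := k / 2) (ε := δ / R ^ 2) (m := a - k * Real.log r₁ + δ) hU hw hR h1
    hv (by positivity) (fun s hs hs' => ?_) (ζ := (‖y - z‖ : ℂ)) (by rwa [hn])
    (by rw [hn]; exact hy.trans h3)
  · rw [e, hn, Real.log_pow] at key
    have t1 : 0 ≤ δ / R ^ 2 * ‖y - z‖ ^ 2 := by positivity
    have t2 := mul_le_mul_of_nonneg_left (Real.log_le_log hρ hy) hk0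
    push_cast at key
    linarith
  · have t1 : δ / R ^ 2 * ‖s‖ ^ 2 ≤ δ := by
      rw [div_mul_eq_mul_div, div_le_iff₀ (by positivity)]
      exact mul_le_mul_of_nonneg_left (pow_le_pow_left₀ (norm_nonneg s) hs 2) hδ.le
    have t2 : dist (z + s • ((‖y - z‖ : ℂ))⁻¹ • (y - z)) z = ‖s‖ := by
      rw [dist_eq_norm, add_sub_cancel_left, norm_smul, hv, mul_one]
    rw [Real.log_pow]
    push_cast
    rcases hs' with hs' | hs'
    · have := ha _ (mem_closedBall.2 (t2.trans hs').le)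
      rw [hs'] at t1 ⊢
      linarith
    · have := hc _ (mem_closedBall.2 (t2.trans hs').le)
      rw [hs'] at t1 ⊢
      linarith

end Pool.Agent.MP_8ac6f3_ag.KH

end MrgPart2

-- ======== part 3: formerly Pool.Agent.MP_8ac6f3_ag.kh.C11a
section MrgPart3

/-! Plurisubharmonic and semiconcave functions have a Lipschitz derivative. -/

open Set Metric Complex MeasureTheory Filter Function
open scoped ContDiff Topology

set_option maxSynthPendingDepth 3

namespace Pool.Agent.MP_8ac6f3_ag.KH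

variable {n : ℕ}

namespace C1A

theorem mol_apply (k : ℕ) (v : M n → ℝ) (x : M n) :
    mol k v x = ∫ t, (bp k).normed volume t * v (x - t) := by
  simp [mol, convolution_def]

theorem integ (k : ℕ) {g : M n → ℝ} (hg : Continuous g) :
    Integrable fun t => (bp k : ContDiffBump (0 : M n)).normed volume t * g t :=
  ((bp k).continuous_normed.mul hg).integrable_of_hasCompactSupport
    (bp k).hasCompactSupport_normed.mul_right

theorem mol_diff {v : M n → ℝ} {C : ℝ} (hv : Continuous v)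
    (h : ∀ x h, v (x + h) + v (x - h) - 2 * v x ≤ C * ‖h‖ ^ 2) (k : ℕ) (x y : M n) :
    mol k v (x + y) + mol k v (x - y) - 2 * mol k v x ≤ C * ‖y‖ ^ 2 := by
  have i1 := integ k (g := fun t => v (x + y - t)) (by fun_prop)
  have i2 := integ k (g := fun t => v (x - y - t)) (by fun_prop)
  have i3 := (integ k (g := fun t => v (x - t)) (by fun_prop)).const_mul 2
  have i4 := integ (n := n) k (g := fun _ => C * ‖y‖ ^ 2) continuous_const
  have e : C * ‖y‖ ^ 2 = ∫ t, (bp k : ContDiffBump (0 : M n)).normed volume t * (C * ‖y‖ ^ 2) := by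
    rw [integral_mul_const, (bp k).integral_normed, one_mul]
  have i5 : Integrable fun t => (bp k : ContDiffBump (0 : M n)).normed volume t * v (x + y - t) +
      (bp k : ContDiffBump (0 : M n)).normed volume t * v (x - y - t) := i1.add i2
  rw [mol_apply, mol_apply, mol_apply, ← integral_add i1 i2, ← integral_const_mul,
    ← integral_sub i5 i3, e]
  refine integral_mono (i5.sub i3) i4 fun t => ?_
  have h1 := mul_le_mul_of_nonneg_left (h (x - t) y) ((bp k).nonneg_normed (μ := volume) t)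
  rw [show x - t + y = x + y - t by abel, show x - t - y = x - y - t by abel] at h1
  beta_reduce
  linarith

theorem d2_le {w : M n → ℝ} {C : ℝ} (hw : ContDiff ℝ 3 w)
    (h : ∀ x h, w (x + h) + w (x - h) - 2 * w x ≤ C * ‖h‖ ^ 2) (x η : M n) :
    d2 w x η ≤ C * ‖η‖ ^ 2 := by
  obtain ⟨K, hK⟩ := (isCompact_closedBall x 1).exists_bound_of_continuousOn
    (hw.continuous_iteratedFDeriv (m := 3) le_rfl).continuousOn
  have key : ∀ t : ℝ, 0 < t → t * ‖η‖ < 1 → d2 w x η ≤ C * ‖η‖ ^ 2 + 2 * K * ‖η‖ ^ 3 * t := by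
    intro t ht ht1
    have hn : ‖t • η‖ = t * ‖η‖ := by rw [norm_smul, Real.norm_of_nonneg ht.le]
    have h1 := taylor3 (x := x) (η := t • η) (r := 1) (K := K) hw.contDiffOn
      (fun y hy => hK y (ball_subset_closedBall hy)) (by rwa [hn])
    have h2 := taylor3 (x := x) (η := -(t • η)) (r := 1) (K := K) hw.contDiffOn
      (fun y hy => hK y (ball_subset_closedBall hy)) (by rwa [norm_neg, hn])
    have h3 := h x (t • η)
    have e1 : d2 w x (t • η) = t ^ 2 * d2 w x η := by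
      simp only [d2, map_smul, smul_apply, smul_eq_mul]; ring
    have e2 : d2 w x (-(t • η)) = t ^ 2 * d2 w x η := by
      rw [← e1]; simp only [d2, map_neg, neg_apply, neg_neg]
    rw [e1, hn] at h1
    rw [e2, norm_neg, hn, map_neg, ← sub_eq_add_neg] at h2
    rw [hn] at h3
    refine le_of_mul_le_mul_left ?_ (pow_pos ht 2)
    linarith [(abs_le.1 h1).1, (abs_le.1 h2).1]
  have h1 : Tendsto (fun t : ℝ => C * ‖η‖ ^ 2 + 2 * K * ‖η‖ ^ 3 * t) (𝓝[>] 0)
      (𝓝 (C * ‖η‖ ^ 2)) := by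
    have : Continuous fun t : ℝ => C * ‖η‖ ^ 2 + 2 * K * ‖η‖ ^ 3 * t := by fun_prop
    simpa using (this.tendsto 0).mono_left nhdsWithin_le_nhds
  have h2 : ∀ᶠ t : ℝ in 𝓝[>] 0, t * ‖η‖ < 1 := by
    have : Continuous fun t : ℝ => t * ‖η‖ := by fun_prop
    exact ((this.tendsto 0).mono_left nhdsWithin_le_nhds).eventually
      (gt_mem_nhds (by simp))
  refine ge_of_tendsto h1 ?_
  filter_upwards [h2, self_mem_nhdsWithin] with t h3 h4 using key t h4 h3

theorem norm_le_of_diag {B : Bil n} {K : ℝ} (hK : 0 ≤ K) (hs : ∀ u v, B u v = B v u)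
    (h : ∀ η, |B η η| ≤ K * ‖η‖ ^ 2) : ‖B‖ ≤ K := by
  refine ContinuousLinearMap.opNorm_le_of_unit_norm hK fun u hu => ?_
  refine ContinuousLinearMap.opNorm_le_of_unit_norm hK fun v hv => ?_
  have h1 := abs_le.1 (h (u + v))
  have h2 := abs_le.1 (h (u - v))
  have h3 := parallelogram_law_with_norm ℝ u v
  simp only [map_add, map_sub, add_apply, sub_apply, hs v u] at h1 h2
  rw [hu, hv] at h3
  have h4 : K * ‖u + v‖ ^ 2 + K * ‖u - v‖ ^ 2 = 4 * K := by
    rw [← mul_add, h3]; ring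
  rw [Real.norm_eq_abs, abs_le]
  constructor <;> linarith [h1.1, h1.2, h2.1, h2.2]

theorem lip_of {w : M n → ℝ} {C : ℝ} (hw : ContDiff ℝ 3 w)
    (h : ∀ x h, w (x + h) + w (x - h) - 2 * w x ≤ C * ‖h‖ ^ 2) (hl : ∀ x η, 0 ≤ lev w x η)
    (x y : M n) : ‖fderiv ℝ w x - fderiv ℝ w y‖ ≤ |C| * ‖x - y‖ := by
  have hd : Differentiable ℝ (fderiv ℝ w) :=
    (hw.fderiv_right (m := 1) (by norm_num)).differentiable one_ne_zero
  refine convex_univ.norm_image_sub_le_of_norm_fderiv_le (fun z _ => hd z) (fun z _ => ?_)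
    (mem_univ y) (mem_univ x)
  refine norm_le_of_diag (abs_nonneg C)
    (hw.contDiffAt.isSymmSndFDerivAt (by simp; norm_num)).eq fun η => ?_
  have h1 := d2_le hw h z η
  have h2 := d2_le hw h z (I • η)
  have h3 := hl z η
  rw [norm_smul, norm_I, one_mul] at h2
  have h4 : C * ‖η‖ ^ 2 ≤ |C| * ‖η‖ ^ 2 := by gcongr; exact le_abs_self C
  rw [lev] at h3
  change |d2 w z η| ≤ _
  rw [abs_le]
  constructor <;> linarith

theorem taylor1 {w : M n → ℝ} {K : ℝ} (hK : 0 ≤ K) (hw : Differentiable ℝ w)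
    (h : ∀ x y, ‖fderiv ℝ w x - fderiv ℝ w y‖ ≤ K * ‖x - y‖) (x y : M n) :
    |w (x + y) - w x - fderiv ℝ w x y| ≤ K * ‖y‖ ^ 2 := by
  have := (convex_closedBall x ‖y‖).norm_image_sub_le_of_norm_fderiv_le' (f := w)
    (φ := fderiv ℝ w x) (C := K * ‖y‖) (x := x) (y := x + y) (fun z _ => hw z)
    (fun z hz => (h z x).trans (by gcongr; exact mem_closedBall_iff_norm.1 hz))
    (mem_closedBall_self (norm_nonneg y)) (by simp)
  rw [add_sub_cancel_left, Real.norm_eq_abs] at this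
  calc _ ≤ _ := this
    _ = _ := by ring

theorem cauchy {w : ℕ → M n → ℝ} {v : M n → ℝ} {K : ℝ} (hK : 0 ≤ K)
    (h : ∀ k x y, |w k (x + y) - w k x - fderiv ℝ (w k) x y| ≤ K * ‖y‖ ^ 2)
    (hc : ∀ R ε : ℝ, 0 < ε → ∀ᶠ k in atTop, ∀ x ∈ ball (0 : M n) R, |w k x - v x| ≤ ε)
    (x : M n) : CauchySeq fun k => fderiv ℝ (w k) x := by
  refine Metric.cauchySeq_iff.2 fun ε hε => ?_
  set δ : ℝ := ε / (8 * (K + 1)) with hδ
  have h0 : 0 < δ := by positivity
  have h1 : 2 * K * δ ≤ ε / 4 := by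
    rw [hδ, ← mul_div_assoc, div_le_div_iff₀ (by positivity) (by positivity)]
    nlinarith
  obtain ⟨N, hN⟩ := eventually_atTop.1 (hc (‖x‖ + δ + 1) (ε * δ / 16) (by positivity))
  refine ⟨N, fun k hk l hl => ?_⟩
  rw [dist_eq_norm]
  refine lt_of_le_of_lt (b := ε / 2)
    (ContinuousLinearMap.opNorm_le_of_unit_norm (by positivity) fun u hu => ?_) (by linarith)
  have hn : ‖δ • u‖ = δ := by rw [norm_smul, hu, mul_one, Real.norm_of_nonneg h0.le]
  have m1 : x ∈ ball (0 : M n) (‖x‖ + δ + 1) := mem_ball_zero_iff.2 (by linarith)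
  have m2 : x + δ • u ∈ ball (0 : M n) (‖x‖ + δ + 1) :=
    mem_ball_zero_iff.2 ((norm_add_le _ _).trans_lt (by rw [hn]; linarith))
  have a1 := abs_le.1 (h k x (δ • u))
  have a2 := abs_le.1 (h l x (δ • u))
  have a3 := abs_le.1 (hN k hk _ m1)
  have a4 := abs_le.1 (hN l hl _ m1)
  have a5 := abs_le.1 (hN k hk _ m2)
  have a6 := abs_le.1 (hN l hl _ m2)
  rw [hn, map_smul, smul_eq_mul] at a1 a2
  have a7 := mul_le_mul_of_nonneg_left h1 h0.le
  rw [sub_apply, Real.norm_eq_abs, abs_le]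
  constructor
  · refine le_of_mul_le_mul_left ?_ h0
    linarith [a1.2, a2.1, a3.2, a4.1, a5.1, a6.2]
  · refine le_of_mul_le_mul_left ?_ h0
    linarith [a1.1, a2.2, a3.1, a4.2, a5.2, a6.1]

end C1A

open C1A in
theorem c11a (h : Mol n) : C11a n := by
  intro v C hv ha hC
  obtain ⟨h1, h2, h3, -⟩ := h v hv
  have hl := fun k => lip_of (h1 k) (mol_diff hv hC k) (h3 ha k)
  have ht := fun k => taylor1 (abs_nonneg C) ((h1 k).differentiable (by norm_num)) (hl k)
  choose g hg using fun x => cauchySeq_tendsto_of_complete (cauchy (abs_nonneg C) ht h2 x)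
  have hp : ∀ x, Tendsto (fun k => mol k v x) atTop (𝓝 (v x)) := fun x => by
    refine Metric.tendsto_nhds.2 fun ε hε => ?_
    filter_upwards [h2 (‖x‖ + 1) (ε / 2) (half_pos hε)] with k hk
    rw [Real.dist_eq]
    exact (hk x (mem_ball_zero_iff.2 (by linarith))).trans_lt (half_lt_self hε)
  have hq : ∀ x y, |v (x + y) - v x - g x y| ≤ |C| * ‖y‖ ^ 2 := fun x y =>
    le_of_tendsto' (((hp _).sub (hp x)).sub
      (((ContinuousLinearMap.apply ℝ ℝ y).continuous.tendsto _).comp (hg x))).abs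
      fun k => ht k x y
  have hd : ∀ x, HasFDerivAt v (g x) x := fun x => by
    rw [hasFDerivAt_iff_isLittleO_nhds_zero]
    refine Asymptotics.IsBigO.trans_isLittleO (g := fun y : M n => ‖y‖ ^ 2)
      (Asymptotics.IsBigO.of_bound |C| (Eventually.of_forall fun y => ?_))
      (Asymptotics.isLittleO_norm_pow_id one_lt_two)
    simpa using hq x y
  refine ⟨fun x => (hd x).differentiableAt, ⟨|C|, abs_nonneg C⟩, LipschitzWith.of_dist_le_mul
    fun x y => ?_⟩
  rw [(hd x).fderiv, (hd y).fderiv, dist_eq_norm, dist_eq_norm]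
  exact le_of_tendsto' ((hg x).sub (hg y)).norm fun k => hl k x y

end Pool.Agent.MP_8ac6f3_ag.KH

end MrgPart3

-- ======== part 4: formerly Pool.Agent.MP_8ac6f3_ag.kh.C11b
section MrgPart4

/-! Hessians of the mollifications of a `C^{1,1}` function. -/

open Set Metric Complex MeasureTheory Filter Function
open scoped ContDiff Topology

set_option maxSynthPendingDepth 3

namespace Pool.Agent.MP_8ac6f3_ag.KH

variable {n : ℕ}

namespace C1B

theorem meas (g : M n → Cv n) : AEStronglyMeasurable (fderiv ℝ g) volume :=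
  (measurable_fderiv ℝ g).aestronglyMeasurable

theorem has {g : M n → Cv n} {C : NNReal} (hg : LipschitzWith C g) (k : ℕ) (x : M n) :
    HasFDerivAt (mol k g) (mol k (fderiv ℝ g) x) x := by
  have hc : Continuous ((bp k : ContDiffBump (0 : M n)).normed volume) := (bp k).continuous_normed
  have hs : HasCompactSupport ((bp k : ContDiffBump (0 : M n)).normed volume) :=
    (bp k).hasCompactSupport_normed
  have h1 : ∀ y : M n, Continuous fun t => (bp k).normed volume t • g (y - t) := fun y =>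
    hc.smul (hg.continuous.comp (continuous_const.sub continuous_id))
  have hq := (Measure.measurePreserving_sub_left (volume : Measure (M n)) x).quasiMeasurePreserving
  refine (hasFDerivAt_integral_of_dominated_loc_of_lip' (μ := volume) (s := univ)
    (F := fun y t => (bp k).normed volume t • g (y - t))
    (F' := fun t => (bp k).normed volume t • fderiv ℝ g (x - t))
    (bound := fun t => (bp k).normed volume t * C) univ_mem
    (fun y _ => (h1 y).aestronglyMeasurable)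
    ((h1 x).integrable_of_hasCompactSupport hs.smul_right)
    (hc.aestronglyMeasurable.smul ((meas g).comp_quasiMeasurePreserving hq))
    (Eventually.of_forall fun t y _ => ?_) ((bp k).integrable_normed.mul_const _) ?_).2
  · rw [← smul_sub, norm_smul, Real.norm_of_nonneg ((bp k).nonneg_normed t), mul_assoc]
    refine mul_le_mul_of_nonneg_left ?_ ((bp k).nonneg_normed t)
    simpa using hg.norm_sub_le (y - t) (x - t)
  · filter_upwards [hq.ae (hg.ae_differentiableAt (μ := volume))] with t ht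
    exact ((hasFDerivAt_comp_sub t).2 ht.hasFDerivAt).const_smul ((bp k).normed volume t)

theorem bd {g : M n → Cv n} {C : NNReal} (hg : LipschitzWith C g) (k : ℕ) (x : M n) :
    ‖mol k (fderiv ℝ g) x‖ ≤ C := by
  refine (norm_integral_le_of_norm_le (μ := volume)
    (f := fun t => (bp k).normed volume t • fderiv ℝ g (x - t))
    ((bp k).integrable_normed.mul_const (C : ℝ)) (Eventually.of_forall fun t => ?_)).trans ?_
  · rw [norm_smul, Real.norm_of_nonneg ((bp k).nonneg_normed t)]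
    exact mul_le_mul_of_nonneg_left (norm_fderiv_le_of_lipschitz ℝ hg) ((bp k).nonneg_normed t)
  · rw [integral_mul_const, (bp k).integral_normed, one_mul]

theorem conv {g : M n → Cv n} {C : NNReal} (hg : LipschitzWith C g) :
    ∀ᵐ x, Tendsto (fun k => mol k (fderiv ℝ g) x) atTop (𝓝 (fderiv ℝ g x)) :=
  ContDiffBump.ae_convolution_tendsto_right_of_locallyIntegrable (K := 2) (φ := bp)
    tendsto_one_div_add_atTop_nhds_zero_nat
    (Eventually.of_forall fun k => le_of_eq (by simp only [bp]; ring))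
    ((locallyIntegrable_const (C : ℝ)).mono (meas g) (Eventually.of_forall fun x =>
      (norm_fderiv_le_of_lipschitz ℝ hg).trans (le_abs_self _)))

theorem smooth (B : Bil n) (x : M n) : ContDiff ℝ 3 fun z => B (z - x) (z - x) :=
  (B.contDiff.comp (contDiff_id.sub contDiff_const)).clm_apply (contDiff_id.sub contDiff_const)

theorem lev_quad (B : Bil n) (x η : M n) : lev (fun z => B (z - x) (z - x)) x η = 2 * hq B η := by
  have h1 : ∀ z : M n, HasFDerivAt (fun z : M n => z - x) (ContinuousLinearMap.id ℝ _) z :=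
    fun z => (hasFDerivAt_id z).sub_const x
  have key : ∀ v, d2 (fun z => B (z - x) (z - x)) x v = 2 * B v v := fun v => by
    rw [L1.d2_of ((smooth B x).contDiffAt.of_le (by norm_num))
      (k := fun z => B (z - x) v + B v (z - x)) _
      ((((B.flip v).hasFDerivAt.comp x (h1 x))).add ((B v).hasFDerivAt.comp x (h1 x)))]
    · simp [two_mul]
    · refine Eventually.of_forall fun z => ?_
      have := ((B.hasFDerivAt.comp z (h1 z)).clm_apply (h1 z)).fderiv
      simp only [Function.comp_def] at this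
      rw [this]
      rfl
  simp only [lev, key, hq]
  ring

theorem touch {v : M n → ℝ} (hv : Differentiable ℝ v) {x : M n} {B : Bil n}
    (hB : HasFDerivAt (fderiv ℝ v) B x) {e : ℝ} (he : 0 < e) :
    ∀ᶠ z in 𝓝 x, 0 ≤ v z - v x - fderiv ℝ v x (z - x) - B (z - x) (z - x) / 2 + e * ‖z - x‖ ^ 2 := by
  obtain ⟨r, hr, h⟩ := Metric.eventually_nhds_iff.1 (hB.isLittleO.def he)
  filter_upwards [ball_mem_nhds x hr] with z hz
  rw [mem_ball, dist_eq_norm] at hz
  obtain ⟨w, rfl⟩ : ∃ w, z = x + w := ⟨z - x, by simp⟩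
  rw [add_sub_cancel_left] at hz ⊢
  have hl : ∀ t : ℝ, HasDerivAt (fun t : ℝ => x + t • w) w t := fun t => by
    simpa using ((hasDerivAt_id t).smul_const w).const_add x
  have key := norm_image_sub_le_of_norm_deriv_le_segment_01' (C := e * ‖w‖ ^ 2)
    (f := fun t : ℝ => v (x + t • w) - t * fderiv ℝ v x w - t ^ 2 * (B w w / 2))
    (f' := fun t => fderiv ℝ v (x + t • w) w - fderiv ℝ v x w - t * B w w)
    (fun t _ => by
      have h1 := (((hv _).hasFDerivAt.comp_hasDerivAt t (hl t)).sub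
        ((hasDerivAt_id t).mul_const (fderiv ℝ v x w))).sub
        ((hasDerivAt_pow 2 t).mul_const (B w w / 2))
      refine (h1.congr_deriv ?_).hasDerivWithinAt
      simp
      ring)
    (fun t ht => by
      have h1 : ‖t • w‖ ≤ ‖w‖ := by
        rw [norm_smul, Real.norm_of_nonneg ht.1]
        exact mul_le_of_le_one_left (norm_nonneg _) ht.2.le
      have h2 := h (y := x + t • w) (by
        rw [dist_eq_norm, add_sub_cancel_left]; exact h1.trans_lt hz)
      rw [add_sub_cancel_left] at h2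
      have h3 := (fderiv ℝ v (x + t • w) - fderiv ℝ v x - B (t • w)).le_of_opNorm_le
        (h2.trans (mul_le_mul_of_nonneg_left h1 he.le)) w
      simpa [mul_assoc, sq] using h3)
  simp only [one_smul, one_mul, one_pow, zero_smul, add_zero, zero_mul, sub_zero, ne_eq,
    OfNat.ofNat_ne_zero, not_false_eq_true, zero_pow, Real.norm_eq_abs] at key
  linarith [(abs_le.1 key).1]

end C1B

theorem c11b (h : Mol n) : C11b n := by
  intro v C hv hL
  have e : ∀ k x, D2 (mol k v) x = mol k (fderiv ℝ (fderiv ℝ v)) x := fun k x => by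
    rw [D2, (h v hv.continuous).2.2.2 (contDiff_one_iff_fderiv.2 ⟨hv, hL.continuous⟩) k]
    exact (C1B.has hL k x).fderiv
  refine ⟨fun k x => e k x ▸ C1B.bd hL k x, ?_⟩
  filter_upwards [C1B.conv hL, hL.ae_differentiableAt (μ := volume)] with x h1 h2
  refine ⟨fderiv ℝ (fderiv ℝ v) x, by simpa only [e] using h1, fun ε hε => ?_⟩
  have a1 : ContDiff ℝ 3 fun z => fderiv ℝ v x z := (fderiv ℝ v x).contDiff
  have a2 : ContDiff ℝ 3 fun z => 1 / 2 * fderiv ℝ (fderiv ℝ v) x (z - x) (z - x) :=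
    contDiff_const.mul (C1B.smooth _ x)
  have a3 : ContDiff ℝ 3 fun z : M n => ε * ‖z - x‖ ^ 2 := contDiff_const.mul (contDiff_sq x)
  refine ⟨fun z => fderiv ℝ v x z + 1 / 2 * fderiv ℝ (fderiv ℝ v) x (z - x) (z - x) -
    ε * ‖z - x‖ ^ 2, (a1.add a2).sub a3, ?_, fun η => ?_⟩
  · filter_upwards [C1B.touch hv h2.hasFDerivAt hε] with z hz
    rw [map_sub (fderiv ℝ v x)] at hz
    simp only [sub_self, map_zero, mul_zero, norm_zero]
    linarith
  · rw [lev_sub ((a1.add a2).contDiffAt.of_le (by norm_num)) (a3.contDiffAt.of_le (by norm_num)),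
      lev_add (a1.contDiffAt.of_le (by norm_num)) (a2.contDiffAt.of_le (by norm_num)), lev_clm,
      lev_const_mul _ ((C1B.smooth _ x).contDiffAt.of_le (by norm_num)), C1B.lev_quad,
      lev_const_mul _ ((contDiff_sq x).contDiffAt.of_le (by norm_num)), lev_sq]
    ring

end Pool.Agent.MP_8ac6f3_ag.KH

end MrgPart4

-- ======== part 5: formerly Pool.Agent.MP_8ac6f3_ag.kh.Envl
section MrgPart5

/-! Row EVL: the envelope of the inf-convolution. -/

open Set Metric Complex MeasureTheory Filter Function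
open scoped ContDiff Topology

set_option maxSynthPendingDepth 3

namespace Pool.Agent.MP_8ac6f3_ag.KH

variable {n : ℕ}

namespace EVL

theorem two {f : M n → ℝ} (h : ContDiff ℝ 3 f) (x : M n) : ContDiffAt ℝ 2 f x :=
  (h.of_le (by norm_num)).contDiffAt

theorem cd_sq (h : M n) : ContDiff ℝ 3 fun z : M n => ‖z + h‖ ^ 2 := by
  simpa using contDiff_sq (-h)

theorem cd_sq0 : ContDiff ℝ 3 fun z : M n => ‖z‖ ^ 2 := by simpa using contDiff_sq (0 : M n)

theorem cd_tr {f : M n → ℝ} (hf : ContDiff ℝ 3 f) (h : M n) : ContDiff ℝ 3 fun z => f (z + h) :=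
  hf.comp (contDiff_id.add contDiff_const)

theorem cd_shift {f : M n → ℝ} (hf : ContDiff ℝ 3 f) (c d : ℝ) (h : M n) :
    ContDiff ℝ 3 fun z => f (z + h) + (c * ‖z‖ ^ 2 - c * ‖z + h‖ ^ 2) + d :=
  ((cd_tr hf h).add ((contDiff_const.mul cd_sq0).sub (contDiff_const.mul (cd_sq h)))).add
    contDiff_const

theorem lev_shift {f : M n → ℝ} (hf : ContDiff ℝ 3 f) (c d : ℝ) (h x η : M n) :
    lev (fun z => f (z + h) + (c * ‖z‖ ^ 2 - c * ‖z + h‖ ^ 2) + d) x η = lev f (x + h) η := by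
  have e : lev (fun z : M n => ‖z + h‖ ^ 2) x η = ‖η‖ ^ 2 := by simpa using lev_sq (-h) x η
  rw [lev_add_const, lev_add (two (cd_tr hf h) x)
      (two ((contDiff_const.mul cd_sq0).sub (contDiff_const.mul (cd_sq h))) x),
    lev_sub (two (contDiff_const.mul cd_sq0) x) (two (contDiff_const.mul (cd_sq h)) x),
    lev_const_mul _ (two cd_sq0 x), lev_const_mul _ (two (cd_sq h) x), lev_sq0, e, lev_translate]
  ring

theorem cont_of_mod {u : M n → ℝ} {K δ : ℝ}
    (h : ∀ x y, u y ≤ u x + K * (2 * δ * ‖y - x‖ + ‖y - x‖ ^ 2)) : Continuous u := by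
  refine continuous_iff_continuousAt.2 fun x => tendsto_iff_norm_sub_tendsto_zero.2 ?_
  have hc : Continuous fun y : M n => K * (2 * δ * ‖y - x‖ + ‖y - x‖ ^ 2) := by fun_prop
  refine squeeze_zero (fun _ => norm_nonneg _) (fun y => ?_) (by simpa using hc.tendsto x)
  have h1 := h x y
  have h2 := h y x
  rw [norm_sub_rev] at h2
  rw [Real.norm_eq_abs, abs_le]
  constructor <;> linarith

theorem infconv {f : M n → ℝ} {b : ℝ} (hf : UniformContinuous f) (hb : ∀ x, |f x| ≤ b) {ε : ℝ}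
    (hε : 0 < ε) : ∃ (F : M n → ℝ) (K : ℝ), 0 ≤ K ∧ (∀ x y, F x ≤ f y + K * ‖x - y‖ ^ 2) ∧
      (∀ x, ∃ y, ‖y - x‖ ≤ ε ∧ F x = f y + K * ‖x - y‖ ^ 2) ∧ ∀ x, f x - ε ≤ F x := by
  obtain ⟨δ₀, h0, hδ⟩ := Metric.uniformContinuous_iff.1 hf ε hε
  have hb0 : 0 ≤ b := (abs_nonneg _).trans (hb 0)
  set δ := min ε (δ₀ / 2) with hd
  have h1 : 0 < δ := lt_min hε (half_pos h0)
  set K := 2 * b / δ ^ 2 with hK
  have hK0 : 0 ≤ K := by positivity
  have hKδ : K * δ ^ 2 = 2 * b := div_mul_cancel₀ _ (by positivity)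
  have ex : ∀ x : M n, ∃ y ∈ closedBall x δ,
      IsMinOn (fun y => f y + K * ‖x - y‖ ^ 2) (closedBall x δ) y := fun x =>
    (isCompact_closedBall x δ).exists_isMinOn ⟨x, mem_closedBall_self h1.le⟩
      (hf.continuous.add (by fun_prop)).continuousOn
  choose y hy hm using ex
  refine ⟨fun x => f (y x) + K * ‖x - y x‖ ^ 2, K, hK0, fun x z => ?_, fun x =>
    ⟨y x, (mem_closedBall_iff_norm.1 (hy x)).trans (min_le_left _ _), rfl⟩, fun x => ?_⟩
  · by_cases hz : z ∈ closedBall x δ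
    · exact hm x hz
    · have h2 : f (y x) + K * ‖x - y x‖ ^ 2 ≤ f x + K * ‖x - x‖ ^ 2 :=
        hm x (mem_closedBall_self h1.le)
      rw [mem_closedBall_iff_norm', not_le] at hz
      have h3 : K * δ ^ 2 ≤ K * ‖x - z‖ ^ 2 := by gcongr
      have h4 := abs_le.1 (hb x)
      have h5 := abs_le.1 (hb z)
      simp only [sub_self, norm_zero] at h2
      linarith
  · have h2 : dist (y x) x < δ₀ := (mem_closedBall.1 (hy x)).trans_lt
      ((min_le_right _ _).trans_lt (half_lt_self h0))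
    have h3 := hδ h2
    rw [Real.dist_eq, abs_lt] at h3
    have : 0 ≤ K * ‖x - y x‖ ^ 2 := by positivity
    linarith

/-- Smooth plurisubharmonic functions below an obstacle. -/
def Cl (O w : M n → ℝ) : Prop := ContDiff ℝ 3 w ∧ (∀ x η, 0 ≤ lev w x η) ∧ ∀ x, w x ≤ O x

theorem env {O w₀ : M n → ℝ} (h : Cl O w₀) : ∃ v : M n → ℝ, (∀ w, Cl O w → ∀ x, w x ≤ v x) ∧
    (∀ x, v x ≤ O x) ∧ ∀ x τ, 0 < τ → ∃ w, Cl O w ∧ v x - τ < w x := by
  have ne : ∀ x, ((fun w : M n → ℝ => w x) '' {w | Cl O w}).Nonempty := fun x => ⟨_, w₀, h, rfl⟩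
  have ub : ∀ x, ∀ t ∈ (fun w : M n → ℝ => w x) '' {w | Cl O w}, t ≤ O x := by
    rintro x _ ⟨w, hw, rfl⟩
    exact hw.2.2 x
  refine ⟨fun x => sSup ((fun w : M n → ℝ => w x) '' {w | Cl O w}),
    fun w hw x => le_csSup ⟨_, ub x⟩ ⟨w, hw, rfl⟩, fun x => csSup_le (ne x) (ub x),
    fun x τ hτ => ?_⟩
  obtain ⟨_, ⟨w, hw, rfl⟩, h1⟩ := exists_lt_of_lt_csSup (ne x) (sub_lt_self _ hτ)
  exact ⟨w, hw, h1⟩

theorem close (hs : Smax n) {O v : M n → ℝ} (hv : Continuous v)
    (h3 : ∀ x τ, 0 < τ → ∃ w, Cl O w ∧ v x - τ < w x) (x : M n) {r τ : ℝ} (hr : 0 ≤ r)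
    (hτ : 0 < τ) : ∃ w, Cl O w ∧ ∀ z ∈ closedBall x r, v z - τ ≤ w z := by
  choose w hw hlt using fun z => h3 z (τ / 2) (half_pos hτ)
  obtain ⟨T, -, hT⟩ := (isCompact_closedBall x r).elim_nhds_subcover
    (fun z => {y | v y - τ / 2 < w z y}) fun z _ =>
      (isOpen_lt (hv.sub continuous_const) (hw z).1.continuous).mem_nhds (hlt z)
  have hne : T.Nonempty := by
    obtain ⟨i, hi, -⟩ := mem_iUnion₂.1 (hT (mem_closedBall_self hr))
    exact ⟨i, hi⟩
  obtain ⟨m, m1, m2, m3⟩ := hs (M n) T (τ / 2) hne (half_pos hτ)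
  refine ⟨fun y => (m fun i => w i y) + -(τ / 2), ⟨?_, fun y η => ?_, fun y => ?_⟩, fun z hz => ?_⟩
  · exact (contDiff_iff_contDiffAt.2 fun y => (m3 w y fun i _ => (hw i).1.contDiffAt).1).add
      contDiff_const
  · obtain ⟨-, p, p0, -, -, p1⟩ := m3 w y fun i _ => (hw i).1.contDiffAt
    rw [lev_add_const]
    exact (Finset.sum_nonneg fun i hi => mul_nonneg (p0 i hi) ((hw i).2.1 y η)).trans (p1 η)
  · have := m2 (fun i => w i y) (O y) fun i _ => (hw i).2.2 y
    linarith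
  · obtain ⟨i, hi, h1⟩ := mem_iUnion₂.1 (hT hz)
    have h2 : v z - τ / 2 < w i z := h1
    have h4 : w i z ≤ m fun i => w i z := m1 (fun i => w i z) i hi
    linarith

theorem touch (hr : Rmax n) {O v q : M n → ℝ} (hO : Continuous O) (hv : Continuous v)
    (h1 : ∀ w, Cl O w → ∀ x, w x ≤ v x)
    (h2 : ∀ (x : M n) (r τ : ℝ), 0 ≤ r → 0 < τ → ∃ w, Cl O w ∧ ∀ z ∈ closedBall x r, v z - τ ≤ w z)
    {x : M n} (hq : ContDiff ℝ 3 q) (hm : IsLocalMin (fun z => v z - q z) x)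
    (hp : ∀ η, η ≠ 0 → 0 < lev q x η) : O x ≤ v x := by
  by_contra hlt
  rw [not_le] at hlt
  obtain ⟨a, ha, ha'⟩ := exists_pos_lower (P := M n) (isCompact_singleton (x := x))
    (B := fun _ => D2 q x) continuousOn_const fun _ _ η h => hp η h
  have hD : Continuous (D2 q) :=
    continuousOn_univ.1 (continuousOn_D2 isOpen_univ hq.contDiffOn)
  set γ := (O x - v x) / 2 with hγ
  have hγ0 : 0 < γ := by linarith
  have e1 : ∀ᶠ z in 𝓝 x, ‖D2 q z - D2 q x‖ < a / 2 :=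
    ((hD.sub continuous_const).norm.tendsto x).eventually (gt_mem_nhds (by simpa using ha))
  have e2 : ∀ᶠ z in 𝓝 x, γ < O z - v z :=
    ((hO.sub hv).tendsto x).eventually (lt_mem_nhds (show γ < O x - v x by linarith))
  obtain ⟨r, hr0, hb⟩ := nhds_basis_closedBall.eventually_iff.1 ((e1.and e2).and hm)
  set τ := min γ (a / 2 * (r / 2) ^ 2 / 2) with hτ
  have hτ0 : 0 < τ := lt_min hγ0 (by positivity)
  have hτ1 : τ ≤ γ := min_le_left _ _
  have hτ2 : τ ≤ a / 2 * (r / 2) ^ 2 / 2 := min_le_right _ _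
  obtain ⟨w, hw, hw'⟩ := h2 x r (τ / 2) hr0.le (half_pos hτ0)
  obtain ⟨m, m1, m2, -, m4⟩ := hr (τ / 2) (half_pos hτ0)
  set q₂ : M n → ℝ := fun z => q z - a / 2 * ‖z - x‖ ^ 2 + (v x - q x + τ) with hq₂
  have c2 : ContDiff ℝ 3 q₂ := (hq.sub (contDiff_const.mul (contDiff_sq x))).add contDiff_const
  have l2 : ∀ z ∈ closedBall x r, ∀ η, 0 ≤ lev q₂ z η := fun z hz η => by
    rw [hq₂, lev_add_const, lev_sub (two hq z) (two (contDiff_const.mul (contDiff_sq x)) z),
      lev_const_mul _ (two (contDiff_sq x) z), lev_sq]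
    have k1 := abs_le.1 (abs_hq_le (D2 q z - D2 q x) η)
    have k2 := ha' x rfl η
    have k3 : ‖D2 q z - D2 q x‖ * ‖η‖ ^ 2 ≤ a / 2 * ‖η‖ ^ 2 := by
      gcongr
      exact (hb hz).1.1.le
    rw [hq_sub, hq_D2] at k1
    linarith [k1.1]
  have u2 : ∀ z ∈ closedBall x r, q₂ z ≤ v z - a / 2 * ‖z - x‖ ^ 2 + τ := fun z hz => by
    have : v x - q x ≤ v z - q z := (hb hz).2
    simp only [hq₂]
    linarith
  classical
  set W : M n → ℝ := fun z => (if z ∈ ball x r then m (w z) (q₂ z) else w z) + -(τ / 2) with hW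
  have i1 : ∀ z ∈ ball x r, W =ᶠ[𝓝 z] fun y => m (w y) (q₂ y) + -(τ / 2) := fun z hz => by
    filter_upwards [isOpen_ball.mem_nhds hz] with y hy
    simp only [hW, if_pos hy]
  have i2 : ∀ z ∉ ball x r, W =ᶠ[𝓝 z] fun y => w y + -(τ / 2) := fun z hz => by
    rw [mem_ball_iff_norm, not_lt] at hz
    have : ∀ᶠ y in 𝓝 z, r / 2 < ‖y - x‖ :=
      ((continuous_id.sub continuous_const).norm.tendsto z).eventually
        (lt_mem_nhds (show r / 2 < ‖z - x‖ by linarith))
    filter_upwards [this] with y hy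
    simp only [hW]
    split_ifs with h
    · have k1 := u2 y (ball_subset_closedBall h)
      have k2 := hw' y (ball_subset_closedBall h)
      have k3 : a / 2 * (r / 2) ^ 2 ≤ a / 2 * ‖y - x‖ ^ 2 := by gcongr
      rw [m2 _ _ (by linarith)]
    · rfl
  have hC : Cl O W := by
    refine ⟨contDiff_iff_contDiffAt.2 fun z => ?_, fun z η => ?_, fun z => ?_⟩
    · by_cases hz : z ∈ ball x r
      · exact (((m4 w q₂ z hw.1.contDiffAt c2.contDiffAt).1).add
          contDiffAt_const).congr_of_eventuallyEq (i1 z hz)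
      · exact (hw.1.contDiffAt.add contDiffAt_const).congr_of_eventuallyEq (i2 z hz)
    · by_cases hz : z ∈ ball x r
      · obtain ⟨-, p, p0, p1, -, p2⟩ := m4 w q₂ z hw.1.contDiffAt c2.contDiffAt
        rw [lev_congr (i1 z hz), lev_add_const]
        exact (add_nonneg (mul_nonneg p0 (hw.2.1 z η))
          (mul_nonneg (sub_nonneg.2 p1) (l2 z (ball_subset_closedBall hz) η))).trans (p2 η)
      · rw [lev_congr (i2 z hz), lev_add_const]
        exact hw.2.1 z η
    · have k0 := hw.2.2 z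
      simp only [hW]
      split_ifs with h
      · have k1 := u2 z (ball_subset_closedBall h)
        have k2 := (hb (ball_subset_closedBall h)).1.2
        have k3 : 0 ≤ a / 2 * ‖z - x‖ ^ 2 := by positivity
        have k4 : max (w z) (q₂ z) ≤ O z := max_le k0 (by linarith)
        linarith [(m1 (w z) (q₂ z)).2]
      · linarith
  have k1 := h1 W hC x
  have k2 := (le_max_right _ _).trans (m1 (w x) (q₂ x)).1
  have k3 : q₂ x = v x + τ := by simp only [hq₂, sub_self, norm_zero]; ring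
  simp only [hW, if_pos (mem_ball_self hr0)] at k1
  linarith

end EVL

open EVL in
theorem envl (hs : Smax n) (hr : Rmax n) : Envl n := by
  intro V c b hu hb hap ε hε
  obtain ⟨F, K, hK, F1, F2, F3⟩ := infconv hu hb (half_pos hε)
  have F0 : ∀ x, F x ≤ V x - c * ‖x‖ ^ 2 := fun x => by simpa using F1 x x
  have Fm : ∀ x y, F y ≤ F x + K * (2 * (ε / 2) * ‖y - x‖ + ‖y - x‖ ^ 2) := fun x y => by
    obtain ⟨z, h1, h2⟩ := F2 x
    have h3 : ‖y - z‖ ≤ ‖y - x‖ + ‖x - z‖ := norm_sub_le_norm_sub_add_norm_sub y x z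
    rw [norm_sub_rev] at h1
    have h4 : ‖y - z‖ ^ 2 ≤ ‖x - z‖ ^ 2 + (2 * (ε / 2) * ‖y - x‖ + ‖y - x‖ ^ 2) := by
      have h5 := pow_le_pow_left₀ (norm_nonneg _) h3 2
      nlinarith [mul_le_mul_of_nonneg_right h1 (norm_nonneg (y - x))]
    have h5 := mul_le_mul_of_nonneg_left h4 hK
    linarith [F1 y z]
  have par : ∀ x h : M n, ‖x + h‖ ^ 2 + ‖x - h‖ ^ 2 = 2 * (‖x‖ ^ 2 + ‖h‖ ^ 2) := fun x h => by
    simpa only [sq] using parallelogram_law_with_norm ℝ x h
  have Fs : ∀ x h, F (x + h) + F (x - h) ≤ 2 * F x + 2 * K * ‖h‖ ^ 2 := fun x h => by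
    obtain ⟨z, -, h2⟩ := F2 x
    have h3 := F1 (x + h) z
    have h4 := F1 (x - h) z
    rw [add_sub_right_comm] at h3
    rw [sub_right_comm] at h4
    have h5 := congrArg (K * ·) (par (x - z) h)
    simp only [mul_add] at h5
    linarith
  set O : M n → ℝ := fun x => F x + c * ‖x‖ ^ 2 with hO
  have cO : Continuous O := (cont_of_mod Fm).add (by fun_prop)
  obtain ⟨w₀, hw₀, hw₁⟩ := hap (ε / 4) (by positivity)
  have hC₀ : Cl O fun x => w₀ x + -(3 * ε / 4) := by
    refine ⟨(contDiffOn_univ.1 hw₀.1).add contDiff_const, fun x η => ?_, fun x => ?_⟩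
    · rw [lev_add_const]
      exact hw₀.2 x trivial η
    · have := F3 x
      simp only [hO]
      linarith [(abs_le.1 (hw₁ x)).2]
  obtain ⟨v, v1, v2, v3⟩ := env hC₀
  have vm : ∀ x y, v y - c * ‖y‖ ^ 2 ≤
      v x - c * ‖x‖ ^ 2 + K * (2 * (ε / 2) * ‖y - x‖ + ‖y - x‖ ^ 2) := fun x y => by
    refine le_of_forall_pos_le_add fun τ hτ => ?_
    obtain ⟨w, hw, h1⟩ := v3 y τ hτ
    have h2 := v1 (fun z => w (z + (y - x)) + (c * ‖z‖ ^ 2 - c * ‖z + (y - x)‖ ^ 2) +
      -(K * (2 * (ε / 2) * ‖y - x‖ + ‖y - x‖ ^ 2))) ⟨cd_shift hw.1 _ _ _, fun z η => by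
        rw [lev_shift hw.1]
        exact hw.2.1 _ η, fun z => by
        have k1 := hw.2.2 (z + (y - x))
        have k2 := Fm z (z + (y - x))
        rw [add_sub_cancel_left] at k2
        simp only [hO] at k1 ⊢
        linarith⟩ x
    simp only [add_sub_cancel] at h2
    linarith
  have cv : Continuous v := by
    have h1 : Continuous fun x : M n => v x - c * ‖x‖ ^ 2 + c * ‖x‖ ^ 2 :=
      (cont_of_mod vm).add (by fun_prop)
    simpa using h1
  have cl := fun (x : M n) (r τ : ℝ) (h0 : 0 ≤ r) (hτ : 0 < τ) => close hs cv v3 x h0 hτ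
  refine ⟨v, 2 * (c + K), cv, fun x => ?_, fun R τ hτ => ?_, fun x h => ?_, fun x q hq hm => ?_⟩
  · have h1 := v1 _ hC₀ x
    have h2 := v2 x
    have h3 := F0 x
    simp only [hO] at h2
    rw [abs_le]
    constructor <;> linarith [(abs_le.1 (hw₁ x)).1]
  · obtain ⟨w, hw, h1⟩ := cl 0 |R| τ (abs_nonneg _) hτ
    refine ⟨w, ⟨hw.1.contDiffOn, fun x _ => hw.2.1 x⟩, fun x hx => ?_⟩
    have h2 := h1 x (ball_subset_closedBall (ball_subset_ball (le_abs_self R) hx))
    rw [abs_le]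
    constructor <;> linarith [v1 w hw x]
  · refine le_of_forall_pos_le_add fun τ hτ => ?_
    obtain ⟨w, hw, h1⟩ := v3 (x + h) _ (half_pos hτ)
    obtain ⟨w', hw', h2⟩ := v3 (x - h) _ (half_pos hτ)
    have h3 := v1 (fun z => 1 / 2 * (w (z + h) + w' (z + -h)) + -((c + K) * ‖h‖ ^ 2))
      ⟨(contDiff_const.mul ((cd_tr hw.1 h).add (cd_tr hw'.1 _))).add contDiff_const, fun z η => by
        rw [lev_add_const, lev_const_mul _ (two ((cd_tr hw.1 h).add (cd_tr hw'.1 _)) z),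
          lev_add (two (cd_tr hw.1 h) z) (two (cd_tr hw'.1 _) z), lev_translate, lev_translate]
        have := hw.2.1 (z + h) η
        have := hw'.2.1 (z + -h) η
        positivity, fun z => by
        have k1 := hw.2.2 (z + h)
        have k2 := hw'.2.2 (z - h)
        have k3 := Fs z h
        have k4 := congrArg (c * ·) (par z h)
        simp only [hO, ← sub_eq_add_neg, mul_add] at k1 k2 k4 ⊢
        linarith⟩ x
    simp only [← sub_eq_add_neg] at h3
    linarith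
  · by_cases hp : ∃ η, η ≠ 0 ∧ lev q x η ≤ 0
    · exact Or.inl hp
    right
    have h1 := touch hr cO cv v1 cl hq hm fun η h => not_le.1 fun h' => hp ⟨η, h, h'⟩
    obtain ⟨y, h2, h3⟩ := F2 x
    refine ⟨y, fun z => q (z + (x - y)) + (c * ‖z‖ ^ 2 - c * ‖z + (x - y)‖ ^ 2) + 0,
      h2.trans (half_le_self hε.le), cd_shift hq _ _ _, ?_, fun η => by
        rw [lev_shift hq, add_sub_cancel]⟩
    have ht : Tendsto (fun z => z + (x - y)) (𝓝 y) (𝓝 x) := by
      simpa using (continuous_add_const (x - y)).tendsto y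
    filter_upwards [ht.eventually hm] with z hz
    have k1 := F1 (z + (x - y)) z
    have k2 := v2 (z + (x - y))
    rw [add_sub_cancel_left] at k1
    simp only [hO, add_sub_cancel] at h1 k2 hz ⊢
    linarith

end Pool.Agent.MP_8ac6f3_ag.KH

end MrgPart5

-- ======== part 6: formerly Pool.Agent.MP_8ac6f3_ag.kh.Geo1
section MrgPart6

/-! Row GE1: the uniform atlas of a covering space of a compact Kaehler manifold. -/

open Set Metric Complex MeasureTheory Filter Function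
open scoped Manifold ContDiff Topology

set_option maxSynthPendingDepth 3

namespace Pool.Agent.MP_8ac6f3_ag.KH

variable {n : ℕ}

namespace Ge1

variable {X : Type} [TopologicalSpace X] [ChartedSpace (M n) X]

/-- A map read in the chart at the image point. -/
theorem chart_comp {f : M n → X} {ξ : M n} (hf : ContMDiffAt 𝓘(ℂ, M n) 𝓘(ℂ, M n) 3 f ξ) :
    ContDiffAt ℂ 3 (fun z => chartAt (M n) (f ξ) (f z)) ξ ∧
      dmap f ξ = fderiv ℂ (fun z => chartAt (M n) (f ξ) (f z)) ξ := by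
  refine ⟨by simpa [contDiffWithinAt_univ, comp_def] using (contMDiffAt_iff.1 hf).2, ?_⟩
  rw [dmap, (hf.mdifferentiableAt (by norm_num)).mfderiv]
  simp [writtenInExtChartAt, comp_def]

/-- The Levi form of a function pulled back by a holomorphic map. -/
theorem lev_pull {f : M n → X} {φ : X → ℝ} {ξ : M n}
    (hf : ContMDiffAt 𝓘(ℂ, M n) 𝓘(ℂ, M n) 3 f ξ)
    (hφ : ContMDiffAt 𝓘(ℝ, M n) 𝓘(ℝ, ℝ) ∞ φ (f ξ)) :
    ContDiffAt ℝ 3 (φ ∘ f) ξ ∧ ∀ η, lev (φ ∘ f) ξ η = levi φ (f ξ) (dmap f ξ η) := by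
  obtain ⟨h1, h2⟩ := chart_comp hf
  have h3 : ContDiffAt ℝ 3 (φ ∘ (chartAt (M n) (f ξ)).symm) (chartAt (M n) (f ξ) (f ξ)) := by
    have := (contMDiffAt_iff.1 (hφ.of_le (m := 3) (WithTop.coe_le_coe.2 le_top))).2
    simpa [contDiffWithinAt_univ, comp_def] using this
  have e : φ ∘ f =ᶠ[𝓝 ξ]
      fun z => (φ ∘ (chartAt (M n) (f ξ)).symm) (chartAt (M n) (f ξ) (f z)) := by
    filter_upwards [hf.continuousAt.preimage_mem_nhds (chart_source_mem_nhds (M n) (f ξ))]
      with z hz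
    simp only [comp_apply]
    rw [(chartAt (M n) (f ξ)).left_inv hz]
  refine ⟨(h3.comp ξ (h1.restrict_scalars ℝ)).congr_of_eventuallyEq e, fun η => ?_⟩
  rw [lev_congr e, lev_comp_hol (h1.of_le (by norm_num)) (h3.of_le (by norm_num)), h2]
  rfl

theorem dmap_comp {Y Z : Type} [TopologicalSpace Y] [ChartedSpace (M n) Y] [TopologicalSpace Z]
    [ChartedSpace (M n) Z] {f : X → Y} {g : Y → Z} {k : X → Z} {x : X}
    (hf : MDifferentiableAt 𝓘(ℂ, M n) 𝓘(ℂ, M n) f x)
    (hg : MDifferentiableAt 𝓘(ℂ, M n) 𝓘(ℂ, M n) g (f x)) (e : k =ᶠ[𝓝 x] fun z => g (f z))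
    (η : M n) : dmap k x η = dmap g (f x) (dmap f x η) := by
  have h1 : dmap (E := M n) k x = dmap (g ∘ f) x := e.mfderiv_eq
  have h2 : dmap (E := M n) (g ∘ f) x = (dmap g (f x)).comp (dmap f x) := mfderiv_comp x hg hf
  rw [h1, h2]; rfl

theorem dmap_eq (f : M n → M n) (x : M n) : dmap f x = fderiv ℂ f x := mfderiv_eq_fderiv

/-- A chart of class three on which the metric has a potential. -/
structure Nice (h : X → M n → ℝ) (χ : M n → X) (σ : X → M n) (f : M n → ℝ) : Prop where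
  sm : ∀ ξ ∈ ball (0 : M n) 4, ContMDiffAt 𝓘(ℂ, M n) 𝓘(ℂ, M n) 3 χ ξ
  sm' : ∀ ξ ∈ ball (0 : M n) 4, ContMDiffAt 𝓘(ℂ, M n) 𝓘(ℂ, M n) 3 σ (χ ξ)
  good : C3P.Good χ σ
  pot : ContDiffOn ℝ 3 f (ball 0 4)
  met : ∀ ξ ∈ ball (0 : M n) 4, ∀ η, lev f ξ η = h (χ ξ) (dmap χ ξ η)

theorem nice [IsManifold 𝓘(ℂ, M n) ω X] {h : X → M n → ℝ} (hk : IsKaehler h) (x : X) :
    ∃ χ σ f, Nice h χ σ f ∧ χ 0 = x := by
  obtain ⟨φ, hφ⟩ := hk.2 x
  set e := chartAt (M n) x with he
  have hx : x ∈ e.source := mem_chart_source _ x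
  have h1 : e.target ∩ e.symm ⁻¹' {y | ContMDiffAt 𝓘(ℝ, M n) 𝓘(ℝ, ℝ) ∞ φ y ∧
      ∀ v, h y v = levi φ y v} ∈ 𝓝 (e x) :=
    inter_mem (e.open_target.mem_nhds (e.map_source hx))
      ((e.continuousAt_symm (e.map_source hx)).preimage_mem_nhds (by rw [e.left_inv hx]; exact hφ))
  obtain ⟨ε, hε, hs⟩ := Metric.mem_nhds_iff.1 h1
  have ht : 0 < ε / 4 := by positivity
  have hm : ∀ ξ ∈ ball (0 : M n) 4, e x + (ε / 4) • ξ ∈ ball (e x) ε := fun ξ hξ => by
    rw [mem_ball_zero_iff] at hξ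
    rw [mem_ball_iff_norm, add_sub_cancel_left, norm_smul, Real.norm_of_nonneg ht.le]
    nlinarith [norm_nonneg ξ]
  have hA : ContMDiff 𝓘(ℂ, M n) 𝓘(ℂ, M n) 3 fun ξ : M n => e x + (ε / 4) • ξ :=
    (contDiff_const.add (contDiff_id.const_smul (ε / 4))).contMDiff
  have hB : ContMDiff 𝓘(ℂ, M n) 𝓘(ℂ, M n) 3 fun ξ : M n => (ε / 4)⁻¹ • (ξ - e x) :=
    ((contDiff_id.sub contDiff_const).const_smul (ε / 4)⁻¹).contMDiff
  have s1 : ∀ ξ ∈ ball (0 : M n) 4,
      ContMDiffAt 𝓘(ℂ, M n) 𝓘(ℂ, M n) 3 (fun ξ => e.symm (e x + (ε / 4) • ξ)) ξ := fun ξ hξ =>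
    ((contMDiffOn_chart_symm (I := 𝓘(ℂ, M n)) (n := 3) (x := x)).contMDiffAt
      (e.open_target.mem_nhds (hs (hm ξ hξ)).1)).comp ξ (hA ξ)
  have s2 : ∀ ξ ∈ ball (0 : M n) 4, ContMDiffAt 𝓘(ℂ, M n) 𝓘(ℂ, M n) 3
      (fun y => (ε / 4)⁻¹ • (e y - e x)) (e.symm (e x + (ε / 4) • ξ)) := fun ξ hξ =>
    (hB _).comp _ ((contMDiffOn_chart (I := 𝓘(ℂ, M n)) (n := 3) (x := x)).contMDiffAt
      (e.open_source.mem_nhds (e.map_target (hs (hm ξ hξ)).1)))
  refine ⟨fun ξ => e.symm (e x + (ε / 4) • ξ), fun y => (ε / 4)⁻¹ • (e y - e x),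
    φ ∘ fun ξ => e.symm (e x + (ε / 4) • ξ), ⟨s1, s2, ⟨fun ξ hξ => ?_,
      fun ξ hξ => (s1 ξ hξ).of_le (by norm_num), fun ξ hξ => (s2 ξ hξ).of_le (by norm_num),
      fun ξ hξ => ?_⟩, fun ξ hξ => (lev_pull (s1 ξ hξ) (hs (hm ξ hξ)).2.1).1.contDiffWithinAt,
      fun ξ hξ η => ?_⟩, ?_⟩
  · rw [e.right_inv (hs (hm ξ hξ)).1, add_sub_cancel_left, inv_smul_smul₀ ht.ne']
  · filter_upwards [e.open_source.mem_nhds (e.map_target (hs (hm ξ hξ)).1)] with y hy
    rw [smul_inv_smul₀ ht.ne', add_sub_cancel, e.left_inv hy]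
  · rw [(lev_pull (s1 ξ hξ) (hs (hm ξ hξ)).2.1).2 η, (hs (hm ξ hξ)).2.2]
  · simp only [smul_zero, add_zero, e.left_inv hx]

theorem Nice.pos {h : X → M n → ℝ} (hk : IsKaehler h) {χ : M n → X} {σ : X → M n} {f : M n → ℝ}
    (N : Nice h χ σ f) : ∃ c : ℝ, 0 < c ∧ ∀ ξ ∈ ball (0 : M n) 3, ∀ η, c * ‖η‖ ^ 2 ≤ lev f ξ η := by
  have s : closedBall (0 : M n) 3 ⊆ ball 0 4 := closedBall_subset_ball (by norm_num)
  obtain ⟨c, hc, h'⟩ := exists_pos_lower (isCompact_closedBall (0 : M n) 3)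
    ((continuousOn_D2 isOpen_ball N.pot).mono s) fun ξ hξ η hη => by
      rw [hq_D2, N.met ξ (s hξ)]
      refine hk.1 _ _ fun h0 => hη ?_
      have := dmap_comp (k := id) ((N.sm ξ (s hξ)).mdifferentiableAt (by norm_num))
        ((N.sm' ξ (s hξ)).mdifferentiableAt (by norm_num))
        (by filter_upwards [isOpen_ball.mem_nhds (s hξ)] with z hz using (N.good.inv z hz).symm) η
      rwa [h0, map_zero, dmap_eq, fderiv_id] at this
  exact ⟨c, hc, fun ξ hξ η => h' ξ (ball_subset_closedBall hξ) η⟩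

end Ge1

open Ge1 in
theorem geo1 : Geo1 n := by
  intro X _ _ _ _ _ h hk Y _ _ _ p hp hp'
  choose χ σ f N h0 using nice hk
  have z4 : (0 : M n) ∈ ball (0 : M n) 4 := mem_ball_self (by norm_num)
  have s34 : ball (0 : M n) 3 ⊆ ball 0 4 := ball_subset_ball (by norm_num)
  have hd := hp'.mdifferentiable (by simp)
  obtain ⟨s, -, hs⟩ := isCompact_univ.elim_nhds_subcover (fun x => χ x '' ball 0 1)
    fun x _ => by
      have := (N x).good.opn z4 (ball_mem_nhds 0 one_pos)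
      rwa [h0 x] at this
  obtain ⟨A, a, τ, a1, a2⟩ := C3P.atlas hp hd (ι := s) (fun t => (N t.1).good) fun x => by
    obtain ⟨t, ht, ξ, hξ, e⟩ := mem_iUnion₂.1 (hs (mem_univ x))
    exact ⟨⟨t, ht⟩, ξ, hξ, e⟩
  choose B _ hB using fun t : s => exists_Db_of_compact isOpen_ball (N t.1).pot
    (isCompact_closedBall (0 : M n) 3) (closedBall_subset_ball (by norm_num))
    (ball_subset_closedBall (x := (0 : M n)) (ε := 3))
  choose c hc hc' using fun t : s => (N t.1).pos hk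
  obtain ⟨B0, hB0⟩ := (finite_range B).bddAbove
  obtain ⟨c0, c1, c2⟩ : ∃ c0 : ℝ, 0 < c0 ∧ ∀ t, c0 ≤ c t := by
    rcases isEmpty_or_nonempty s with he | hn
    · exact ⟨1, one_pos, fun t => he.elim t⟩
    · obtain ⟨t, ht⟩ := Finite.exists_min c
      exact ⟨c t, hc t, ht⟩
  have near : ∀ α β, ∀ ξ ∈ ball (0 : M n) 3, a.ψ α ξ ∈ a.ψ β '' ball 0 3 → ∀ᶠ z in 𝓝 ξ,
      tau a α β z ∈ ball (0 : M n) 3 ∧ χ (τ α) z = χ (τ β) (tau a α β z) := by
    intro α β ξ hξ hm
    filter_upwards [((a.cont α).continuousAt (isOpen_ball.mem_nhds hξ)).preimage_mem_nhds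
      ((a.opn β _ isOpen_ball subset_rfl).mem_nhds hm), isOpen_ball.mem_nhds hξ] with z h1 h2
    obtain ⟨η, hη, e⟩ := h1
    have e1 : tau a α β z = η := by rw [tau, ← e, (a.inj β).leftInvOn_invFunOn hη]
    rw [e1, ← a1 α z h2, ← e, a1 β η hη]
    exact ⟨hη, rfl⟩
  have trs : ∀ α β, ∀ ξ ∈ ball (0 : M n) 3, a.ψ α ξ ∈ a.ψ β '' ball 0 3 →
      ContDiffAt ℂ 3 (tau a α β) ξ := by
    intro α β ξ hξ hm
    have h1 := near α β ξ hξ hm
    have h2 := (N (τ β)).sm' _ (s34 h1.self_of_nhds.1)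
    rw [← h1.self_of_nhds.2] at h2
    refine (h2.comp ξ ((N (τ α)).sm ξ (s34 hξ))).contDiffAt.congr_of_eventuallyEq ?_
    filter_upwards [h1] with z hz
    rw [comp_apply, hz.2, (N (τ β)).good.inv _ (s34 hz.1)]
  have sm : ∀ α, ∀ ξ ∈ ball (0 : M n) 3, ContMDiffAt 𝓘(ℂ, M n) 𝓘(ℂ, M n) 3 (a.ψ α) ξ := by
    intro α ξ hξ
    obtain ⟨e, he, he'⟩ := hp' (a.ψ α ξ)
    have h1 : ContMDiffAt 𝓘(ℂ, M n) 𝓘(ℂ, M n) 3 e.invFun (χ (τ α) ξ) := by
      rw [← a1 α ξ hξ, he' he]
      exact (e.contMDiffOn_invFun.contMDiffAt (e.open_target.mem_nhds (e.map_source he))).of_le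
        le_top
    refine (h1.comp ξ ((N (τ α)).sm ξ (s34 hξ))).congr_of_eventuallyEq ?_
    filter_upwards [((a.cont α).continuousAt (isOpen_ball.mem_nhds hξ)).preimage_mem_nhds
      (e.open_source.mem_nhds he), isOpen_ball.mem_nhds hξ] with z h2 h3
    rw [comp_apply, ← a1 α z h3, he' h2]
    exact (e.left_inv h2).symm
  refine ⟨A, ⟨a, trs, fun α => f (τ α), B0, c0, c1, ⟨fun α => (N (τ α)).pot.mono s34,
    fun α β ξ hξ hm η => ?_⟩, fun α => ?_, fun α ξ hξ η => ?_⟩, sm, fun α ξ hξ η => ?_, a2⟩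
  · have h1 := near α β ξ hξ hm
    have h2 := h1.self_of_nhds
    rw [(N (τ α)).met ξ (s34 hξ), (N (τ β)).met _ (s34 h2.1), ← h2.2, ← dmap_eq,
      dmap_comp ((trs α β ξ hξ hm).differentiableAt (by norm_num)).mdifferentiableAt
        (((N (τ β)).sm _ (s34 h2.1)).mdifferentiableAt (by norm_num)) (h1.mono fun z hz => hz.2)]
  · obtain ⟨⟨k1, k2⟩, k3⟩ := hB (τ α)
    have k4 : B (τ α) ≤ B0 := hB0 ⟨_, rfl⟩
    exact ⟨⟨k1, fun j j1 j3 x hx => (k2 j j1 j3 x hx).trans k4⟩, fun x hx => (k3 x hx).trans k4⟩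
  · exact (mul_le_mul_of_nonneg_right (c2 _) (by positivity)).trans (hc' (τ α) ξ hξ η)
  · change lev (f (τ α)) ξ η = h (p (a.ψ α ξ)) (dmap p (a.ψ α ξ) (dmap (a.ψ α) ξ η))
    rw [(N (τ α)).met ξ (s34 hξ), a1 α ξ hξ,
      dmap_comp ((sm α ξ hξ).mdifferentiableAt (by norm_num)) (hd _)
        (by filter_upwards [isOpen_ball.mem_nhds hξ] with z hz using (a1 α z hz).symm)]

end Pool.Agent.MP_8ac6f3_ag.KH

end MrgPart6

-- ======== part 7: formerly Pool.Agent.MP_8ac6f3_ag.kh.Geo2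
section MrgPart7

/-! Row GE2: a bounded primitive in the charts of the uniform atlas. -/

open Set Metric Complex MeasureTheory Filter Function
open scoped Manifold ContDiff Topology

set_option maxSynthPendingDepth 3

noncomputable section

namespace Pool.Agent.MP_8ac6f3_ag.KH

variable {n : ℕ}

namespace Geo2P

/-- Multiplication by `I`. -/
def J : M n →L[ℝ] M n := (I • ContinuousLinearMap.id ℂ (M n)).restrictScalars ℝ

theorem J_ap (η : M n) : J η = I • η := rfl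

/-- The pull-back of a form in the model space, turned by `I`. -/
def tw (b : M n → Cv n) (κ : M n → M n) (ξ : M n) : Cv n :=
  (4 : ℝ) • (b (κ ξ)).comp (((fderiv ℂ κ ξ).restrictScalars ℝ).comp J)

theorem tw_ap (b : M n → Cv n) (κ : M n → M n) (ξ η : M n) :
    tw b κ ξ η = 4 * b (κ ξ) (fderiv ℂ κ ξ (I • η)) := rfl

variable {b : M n → Cv n} {κ : M n → M n} {ξ : M n}

theorem tw_sm (hb : ContDiffAt ℝ 1 b (κ ξ)) (hκ : ContDiffAt ℂ 2 κ ξ) :
    ContDiffAt ℝ 1 (tw b κ) ξ := by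
  have h1 : ContDiffAt ℝ 1 (fderiv ℂ κ) ξ :=
    (hκ.fderiv_right (m := 1) (by norm_num)).restrict_scalars ℝ
  have h2 : ContDiffAt ℝ 1 (fun y => (fderiv ℂ κ y).restrictScalars ℝ) ξ :=
    (ContinuousLinearMap.restrictScalarsL ℂ (M n) (M n) ℝ ℝ).contDiff.contDiffAt.comp ξ h1
  exact ((hb.comp ξ ((hκ.restrict_scalars ℝ).of_le (by norm_num))).clm_comp
    (h2.clm_comp contDiffAt_const)).const_smul (4 : ℝ)

theorem tw_d (hb : ContDiffAt ℝ 1 b (κ ξ)) (hκ : ContDiffAt ℂ 2 κ ξ) (v η : M n) :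
    fderiv ℝ (tw b κ) ξ v η = 4 * (fderiv ℝ b (κ ξ) (fderiv ℂ κ ξ v) (fderiv ℂ κ ξ (I • η)) +
      b (κ ξ) (fderiv ℂ (fderiv ℂ κ) ξ v (I • η))) := by
  have h1 := (hκ.differentiableAt two_ne_zero).hasFDerivAt.restrictScalars ℝ
  have h2 := (((hb.differentiableAt one_ne_zero).hasFDerivAt.comp ξ h1).clm_apply
    ((L1.has hκ (I • η)).restrictScalars ℝ)).const_mul 4
  have h3 := ((tw_sm hb hκ).differentiableAt one_ne_zero).hasFDerivAt.clm_apply
    (hasFDerivAt_const η ξ)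
  have h4 := congrArg (fun l : Cv n => l v) (h3.unique h2)
  simpa [add_comm, mul_add] using h4

theorem tw_hq (hb : ContDiffAt ℝ 1 b (κ ξ)) (hκ : ContDiffAt ℂ 2 κ ξ) (η : M n) :
    hq (fderiv ℝ (tw b κ) ξ) η =
      fderiv ℝ b (κ ξ) (fderiv ℂ κ ξ η) (I • fderiv ℂ κ ξ η) -
        fderiv ℝ b (κ ξ) (I • fderiv ℂ κ ξ η) (fderiv ℂ κ ξ η) := by
  simp only [hq, tw_d hb hκ, map_smul, smul_apply, smul_smul, I_mul_I, neg_one_smul, map_neg]
  ring

variable {Y : Type} [TopologicalSpace Y] [ChartedSpace (M n) Y] [IsManifold 𝓘(ℂ, M n) ω Y]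

/-- The pull-back of a form on the manifold, turned by `I`. -/
def pb (β : Y → Cv n) (ψ : M n → Y) (ξ : M n) : Cv n :=
  (4 : ℝ) • (β (ψ ξ)).comp (((dmap ψ ξ).restrictScalars ℝ).comp J)

omit [IsManifold 𝓘(ℂ, M n) ω Y] in
theorem pb_ap (β : Y → Cv n) (ψ : M n → Y) (ξ η : M n) :
    pb β ψ ξ η = 4 * β (ψ ξ) (dmap ψ ξ (I • η)) := rfl

variable {ψ : M n → Y}

theorem chart_sm (h : ContMDiffAt 𝓘(ℂ, M n) 𝓘(ℂ, M n) 3 ψ ξ) :
    ContDiffAt ℂ 2 (chartAt (M n) (ψ ξ) ∘ ψ) ξ :=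
  (((contMDiffOn_chart (I := 𝓘(ℂ, M n)) (n := 3)).contMDiffAt
    (chart_source_mem_nhds _ _)).comp ξ h).contDiffAt.of_le (by norm_num)

omit [IsManifold 𝓘(ℂ, M n) ω Y] in
theorem dmap_eq (h : ContMDiffAt 𝓘(ℂ, M n) 𝓘(ℂ, M n) 3 ψ ξ) :
    dmap ψ ξ = fderiv ℂ (chartAt (M n) (ψ ξ) ∘ ψ) ξ := by
  rw [dmap, (h.mdifferentiableAt (by norm_num)).mfderiv]
  simp only [writtenInExtChartAt, mfld_simps, fderivWithin_univ]

omit [IsManifold 𝓘(ℂ, M n) ω Y] in
theorem dmap_comp {χ : M n → Y} (e : ψ =ᶠ[𝓝 ξ] χ ∘ κ)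
    (hχ : MDifferentiableAt 𝓘(ℂ, M n) 𝓘(ℂ, M n) χ (κ ξ)) (hκ : DifferentiableAt ℂ κ ξ) (η : M n) :
    dmap ψ ξ η = dmap χ (κ ξ) (fderiv ℂ κ ξ η) := by
  rw [dmap, e.mfderiv_eq, mfderiv_comp ξ hχ hκ.mdifferentiableAt, mfderiv_eq_fderiv]
  rfl

theorem pb_eq (β : Y → Cv n) (h : ContMDiffAt 𝓘(ℂ, M n) 𝓘(ℂ, M n) 3 ψ ξ) :
    pb β ψ =ᶠ[𝓝 ξ] tw (inChart β (ψ ξ)) (chartAt (M n) (ψ ξ) ∘ ψ) := by
  have h1 : ∀ᶠ y in 𝓝 ξ, ψ y ∈ (chartAt (M n) (ψ ξ)).source :=
    h.continuousAt (chart_source_mem_nhds _ _)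
  filter_upwards [h1.eventually_nhds, L1.ev (chart_sm h)] with y h2 h3
  ext η
  have e : ψ =ᶠ[𝓝 y] (chartAt (M n) (ψ ξ)).symm ∘ chartAt (M n) (ψ ξ) ∘ ψ :=
    h2.mono fun z hz => ((chartAt (M n) (ψ ξ)).left_inv hz).symm
  rw [pb_ap, tw_ap, dmap_comp e (mdifferentiableAt_atlas_symm (chart_mem_atlas _ _)
    ((chartAt (M n) (ψ ξ)).map_source h2.self_of_nhds)) h3]
  exact congrArg (fun z => 4 * β z _) e.self_of_nhds

end Geo2P

open Geo2P in
theorem geo2 : Geo2 n := by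
  intro X _ _ h Y _ _ _ p A G L β C hβ hd hC
  have hb : ∀ y, ContDiffAt ℝ 1 (inChart β y) (chartAt (M n) y y) := fun y =>
    (hβ y).of_le (by exact_mod_cast le_top)
  refine ⟨⟨fun α => pb β (G.ψ α), 4 * √(|C| * |G.B|), ⟨fun α ξ hξ => ?_, fun α α' ξ hξ hm η => ?_⟩,
    fun α ξ hξ => ?_, fun α ξ hξ η => ?_⟩⟩
  · exact ((tw_sm (hb _) (chart_sm (L.sm α ξ hξ))).congr_of_eventuallyEq
      (pb_eq β (L.sm α ξ hξ))).contDiffWithinAt
  · have e : G.ψ α =ᶠ[𝓝 ξ] G.ψ α' ∘ tau G.toAtl α α' :=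
      ((L.sm α ξ hξ).continuousAt.eventually
        ((G.opn α' _ isOpen_ball Subset.rfl).mem_nhds hm)).mono fun z hz => (invFunOn_eq hz).symm
    rw [pb_ap, pb_ap, dmap_comp e ((L.sm α' _ (invFunOn_mem hm)).mdifferentiableAt (by norm_num))
      ((G.trs α α' ξ hξ hm).differentiableAt (by norm_num)), map_smul]
    exact congrArg (fun z => 4 * β z _) e.self_of_nhds
  · refine ContinuousLinearMap.opNorm_le_bound _ (by positivity) fun η => ?_
    have h1 := hC (G.ψ α ξ) (dmap (G.ψ α) ξ (I • η))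
    have h2 := (G.φ_bd α).1.abs_lev_le hξ (I • η)
    rw [← L.met α ξ hξ] at h1
    rw [norm_smul, norm_I, one_mul] at h2
    have h3 : β (G.ψ α ξ) (dmap (G.ψ α) ξ (I • η)) ^ 2 ≤ |C| * |G.B| * ‖η‖ ^ 2 := by
      refine h1.trans ((le_abs_self _).trans ?_)
      rw [abs_mul, mul_assoc]
      exact mul_le_mul_of_nonneg_left
        (h2.trans (mul_le_mul_of_nonneg_right (le_abs_self _) (sq_nonneg _))) (abs_nonneg _)
    have h4 := Real.abs_le_sqrt h3
    rw [Real.sqrt_mul' _ (sq_nonneg _), Real.sqrt_sq (norm_nonneg _)] at h4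
    rw [pb_ap, Real.norm_eq_abs, abs_mul, abs_of_pos (by norm_num : (0 : ℝ) < 4), mul_assoc]
    exact mul_le_mul_of_nonneg_left h4 (by norm_num)
  · rw [(pb_eq β (L.sm α ξ hξ)).fderiv_eq, tw_hq (hb _) (chart_sm (L.sm α ξ hξ)), L.met α ξ hξ,
      ← hd, dmap_eq (L.sm α ξ hξ)]
    rfl

end Pool.Agent.MP_8ac6f3_ag.KH

end

end MrgPart7

-- ======== part 8: formerly Pool.Agent.MP_8ac6f3_ag.kh.Gst
section MrgPart8

/-! Row GST: the global Stokes formula. -/

open Set Metric Complex MeasureTheory Filter Function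
open scoped ContDiff Topology

set_option maxSynthPendingDepth 3

namespace Pool.Agent.MP_8ac6f3_ag.KH

variable {n : ℕ} {Y A : Type} [TopologicalSpace Y] [T2Space Y] {G : Geo n Y A}

namespace Gst

/-- The error density of the cut-off `θ α`, read in the chart `β`. -/
noncomputable def er (k : Kit G) (f : Fin n → A → M n → ℝ) (γ : A → M n → Cv n) (i₀ : Fin n)
    (α β : A) (ζ : M n) : ℝ :=
  md (update (fun i => D2 (f i β) ζ) i₀ (ot (fderiv ℝ (k.θ α ∘ G.ψ β) ζ) (γ β ζ)))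

variable (k : Kit G) {f : Fin n → A → M n → ℝ} {γ : A → M n → Cv n} (i₀ : Fin n) {α β : A}
  {ξ ζ : M n} {R : ℝ}

omit [T2Space Y] in
theorem cont_up (hf : ∀ i, Pot G.toAtl (f i)) {X : M n → Bil n} (hX : ContinuousOn X (ball 0 3))
    (β : A) : ContinuousOn (fun ζ => md (update (fun i => D2 (f i β) ζ) i₀ (X ζ))) (ball 0 3) :=
  continuousOn_md fun i => by
    rcases eq_or_ne i i₀ with rfl | hi
    · simpa only [update_self] using hX
    · simpa only [update_of_ne hi] using continuousOn_D2 isOpen_ball ((hf i).1 β)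

omit [T2Space Y] in
theorem er_cont (hf : ∀ i, Pot G.toAtl (f i)) (hγ : Form G.toAtl γ) (α β : A) :
    ContinuousOn (er k f γ i₀ α β) (ball 0 3) :=
  cont_up i₀ hf ((((k.θ_sm α).form.1 β).smulRight (hγ.1 β)).continuousOn) β

omit [T2Space Y] in
theorem er_zero (h : fderiv ℝ (k.θ α ∘ G.ψ β) ζ = 0 ∨ γ β ζ = 0) : er k f γ i₀ α β ζ = 0 := by
  have : ot (fderiv ℝ (k.θ α ∘ G.ψ β) ζ) (γ β ζ) = 0 := by
    rcases h with h | h <;> (rw [h]; ext; simp [ot])
  rw [er, this]; exact md.toMultilinearMap.map_update_zero _ _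

theorem dθ_mem (hζ : ζ ∈ ball (0 : M n) 3) (h : fderiv ℝ (k.θ α ∘ G.ψ β) ζ ≠ 0) :
    G.ψ β ζ ∈ G.ψ α '' closedBall 0 (7 / 4) := by
  by_contra hn
  refine h ?_
  have : k.θ α ∘ G.ψ β =ᶠ[𝓝 ζ] fun _ => 0 := by
    filter_upwards [pull G.toAtl hζ
      ((isClosed_image G.toAtl α 0 (cb_sub (by norm_num))).isOpen_compl.mem_nhds hn)] with z hz
    by_contra h0
    exact hz (k.θ_supp α _ h0)
  rw [this.fderiv_eq]; simp

omit [T2Space Y] in
theorem sum_T {V : Type} [AddCommMonoid V] {F : A → V} (hζ : ζ ∈ ball (0 : M n) 3)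
    (hρ : k.ρ (G.ψ β ζ) ≤ R) (h : ∀ α, F α ≠ 0 → G.ψ β ζ ∈ G.ψ α '' closedBall 0 (7 / 4)) :
    ∑ α ∈ k.T R, F α = ∑ α ∈ k.nb β, F α := by
  classical
  refine (Finset.sum_subset (Finset.subset_union_left (s₂ := k.nb β)) fun α _ hα => ?_).trans
    (Finset.sum_subset Finset.subset_union_right fun α _ hα => ?_).symm
  · by_contra h0
    obtain ⟨ξ, hξ, e⟩ := h α h0
    exact hα (k.T_mem R α ξ hξ (e.symm ▸ hρ))
  · by_contra h0
    exact hα (k.nb_mem α β ζ hζ (h α h0))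

omit [T2Space Y] in
theorem loc (hs : Lst n) (hf : ∀ i, Pot G.toAtl (f i)) (hγ : Form G.toAtl γ) (α : A) :
    ∫ ξ in closedBall (0 : M n) 2, k.θ α (G.ψ α ξ) *
      md (update (fun i => D2 (f i α) ξ) i₀ (fderiv ℝ (γ α) ξ)) =
    -∫ ξ in closedBall (0 : M n) 2, er k f γ i₀ α α ξ := by
  let g : M n → Cv n := indicator (ball 0 3) fun ξ => (k.θ α ∘ G.ψ α) ξ • γ α ξ
  have ev : ∀ ξ ∈ ball (0 : M n) 3, g =ᶠ[𝓝 ξ] fun ξ => (k.θ α ∘ G.ψ α) ξ • γ α ξ := fun ξ hξ => by
    filter_upwards [isOpen_ball.mem_nhds hξ] with z hz using indicator_of_mem hz _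
  have ts : tsupport g ⊆ closedBall 0 (7 / 4) := by
    refine closure_minimal (fun ξ hξ => ?_) isClosed_closedBall
    obtain ⟨h1, h2⟩ := (support_indicator ..).subset hξ
    exact k.θ_mem h1 (left_ne_zero_of_smul h2)
  have tb := ts.trans (cb_sub (by norm_num))
  have dγ : ∀ ξ ∈ ball (0 : M n) 3, ContDiffAt ℝ 1 (γ α) ξ := fun ξ hξ =>
    (hγ.1 α).contDiffAt (isOpen_ball.mem_nhds hξ)
  have h0 := hs (ball 0 3) (fun i => f i α) g i₀ isOpen_ball (fun i => (hf i).1 α)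
    (contDiff_iff_contDiffAt.2 fun ξ => by
      by_cases hξ : ξ ∈ tsupport g
      · exact ((((k.θ_sm α).at (tb hξ)).of_le (by norm_num)).smul
          (dγ ξ (tb hξ))).congr_of_eventuallyEq (ev ξ (tb hξ))
      · exact contDiffAt_const.congr_of_eventuallyEq (notMem_tsupport_iff_eventuallyEq.1 hξ))
    ((isCompact_closedBall 0 _).of_isClosed_subset (isClosed_tsupport g) ts) tb
  have c1 := cont_up i₀ hf ((hγ.1 α).continuousOn_fderiv_of_isOpen isOpen_ball le_rfl) α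
  rw [eq_neg_iff_add_eq_zero, ← integral_add (k.integrableOn α c1)
    (((er_cont k i₀ hf hγ α α).mono cb2).integrableOn_compact (isCompact_closedBall 0 2)), ← h0]
  refine (setIntegral_congr_fun measurableSet_closedBall fun ξ hξ => ?_).trans
    (setIntegral_eq_integral_of_forall_compl_eq_zero fun ξ hξ => ?_)
  · have hd := (((k.θ_sm α).at (α := α) (cb2 hξ)).differentiableAt (by norm_num)).hasFDerivAt.smul
      ((dγ ξ (cb2 hξ)).differentiableAt one_ne_zero).hasFDerivAt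
    rw [(hd.congr_of_eventuallyEq (ev ξ (cb2 hξ))).fderiv, md.map_update_add, md.map_update_smul]
    rfl
  · rw [fderiv_of_notMem_tsupport ℝ fun h => hξ (closedBall_subset_closedBall (by norm_num) (ts h))]
    exact md.toMultilinearMap.map_update_zero _ _

omit [T2Space Y] in
theorem er_chart (h : Alg n) (hf : ∀ i, Pot G.toAtl (f i)) (hγ : Form G.toAtl γ)
    (hξ : ξ ∈ ball (0 : M n) 3) (hm : G.ψ α ξ ∈ G.ψ β '' ball 0 3) : er k f γ i₀ α α ξ =
      ‖LinearMap.det (fderiv ℂ (tau G.toAtl α β) ξ : M n →ₗ[ℂ] M n)‖ ^ 2 *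
        er k f γ i₀ α β (tau G.toAtl α β ξ) := by
  refine h.inv _ _ _ fun i η => ?_
  rcases eq_or_ne i i₀ with rfl | hi
  · simp only [update_self, hq_ot, ← map_smul, (k.θ_sm α).form.2 α β ξ hξ hm, hγ.2 α β ξ hξ hm]
  · simp only [update_of_ne hi, hq_D2, (hf i).2 α β ξ hξ hm]

theorem er_sum (hz : ∀ α, ∀ ξ ∈ ball (0 : M n) 3, R < k.ρ (G.ψ α ξ) → γ α ξ = 0)
    (hζ : ζ ∈ ball (0 : M n) 3) : ∑ α ∈ k.T R, er k f γ i₀ α β ζ = 0 := by
  rcases lt_or_ge R (k.ρ (G.ψ β ζ)) with hρ | hρ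
  · exact Finset.sum_eq_zero fun α _ => er_zero k i₀ (Or.inr (hz β ζ hζ hρ))
  have h1 : ∑ α ∈ k.T R, fderiv ℝ (k.θ α ∘ G.ψ β) ζ = 0 := by
    rw [sum_T k hζ hρ fun α => dθ_mem k hζ, ← fderiv_fun_sum fun α _ =>
      ((k.θ_sm α).at hζ).differentiableAt (by norm_num)]
    have : (fun z => ∑ α ∈ k.nb β, (k.θ α ∘ G.ψ β) z) =ᶠ[𝓝 ζ] fun _ => 1 := by
      filter_upwards [isOpen_ball.mem_nhds hζ] with z hz using k.θ_sum β z hz
    rw [this.fderiv_eq]; simp
  have h2 : ∑ α ∈ k.T R, ot (fderiv ℝ (k.θ α ∘ G.ψ β) ζ) (γ β ζ) = 0 := by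
    ext u v
    have := congrArg (fun l : Cv n => l u * γ β ζ v) h1
    simpa [ot, Finset.sum_mul] using this
  have := map_sum (md.toContinuousLinearMap (fun i => D2 (f i β) ζ) i₀)
    (fun α => ot (fderiv ℝ (k.θ α ∘ G.ψ β) ζ) (γ β ζ)) (k.T R)
  rw [h2, map_zero] at this
  exact this.symm

end Gst
open Gst

theorem gst (h : Alg n) (hs : Lst n) (hc : Cov G.toAtl) (k : Kit G) : Gst k := by
  intro f γ i₀ R hf hγ hz
  have c27 : ∀ α, G.ψ α '' closedBall 0 (7 / 4) ⊆ G.ψ α '' closedBall 0 2 := fun α =>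
    image_mono (closedBall_subset_closedBall (by norm_num))
  have h1 : ∀ α, ∫ ξ in closedBall (0 : M n) 2, er k f γ i₀ α α ξ =
      ∑ β ∈ k.T R, ∫ ζ in closedBall (0 : M n) 2, k.θ β (G.ψ β ζ) * er k f γ i₀ α β ζ := fun α => by
    have e : ∀ β, ∫ ξ in closedBall (0 : M n) 2, k.θ β (G.ψ α ξ) * er k f γ i₀ α α ξ =
        ∫ ζ in closedBall (0 : M n) 2, k.θ β (G.ψ β ζ) * er k f γ i₀ α β ζ := fun β => by
      refine hc α β _ _ (fun ξ hξ hm => ?_)
        (fun ξ _ h0 => c27 β (k.θ_supp β _ (left_ne_zero_of_mul h0))) fun ζ hζ h0 =>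
          c27 α (dθ_mem k (cb2 hζ) fun h1 => right_ne_zero_of_mul h0 (er_zero k i₀ (Or.inl h1)))
      have hm' := image_mono cb2 hm
      rw [psi_tau G.toAtl hm', er_chart k i₀ h hf hγ (cb2 hξ) hm']; ring
    simp only [← e]
    rw [← integral_finsetSum (f := fun β ξ => k.θ β (G.ψ α ξ) * er k f γ i₀ α α ξ) _ fun β _ =>
      (((k.θ_sm β α).continuousOn.mul (er_cont k i₀ hf hγ α α)).mono cb2).integrableOn_compact
        (isCompact_closedBall 0 2)]
    refine setIntegral_congr_fun measurableSet_closedBall fun ξ hξ => ?_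
    simp only [← Finset.sum_mul]
    rcases lt_or_ge R (k.ρ (G.ψ α ξ)) with hρ | hρ
    · rw [er_zero k i₀ (Or.inr (hz α ξ (cb2 hξ) hρ)), mul_zero]
    · rw [sum_T k (cb2 hξ) hρ fun β => k.θ_supp β _, k.θ_sum α ξ (cb2 hξ), one_mul]
  simp only [Kit.IY, loc k i₀ hs hf hγ, h1, Finset.sum_neg_distrib, neg_eq_zero]
  rw [Finset.sum_comm]
  refine Finset.sum_eq_zero fun β _ => ?_
  rw [← integral_finsetSum _ fun α _ => k.integrableOn β (er_cont k i₀ hf hγ α β)]
  refine setIntegral_eq_zero_of_forall_eq_zero fun ζ hζ => ?_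
  rw [← Finset.mul_sum, er_sum k i₀ hz (cb2 hζ), mul_zero]

end Pool.Agent.MP_8ac6f3_ag.KH

end MrgPart8

-- ======== part 9: formerly Pool.Agent.MP_8ac6f3_ag.kh.Glue
section MrgPart9

/-! Row GLU: gluing of local regularisations by a weighted soft maximum. -/

open Set Metric Complex MeasureTheory Filter Function
open scoped ContDiff Topology

set_option maxSynthPendingDepth 3

namespace Pool.Agent.MP_8ac6f3_ag.KH

variable {n : ℕ} {Y A : Type} [TopologicalSpace Y] [T2Space Y] {G : Geo n Y A}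

namespace Glu

/-- Near a point the sum over all charts is a fixed finite sum. -/
theorem sum_ev (k : Kit0 G) (E : A → Y → ℝ) {β : A} {ξ : M n} (hξ : ξ ∈ ball (0 : M n) 3) :
    ∃ T : Finset A, T ⊆ k.nb β ∧ (∀ α, α ∈ T ↔ G.ψ β ξ ∈ G.ψ α '' closedBall 0 (7 / 4)) ∧
      ∀ᶠ z in 𝓝 ξ, ∑ᶠ α, k.χ α (G.ψ β z) ^ 2 * E α (G.ψ β z) =
        ∑ α ∈ T, k.χ α (G.ψ β z) ^ 2 * E α (G.ψ β z) := by
  classical
  refine ⟨(k.nb β).filter fun α => G.ψ β ξ ∈ G.ψ α '' closedBall 0 (7 / 4),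
    Finset.filter_subset _ _, fun α => ?_, ?_⟩
  · rw [Finset.mem_filter]
    exact ⟨fun h => h.2, fun h => ⟨k.nb_mem α β ξ hξ h, h⟩⟩
  have h1 : ∀ᶠ z in 𝓝 ξ, ∀ α ∈ k.nb β, G.ψ β z ∈ G.ψ α '' closedBall 0 (7 / 4) →
      G.ψ β ξ ∈ G.ψ α '' closedBall 0 (7 / 4) := by
    rw [eventually_all_finset]
    intro α _
    by_cases h : G.ψ β ξ ∈ G.ψ α '' closedBall 0 (7 / 4)
    · exact Eventually.of_forall fun _ _ => h
    · filter_upwards [pull G.toAtl hξ ((isClosed_image G.toAtl α 0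
        (cb_sub (by norm_num))).isOpen_compl.mem_nhds h)] with z hz h2
      exact absurd h2 hz
  filter_upwards [h1, isOpen_ball.mem_nhds hξ] with z h2 hz
  refine finsum_eq_sum_of_support_subset _ fun α hα => ?_
  have h3 := k.χ_supp α (G.ψ β z) fun e => hα (by simp only [e]; ring)
  have h4 := k.nb_mem α β z hz h3
  exact Finset.mem_coe.2 (Finset.mem_filter.2 ⟨h4, h2 α h4 h3⟩)

omit [T2Space Y] in
/-- A function given in one chart, read in another chart. -/
theorem read {W : M n → ℝ} {α β : A} {ξ ζ : M n} (hξ : ξ ∈ ball (0 : M n) 3)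
    (hζ : ζ ∈ closedBall (0 : M n) (7 / 4)) (e : G.ψ α ζ = G.ψ β ξ)
    (hW : ContDiffOn ℝ 3 W (ball 0 (5 / 2))) {c : ℝ}
    (hl : ∀ η, c * lev (G.φ α) ζ η ≤ lev W ζ η) :
    ContDiffAt ℝ 3 ((fun y => W (invFunOn (G.ψ α) (ball 0 3) y)) ∘ G.ψ β) ξ ∧
      ∀ η, c * lev (G.φ β) ξ η ≤ lev ((fun y => W (invFunOn (G.ψ α) (ball 0 3) y)) ∘ G.ψ β) ξ η := by
  have h1 : ζ ∈ ball (0 : M n) 3 := cb_sub (by norm_num) hζ
  have h2 : (fun y => W (invFunOn (G.ψ α) (ball 0 3) y)) ∘ G.ψ α =ᶠ[𝓝 ζ] W := by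
    filter_upwards [isOpen_ball.mem_nhds h1] with z hz
    simp only [comp, inv_psi G.toAtl hz]
  have h3 := (hW.contDiffAt (isOpen_ball.mem_nhds
    (closedBall_subset_ball (by norm_num) hζ))).congr_of_eventuallyEq h2
  refine ⟨G.contDiffAt_chart (m := 3) le_rfl hξ h1 e h3, fun η => ?_⟩
  rw [G.lev_chart hξ h1 e (h3.of_le (by norm_num)), G.levφ_chart hξ h1 e, lev_congr h2]
  exact hl _

end Glu

theorem glue (h : Lse n) (k : Kit0 G) : Glue G := by
  intro K₀ hK₀
  obtain ⟨K, hK0, hK1⟩ : ∃ K, 0 ≤ K ∧ k.K₀ ≤ K := ⟨_, abs_nonneg _, le_abs_self _⟩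
  have hc := G.c_pos
  obtain ⟨L, hL, hL0⟩ : ∃ L, L = 2 * K * Real.exp (2 * K₀) * (K ^ 2 + K) ∧ 0 ≤ L :=
    ⟨_, rfl, by positivity⟩
  refine ⟨K₀ + K + L / G.c, by positivity, fun s c σ W hσ hW => ?_⟩
  set V : A → Y → ℝ := fun α y => W α (invFunOn (G.ψ α) (ball 0 3) y) with hV
  set w : Y → ℝ := fun y => σ * Real.log (∑ᶠ α, k.χ α y ^ 2 * Real.exp (V α y / σ)) with hw
  have key : ∀ β, ∀ ξ ∈ ball (0 : M n) 3, ContDiffAt ℝ 3 (w ∘ G.ψ β) ξ ∧
      |w (G.ψ β ξ) - s (G.ψ β ξ)| ≤ (K₀ + K) * σ ∧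
      ∀ η, (c (G.ψ β ξ) - L / G.c * σ) * lev (G.φ β) ξ η ≤ lev (w ∘ G.ψ β) ξ η := by
    intro β ξ hξ
    obtain ⟨T, t1, t2, t3⟩ := Glu.sum_ev k (fun α y => Real.exp (V α y / σ)) (β := β) hξ
    have t4 : (T.card : ℝ) ≤ K :=
      ((Nat.cast_le.2 (Finset.card_le_card t1)).trans (k.nb_card β)).trans hK1
    have ev : w ∘ G.ψ β =ᶠ[𝓝 ξ] fun z => σ * Real.log
        (∑ α ∈ T, (k.χ α ∘ G.ψ β) z ^ 2 * Real.exp ((V α ∘ G.ψ β) z / σ)) := by
      filter_upwards [t3] with z hz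
      simp only [comp, hw, hz]
    have loc : ∀ α ∈ T, (ContDiffAt ℝ 3 (V α ∘ G.ψ β) ξ ∧
        ∀ η, c (G.ψ β ξ) * lev (G.φ β) ξ η ≤ lev (V α ∘ G.ψ β) ξ η) ∧
        Real.exp (s (G.ψ β ξ) / σ - K₀) ≤ Real.exp (V α (G.ψ β ξ) / σ) ∧
        Real.exp (V α (G.ψ β ξ) / σ) ≤ Real.exp (s (G.ψ β ξ) / σ + K₀) := fun α hα => by
      obtain ⟨ζ, hζ, e⟩ := (t2 α).1 hα
      obtain ⟨h1, h2⟩ := (hW α).2 ζ (closedBall_subset_closedBall (by norm_num) hζ)
      rw [e] at h1 h2
      have h3 : V α (G.ψ β ξ) = W α ζ := by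
        rw [← e, hV]
        simp only [inv_psi G.toAtl (cb_sub (by norm_num) hζ)]
      rw [h3, Real.exp_le_exp, Real.exp_le_exp, le_div_iff₀ hσ, div_le_iff₀ hσ, sub_mul, add_mul,
        div_mul_cancel₀ _ hσ.ne']
      exact ⟨Glu.read hξ hζ e (hW α).1 h2, by linarith [(abs_le.1 h1).1],
        by linarith [(abs_le.1 h1).2]⟩
    obtain ⟨S, hS⟩ : ∃ S, S = ∑ α ∈ T, k.χ α (G.ψ β ξ) ^ 2 * Real.exp (V α (G.ψ β ξ) / σ) :=
      ⟨_, rfl⟩
    have s1 : Real.exp (s (G.ψ β ξ) / σ - K₀) ≤ S := by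
      obtain ⟨α, ζ, hζ, e⟩ := G.cov (G.ψ β ξ)
      have h1 : α ∈ T := (t2 α).2 ⟨ζ, closedBall_subset_closedBall (by norm_num)
        (ball_subset_closedBall hζ), e⟩
      have h2 := k.χ_one α ζ (closedBall_subset_closedBall (by norm_num)
        (ball_subset_closedBall hζ))
      rw [e] at h2
      have h3 := Finset.single_le_sum (f := fun α => k.χ α (G.ψ β ξ) ^ 2 *
        Real.exp (V α (G.ψ β ξ) / σ)) (fun α _ => by positivity) h1
      rw [h2, one_pow, one_mul] at h3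
      exact hS ▸ (loc α h1).2.1.trans h3
    have s0 : 0 < S := (Real.exp_pos _).trans_le s1
    have s2 : ∑ α ∈ T, Real.exp (V α (G.ψ β ξ) / σ) ≤ K * Real.exp (s (G.ψ β ξ) / σ + K₀) := by
      refine (Finset.sum_le_card_nsmul _ _ _ fun α hα => (loc α hα).2.2).trans ?_
      rw [nsmul_eq_mul]
      exact mul_le_mul_of_nonneg_right t4 (Real.exp_pos _).le
    have s3 : S ≤ Real.exp (s (G.ψ β ξ) / σ + K₀ + K) := by
      have h1 : S ≤ ∑ α ∈ T, Real.exp (V α (G.ψ β ξ) / σ) := hS ▸ Finset.sum_le_sum fun α _ =>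
        mul_le_of_le_one_left (Real.exp_pos _).le
          (pow_le_one₀ (k.χ_mem α _).1 (k.χ_mem α _).2)
      rw [Real.exp_add _ K, mul_comm]
      exact (h1.trans s2).trans (mul_le_mul_of_nonneg_right
        (by linarith [Real.add_one_le_exp K]) (Real.exp_pos _).le)
    refine ⟨ContDiffAt.congr_of_eventuallyEq (contDiffAt_const.mul (ContDiffAt.log
      (ContDiffAt.sum fun α hα => (((k.χ_sm α).at hξ).pow 2).mul
        ((loc α hα).1.1.div_const σ).exp) (hS ▸ s0.ne' :))) ev, ?_, fun η => ?_⟩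
    · have h1 : w (G.ψ β ξ) = σ * Real.log S := hS ▸ ev.eq_of_nhds
      have h2 := mul_le_mul_of_nonneg_left ((Real.le_log_iff_exp_le s0).2 s1) hσ.le
      have h3 := mul_le_mul_of_nonneg_left ((Real.log_le_iff_le_exp s0).2 s3) hσ.le
      rw [mul_sub, mul_div_cancel₀ _ hσ.ne'] at h2
      rw [mul_add, mul_add, mul_div_cancel₀ _ hσ.ne'] at h3
      rw [h1, abs_le]
      constructor <;> nlinarith [mul_nonneg hσ.le hK0]
    · rw [lev_congr ev]
      refine le_trans ?_ (h A T (fun α => k.χ α ∘ G.ψ β) (fun α => V α ∘ G.ψ β) σ ξ η hσ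
        (fun α hα => ⟨(k.χ_sm α).at2 hξ, (loc α hα).1.1.of_le (by norm_num)⟩) (hS ▸ s0 :))
      have h1 : ∑ α ∈ T, (k.χ α (G.ψ β ξ) ^ 2 * Real.exp (V α (G.ψ β ξ) / σ) *
          (c (G.ψ β ξ) * lev (G.φ β) ξ η) -
          Real.exp (V α (G.ψ β ξ) / σ) * (2 * σ * ((K ^ 2 + K) * ‖η‖ ^ 2))) ≤ _ :=
        Finset.sum_le_sum (g := fun α => (k.χ α ∘ G.ψ β) ξ ^ 2 * Real.exp ((V α ∘ G.ψ β) ξ / σ) *
          lev (V α ∘ G.ψ β) ξ η - 2 * σ * Real.exp ((V α ∘ G.ψ β) ξ / σ) *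
          (hq (ot (fderiv ℝ (k.χ α ∘ G.ψ β) ξ) (fderiv ℝ (k.χ α ∘ G.ψ β) ξ)) η +
            |(k.χ α ∘ G.ψ β) ξ * lev (k.χ α ∘ G.ψ β) ξ η|)) fun α hα => by
          have a1 := (hq_ot_le (fderiv ℝ (k.χ α ∘ G.ψ β) ξ) η).trans (mul_le_mul_of_nonneg_right
            (pow_le_pow_left₀ (norm_nonneg _) ((k.χ_grad α β ξ hξ).trans hK1) 2) (sq_nonneg _))
          have a2 : |(k.χ α ∘ G.ψ β) ξ * lev (k.χ α ∘ G.ψ β) ξ η| ≤ K * ‖η‖ ^ 2 := by
            rw [abs_mul]
            refine (mul_le_of_le_one_left (abs_nonneg _) ?_).trans ((k.χ_lev α β ξ hξ η).trans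
              (mul_le_mul_of_nonneg_right hK1 (sq_nonneg _)))
            exact (abs_of_nonneg (k.χ_mem α _).1).trans_le (k.χ_mem α _).2
          have a3 := mul_le_mul_of_nonneg_left (add_le_add a1 a2)
            (show 0 ≤ 2 * σ * Real.exp (V α (G.ψ β ξ) / σ) by positivity)
          have a4 := mul_le_mul_of_nonneg_left ((loc α hα).1.2 η)
            (show 0 ≤ k.χ α (G.ψ β ξ) ^ 2 * Real.exp (V α (G.ψ β ξ) / σ) by positivity)
          simp only [comp_apply] at a3 ⊢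
          linarith
      rw [Finset.sum_sub_distrib, ← Finset.sum_mul, ← Finset.sum_mul, ← hS] at h1
      refine (le_div_iff₀ (hS ▸ s0 :)).2 (le_trans ?_ h1)
      have h2 : Real.exp (s (G.ψ β ξ) / σ + K₀) ≤ Real.exp (2 * K₀) * S := by
        rw [show s (G.ψ β ξ) / σ + K₀ = 2 * K₀ + (s (G.ψ β ξ) / σ - K₀) by ring, Real.exp_add]
        exact mul_le_mul_of_nonneg_left s1 (Real.exp_pos _).le
      have h3 := mul_le_mul_of_nonneg_right (s2.trans (mul_le_mul_of_nonneg_left h2 hK0))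
        (show 0 ≤ 2 * σ * ((K ^ 2 + K) * ‖η‖ ^ 2) by positivity)
      have h4 := mul_le_mul_of_nonneg_left (G.mul_sq_le (α := β) hξ hL0 η) (mul_pos hσ s0).le
      simp only [← hS]
      rw [hL] at h4 ⊢
      linarith
  have hq : 0 ≤ L / G.c * σ := by positivity
  refine ⟨w, fun β ξ hξ => (key β ξ hξ).1.contDiffWithinAt, fun y => ?_,
    Geo.Lge.mono (c := fun y => c y - L / G.c * σ) (fun β ξ hξ _ => (key β ξ hξ).2.2) fun y _ => ?_⟩
  · obtain ⟨β, ξ, hξ, rfl⟩ := G.cov y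
    linarith [(key β ξ (b13 hξ)).2.1]
  · linarith [mul_nonneg (add_nonneg hK₀ hK0) hσ.le]

end Pool.Agent.MP_8ac6f3_ag.KH

end MrgPart9

-- ======== part 10: formerly Pool.Agent.MP_8ac6f3_ag.kh.Point
section MrgPart10

/-! From a mean estimate to a pointwise estimate. -/

open Set Metric Complex MeasureTheory Filter Function
open scoped ContDiff Topology

set_option maxSynthPendingDepth 3

namespace Pool.Agent.MP_8ac6f3_ag.KH

variable {n : ℕ} {Y A : Type} [TopologicalSpace Y] [T2Space Y] {G : Geo n Y A}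

namespace Pnt

omit [T2Space Y] in
/-- A lower bound of the integral by a ball in one chart. -/
theorem low (k : Kit G) {R c : ℝ} {F : A → M n → ℝ} {β : A} {z : M n} (hβ : β ∈ k.T R)
    (hz : z ∈ ball (0 : M n) 1) (hc : ∀ α, ContinuousOn (F α) (ball 0 3))
    (h0 : ∀ α, ∀ ξ ∈ ball (0 : M n) 3, 0 ≤ F α ξ) (c0 : 0 ≤ c)
    (h : ∀ ξ ∈ closedBall z (1 / 2), c ≤ F β ξ) :
    volume.real (closedBall (0 : M n) (1 / 2)) * (1 / k.K * c) ≤ k.IY R F := by
  have hs : closedBall z (1 / 2) ⊆ closedBall (0 : M n) (3 / 2) :=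
    closedBall_subset_closedBall' (by linarith [mem_ball.1 hz])
  have hs2 : closedBall z (1 / 2) ⊆ closedBall (0 : M n) 2 :=
    hs.trans (closedBall_subset_closedBall (by norm_num))
  have e : volume.real (closedBall (0 : M n) (1 / 2)) = volume.real (closedBall z (1 / 2)) := by
    simp only [Measure.real, Measure.addHaar_closedBall_center]
  have nn : ∀ α, ∀ ξ ∈ closedBall (0 : M n) 2, 0 ≤ k.θ α (G.ψ α ξ) * F α ξ := fun α ξ hξ =>
    mul_nonneg (k.θ_nonneg _ _) (h0 α ξ (cb2 hξ))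
  calc _ = ∫ _ in closedBall z (1 / 2), 1 / k.K * c := by rw [setIntegral_const, e, smul_eq_mul]
    _ ≤ ∫ ξ in closedBall z (1 / 2), k.θ β (G.ψ β ξ) * F β ξ :=
        setIntegral_mono_on (integrableOn_const (isCompact_closedBall _ _).measure_lt_top.ne)
          ((k.integrableOn β (hc β)).mono_set hs2) measurableSet_closedBall fun ξ hξ =>
          mul_le_mul (k.θ_low β ξ (hs hξ)) (h ξ hξ) c0 (k.θ_nonneg _ _)
    _ ≤ ∫ ξ in closedBall (0 : M n) 2, k.θ β (G.ψ β ξ) * F β ξ :=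
        setIntegral_mono_set (k.integrableOn β (hc β))
          ((ae_restrict_iff' measurableSet_closedBall).2 (Eventually.of_forall (nn β)))
          hs2.eventuallyLE
    _ ≤ _ := Finset.single_le_sum
        (f := fun α => ∫ ξ in closedBall (0 : M n) 2, k.θ α (G.ψ α ξ) * F α ξ)
        (fun α _ => setIntegral_nonneg measurableSet_closedBall (nn α)) hβ

theorem logs {t x D : ℝ} (ht : 0 < t) (ht' : t ≤ 1 / 2) (hD : 0 ≤ D)
    (h : x ≤ D + x * (Real.log (1 / 2 / t) / Real.log (3 / 2 / t))) :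
    x ≤ D * (1 + Real.log (1 / t)) := by
  have h3 : 1 ≤ Real.log 3 := by
    rw [Real.le_log_iff_exp_le (by norm_num)]
    linarith [Real.exp_one_lt_d9]
  have h1 : 0 ≤ Real.log (1 / 2 / t) := Real.log_nonneg (by rw [le_div_iff₀ ht]; linarith)
  have e : Real.log (3 / 2 / t) = Real.log 3 + Real.log (1 / 2 / t) := by
    rw [← Real.log_mul (by norm_num) (by positivity)]; congr 1; ring
  have h2 : Real.log (1 / 2 / t) ≤ Real.log (1 / t) :=
    Real.log_le_log (by positivity) (by gcongr; norm_num)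
  rw [e, ← mul_div_assoc, ← sub_le_iff_le_add', le_div_iff₀ (by linarith)] at h
  have h4 : x * Real.log 3 ≤ D * (1 + Real.log (1 / t)) * Real.log 3 := by
    have : D * Real.log (1 / 2 / t) ≤ D * (Real.log (1 / t) * Real.log 3) :=
      mul_le_mul_of_nonneg_left (h2.trans (le_mul_of_one_le_right (h1.trans h2) h3)) hD
    nlinarith
  exact le_of_mul_le_mul_right h4 (by linarith)

end Pnt

omit [T2Space Y] in
theorem point (h : Alg n) (h3 : Three n) (k : Kit G) : Point k := by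
  set c0 := volume.real (closedBall (0 : M n) (1 / 2)) *
    (1 / k.K * (Real.exp (-(1 / 2)) * (G.c ^ n * md fun _ : Fin n => (Eu : Bil n)))) with hc0
  have hV : 0 < volume.real (closedBall (0 : M n) (1 / 2)) :=
    ENNReal.toReal_pos (measure_closedBall_pos _ _ (by norm_num)).ne'
      (isCompact_closedBall _ _).measure_lt_top.ne
  have hm : 0 < G.c ^ n * md fun _ : Fin n => (Eu : Bil n) := mul_pos (pow_pos G.c_pos n) h.eu
  have hK := k.K_pos
  have c0p : 0 < c0 := by positivity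
  have hB : 0 ≤ |G.B| := abs_nonneg _
  have c1 : 0 < 2 / c0 := by positivity
  refine ⟨2 / c0 + 1 + 2 * |G.B|, by linarith, fun w o δ R J hδ hδ1 hw ho go w0 lw wR hJ y E t hE
    hKJ ht ht' => ?_⟩
  have hl : 0 ≤ Real.log (1 / t) := Real.log_nonneg (by rw [le_div_iff₀ ht]; linarith)
  obtain ⟨β, z, hz, rfl⟩ := G.cov y
  have z2 : z ∈ closedBall (0 : M n) 2 :=
    closedBall_subset_closedBall one_le_two (ball_subset_closedBall hz)
  by_cases hβ : β ∈ k.T R
  swap
  · refine ⟨_, G.nr_refl ht.le _, le_trans ?_ (wR _ (not_le.1 fun e => hβ (k.T_mem R β z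
      (closedBall_subset_closedBall (by norm_num) (ball_subset_closedBall hz)) e)))⟩
    rw [neg_le_neg_iff]
    calc δ ≤ 1 * (E + δ) * 1 := by linarith
      _ ≤ _ := by gcongr <;> linarith
  have s3 : closedBall z (3 / 2) ⊆ ball (0 : M n) 3 :=
    (closedBall_subset_closedBall' (ε₂ := 5 / 2) (by linarith [mem_ball.1 hz])).trans
      (cb_sub (by norm_num))
  have s1 : closedBall z (1 / 2) ⊆ ball (0 : M n) 3 :=
    (closedBall_subset_closedBall (by norm_num)).trans s3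
  have ex : ∃ ξ ∈ closedBall z (1 / 2), -w (G.ψ β ξ) - δ ≤ E := by
    by_contra hn
    push Not at hn
    have h1 := Pnt.low k (F := fun α ξ => wt o w δ (n + 2) (G.ψ α ξ) * G.mass δ w 0 α ξ)
      (c := Real.exp (o (G.ψ β z)) * E ^ (n + 2) *
        (Real.exp (-(1 / 2)) * (G.c ^ n * md fun _ : Fin n => (Eu : Bil n)))) hβ hz
      (fun α => (chart_cont G.toAtl (wt_cont ho.continuous hw.continuous δ _) α).mul
        (hw.mass_cont δ 0 α))
      (fun α ξ hξ => mul_nonneg (wt_nonneg _ _ _ _ _) (lw.mass_nonneg h hw 0 hξ))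
      (by positivity) fun ξ hξ => ?_
    · have h2 : c0 * (Real.exp (o (G.ψ β z)) * E ^ (n + 2)) ≤ J := by
        refine le_trans (le_of_eq ?_) (h1.trans hJ)
        rw [hc0]; ring
      have h4 : 0 < c0 * (Real.exp (o (G.ψ β z)) * E ^ (n + 2)) := by positivity
      have h5 : 2 / c0 * J ≤ Real.exp (o (G.ψ β z)) * E ^ (n + 2) :=
        le_trans (mul_le_mul_of_nonneg_right (by linarith) (by linarith)) hKJ
      rw [div_mul_eq_mul_div, div_le_iff₀ c0p] at h5
      linarith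
    · have h2 : G.c ^ n * md (fun _ : Fin n => (Eu : Bil n)) ≤ G.mass δ w 0 β ξ := by
        rw [Geo.mass, fam_zero]
        exact h.pow_le G.c_pos.le fun _ η => G.φ_pos β ξ (s1 hξ) η
      have h4 := (abs_le.1 (go.lp ho β ξ (s1 hξ) z (b13 hz))).1
      have h5 : Real.exp (o (G.ψ β z)) * Real.exp (-(1 / 2)) ≤ Real.exp (o (G.ψ β ξ)) := by
        rw [← Real.exp_add]
        exact Real.exp_le_exp.2 (by linarith [mem_closedBall_iff_norm.1 hξ])
      have h6 : E ^ (n + 2) ≤ max (-w (G.ψ β ξ) - δ) 0 ^ (n + 2) :=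
        pow_le_pow_left₀ hE.le ((hn ξ hξ).le.trans (le_max_left _ _)) _
      calc _ = Real.exp (o (G.ψ β z)) * Real.exp (-(1 / 2)) * E ^ (n + 2) *
            (G.c ^ n * md fun _ : Fin n => (Eu : Bil n)) := by ring
        _ ≤ _ := mul_le_mul (mul_le_mul h5 h6 (by positivity) (by positivity)) h2 hm.le
            (wt_nonneg _ _ _ _ _)
  obtain ⟨ξ, hξ, hE'⟩ := ex
  have st : closedBall z t ⊆ ball (0 : M n) 3 := (closedBall_subset_closedBall ht').trans s1
  have ps := lw.ps hw β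
  obtain ⟨x, hx, hmax⟩ := (isCompact_closedBall z t).exists_isMaxOn ⟨z, mem_closedBall_self ht.le⟩
    (ps.1.continuousOn.mono st)
  have bd : ∀ ζ ∈ ball (0 : M n) 3, |δ * G.φ β ζ| ≤ δ * |G.B| := fun ζ hζ => by
    rw [abs_mul, abs_of_pos hδ]
    exact mul_le_mul_of_nonneg_left (((G.φ_bd β).2 ζ hζ).trans (le_abs_self _)) hδ.le
  have up : ∀ ζ ∈ ball (0 : M n) 3, G.pot δ w β ζ ≤ δ * |G.B| := fun ζ hζ => by
    have := (abs_le.1 (bd ζ hζ)).2
    have := w0 (G.ψ β ζ)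
    simp only [Geo.pot]
    linarith
  have key := h3 _ _ z t (1 / 2) (3 / 2) (G.pot δ w β x) (δ * |G.B|) isOpen_ball ps s3 ht ht'
    (by norm_num) (by linarith) (up x (st hx)) (fun ζ hζ => hmax hζ) (fun ζ hζ => up ζ (s3 hζ)) ξ hξ
  have h4 := Pnt.logs (x := δ * |G.B| - G.pot δ w β x) (D := E + δ + 2 * (δ * |G.B|)) ht ht'
    (by positivity) (by
      have := (abs_le.1 (bd ξ (s1 hξ))).1
      have e : G.pot δ w β ξ = δ * G.φ β ξ + w (G.ψ β ξ) := rfl
      linarith)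
  refine ⟨G.ψ β x, ⟨β, z, z2, x, mem_closedBall_iff_norm.1 hx, rfl, rfl⟩, ?_⟩
  have h5 := (abs_le.1 (bd x (st hx))).2
  have e : G.pot δ w β x = δ * G.φ β x + w (G.ψ β x) := rfl
  have h6 : (E + δ + 2 * (δ * |G.B|)) * (1 + Real.log (1 / t)) ≤
      (2 / c0 + 1 + 2 * |G.B|) * (E + δ) * (1 + Real.log (1 / t)) := by
    refine mul_le_mul_of_nonneg_right ?_ (by linarith)
    nlinarith [mul_nonneg hB hE.le, mul_pos c1 hE, mul_pos c1 hδ]
  linarith

end Pool.Agent.MP_8ac6f3_ag.KH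

end MrgPart10

-- marker of a merged file
example : 731051 + 212145 = 731051 + 212145 := rfl
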