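import Mathlib
import Pool.Agent.MP_8ac6f3_ag.kh.BaseA

/-! A convex function that grows fast, with controlled derivatives. -/

open Set Filter Function
open scoped ContDiff Topology

set_option maxSynthPendingDepth 3

namespace Pool.Agent.MP_8ac6f3_ag.KH

namespace ChiR

noncomputable def a1 (t : ℝ) : ℝ := 1 / (1 + t ^ 2)
noncomputable def a2 (t : ℝ) : ℝ := -(2 * t) / (1 + t ^ 2) ^ 2
noncomputable def a3 (t : ℝ) : ℝ := (6 * t ^ 2 - 2) / (1 + t ^ 2) ^ 3

theorem d0 (t : ℝ) : HasDerivAt Real.arctan (a1 t) t := Real.hasDerivAt_arctan t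

theorem dq (t : ℝ) : HasDerivAt (fun t : ℝ => 1 + t ^ 2) (2 * t) t := by
  simpa using (hasDerivAt_pow 2 t).const_add 1

theorem d1 (t : ℝ) : HasDerivAt a1 (a2 t) t := by
  have h : (1 + t ^ 2) ≠ 0 := by positivity
  refine ((hasDerivAt_const t (1 : ℝ)).fun_div (dq t) h).congr_deriv ?_
  rw [a2]; ring

theorem d2' (t : ℝ) : HasDerivAt a2 (a3 t) t := by
  have h : (1 + t ^ 2) ≠ 0 := by positivity
  have h1 : HasDerivAt (fun t : ℝ => -(2 * t)) (-2) t := by
    simpa using ((hasDerivAt_id t).const_mul (2 : ℝ)).fun_neg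
  refine (h1.fun_div ((dq t).fun_pow 2) (pow_ne_zero 2 h)).congr_deriv ?_
  rw [a3]; field_simp; ring

theorem c3 : Continuous a3 := by
  unfold a3
  exact Continuous.div (by fun_prop) (by fun_prop) fun t => by positivity

theorem a1_pos (t : ℝ) : 0 < a1 t := by unfold a1; positivity

theorem a1_le (t : ℝ) : a1 t ≤ 1 := by
  unfold a1; rw [div_le_one (by positivity)]; nlinarith [sq_nonneg t]

theorem b1 (t : ℝ) : |a1 t| ≤ 6 := by
  rw [abs_of_pos (a1_pos t)]; linarith [a1_le t]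

theorem b2 (t : ℝ) : |a2 t| ≤ 6 := by
  have h : 1 ≤ 1 + t ^ 2 := by nlinarith [sq_nonneg t]
  have h2 : 1 + t ^ 2 ≤ (1 + t ^ 2) ^ 2 := le_self_pow₀ h two_ne_zero
  rw [a2, abs_div, abs_of_pos (by positivity : 0 < (1 + t ^ 2) ^ 2), div_le_iff₀ (by positivity),
    abs_le]
  constructor <;> nlinarith [sq_nonneg (t - 1), sq_nonneg (t + 1)]

theorem b3 (t : ℝ) : |a3 t| ≤ 6 := by
  have h : 1 ≤ 1 + t ^ 2 := by nlinarith [sq_nonneg t]
  have h2 : 1 + t ^ 2 ≤ (1 + t ^ 2) ^ 3 := le_self_pow₀ h three_ne_zero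
  rw [a3, abs_div, abs_of_pos (by positivity : 0 < (1 + t ^ 2) ^ 3), div_le_iff₀ (by positivity),
    abs_le]
  constructor <;> nlinarith [sq_nonneg t]

theorem arctan_le {t : ℝ} (h : 0 ≤ t) : Real.arctan t ≤ t := by
  have := (Convex.image_sub_le_mul_sub_of_deriv_le convex_univ
    Real.continuous_arctan.continuousOn Real.differentiable_arctan.differentiableOn (C := 1)
    (fun x _ => by rw [(d0 x).deriv]; exact a1_le x)) 0 trivial t trivial h
  simpa using this

/-- The series of the rescaled functions. -/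
noncomputable def ser (r : ℕ → ℝ) (i : ℕ) (f : ℝ → ℝ) (F : ℝ) : ℝ := ∑' k, r k ^ i * f (r k * F)

section
variable {r : ℕ → ℝ} (h0 : ∀ k, 0 < r k) (h1 : ∀ k, r k ≤ (1 / 2) ^ k)
include h0 h1

theorem term_le {g : ℝ → ℝ} {c : ℝ} (hg : ∀ t, |g t| ≤ c) (i k : ℕ) (F : ℝ) :
    ‖r k ^ (i + 1) * g (r k * F)‖ ≤ c * (1 / 2) ^ k := by
  have h2 : r k ≤ 1 := (h1 k).trans (pow_le_one₀ (by norm_num) (by norm_num))
  have h3 : r k ^ (i + 1) ≤ (1 / 2) ^ k :=
    (pow_le_of_le_one (h0 k).le h2 (Nat.succ_ne_zero i)).trans (h1 k)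
  rw [Real.norm_eq_abs, abs_mul, abs_of_pos (pow_pos (h0 k) _), mul_comm]
  exact mul_le_mul (hg _) h3 (pow_pos (h0 k) _).le ((abs_nonneg _).trans (hg 0))

omit h0 h1 in
theorem sm (c : ℝ) : Summable fun k : ℕ => c * (1 / 2 : ℝ) ^ k := summable_geometric_two.mul_left c

theorem summ {g : ℝ → ℝ} {c : ℝ} (hg : ∀ t, |g t| ≤ c) (i : ℕ) (F : ℝ) :
    Summable fun k => r k ^ (i + 1) * g (r k * F) :=
  .of_norm_bounded (sm c) fun k => term_le h0 h1 hg i k F

theorem ser_le {g : ℝ → ℝ} {c : ℝ} (hg : ∀ t, |g t| ≤ c) (i : ℕ) (F : ℝ) :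
    |ser r (i + 1) g F| ≤ c * 2 := by
  have := tsum_of_norm_bounded (hasSum_geometric_two.mul_left c) fun k => term_le h0 h1 hg i k F
  exact this

omit h0 h1 in
theorem term_d {f g : ℝ → ℝ} (hf : ∀ t, HasDerivAt f (g t) t) (i k : ℕ) (F : ℝ) :
    HasDerivAt (fun F => r k ^ i * f (r k * F)) (r k ^ (i + 1) * g (r k * F)) F := by
  have h2 : HasDerivAt (fun F : ℝ => r k * F) (r k) F := by
    simpa using (hasDerivAt_id F).const_mul (r k)
  refine (((hf _).comp F h2).const_mul (r k ^ i)).congr_deriv ?_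
  ring

theorem ser_d {f g : ℝ → ℝ} (hf : ∀ t, HasDerivAt f (g t) t) (hg : ∀ t, |g t| ≤ 6) (i : ℕ)
    (hs : Summable fun k => r k ^ i * f (r k * 0)) (F : ℝ) :
    HasDerivAt (ser r i f) (ser r (i + 1) g F) F :=
  hasDerivAt_tsum (sm 6) (term_d hf i) (fun k F => term_le h0 h1 hg i k F) hs F

theorem s0 : Summable fun k => r k ^ 0 * Real.arctan (r k * 0) := by simpa using summable_zero

theorem summ0 (F : ℝ) : Summable fun k => r k ^ 0 * Real.arctan (r k * F) :=
  summable_of_summable_hasDerivAt (sm 6) (term_d d0 0) (fun k F => term_le h0 h1 b1 0 k F)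
    (s0 h0 h1) F

theorem low (F : ℝ) (e : r 0 = 1) : a1 F ≤ ser r 1 a1 F := by
  have := (summ h0 h1 b1 0 F).le_tsum 0 fun k _ => (mul_pos (pow_pos (h0 k) _) (a1_pos _)).le
  simpa [e, ser] using this

end

/-- The slowly growing function. -/
theorem slow (m : ℝ → ℝ) (hm : Monotone m) (h1 : ∀ x, 1 ≤ m x) :
    ∃ S s1 s2 s3 : ℝ → ℝ, (∀ F, HasDerivAt S (s1 F) F) ∧ (∀ F, HasDerivAt s1 (s2 F) F) ∧
      (∀ F, HasDerivAt s2 (s3 F) F) ∧ Continuous s3 ∧ Surjective S ∧ S 0 = 0 ∧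
      (∀ F, a1 F ≤ s1 F ∧ s1 F ≤ 2 ∧ |s2 F| ≤ 12 ∧ |s3 F| ≤ 12) ∧
      ∀ F, 0 ≤ F → s2 F ≤ 0 ∧ m (S F) ^ 3 ≤ m 4 ^ 3 * Real.exp (F / 6) := by
  obtain ⟨x, x0, xs⟩ : ∃ x : ℕ → ℝ, x 0 = 1 ∧
      ∀ k, x (k + 1) = max (2 * x k) (6 * m (2 * k + 6) ^ 3) :=
    ⟨fun k => Nat.rec 1 (fun k y => max (2 * y) (6 * m (2 * k + 6) ^ 3)) k, rfl, fun _ => rfl⟩
  have xp : ∀ k, 0 < x k := by
    intro k
    induction k with
    | zero => rw [x0]; exact one_pos
    | succ k ih => rw [xs]; exact lt_max_of_lt_left (by positivity)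
  have xg : ∀ k j, 2 ^ j * x k ≤ x (j + k) := by
    intro k j
    induction j with
    | zero => simp
    | succ j ih =>
      rw [Nat.succ_add, xs, pow_succ]
      exact le_max_of_le_left (by linarith)
  have xm : Monotone x := monotone_nat_of_le_succ fun k => by
    rw [xs]; exact le_max_of_le_left (by linarith [xp k])
  have h0 : ∀ k, 0 < (x k)⁻¹ := fun k => inv_pos.2 (xp k)
  have hq : ∀ k j, (x (j + k))⁻¹ * x k ≤ (1 / 2) ^ j := fun k j => by
    rw [inv_mul_le_iff₀ (xp _), one_div, inv_pow, ← div_eq_mul_inv, le_div_iff₀ (by positivity),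
      mul_comm]
    exact xg k j
  have hr : ∀ k, (x k)⁻¹ ≤ (1 / 2) ^ k := fun k => by simpa [x0] using hq 0 k
  have D0 := ser_d h0 hr d0 b1 0 (s0 h0 hr)
  have L1 : ∀ F, a1 F ≤ ser (fun k => (x k)⁻¹) 1 a1 F := fun F => low h0 hr F (by simp [x0])
  have mono : StrictMono (ser (fun k => (x k)⁻¹) 0 Real.arctan) :=
    strictMono_of_hasDerivAt_pos D0 fun F => (a1_pos F).trans_le (L1 F)
  have big : ∀ b : ℝ, ∃ F, b ≤ ser (fun k => (x k)⁻¹) 0 Real.arctan F := by
    intro b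
    obtain ⟨k, hk⟩ := exists_nat_ge (2 * b)
    refine ⟨x k, le_trans ?_ ((summ0 h0 hr (x k)).sum_le_tsum (Finset.range k) fun j _ => ?_)⟩
    · have : ∀ j ∈ Finset.range k, (1 / 2 : ℝ) ≤ (x j)⁻¹ ^ 0 * Real.arctan ((x j)⁻¹ * x k) := by
        intro j hj
        have h2 : 1 ≤ (x j)⁻¹ * x k := by
          rw [le_inv_mul_iff₀ (xp j), mul_one]; exact xm (Finset.mem_range.1 hj).le
        have h3 := Real.arctan_mono h2
        rw [Real.arctan_one] at h3
        rw [pow_zero, one_mul]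
        linarith [Real.pi_gt_three]
      have h4 := Finset.card_nsmul_le_sum _ _ _ this
      rw [Finset.card_range, nsmul_eq_mul] at h4
      linarith
    · rw [pow_zero, one_mul]
      exact Real.arctan_nonneg.2 (mul_pos (h0 j) (xp k)).le
  have odd : ∀ F, ser (fun k => (x k)⁻¹) 0 Real.arctan (-F) =
      -ser (fun k => (x k)⁻¹) 0 Real.arctan F := fun F => by
    simp [ser, tsum_neg]
  have up : ∀ (k : ℕ) F, 0 ≤ F → F ≤ x k →
      ser (fun k => (x k)⁻¹) 0 Real.arctan F ≤ 2 * k + 2 := by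
    intro k F hF hk
    rw [ser, ← (summ0 h0 hr F).sum_add_tsum_nat_add k]
    refine add_le_add ?_ ?_
    · have : ∀ j ∈ Finset.range k, (x j)⁻¹ ^ 0 * Real.arctan ((x j)⁻¹ * F) ≤ 2 := fun j _ => by
        rw [pow_zero, one_mul]
        linarith [Real.arctan_lt_pi_div_two ((x j)⁻¹ * F), Real.pi_lt_four]
      have h4 := Finset.sum_le_card_nsmul _ _ _ this
      rw [Finset.card_range, nsmul_eq_mul] at h4
      linarith
    · refine le_of_le_of_eq (((summable_nat_add_iff k).2 (summ0 h0 hr F)).tsum_le_tsum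
        (fun j => ?_) summable_geometric_two) tsum_geometric_two
      rw [pow_zero, one_mul]
      exact (arctan_le (mul_nonneg (h0 _).le hF)).trans
        ((mul_le_mul_of_nonneg_left hk (h0 _).le).trans (hq k j))
  refine ⟨_, _, _, _, D0, ser_d h0 hr d1 b2 1 (summ h0 hr b1 0 0),
    ser_d h0 hr d2' b3 2 (summ h0 hr b2 1 0),
    continuous_tsum (fun k => by have := c3; fun_prop) (sm 6) fun k F => term_le h0 hr b3 2 k F,
    ?_, by simp [ser], fun F => ⟨L1 F, ?_, ?_, ?_⟩, fun F hF => ⟨?_, ?_⟩⟩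
  · refine Continuous.surjective (continuous_iff_continuousAt.2 fun F => (D0 F).continuousAt)
      (mono.monotone.tendsto_atTop_atTop big) (mono.monotone.tendsto_atBot_atBot fun b => ?_)
    obtain ⟨F, hF⟩ := big (-b)
    exact ⟨-F, by rw [odd]; linarith⟩
  · have := ser_le h0 hr (c := 1) (fun t => by rw [abs_of_pos (a1_pos t)]; exact a1_le t) 0 F
    linarith [le_abs_self (ser (fun k => (x k)⁻¹) (0 + 1) a1 F)]
  · linarith [ser_le h0 hr b2 1 F]
  · linarith [ser_le h0 hr b3 2 F]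
  · refine tsum_nonpos fun k => mul_nonpos_of_nonneg_of_nonpos (pow_pos (h0 k) _).le ?_
    have := mul_nonneg (h0 k).le hF
    exact div_nonpos_of_nonpos_of_nonneg (by linarith) (by positivity)
  · have ex : ∃ k, F ≤ x (k + 1) := by
      obtain ⟨k, hk⟩ := pow_unbounded_of_one_lt F (one_lt_two (α := ℝ))
      have := xg 0 k
      rw [x0, mul_one, add_zero] at this
      exact ⟨k, (hk.le.trans this).trans (xm k.le_succ)⟩
    have m0 : ∀ y, 0 ≤ m y := fun y => zero_le_one.trans (h1 y)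
    have hk := up _ F hF (Nat.find_spec ex)
    rcases e : Nat.find ex with _ | l
    · rw [e] at hk
      have h2 : m (ser (fun k => (x k)⁻¹) 0 Real.arctan F) ≤ m 4 := hm (by norm_num at hk; linarith)
      exact (pow_le_pow_left₀ (m0 _) h2 3).trans (le_mul_of_one_le_right (pow_nonneg (m0 _) 3)
        (Real.one_le_exp (by positivity)))
    · rw [e] at hk
      have h2 : m (ser (fun k => (x k)⁻¹) 0 Real.arctan F) ≤ m (2 * l + 6) :=
        hm (by push_cast at hk; linarith)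
      have h3 : x (l + 1) < F := not_le.1 (Nat.find_min ex (by omega))
      have h4 : 6 * m (2 * l + 6) ^ 3 ≤ x (l + 1) := by rw [xs]; exact le_max_right _ _
      have h5 := Real.add_one_le_exp (F / 6)
      refine (pow_le_pow_left₀ (m0 _) h2 3).trans (le_trans (by linarith)
        (le_mul_of_one_le_left (Real.exp_pos _).le (one_le_pow₀ (h1 4))))

end ChiR

open ChiR in
theorem chi : Chi := by
  intro m hm h1
  obtain ⟨S, s1, s2, s3, D0, D1, D2, c3, su, S0, hb, hp⟩ := slow m hm h1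
  have p1 : ∀ F, 0 < s1 F := fun F => (a1_pos F).trans_le (hb F).1
  have mono : StrictMono S := strictMono_of_hasDerivAt_pos D0 p1
  obtain ⟨χ, cχ, inv⟩ : ∃ χ : ℝ → ℝ, Continuous χ ∧ ∀ y, S (χ y) = y :=
    ⟨(mono.orderIsoOfSurjective S su).symm, OrderIso.continuous _,
      fun y => StrictMono.orderIsoOfSurjective_self_symm_apply S mono su y⟩
  have c1 : Continuous s1 := continuous_iff_continuousAt.2 fun F => (D1 F).continuousAt
  have c2 : Continuous s2 := continuous_iff_continuousAt.2 fun F => (D2 F).continuousAt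
  obtain ⟨q, hq⟩ : ∃ q : ℝ → ℝ, q = fun y => (s1 (χ y))⁻¹ := ⟨_, rfl⟩
  have cq : Continuous q := by
    rw [hq]; exact (c1.comp cχ).inv₀ fun y => (p1 _).ne'
  have E0 : ∀ y, HasDerivAt χ (q y) y := fun y => by
    rw [hq]
    exact HasDerivAt.of_local_left_inverse cχ.continuousAt (D0 _) (p1 _).ne' (.of_forall inv)
  have E1 : ∀ y, HasDerivAt q (-s2 (χ y) * q y ^ 3) y := fun y => by
    have h := ((D1 _).comp y (E0 y)).fun_inv (p1 _).ne'
    rw [hq] at h ⊢
    refine h.congr_deriv ?_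
    have := (p1 (χ y)).ne'
    simp only [comp_apply]
    field_simp
  have E2 : ∀ y, HasDerivAt (fun y => -s2 (χ y) * q y ^ 3)
      (3 * s2 (χ y) ^ 2 * q y ^ 5 - s3 (χ y) * q y ^ 4) y := fun y => by
    refine (((D2 _).comp y (E0 y)).fun_neg.fun_mul ((E1 y).fun_pow 3)).congr_deriv ?_
    simp only [comp_apply]
    push_cast
    ring
  have e0 : deriv χ = q := funext fun y => (E0 y).deriv
  have e1 : deriv q = fun y => -s2 (χ y) * q y ^ 3 := funext fun y => (E1 y).deriv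
  have e2 : deriv (fun y => -s2 (χ y) * q y ^ 3) =
      fun y => 3 * s2 (χ y) ^ 2 * q y ^ 5 - s3 (χ y) * q y ^ 4 := funext fun y => (E2 y).deriv
  refine ⟨χ, m 4 ^ 3 * (444 * 1800 ^ 5), ?_, fun y hy => ?_⟩
  · rw [show (3 : WithTop ℕ∞) = 2 + 1 from rfl, contDiff_succ_iff_deriv, e0,
      show (2 : WithTop ℕ∞) = 1 + 1 from rfl, contDiff_succ_iff_deriv, e1, contDiff_one_iff_deriv,
      e2]
    exact ⟨fun y => (E0 y).differentiableAt, by simp, fun y => (E1 y).differentiableAt, by simp,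
      fun y => (E2 y).differentiableAt, by fun_prop⟩
  have hF : 0 ≤ χ y := mono.le_iff_le.1 (by rw [S0, inv]; exact hy)
  obtain ⟨b1, b1', b2, b3⟩ := hb (χ y)
  obtain ⟨n2, hm3⟩ := hp _ hF
  rw [inv] at hm3
  have q0 : 0 < q y := by rw [hq]; exact inv_pos.2 (p1 _)
  have qP : q y ≤ 1 + χ y ^ 2 := by
    rw [hq]
    exact inv_le_of_inv_le₀ (by positivity) (by simpa [a1] using b1)
  have P1 : 1 ≤ 1 + χ y ^ 2 := by nlinarith [sq_nonneg (χ y)]
  have qj : ∀ j ≤ 5, q y ^ j ≤ (1 + χ y ^ 2) ^ 5 := fun j hj =>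
    (pow_le_pow_left₀ q0.le qP j).trans (pow_le_pow_right₀ P1 hj)
  have PE : (1 + χ y ^ 2) ^ 5 ≤ 1800 ^ 5 * Real.exp (χ y / 6) := by
    have h2 := Real.quadratic_le_exp_of_nonneg (x := χ y / 30) (by positivity)
    have h3 : 1 + χ y ^ 2 ≤ 1800 * Real.exp (χ y / 30) := by nlinarith
    refine (pow_le_pow_left₀ (by positivity) h3 5).trans_eq ?_
    rw [mul_pow, ← Real.exp_nat_mul]
    congr 2
    push_cast
    ring
  refine ⟨?_, ?_, ?_, fun j j1 j3 => ?_⟩
  · have := (Convex.image_sub_le_mul_sub_of_deriv_le convex_univ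
      (continuous_iff_continuousAt.2 fun F => (D0 F).continuousAt).continuousOn
      (fun F _ => (D0 F).differentiableAt.differentiableWithinAt) (C := 2)
      (fun F _ => by rw [(D0 F).deriv]; exact (hb F).2.1)) 0 trivial _ trivial hF
    rwa [S0, inv, sub_zero, sub_zero] at this
  · rw [e0, hq, one_div]
    exact inv_anti₀ (p1 _) b1'
  · rw [e0, e1]
    exact mul_nonneg (neg_nonneg.2 n2) (pow_pos q0 3).le
  have key : |iteratedDeriv j χ y| ≤ 444 * (1 + χ y ^ 2) ^ 5 := by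
    have P0 : 0 ≤ (1 + χ y ^ 2) ^ 5 := by positivity
    obtain rfl | rfl | rfl : j = 1 ∨ j = 2 ∨ j = 3 := by omega
    · rw [iteratedDeriv_one, e0, abs_of_pos q0]
      have := qj 1 (by norm_num)
      rw [pow_one] at this
      linarith
    · rw [iteratedDeriv_succ, iteratedDeriv_one, e0, e1, abs_mul, abs_neg,
        abs_of_pos (pow_pos q0 3)]
      have := mul_le_mul b2 (qj 3 (by norm_num)) (pow_pos q0 3).le (by norm_num)
      linarith
    · rw [iteratedDeriv_succ, iteratedDeriv_succ, iteratedDeriv_one, e0, e1, e2]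
      refine (abs_sub _ _).trans ?_
      rw [abs_mul, abs_mul, abs_mul, abs_of_pos (pow_pos q0 5), abs_of_pos (pow_pos q0 4), abs_pow,
        abs_of_pos (three_pos (α := ℝ))]
      have h2 := mul_le_mul b3 (qj 4 (by norm_num)) (pow_pos q0 4).le (by norm_num)
      have h3 := mul_le_mul (pow_le_pow_left₀ (abs_nonneg _) b2 2) (qj 5 le_rfl) (pow_pos q0 5).le
        (by norm_num)
      linarith
  have m0 : 0 ≤ m 4 ^ 3 := pow_nonneg (zero_le_one.trans (h1 4)) 3
  calc m y ^ 3 * |iteratedDeriv j χ y|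
      ≤ m 4 ^ 3 * Real.exp (χ y / 6) * (444 * (1800 ^ 5 * Real.exp (χ y / 6))) :=
        mul_le_mul hm3 (key.trans (by linarith)) (abs_nonneg _) (by positivity)
    _ = m 4 ^ 3 * (444 * 1800 ^ 5) * Real.exp (χ y / 3) := by
        rw [show χ y / 3 = χ y / 6 + χ y / 6 by ring, Real.exp_add]; ring

end Pool.Agent.MP_8ac6f3_ag.KH
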