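import Mathlib.Topology.Separation.GDelta
import Mathlib.Topology.GDelta.MetrizableSpace
import Mathlib.LinearAlgebra.FreeModule.PID
import Mathlib.RingTheory.Flat.FaithfullyFlat.Algebra
import Mathlib.Algebra.Module.StablyFree.Basic
import Mathlib.RingTheory.Complex
import Mathlib.RingTheory.Norm.Transitivity
import Mathlib.Topology.UniformSpace.Uniformizable
import Pool.Agent.MP_8ac6f3_ag.kh.BaseA
import Pool.Agent.MP_8ac6f3_ag.kh.Sta

-- ======== part 0: formerly Pool.Agent.MP_8ac6f3_ag.kh.Lse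
section MrgPart0

/-! The Levi form of a weighted soft maximum, and a smooth maximum of finitely many functions. -/

open Set Metric Complex MeasureTheory Filter Function
open scoped ContDiff Topology

set_option maxSynthPendingDepth 3

namespace Pool.Agent.MP_8ac6f3_ag.KH

variable {n : ℕ}

namespace LseP

theorem d2_sum {ι : Type} (T : Finset ι) {f : ι → M n → ℝ} {x : M n}
    (hf : ∀ i ∈ T, ContDiffAt ℝ 2 (f i) x) (η : M n) :
    d2 (fun y => ∑ i ∈ T, f i y) x η = ∑ i ∈ T, d2 (f i) x η := by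
  classical
  induction T using Finset.induction_on with
  | empty => simp [d2]
  | insert a s ha ih =>
    simp only [Finset.sum_insert ha]
    rw [L1.d2_add (hf a (by simp)) (ContDiffAt.sum fun i hi => hf i (by simp [hi])),
      ih fun i hi => hf i (by simp [hi])]

theorem der_exp (σ : ℝ) : deriv (fun t : ℝ => Real.exp (t / σ)) = fun t => Real.exp (t / σ) / σ :=
  funext fun t => by
    simpa [div_eq_mul_inv] using (((hasDerivAt_id t).div_const σ).exp).deriv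

theorem der_log (σ : ℝ) : deriv (fun t : ℝ => σ * Real.log t) = fun t => σ * t⁻¹ := by
  rw [deriv_const_mul_field', Real.deriv_log']

theorem cd_exp {w : M n → ℝ} {x : M n} {k : WithTop ℕ∞} (hw : ContDiffAt ℝ k w x) (σ : ℝ) :
    ContDiffAt ℝ k (fun y => Real.exp (w y / σ)) x := (hw.div_const σ).exp

/-- first and second derivative of one summand -/
theorem one {χ w : M n → ℝ} {x : M n} {σ : ℝ} (hσ : 0 < σ) (hχ : ContDiffAt ℝ 2 χ x)
    (hw : ContDiffAt ℝ 2 w x) (η : M n) :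
    fderiv ℝ (fun y => χ y ^ 2 * Real.exp (w y / σ)) x η = Real.exp (w x / σ) * χ x *
      (2 * fderiv ℝ χ x η + χ x * fderiv ℝ w x η / σ) ∧
    d2 (fun y => χ y ^ 2 * Real.exp (w y / σ)) x η = Real.exp (w x / σ) *
      (χ x ^ 2 * d2 w x η / σ + (2 * fderiv ℝ χ x η + χ x * fderiv ℝ w x η / σ) ^ 2 -
        2 * fderiv ℝ χ x η ^ 2 + 2 * (χ x * d2 χ x η)) := by
  have h1 := (hχ.differentiableAt two_ne_zero).hasFDerivAt
  have h2 := (hw.differentiableAt two_ne_zero).hasFDerivAt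
  have h3 := h1.pow 2
  have h4 := (h2.mul_const σ⁻¹).exp
  simp only [← div_eq_mul_inv] at h4
  have e3 : fderiv ℝ (fun y => χ y ^ 2) x η = 2 * χ x * fderiv ℝ χ x η := by
    rw [h3.fderiv]; simp
  have e4 : fderiv ℝ (fun y => Real.exp (w y / σ)) x η =
      Real.exp (w x / σ) * (fderiv ℝ w x η / σ) := by
    rw [h4.fderiv]; simp [div_eq_inv_mul]
  have f3 : d2 (fun y => χ y ^ 2) x η = 2 * (χ x * d2 χ x η) + 2 * fderiv ℝ χ x η ^ 2 := by
    simp only [sq]; rw [L1.d2_mul hχ hχ]; ring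
  have f4 : d2 (fun y => Real.exp (w y / σ)) x η = Real.exp (w x / σ) / σ * d2 w x η +
      Real.exp (w x / σ) / σ / σ * fderiv ℝ w x η ^ 2 := by
    rw [L1.d2_comp (φ := fun t => Real.exp (t / σ)) (by fun_prop) hw, der_exp,
      deriv_div_const, der_exp]
  constructor
  · rw [fderiv_fun_mul h3.differentiableAt h4.differentiableAt]
    simp only [ContinuousLinearMap.add_apply, ContinuousLinearMap.smul_apply, smul_eq_mul, e3, e4]
    ring
  · rw [L1.d2_mul (hχ.pow 2) (cd_exp hw σ), e3, e4, f3, f4]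
    field_simp
    ring

theorem dir {ι : Type} (T : Finset ι) (χ w : ι → M n → ℝ) {σ : ℝ} (x η : M n) (hσ : 0 < σ)
    (h : ∀ i ∈ T, ContDiffAt ℝ 2 (χ i) x ∧ ContDiffAt ℝ 2 (w i) x)
    (hS : 0 < ∑ i ∈ T, χ i x ^ 2 * Real.exp (w i x / σ)) :
    (∑ i ∈ T, (χ i x ^ 2 * Real.exp (w i x / σ) * d2 (w i) x η - 2 * σ * Real.exp (w i x / σ) *
        (fderiv ℝ (χ i) x η ^ 2 - χ i x * d2 (χ i) x η))) /
      (∑ i ∈ T, χ i x ^ 2 * Real.exp (w i x / σ)) ≤
      d2 (fun y => σ * Real.log (∑ i ∈ T, χ i y ^ 2 * Real.exp (w i y / σ))) x η := by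
  have hs : ∀ i ∈ T, ContDiffAt ℝ 2 (fun y => χ i y ^ 2 * Real.exp (w i y / σ)) x := fun i hi =>
    ((h i hi).1.pow 2).mul (cd_exp (h i hi).2 σ)
  rw [L1.d2_comp (φ := fun t => σ * Real.log t)
    (f := fun y => ∑ i ∈ T, χ i y ^ 2 * Real.exp (w i y / σ))
    (contDiffAt_const.mul (Real.contDiffAt_log.2 hS.ne')) (ContDiffAt.sum hs), der_log,
    deriv_const_mul_field', deriv_inv', d2_sum T hs,
    fderiv_fun_sum fun i hi => (hs i hi).differentiableAt two_ne_zero,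
    ContinuousLinearMap.sum_apply, Finset.sum_congr rfl fun i hi => (one hσ (h i hi).1 (h i hi).2 η).1,
    Finset.sum_congr rfl fun i hi => (one hσ (h i hi).1 (h i hi).2 η).2]
  set a : ι → ℝ := fun i => 2 * fderiv ℝ (χ i) x η + χ i x * fderiv ℝ (w i) x η / σ with ha
  have cs : (∑ i ∈ T, Real.exp (w i x / σ) * χ i x * a i) ^ 2 ≤
      (∑ i ∈ T, χ i x ^ 2 * Real.exp (w i x / σ)) * ∑ i ∈ T, Real.exp (w i x / σ) * a i ^ 2 :=
    Finset.sum_sq_le_sum_mul_sum_of_sq_eq_mul T (fun i _ => by positivity)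
      (fun i _ => by positivity) fun i _ => by ring
  have e : σ * ∑ i ∈ T, Real.exp (w i x / σ) * (χ i x ^ 2 * d2 (w i) x η / σ + a i ^ 2 -
      2 * fderiv ℝ (χ i) x η ^ 2 + 2 * (χ i x * d2 (χ i) x η)) =
      ∑ i ∈ T, (χ i x ^ 2 * Real.exp (w i x / σ) * d2 (w i) x η - 2 * σ * Real.exp (w i x / σ) *
        (fderiv ℝ (χ i) x η ^ 2 - χ i x * d2 (χ i) x η)) +
        σ * ∑ i ∈ T, Real.exp (w i x / σ) * a i ^ 2 := by
    rw [Finset.mul_sum, Finset.mul_sum, ← Finset.sum_add_distrib]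
    refine Finset.sum_congr rfl fun i _ => ?_
    field_simp
    ring
  beta_reduce
  set S := ∑ i ∈ T, χ i x ^ 2 * Real.exp (w i x / σ)
  rw [mul_right_comm σ, e]
  have h1 : σ * (S ^ 2)⁻¹ * (∑ i ∈ T, Real.exp (w i x / σ) * χ i x * a i) ^ 2 ≤
      σ * (∑ i ∈ T, Real.exp (w i x / σ) * a i ^ 2) * S⁻¹ := by
    refine (mul_le_mul_of_nonneg_left cs (by positivity)).trans (le_of_eq ?_)
    field_simp
  rw [div_eq_mul_inv, add_mul]
  linarith

end LseP

theorem lse : Lse n := by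
  intro ι T χ w σ x η hσ h hS
  have h1 := LseP.dir T χ w x η hσ h hS
  have h2 := LseP.dir T χ w x (I • η) hσ h hS
  refine le_trans ?_ (div_le_div_of_nonneg_right (add_le_add h1 h2) (by norm_num))
  rw [← add_div, div_right_comm, ← Finset.sum_add_distrib, Finset.sum_div _ _ 4]
  refine div_le_div_of_nonneg_right (Finset.sum_le_sum fun i _ => ?_) hS.le
  have := mul_le_mul_of_nonneg_left (neg_abs_le (χ i x * lev (χ i) x η))
    (show 0 ≤ 2 * σ * Real.exp (w i x / σ) by positivity)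
  rw [hq_ot]
  simp only [lev] at this ⊢
  linarith

theorem smax (h : Lse n) : Smax n := by
  intro ι T ε hT hε
  have hc : (0 : ℝ) < T.card := Nat.cast_pos.2 hT.card_pos
  have hσ : 0 < ε / T.card := div_pos hε hc
  have hσε : ε / T.card * T.card = ε := div_mul_cancel₀ _ hc.ne'
  generalize ε / T.card = σ at hσ hσε
  have hS : ∀ s : ι → ℝ, 0 < ∑ i ∈ T, Real.exp (s i / σ) := fun s =>
    Finset.sum_pos (fun i _ => Real.exp_pos _) hT
  refine ⟨fun s => σ * Real.log (∑ i ∈ T, Real.exp (s i / σ)), fun s i hi => ?_, fun s c hs => ?_,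
    fun w x hw => ⟨?_, fun i => Real.exp (w i x / σ) / ∑ i ∈ T, Real.exp (w i x / σ),
      fun i _ => (div_pos (Real.exp_pos _) (hS _)).le, ?_, ?_, fun η => ?_⟩⟩
  · rw [← div_le_iff₀' hσ, Real.le_log_iff_exp_le (hS s)]
    exact Finset.single_le_sum (f := fun i => Real.exp (s i / σ)) (fun _ _ => (Real.exp_pos _).le) hi
  · have h1 : ∑ i ∈ T, Real.exp (s i / σ) ≤ T.card * Real.exp (c / σ) := by
      rw [← nsmul_eq_mul]
      exact Finset.sum_le_card_nsmul _ _ _ fun i hi =>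
        Real.exp_le_exp.2 (div_le_div_of_nonneg_right (hs i hi) hσ.le)
    have h2 := Real.log_le_log (hS s) h1
    rw [Real.log_mul hc.ne' (Real.exp_pos _).ne', Real.log_exp] at h2
    have h3 := Real.log_le_sub_one_of_pos hc
    have h4 : σ * (c / σ) = c := mul_div_cancel₀ _ hσ.ne'
    beta_reduce
    nlinarith
  · exact contDiffAt_const.mul ((ContDiffAt.sum fun i hi => LseP.cd_exp (hw i hi) σ).log (hS _).ne')
  · rw [← Finset.sum_div, div_self (hS _).ne']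
  · have hp := hS fun i => w i x
    beta_reduce at hp ⊢
    set S := ∑ i ∈ T, Real.exp (w i x / σ) with hSd
    have h1 : ∑ i ∈ T, (Real.exp (w i x / σ) / S * (σ * Real.log S) - σ) ≤
        ∑ i ∈ T, Real.exp (w i x / σ) / S * w i x := Finset.sum_le_sum fun i _ => by
      have p0 : 0 < Real.exp (w i x / σ) / S := div_pos (Real.exp_pos _) hp
      have h2 := Real.one_sub_inv_le_log_of_pos p0
      have h3 := mul_le_mul_of_nonneg_left h2 p0.le
      rw [Real.log_div (Real.exp_pos _).ne' hp.ne', Real.log_exp, mul_sub,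
        mul_inv_cancel₀ p0.ne'] at h3
      have h4 := mul_le_mul_of_nonneg_left h3 hσ.le
      have h5 : σ * (w i x / σ) = w i x := mul_div_cancel₀ _ hσ.ne'
      have h6 : σ * (Real.exp (w i x / σ) / S * (w i x / σ - Real.log S)) =
          Real.exp (w i x / σ) / S * w i x - Real.exp (w i x / σ) / S * (σ * Real.log S) := by
        rw [mul_left_comm, mul_sub σ, h5]; ring
      nlinarith [mul_pos hσ p0]
    rw [Finset.sum_sub_distrib, ← Finset.sum_mul, ← Finset.sum_div, ← hSd, div_self hp.ne',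
      Finset.sum_const, nsmul_eq_mul] at h1
    linarith
  · have := h ι T (fun _ _ => 1) w σ x η hσ
      (fun i hi => ⟨contDiffAt_const, (hw i hi).of_le (by norm_num)⟩) (by simpa using hS _)
    simp only [one_pow, one_mul, lev_const, hq_ot, fderiv_fun_const, Pi.zero_apply,
      ContinuousLinearMap.zero_apply, mul_zero, add_zero, zero_div, abs_zero, sub_zero] at this
    refine le_trans (le_of_eq ?_) this
    rw [Finset.sum_div]
    exact Finset.sum_congr rfl fun i _ => by ring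

end Pool.Agent.MP_8ac6f3_ag.KH

end MrgPart0

-- ======== part 1: formerly Pool.Agent.MP_8ac6f3_ag.kh.Rmax
section MrgPart1

/-! The regularised maximum of two functions. -/

open Set Metric Complex MeasureTheory Filter Function
open scoped ContDiff Topology

set_option maxSynthPendingDepth 3

namespace Pool.Agent.MP_8ac6f3_ag.KH

variable {n : ℕ}

namespace Rmx

theorem tang {ψ τ : ℝ → ℝ} (hd : ∀ s, HasDerivAt ψ (τ s) s) (hm : Monotone τ) (x y : ℝ) :
    ψ x + τ x * (y - x) ≤ ψ y := by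
  have hc : Continuous ψ := continuous_iff_continuousAt.2 fun s => (hd s).continuousAt
  rcases lt_trichotomy x y with h | rfl | h
  · obtain ⟨c, h1, h2⟩ := exists_hasDerivAt_eq_slope ψ τ h hc.continuousOn fun s _ => hd s
    rw [eq_div_iff (sub_pos.2 h).ne'] at h2
    nlinarith [hm h1.1.le, sub_pos.2 h]
  · simp
  · obtain ⟨c, h1, h2⟩ := exists_hasDerivAt_eq_slope ψ τ h hc.continuousOn fun s _ => hd s
    rw [eq_div_iff (sub_pos.2 h).ne'] at h2
    nlinarith [hm h1.2.le, sub_pos.2 h]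

theorem st_symm (x : ℝ) : Real.smoothTransition (1 - x) + Real.smoothTransition x = 1 := by
  have h := (Real.smoothTransition.pos_denom x).ne'
  rw [Real.smoothTransition, Real.smoothTransition, sub_sub_cancel, add_comm (expNegInvGlue (1 - x)),
    ← add_div, add_comm (expNegInvGlue (1 - x)), div_self h]

theorem exists_psi {e : ℝ} (he : 0 < e) : ∃ ψ τ : ℝ → ℝ, ContDiff ℝ 3 ψ ∧
    (∀ s, HasDerivAt ψ (τ s) s) ∧ Monotone τ ∧ (∀ s, 0 ≤ τ s ∧ τ s ≤ 1) ∧
    (∀ s, s ≤ -e → τ s = 0) ∧ (∀ s, e ≤ s → τ s = 1) ∧ ψ (-e) = 0 ∧ ψ e = e := by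
  set τ : ℝ → ℝ := fun s => Real.smoothTransition ((s + e) / (2 * e)) with hτ
  have h2 : 0 < 2 * e := by positivity
  have hs : ContDiff ℝ 2 τ :=
    (Real.smoothTransition.contDiff (n := 2)).comp ((contDiff_id.add contDiff_const).div_const _)
  have hc : Continuous τ := hs.continuous
  have hd : ∀ s, HasDerivAt (fun s => ∫ t in (-e)..s, τ t) (τ s) s := fun s =>
    (hc.integral_hasStrictDerivAt (-e) s).hasDerivAt
  refine ⟨fun s => ∫ t in (-e)..s, τ t, τ, ?_, hd, ?_, fun s => ⟨Real.smoothTransition.nonneg _,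
    Real.smoothTransition.le_one _⟩, fun s h => ?_, fun s h => ?_, by simp, ?_⟩
  · rw [show (3 : WithTop ℕ∞) = 2 + 1 from rfl, contDiff_succ_iff_deriv]
    refine ⟨fun s => (hd s).differentiableAt, by simp, ?_⟩
    rw [show deriv (fun s => ∫ t in (-e)..s, τ t) = τ from funext fun s => (hd s).deriv]
    exact hs
  · exact fun a b h => Real.smoothTransition.monotone (by gcongr)
  · exact Real.smoothTransition.zero_of_nonpos (div_nonpos_of_nonpos_of_nonneg (by linarith) h2.le)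
  · exact Real.smoothTransition.one_of_one_le ((one_le_div h2).2 (by linarith))
  · have h3 : ∫ t in (-e)..e, τ (-t) = ∫ t in (-e)..e, τ t := by
      rw [intervalIntegral.integral_comp_neg, neg_neg]
    have h4 : ∫ t in (-e)..e, (τ (-t) + τ t) = ∫ _ in (-e)..e, (1 : ℝ) := by
      refine intervalIntegral.integral_congr fun t _ => ?_
      have : (-t + e) / (2 * e) = 1 - (t + e) / (2 * e) := by field_simp; ring
      simp only [hτ, this, st_symm]
    rw [intervalIntegral.integral_add (f := fun t => τ (-t))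
      ((hc.comp continuous_neg).intervalIntegrable _ _) (hc.intervalIntegrable _ _), h3,
      intervalIntegral.integral_const, smul_eq_mul] at h4
    beta_reduce
    linarith

end Rmx

theorem rmax : Rmax n := by
  intro e he
  obtain ⟨ψ, τ, hs, hd, hm, h01, h0, h1, a0, a1⟩ := Rmx.exists_psi he
  have tg := Rmx.tang hd hm
  have lo : ∀ s, 0 ≤ ψ s := fun s => by simpa [a0, h0 _ le_rfl] using tg (-e) s
  have lo' : ∀ s, s ≤ ψ s := fun s => by simpa [a1, h1 _ le_rfl] using tg e s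
  have up : ∀ s, ψ s ≤ τ s * (s + e) := fun s => by linarith [tg s (-e)]
  refine ⟨fun a b => b + ψ (a - b), fun a b => ⟨?_, ?_⟩, fun a b h => ?_, fun a b h => ?_,
    fun f g x hf hg => ⟨hg.add (hs.contDiffAt.comp x (hf.sub hg)), τ (f x - g x), (h01 _).1,
      (h01 _).2, ?_, fun η => ?_⟩⟩
  · exact max_le (by linarith [lo' (a - b)]) (by linarith [lo (a - b)])
  · have b1 := up (a - b)
    have b2 := h01 (a - b)
    have b3 := le_max_left a b
    have b4 := le_max_right a b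
    nlinarith [mul_le_mul_of_nonneg_left (sub_le_sub_right b3 b) b2.1]
  · have b1 := tg (a - b) e
    rw [h1 _ (by linarith), a1] at b1
    linarith [lo' (a - b)]
  · have b1 := up (a - b)
    rw [h0 _ (by linarith)] at b1
    linarith [lo (a - b)]
  · have b1 := up (f x - g x)
    have b2 := h01 (f x - g x)
    nlinarith
  · have hf2 : ContDiffAt ℝ 2 f x := hf.of_le (by norm_num)
    have hg2 : ContDiffAt ℝ 2 g x := hg.of_le (by norm_num)
    have hs2 : ContDiffAt ℝ 2 ψ (f x - g x) := hs.contDiffAt.of_le (by norm_num)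
    have e1 : deriv ψ = τ := funext fun s => (hd s).deriv
    have b1 := lev_comp (f := fun y => f y - g y) hs2 (hf2.sub hg2) η
    rw [lev_add (g := fun y => ψ (f y - g y)) hg2 (hs2.comp x (hf2.sub hg2)), b1, lev_sub hf2 hg2,
      e1]
    have b2 : 0 ≤ deriv τ (f x - g x) := hm.deriv_nonneg
    have b3 : 0 ≤ deriv τ (f x - g x) * (fderiv ℝ (fun y => f y - g y) x η ^ 2 +
      fderiv ℝ (fun y => f y - g y) x (I • η) ^ 2) / 4 := by positivity
    linarith

end Pool.Agent.MP_8ac6f3_ag.KH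

end MrgPart1

-- ======== part 2: formerly Pool.Agent.MP_8ac6f3_ag.kh.Ext
section MrgPart2

/-! Extension of a limit of smooth plurisubharmonic functions from a ball to the whole space. -/

open Set Metric Complex MeasureTheory Filter Function
open scoped ContDiff Topology

set_option maxSynthPendingDepth 3

namespace Pool.Agent.MP_8ac6f3_ag.KH

variable {n : ℕ}

theorem extS (h : Rmax n) : Ext n := by
  intro W a hW hap
  obtain ⟨c, hc⟩ : ∃ c : ℝ, c = 2 * (|a| + 3) := ⟨_, rfl⟩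
  have ha := le_abs_self a
  have ha0 := abs_nonneg a
  have hc0 : 0 ≤ c := by linarith
  obtain ⟨Q, hQ⟩ : ∃ Q : M n → ℝ, Q = fun x => c * ‖x‖ ^ 2 + -(c * (45 / 8)) := ⟨_, rfl⟩
  have hsq : ContDiff ℝ 3 fun y : M n => ‖y‖ ^ 2 := contDiff_id.norm_sq ℝ
  have q0 : ContDiff ℝ 3 Q := hQ ▸ (contDiff_const.mul hsq).add contDiff_const
  have q1 : ∀ x η, 0 ≤ lev Q x η := fun x η => by
    rw [hQ, lev_add_const, lev_const_mul, lev_sq0]
    · positivity
    · exact hsq.contDiffAt.of_le (by norm_num)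
  have q2 : ∀ x, ‖x‖ < 9 / 4 → Q x ≤ -|a| := fun x hx => by
    have h1 : ‖x‖ ^ 2 ≤ (9 / 4) ^ 2 := by gcongr
    have h2 := mul_le_mul_of_nonneg_left h1 hc0
    simp only [hQ]
    linarith
  have q3 : ∀ x, 5 / 2 < ‖x‖ → |a| + 3 ≤ Q x := fun x hx => by
    have h1 : (5 / 2 : ℝ) ^ 2 ≤ ‖x‖ ^ 2 := by gcongr
    have h2 := mul_le_mul_of_nonneg_left h1 hc0
    simp only [hQ]
    linarith
  have mb : ∀ x : M n, ‖x‖ < 11 / 4 → x ∈ ball (0 : M n) 3 := fun x hx =>
    mem_ball_zero_iff.2 (by linarith)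
  obtain ⟨V, hV⟩ : ∃ V : M n → ℝ, V = fun x => if ‖x‖ < 11 / 4 then max (W x) (Q x) else Q x :=
    ⟨_, rfl⟩
  have ap : ∀ ε : ℝ, 0 < ε → ∃ w, Ps univ w ∧ ∀ x, |w x - V x| ≤ ε := by
    intro ε hε
    have e0 : 0 < min (ε / 2) 1 := lt_min (by linarith) one_pos
    have e1 := min_le_left (ε / 2) 1
    have e2 := min_le_right (ε / 2) 1
    obtain ⟨w, w1, w2⟩ := hap _ e0
    obtain ⟨m, m1, -, m2, m3⟩ := h _ e0
    obtain ⟨u, hu⟩ : ∃ u : M n → ℝ, u = fun x => if ‖x‖ < 11 / 4 then m (w x) (Q x) else Q x :=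
      ⟨_, rfl⟩
    have key : ∀ x, ContDiffAt ℝ 3 u x ∧ ∀ η, 0 ≤ lev u x η := by
      intro x
      by_cases hx : ‖x‖ < 11 / 4
      · have e : u =ᶠ[𝓝 x] fun y => m (w y) (Q y) := by
          filter_upwards [(isOpen_lt continuous_norm continuous_const).mem_nhds hx] with y hy
          simp only [hu]
          exact if_pos hy
        obtain ⟨a1, p, p0, p1, -, p2⟩ :=
          m3 w Q x (w1.1.contDiffAt (isOpen_ball.mem_nhds (mb x hx))) q0.contDiffAt
        refine ⟨a1.congr_of_eventuallyEq e, fun η => ?_⟩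
        rw [lev_congr e]
        exact (add_nonneg (mul_nonneg p0 (w1.2 x (mb x hx) η))
          (mul_nonneg (sub_nonneg.2 p1) (q1 x η))).trans (p2 η)
      · have e : u =ᶠ[𝓝 x] Q := by
          have hx' : 5 / 2 < ‖x‖ := by linarith
          filter_upwards [(isOpen_lt continuous_const continuous_norm).mem_nhds hx'] with y hy
          simp only [hu]
          split_ifs with hy'
          · refine m2 _ _ ?_
            linarith [q3 y hy, (abs_le.1 (w2 y (mb y hy'))).2, (abs_le.1 (hW y (mb y hy'))).2]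
          · rfl
        exact ⟨q0.contDiffAt.congr_of_eventuallyEq e, fun η => by rw [lev_congr e]; exact q1 x η⟩
    refine ⟨u, ⟨fun x _ => (key x).1.contDiffWithinAt, fun x _ => (key x).2⟩, fun x => ?_⟩
    simp only [hu, hV]
    split_ifs with hx
    · have b1 := abs_le.1 ((abs_max_sub_max_le_abs (w x) (W x) (Q x)).trans (w2 x (mb x hx)))
      obtain ⟨b2, b3⟩ := m1 (w x) (Q x)
      exact abs_le.2 ⟨by linarith, by linarith⟩
    · simpa using hε.le
  have cV : Continuous V := continuous_of_uniform_approx_of_continuous fun s hs => by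
    obtain ⟨ε, hε, h1⟩ := Metric.mem_uniformity_dist.1 hs
    obtain ⟨w, w1, w2⟩ := ap (ε / 2) (by linarith)
    refine ⟨w, continuousOn_univ.1 w1.1.continuousOn, fun y => h1 ?_⟩
    rw [dist_comm, Real.dist_eq]
    linarith [w2 y]
  have cg : Continuous fun x => V x - Q x := cV.sub q0.continuous
  have sg : HasCompactSupport fun x => V x - Q x :=
    HasCompactSupport.intro (isCompact_closedBall (0 : M n) 3) fun x hx => by
      rw [mem_closedBall_zero_iff, not_le] at hx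
      simp only [hV]
      rw [if_neg (by linarith), sub_self]
  have e : (fun x => V x - c * ‖x‖ ^ 2) = fun x => (V x - Q x) - c * (45 / 8) := by
    funext x
    simp only [hQ]
    ring
  obtain ⟨b, hb⟩ := cg.bounded_above_of_compact_support sg
  refine ⟨V, c, b + c * (45 / 8), fun x hx => ?_, ?_, fun x => ?_, ap⟩
  · rw [mem_ball_zero_iff] at hx
    simp only [hV]
    rw [if_pos (by linarith), max_eq_left]
    linarith [q2 x hx, (abs_le.1 (hW x (mb x (by linarith)))).1]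
  · rw [e]
    exact (sg.uniformContinuous_of_continuous cg).sub uniformContinuous_const
  · rw [congrFun e x]
    have := abs_le.1 (hb x)
    exact abs_le.2 ⟨by linarith, by linarith⟩

end Pool.Agent.MP_8ac6f3_ag.KH

end MrgPart2

-- ======== part 3: formerly Pool.Agent.MP_8ac6f3_ag.kh.Lip
section MrgPart3

/-! Row LIP: the transition maps of a uniform atlas are uniformly Lipschitz. -/

open Set Metric Complex MeasureTheory Filter Function
open scoped ContDiff Topology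

set_option maxSynthPendingDepth 3

namespace Pool.Agent.MP_8ac6f3_ag.KH

variable {n : ℕ} {Y A : Type} [TopologicalSpace Y] [T2Space Y]

namespace Lip

omit [T2Space Y] in
/-- Near a point of the overlap of two charts the transition map is Lipschitz. -/
theorem loc (a : Atl (M n) Y A) (α β : A) {x z : M n} (hx : x ∈ ball (0 : M n) 3)
    (hz : z ∈ ball (0 : M n) 3) (e : a.ψ β z = a.ψ α x) :
    ∀ᶠ x' in 𝓝 x, ∃ z', ‖z' - z‖ ≤ max a.C 1 * ‖x' - x‖ ∧ a.ψ β z' = a.ψ α x' := by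
  have h1 : ∀ᶠ x' in 𝓝 x, x' ∈ ball (0 : M n) 3 ∧ a.ψ α x' ∈ a.ψ β '' ball 0 3 := by
    refine (isOpen_ball.eventually_mem hx).and ?_
    exact ((a.cont α).continuousAt (isOpen_ball.mem_nhds hx)).eventually
      ((a.opn β _ isOpen_ball Subset.rfl).mem_nhds ⟨z, hz, e⟩)
  obtain ⟨r, hr, h2⟩ := Metric.eventually_nhds_iff_ball.1 h1
  filter_upwards [ball_mem_nhds x hr] with x' hx'
  refine ⟨tau a α β x', ?_, invFunOn_eq (h2 x' hx').2⟩
  have h3 : tau a α β x = z := by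
    rw [tau, ← e]; exact (a.inj β).leftInvOn_invFunOn hz
  rw [← h3]
  exact (convex_ball x r).norm_image_sub_le_of_norm_fderiv_le (𝕜 := ℂ) (f := tau a α β)
    (fun y hy => (a.tr α β y (h2 y hy).1 (h2 y hy).2).1.differentiableAt one_ne_zero)
    (fun y hy => (a.tr α β y (h2 y hy).1 (h2 y hy).2).2.trans (le_max_left _ _))
    (mem_ball_self hr) hx'

end Lip

theorem lip (a : Atl (M n) Y A) : Lip a := by
  refine ⟨max a.C 1, le_max_right _ _, fun α β ξ hξ ξ' hξ' ζ e hlt => ?_⟩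
  set Λ := max a.C 1 with hΛ
  have hΛ0 : 0 ≤ Λ := zero_le_one.trans (le_max_right _ _)
  set d := ‖ξ' - ξ‖ with hd
  have hd0 : 0 ≤ d := norm_nonneg _
  let p : ℝ → M n := fun s => ξ + s • (ξ' - ξ)
  have hpc : Continuous p := by fun_prop
  have hp : ∀ s ∈ Icc (0 : ℝ) 1, p s ∈ ball (0 : M n) 3 := fun s hs =>
    (convex_ball (0 : M n) 3).add_smul_sub_mem hξ hξ' hs
  have hz : ∀ z ∈ closedBall ζ (Λ * d), z ∈ ball (0 : M n) 3 := fun z hz => by
    rw [mem_ball_zero_iff]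
    rw [mem_closedBall, dist_eq_norm] at hz
    have := norm_add_le ζ (z - ζ)
    rw [add_sub_cancel] at this
    linarith
  have hle : ∀ s ∈ Icc (0 : ℝ) 1, ∀ z, ‖z - ζ‖ ≤ Λ * (s * d) → z ∈ closedBall ζ (Λ * d) :=
    fun s hs z h => by
      rw [mem_closedBall, dist_eq_norm]
      exact h.trans (mul_le_mul_of_nonneg_left (mul_le_of_le_one_left hd0 hs.2) hΛ0)
  let S : Set ℝ := {s | ∃ z, ‖z - ζ‖ ≤ Λ * (s * d) ∧ a.ψ β z = a.ψ α (p s)}
  have hS : IsClosed (S ∩ Icc 0 1) := by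
    have hK : IsCompact (Icc (0 : ℝ) 1 ×ˢ closedBall ζ (Λ * d)) :=
      isCompact_Icc.prod (isCompact_closedBall _ _)
    have h1 : IsClosed {q ∈ Icc (0 : ℝ) 1 ×ˢ closedBall ζ (Λ * d) |
        a.ψ β q.2 = a.ψ α (p q.1)} :=
      hK.isClosed.isClosed_eq ((a.cont β).comp continuousOn_snd fun q hq => hz _ hq.2)
        ((a.cont α).comp (hpc.comp continuous_fst).continuousOn fun q hq => hp _ hq.1)
    have h2 : IsClosed {q : ℝ × M n | ‖q.2 - ζ‖ ≤ Λ * (q.1 * d)} :=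
      isClosed_le (by fun_prop) (by fun_prop)
    have h3 := (hK.of_isClosed_subset (h1.inter h2) fun q hq => hq.1.1).image continuous_fst
    convert h3.isClosed using 1
    ext s
    constructor
    · rintro ⟨⟨z, h4, h5⟩, hs⟩
      exact ⟨(s, z), ⟨⟨⟨hs, hle s hs z h4⟩, h5⟩, h4⟩, rfl⟩
    · rintro ⟨q, ⟨⟨⟨h4, -⟩, h5⟩, h6⟩, rfl⟩
      exact ⟨⟨q.2, h6, h5⟩, h4⟩
  have h0 : (0 : ℝ) ∈ S := ⟨ζ, by simp, by simpa [p] using e⟩
  have key := hS.Icc_subset_of_forall_mem_nhdsWithin h0 fun s hs => by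
    obtain ⟨⟨z, h1, h2⟩, h3⟩ := hs
    have h4 := Ico_subset_Icc_self h3
    have h5 := hpc.continuousAt.eventually (Lip.loc a α β (hp s h4) (hz z (hle s h4 z h1)) h2)
    filter_upwards [nhdsWithin_le_nhds h5, self_mem_nhdsWithin] with t ht hst
    obtain ⟨z', h6, h7⟩ := ht
    refine ⟨z', ?_, h7⟩
    have h8 : ‖p t - p s‖ = (t - s) * d := by
      have : p t - p s = (t - s) • (ξ' - ξ) := by simp only [p, sub_smul]; abel
      rw [this, norm_smul, Real.norm_eq_abs, abs_of_pos (sub_pos.2 hst)]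
    have h9 := norm_add_le (z' - z) (z - ζ)
    rw [sub_add_sub_cancel] at h9
    rw [h8] at h6
    linarith
  obtain ⟨z, h1, h2⟩ := key (right_mem_Icc.2 zero_le_one)
  exact ⟨z, by simpa using h1, by simpa [p] using h2⟩

end Pool.Agent.MP_8ac6f3_ag.KH

end MrgPart3

-- ======== part 4: formerly Pool.Agent.MP_8ac6f3_ag.kh.Cov
section MrgPart4

/-! Change of variables between two charts. -/

open Set Metric Complex MeasureTheory Filter Function
open scoped ContDiff Topology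

set_option maxSynthPendingDepth 3

namespace Pool.Agent.MP_8ac6f3_ag.KH

variable {n : ℕ} {Y A : Type} [TopologicalSpace Y] [T2Space Y]

namespace CovP

/-- the part of the chart `α` that is seen in the chart `β` -/
def S (a : Atl (M n) Y A) (α β : A) : Set (M n) :=
  closedBall 0 2 ∩ a.ψ α ⁻¹' (a.ψ β '' closedBall 0 2)

theorem sub : closedBall (0 : M n) 2 ⊆ ball 0 3 := closedBall_subset_ball (by norm_num)

theorem meas (a : Atl (M n) Y A) (α β : A) : MeasurableSet (S a α β) :=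
  (((a.cont α).mono sub).preimage_isClosed_of_isClosed isClosed_closedBall
    ((isCompact_closedBall 0 2).image_of_continuousOn ((a.cont β).mono sub)).isClosed).measurableSet

omit [T2Space Y] in
theorem tau_eq (a : Atl (M n) Y A) {α β : A} {ξ ζ : M n} (hζ : ζ ∈ closedBall (0 : M n) 2)
    (h : a.ψ β ζ = a.ψ α ξ) : tau a α β ξ = ζ := by
  unfold tau
  rw [← h]
  exact (a.inj β).leftInvOn_invFunOn (sub hζ)

omit [T2Space Y] in
theorem inj (a : Atl (M n) Y A) (α β : A) : InjOn (tau a α β) (S a α β) := by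
  rintro ξ ⟨h1, ζ, h2, h3⟩ ξ' ⟨h4, ζ', h5, h6⟩ e
  rw [tau_eq a h2 h3, tau_eq a h5 h6] at e
  exact a.inj α (sub h1) (sub h4) (by rw [← h3, ← h6, e])

omit [T2Space Y] in
theorem image (a : Atl (M n) Y A) (α β : A) : tau a α β '' S a α β = S a β α := by
  ext ζ
  constructor
  · rintro ⟨ξ, ⟨h1, ζ, h2, h3⟩, rfl⟩
    rw [tau_eq a h2 h3]
    exact ⟨h2, ξ, h1, h3.symm⟩
  · rintro ⟨h1, ξ, h2, h3⟩
    exact ⟨ξ, ⟨h2, ζ, h1, h3.symm⟩, tau_eq a h1 h3.symm⟩

theorem det (L : M n →L[ℂ] M n) :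
    |(L.restrictScalars ℝ).det| = ‖LinearMap.det (L : M n →ₗ[ℂ] M n)‖ ^ 2 := by
  have : (L.restrictScalars ℝ).det = Algebra.norm ℝ (LinearMap.det (L : M n →ₗ[ℂ] M n)) :=
    LinearMap.det_restrictScalars (f := (L : M n →ₗ[ℂ] M n))
  rw [this, Algebra.norm_complex_apply, Complex.normSq_eq_norm_sq, abs_sq]

end CovP

open CovP in
theorem cov (a : Atl (M n) Y A) : Cov a := by
  intro α β E E' h1 h2 h3
  have d : ∀ ξ ∈ S a α β, HasFDerivWithinAt (tau a α β)
      ((fderiv ℂ (tau a α β) ξ).restrictScalars ℝ) (S a α β) ξ := fun ξ hξ =>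
    (((a.tr α β ξ (sub hξ.1) (image_mono sub hξ.2)).1.differentiableAt
      one_ne_zero).hasFDerivAt.restrictScalars ℝ).hasFDerivWithinAt
  rw [setIntegral_eq_of_subset_of_forall_sdiff_eq_zero (s := S a α β) measurableSet_closedBall
      inter_subset_left fun ξ hξ => not_not.1 fun h => hξ.2 ⟨hξ.1, h2 ξ hξ.1 h⟩,
    setIntegral_eq_of_subset_of_forall_sdiff_eq_zero (f := E') (s := S a β α)
      measurableSet_closedBall inter_subset_left fun ξ hξ => not_not.1 fun h => hξ.2 ⟨hξ.1, h3 ξ hξ.1 h⟩,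
    ← image a α β, integral_image_eq_integral_abs_det_fderiv_smul volume (meas a α β) d (inj a α β)]
  exact setIntegral_congr_fun (meas a α β) fun ξ hξ => by
    simp only [det, smul_eq_mul, h1 ξ hξ.1 hξ.2]

end Pool.Agent.MP_8ac6f3_ag.KH

end MrgPart4

-- ======== part 5: formerly Pool.Agent.MP_8ac6f3_ag.kh.Kit0
section MrgPart5

/-! Cut-off functions attached to the charts. -/

open Set Metric Complex MeasureTheory Filter Function
open scoped ContDiff Topology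

set_option maxSynthPendingDepth 3

namespace Pool.Agent.MP_8ac6f3_ag.KH

variable {n : ℕ} {Y A : Type} [TopologicalSpace Y]

namespace Kt0

/-- The bump function in the model space. -/
noncomputable def bu (n : ℕ) : ContDiffBump (0 : M n) := ⟨3 / 2, 7 / 4, by norm_num, by norm_num⟩

open Classical in
/-- The bump function moved by a chart. -/
noncomputable def ch (a : Atl (M n) Y A) (α : A) (y : Y) : ℝ :=
  if y ∈ a.ψ α '' ball 0 3 then bu n (invFunOn (a.ψ α) (ball 0 3) y) else 0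

variable (a : Atl (M n) Y A) {α β : A} {ξ : M n}

theorem ch_psi (hξ : ξ ∈ ball (0 : M n) 3) : ch a α (a.ψ α ξ) = bu n ξ := by
  rw [ch, if_pos ⟨ξ, hξ, rfl⟩, inv_psi a hξ]

theorem ch_ev (hξ : ξ ∈ ball (0 : M n) 3) : ch a α ∘ a.ψ α =ᶠ[𝓝 ξ] bu n := by
  filter_upwards [isOpen_ball.mem_nhds hξ] with z hz using ch_psi a hz

theorem ch_supp {y : Y} (h : ch a α y ≠ 0) : y ∈ a.ψ α '' closedBall 0 (7 / 4) := by
  by_cases hy : y ∈ a.ψ α '' ball 0 3
  · obtain ⟨ξ, hξ, rfl⟩ := hy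
    rw [ch_psi a hξ] at h
    have h1 : ξ ∈ support (bu n) := h
    rw [ContDiffBump.support_eq] at h1
    exact ⟨ξ, ball_subset_closedBall h1, rfl⟩
  · exact (h (if_neg hy)).elim

theorem ch_mem (y : Y) : 0 ≤ ch a α y ∧ ch a α y ≤ 1 := by
  unfold ch
  split_ifs
  · exact ⟨(bu n).nonneg, (bu n).le_one⟩
  · exact ⟨le_rfl, zero_le_one⟩

theorem dich [T2Space Y] (α : A) (hξ : ξ ∈ ball (0 : M n) 3) :
    (∃ ζ ∈ ball (0 : M n) 3, a.ψ α ζ = a.ψ β ξ) ∨ ch a α ∘ a.ψ β =ᶠ[𝓝 ξ] fun _ => 0 := by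
  by_cases h : a.ψ β ξ ∈ a.ψ α '' closedBall 0 (7 / 4)
  · obtain ⟨ζ, hζ, e⟩ := h
    exact Or.inl ⟨ζ, cb_sub (by norm_num) hζ, e⟩
  · refine Or.inr (pull a (P := fun y => ch a α y = 0) hξ ?_)
    filter_upwards [(isClosed_image a α 0 (cb_sub (r := 7 / 4)
      (by norm_num))).isOpen_compl.mem_nhds h] with y hy
    by_contra h1
    exact hy (ch_supp a h1)

theorem exists_nb (h : Lip a) : ∃ (nb : A → Finset A) (N : ℕ), (∀ β, (nb β).card ≤ N) ∧
    ∀ α β, ∀ ξ ∈ ball (0 : M n) 3, a.ψ β ξ ∈ a.ψ α '' closedBall 0 (7 / 4) → α ∈ nb β := by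
  classical
  obtain ⟨Λ, h1, hΛ⟩ := h
  have h0 : 0 < Λ := one_pos.trans_le h1
  obtain ⟨t, ht, hf, hc⟩ := Metric.finite_approx_of_totallyBounded
    ((isCompact_closedBall (0 : M n) 3).totallyBounded.subset ball_subset_closedBall)
    (1 / (4 * Λ)) (by positivity)
  choose O hO T hT hT' using a.lf
  refine ⟨fun β => hf.toFinset.biUnion fun ξ => T (a.ψ β ξ), hf.toFinset.card * a.mult,
    fun β => Finset.card_biUnion_le_card_mul _ _ _ fun ξ _ => hT _, ?_⟩
  rintro α β ξ hξ ⟨ζ, hζ, e⟩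
  obtain ⟨ξ', h2, h3⟩ := mem_iUnion₂.1 (hc hξ)
  rw [mem_ball', dist_eq_norm, lt_div_iff₀ (by positivity)] at h3
  rw [mem_closedBall_zero_iff] at hζ
  obtain ⟨ζ', h4, e'⟩ := hΛ β α ξ hξ ξ' (ht h2) ζ e (by linarith)
  refine Finset.mem_biUnion.2 ⟨ξ', hf.mem_toFinset.2 h2, hT' _ α
    ⟨a.ψ β ξ', ⟨ζ', ?_, e'⟩, mem_of_mem_nhds (hO _)⟩⟩
  rw [mem_closedBall_zero_iff]
  linarith [norm_sub_norm_le ζ' ζ]

end Kt0

open Kt0 in
theorem kit0 [T2Space Y] {G : Geo n Y A} (h : Lip G.toAtl) : Nonempty (Kit0 G) := by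
  obtain ⟨nb, N, hN, hnb⟩ := exists_nb G.toAtl h
  have hb : ContDiff ℝ 3 (bu n) := (bu n).contDiff
  obtain ⟨C, hC, hD, -⟩ := exists_Db_of_compact (s := ball (0 : M n) 3) isOpen_univ hb.contDiffOn
    (isCompact_closedBall 0 3) (subset_univ _) ball_subset_closedBall
  have hat : ∀ {α : A} {ζ : M n}, ζ ∈ ball (0 : M n) 3 →
      ContDiffAt ℝ 3 (ch G.toAtl α ∘ G.ψ α) ζ := fun hζ =>
    hb.contDiffAt.congr_of_eventuallyEq (ch_ev G.toAtl hζ)
  have p1 : 0 ≤ C * |G.C| := by positivity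
  have p2 : 0 ≤ C * G.C ^ 2 := by positivity
  have p3 : (0 : ℝ) ≤ N := by positivity
  refine ⟨⟨ch G.toAtl, nb, C * |G.C| + C * G.C ^ 2 + N, fun α β ξ hξ => ?_,
    fun α y => ch_mem G.toAtl y, fun α ξ hξ => ?_, fun α y => ch_supp G.toAtl,
    fun α β ξ hξ => ?_, fun α β ξ hξ η => ?_, fun β => ?_, hnb⟩⟩
  · rcases dich G.toAtl (β := β) α hξ with ⟨ζ, hζ, e⟩ | e
    · exact (G.contDiffAt_chart (m := 3) le_rfl hξ hζ e (hat hζ)).contDiffWithinAt
    · exact (contDiffAt_const.congr_of_eventuallyEq e).contDiffWithinAt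
  · rw [ch_psi G.toAtl (cb_sub (by norm_num) hξ)]
    exact (bu n).one_of_mem_closedBall hξ
  · rcases dich G.toAtl (β := β) α hξ with ⟨ζ, hζ, e⟩ | e
    · refine ContinuousLinearMap.opNorm_le_bound _ (by linarith) fun η => ?_
      rw [fderiv_chart G.toAtl hξ hζ e ((hat hζ).differentiableAt (by norm_num)),
        (ch_ev G.toAtl hζ).fderiv_eq]
      have a1 := norm_dtau_le G.toAtl hξ ⟨ζ, hζ, e⟩ η
      have a2 := (fderiv ℝ (bu n) ζ).le_of_opNorm_le (hD.norm_fderiv_le hζ)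
        (fderiv ℂ (tau G.toAtl β α) ξ η)
      have a3 := mul_le_mul_of_nonneg_left (a1.trans (mul_le_mul_of_nonneg_right
        (le_abs_self _) (norm_nonneg η))) hC
      nlinarith [mul_nonneg (add_nonneg p2 p3) (norm_nonneg η)]
    · rw [e.fderiv_eq, fderiv_fun_const, Pi.zero_apply, norm_zero]
      linarith
  · rcases dich G.toAtl (β := β) α hξ with ⟨ζ, hζ, e⟩ | e
    · rw [G.lev_chart hξ hζ e ((hat hζ).of_le (by norm_num)), lev_congr (ch_ev G.toAtl hζ)]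
      have a1 := pow_le_pow_left₀ (norm_nonneg _) (norm_dtau_le G.toAtl hξ ⟨ζ, hζ, e⟩ η) 2
      have a2 := hD.abs_lev_le hζ (fderiv ℂ (tau G.toAtl β α) ξ η)
      have a3 := mul_le_mul_of_nonneg_left a1 hC
      nlinarith [mul_nonneg (add_nonneg p1 p3) (sq_nonneg ‖η‖)]
    · rw [lev_congr e, lev_const, abs_zero]
      positivity
  · have : ((nb β).card : ℝ) ≤ N := by exact_mod_cast hN β
    linarith

end Pool.Agent.MP_8ac6f3_ag.KH

end MrgPart5

-- ======== part 6: formerly Pool.Agent.MP_8ac6f3_ag.kh.Kit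
section MrgPart6

/-! A partition of unity and a smoothed distance function. -/

open Set Metric Complex MeasureTheory Filter Function
open scoped ContDiff Topology

set_option maxSynthPendingDepth 3

namespace Pool.Agent.MP_8ac6f3_ag.KH

variable {n : ℕ} {Y A : Type} [TopologicalSpace Y] [T2Space Y] {G : Geo n Y A}

namespace KitP

/-- value, gradient and Levi form are bounded at a point -/
structure Bd (a : ℝ) (f : M n → ℝ) (x : M n) : Prop where
  sm : ContDiffAt ℝ 3 f x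
  v : |f x| ≤ a
  g : ‖fderiv ℝ f x‖ ≤ a
  l : ∀ η, |lev f x η| ≤ a * ‖η‖ ^ 2

section Bd

variable {a b : ℝ} {f g : M n → ℝ} {x : M n}

theorem Bd.nonneg (h : Bd a f x) : 0 ≤ a := (abs_nonneg _).trans h.v

theorem Bd.sm2 (h : Bd a f x) : ContDiffAt ℝ 2 f x := h.sm.of_le (by norm_num)

theorem Bd.dif (h : Bd a f x) : DifferentiableAt ℝ f x := h.sm.differentiableAt (by norm_num)

theorem Bd.ap (h : Bd a f x) (η : M n) :
    |fderiv ℝ f x η| ≤ a * ‖η‖ ∧ |fderiv ℝ f x (I • η)| ≤ a * ‖η‖ :=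
  ⟨ContinuousLinearMap.le_of_opNorm_le _ h.g η, by
    simpa [norm_smul] using ContinuousLinearMap.le_of_opNorm_le _ h.g (I • η)⟩

theorem Bd.congr (h : Bd a f x) (e : g =ᶠ[𝓝 x] f) : Bd a g x :=
  ⟨h.sm.congr_of_eventuallyEq e, e.eq_of_nhds ▸ h.v, e.fderiv_eq (𝕜 := ℝ) ▸ h.g,
    fun η => lev_congr e η ▸ h.l η⟩

theorem bd_const {c : ℝ} (h : |c| ≤ a) : Bd a (fun _ => c) x := by
  have := (abs_nonneg c).trans h
  exact ⟨contDiffAt_const, h, by simpa, fun η => by rw [lev_const, abs_zero]; positivity⟩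

theorem Bd.add (h : Bd a f x) (h' : Bd b g x) : Bd (a + b) (fun y => f y + g y) x :=
  ⟨h.sm.add h'.sm, (abs_add_le _ _).trans (add_le_add h.v h'.v), by
    rw [fderiv_fun_add h.dif h'.dif]
    exact (norm_add_le _ _).trans (add_le_add h.g h'.g), fun η => by
    rw [lev_add h.sm2 h'.sm2, add_mul]
    exact (abs_add_le _ _).trans (add_le_add (h.l η) (h'.l η))⟩

theorem Bd.mono (h : Bd a f x) (e : a ≤ b) : Bd b f x :=
  ⟨h.sm, h.v.trans e, h.g.trans e, fun η => (h.l η).trans (by gcongr)⟩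

theorem bd_sum {ι : Type} (T : Finset ι) {F : ι → M n → ℝ} (h : ∀ i ∈ T, Bd a (F i) x) :
    Bd (T.card * a) (fun y => ∑ i ∈ T, F i y) x := by
  classical
  induction T using Finset.induction_on with
  | empty => simpa using bd_const (a := 0) (c := 0) (by simp)
  | insert i T hi ih =>
    simp only [Finset.sum_insert hi, Finset.card_insert_of_notMem hi, Nat.cast_succ]
    exact ((h i (Finset.mem_insert_self _ _)).add
      (ih fun j hj => h j (Finset.mem_insert_of_mem hj))).mono (le_of_eq (by ring))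

theorem abs_mul_le {u v c d : ℝ} (h : |u| ≤ c) (h' : |v| ≤ d) : |u * v| ≤ c * d := by
  rw [abs_mul]
  exact mul_le_mul h h' (abs_nonneg _) ((abs_nonneg _).trans h)

theorem Bd.mul (h : Bd a f x) (h' : Bd b g x) : Bd (3 * a * b) (fun y => f y * g y) x := by
  have h0 := mul_nonneg h.nonneg h'.nonneg
  refine ⟨h.sm.mul h'.sm, by linarith [abs_mul_le h.v h'.v], ?_, fun η => ?_⟩
  · rw [fderiv_fun_mul h.dif h'.dif]
    refine (norm_add_le _ _).trans ?_
    rw [norm_smul, norm_smul, Real.norm_eq_abs, Real.norm_eq_abs]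
    linarith [mul_le_mul h.v h'.g (norm_nonneg _) h.nonneg,
      mul_le_mul h'.v h.g (norm_nonneg _) h'.nonneg]
  · have k1 := abs_le.1 (abs_mul_le h.v (h'.l η))
    have k2 := abs_le.1 (abs_mul_le h'.v (h.l η))
    have k3 := abs_le.1 (abs_mul_le (h.ap η).1 (h'.ap η).1)
    have k4 := abs_le.1 (abs_mul_le (h.ap η).2 (h'.ap η).2)
    rw [lev_mul h.sm2 h'.sm2, abs_le]
    constructor <;> linarith [k1.1, k1.2, k2.1, k2.2, k3.1, k3.2, k4.1, k4.2]

theorem Bd.inv (h : Bd a f x) (h1 : 1 ≤ f x) : Bd (1 + a + a ^ 2) (fun y => (f y)⁻¹) x := by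
  have h0 : 0 < f x := one_pos.trans_le h1
  have a0 := h.nonneg
  have key : ∀ k : ℕ, |deriv^[k] Inv.inv (f x)| ≤ k.factorial := fun k => by
    rw [CalcP.abs_inv k h0]
    exact div_le_self (Nat.cast_nonneg _) (one_le_pow₀ h1)
  have k0 : |(f x)⁻¹| ≤ 1 := by simpa using key 0
  have k1 : |deriv Inv.inv (f x)| ≤ 1 := (key 1).trans (by norm_num)
  have k2 : |deriv (deriv Inv.inv) (f x)| ≤ 2 := (key 2).trans (by norm_num)
  refine ⟨h.sm.inv h0.ne', by nlinarith, ?_, fun η => ?_⟩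
  · change ‖fderiv ℝ (Inv.inv ∘ f) x‖ ≤ _
    rw [((differentiableAt_inv h0.ne').hasDerivAt.comp_hasFDerivAt x h.dif.hasFDerivAt).fderiv,
      norm_smul, Real.norm_eq_abs]
    nlinarith [mul_le_mul k1 h.g (norm_nonneg _) zero_le_one]
  · have k3 := abs_le.1 (abs_mul_le k1 (h.l η))
    have k4 := abs_le.1 (abs_mul_le k2 (abs_mul_le (h.ap η).1 (h.ap η).1))
    have k5 := abs_le.1 (abs_mul_le k2 (abs_mul_le (h.ap η).2 (h.ap η).2))
    rw [lev_comp (φ := Inv.inv) (contDiffAt_inv ℝ h0.ne') h.sm2, abs_le]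
    constructor <;> linarith [k3.1, k3.2, k4.1, k4.2, k5.1, k5.2, sq_nonneg ‖η‖]

end Bd

variable (k : Kit0 G) {α β : A} {ξ : M n} {y : Y}

omit [T2Space Y]

theorem fin (hξ : ξ ∈ ball (0 : M n) 3) {F : A → ℝ} (h : ∀ α, k.χ α (G.ψ β ξ) = 0 → F α = 0) :
    ∑ᶠ α, F α = ∑ α ∈ k.nb β, F α :=
  finsum_eq_sum_of_support_subset _ fun α hα =>
    k.nb_mem α β ξ hξ (k.χ_supp α _ fun e => hα (h α e))

/-- the normalising sum -/
noncomputable def S (y : Y) : ℝ := ∑ᶠ α, k.χ α y * k.χ α y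

theorem S_eq (hξ : ξ ∈ ball (0 : M n) 3) :
    S k (G.ψ β ξ) = ∑ α ∈ k.nb β, k.χ α (G.ψ β ξ) * k.χ α (G.ψ β ξ) :=
  fin k hξ fun α e => by rw [e, mul_zero]

theorem S_mem (y : Y) : 1 ≤ S k y ∧ S k y ≤ k.K₀ := by
  obtain ⟨β, ξ, hξ, rfl⟩ := G.cov y
  have h1 : ∀ r, 1 ≤ r → ξ ∈ closedBall (0 : M n) r := fun r hr =>
    closedBall_subset_closedBall hr (ball_subset_closedBall hξ)
  rw [S_eq k (b13 hξ)]
  refine ⟨le_trans (by rw [k.χ_one β ξ (h1 _ (by norm_num)), mul_one]) (Finset.single_le_sum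
    (f := fun α => k.χ α (G.ψ β ξ) * k.χ α (G.ψ β ξ)) (fun _ _ => mul_self_nonneg _)
    (k.nb_mem β β ξ (b13 hξ) ⟨ξ, h1 _ (by norm_num), rfl⟩)),
    (Finset.sum_le_card_nsmul _ _ 1 fun α _ => ?_).trans (by simpa using k.nb_card β)⟩
  exact mul_le_one₀ (k.χ_mem α _).2 (k.χ_mem α _).1 (k.χ_mem α _).2

/-- the partition of unity -/
noncomputable def th (α : A) (y : Y) : ℝ := k.χ α y * k.χ α y * (S k y)⁻¹

theorem th_nonneg (α : A) (y : Y) : 0 ≤ th k α y :=
  mul_nonneg (mul_self_nonneg _) (inv_nonneg.2 (zero_le_one.trans (S_mem k y).1))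

theorem th_zero (h : k.χ α y = 0) : th k α y = 0 := by simp [th, h]

theorem th_supp (h : th k α y ≠ 0) : y ∈ G.ψ α '' closedBall 0 (7 / 4) :=
  k.χ_supp α y fun e => h (th_zero k e)

theorem th_sum (hξ : ξ ∈ ball (0 : M n) 3) : ∑ α ∈ k.nb β, th k α (G.ψ β ξ) = 1 := by
  simp only [th]
  rw [← Finset.sum_mul, ← S_eq k hξ, mul_inv_cancel₀ (one_pos.trans_le (S_mem k _).1).ne']

theorem th_bd : ∃ a, ∀ α β, ∀ ξ ∈ ball (0 : M n) 3, Bd a (th k α ∘ G.ψ β) ξ := by
  refine ⟨3 * (3 * k.K₀ * k.K₀) * (1 + k.K₀ * (3 * k.K₀ * k.K₀) + (k.K₀ * (3 * k.K₀ * k.K₀)) ^ 2),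
    fun α β ξ hξ => ?_⟩
  have h1 := (S_mem k (G.ψ β ξ)).1.trans (S_mem k _).2
  have h2 : ∀ α, Bd k.K₀ (k.χ α ∘ G.ψ β) ξ := fun α =>
    ⟨(k.χ_sm α).at hξ, (abs_le.2 ⟨by linarith [(k.χ_mem α (G.ψ β ξ)).1],
      (k.χ_mem α _).2⟩).trans h1, k.χ_grad α β ξ hξ, k.χ_lev α β ξ hξ⟩
  have h3 : Bd (k.K₀ * (3 * k.K₀ * k.K₀)) (S k ∘ G.ψ β) ξ :=
    ((bd_sum (k.nb β) fun α _ => (h2 α).mul (h2 α)).mono (mul_le_mul_of_nonneg_right (k.nb_card β)
      ((h2 α).mul (h2 α)).nonneg)).congr (by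
        filter_upwards [isOpen_ball.mem_nhds hξ] with z hz using S_eq k hz)
  exact ((h2 α).mul (h2 α)).mul (h3.inv (S_mem k _).1)

/-- two charts overlap -/
def Rl (G : Geo n Y A) (α β : A) : Prop :=
  ∃ y, y ∈ G.ψ α '' closedBall 0 (7 / 4) ∧ y ∈ G.ψ β '' closedBall 0 (7 / 4)

theorem Rl.nb (h : Rl G α β) : α ∈ k.nb β := by
  obtain ⟨_, h1, ξ, h2, rfl⟩ := h
  exact k.nb_mem α β ξ (cb_sub (by norm_num) h2) h1

open Classical in
/-- the charts that are reached in at most `j` steps -/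
noncomputable def B (α₀ : A) : ℕ → Finset A
  | 0 => {α₀}
  | j + 1 => B α₀ j ∪ (B α₀ j).biUnion k.nb

theorem B_mono (α₀ : A) : Monotone (B k α₀) :=
  monotone_nat_of_le_succ fun _ => by classical exact fun _ h => Finset.mem_union.2 (Or.inl h)

theorem B_step {α₀ : A} {j : ℕ} (h : Rl G α β) (h' : β ∈ B k α₀ j) : α ∈ B k α₀ (j + 1) := by
  classical exact Finset.mem_union.2 (Or.inr (Finset.mem_biUnion.2 ⟨β, h', h.nb k⟩))

theorem B_card (α₀ : A) (j : ℕ) : ((B k α₀ j).card : ℝ) ≤ Real.exp (k.K₀ * j) := by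
  classical
  induction j with
  | zero => simp [B]
  | succ j ih =>
    have h0 : 0 ≤ k.K₀ := (Nat.cast_nonneg _).trans (k.nb_card α₀)
    have h1 : ((B k α₀ (j + 1)).card : ℝ) ≤
        (B k α₀ j).card + ∑ β ∈ B k α₀ j, ((k.nb β).card : ℝ) := by
      exact_mod_cast (Finset.card_union_le _ _).trans (add_le_add_right Finset.card_biUnion_le _)
    have h2 := Finset.sum_le_card_nsmul (B k α₀ j) _ k.K₀ fun β _ => k.nb_card β
    rw [nsmul_eq_mul] at h2
    rw [Nat.cast_succ, mul_add, mul_one, Real.exp_add]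
    linarith [mul_le_mul ih (Real.add_one_le_exp k.K₀) (by linarith) (Real.exp_pos _).le]

theorem reach [ConnectedSpace Y] (α₀ α : A) : ∃ j, α ∈ B k α₀ j := by
  have c : ∀ {r : ℝ}, r ≤ 7 / 4 → ball (0 : M n) r ⊆ closedBall 0 (7 / 4) := fun hr =>
    ball_subset_closedBall.trans (closedBall_subset_closedBall hr)
  have h : IsClopen {y | ∃ j, ∃ β ∈ B k α₀ j, y ∈ G.ψ β '' ball 0 1} := by
    constructor
    · rw [← isOpen_compl_iff, isOpen_iff_mem_nhds]
      intro y hy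
      obtain ⟨β, ξ, hξ, rfl⟩ := G.cov y
      filter_upwards [(G.opn β _ isOpen_ball b13).mem_nhds ⟨ξ, hξ, rfl⟩] with y' h1
      rintro ⟨j, β', h2, h3⟩
      exact hy ⟨j + 1, β, B_step k ⟨y', image_mono (c (by norm_num)) h1,
        image_mono (c (by norm_num)) h3⟩ h2, ξ, hξ, rfl⟩
    · rw [isOpen_iff_mem_nhds]
      rintro y ⟨j, β, h1, h2⟩
      filter_upwards [(G.opn β _ isOpen_ball b13).mem_nhds h2] with y' h3 using ⟨j, β, h1, h3⟩
  obtain ⟨j, β, h1, h2⟩ := (h.eq_univ ⟨G.ψ α₀ 0, 0, α₀, Finset.mem_singleton_self _, 0,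
    mem_ball_self one_pos, rfl⟩).ge (mem_univ (G.ψ α 0))
  exact ⟨j + 1, B_step k ⟨_, ⟨0, mem_closedBall_self (by norm_num), rfl⟩,
    image_mono (c (by norm_num)) h2⟩ h1⟩

theorem exists_dist [ConnectedSpace Y] : ∃ (d : A → ℕ) (T : ℕ → Finset A),
    (∀ α β, Rl G α β → d α ≤ d β + 1) ∧ (∀ α j, d α ≤ j → α ∈ T j) ∧
      ∀ j, ((T j).card : ℝ) ≤ Real.exp (k.K₀ * j) := by
  classical
  obtain ⟨α₀, -⟩ := G.cov (Classical.arbitrary Y)
  exact ⟨fun α => Nat.find (reach k α₀ α), B k α₀,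
    fun α β h => Nat.find_le (B_step k h (Nat.find_spec (reach k α₀ β))),
    fun α j h => B_mono k α₀ h (Nat.find_spec (reach k α₀ α)), B_card k α₀⟩

/-- the smoothed distance -/
noncomputable def rho (d : A → ℕ) (y : Y) : ℝ := ∑ᶠ α, th k α y * d α

theorem rho_eq (d : A → ℕ) (hξ : ξ ∈ ball (0 : M n) 3) (c : ℝ) :
    rho k d (G.ψ β ξ) = ∑ α ∈ k.nb β, th k α (G.ψ β ξ) * (d α - c) + c := by
  simp only [mul_sub, Finset.sum_sub_distrib, ← Finset.sum_mul, th_sum k hξ, one_mul,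
    sub_add_cancel]
  exact fin k hξ fun α e => by rw [th_zero k e, zero_mul]

theorem rho_bd [T2Space Y] {d : A → ℕ} (hd : ∀ α β, Rl G α β → d α ≤ d β + 1) {a : ℝ}
    (ha : ∀ α β, ∀ ξ ∈ ball (0 : M n) 3, Bd a (th k α ∘ G.ψ β) ξ) (hξ : ξ ∈ ball (0 : M n) 3) :
    ∃ (f : M n → ℝ) (c : ℝ), Bd (k.K₀ * (3 * a)) f ξ ∧
      rho k d ∘ G.ψ β =ᶠ[𝓝 ξ] fun z => f z + c := by
  obtain ⟨α₁, ζ, hζ, e⟩ := G.cov (G.ψ β ξ)
  have a0 := (ha β β ξ hξ).nonneg
  refine ⟨fun z => ∑ α ∈ k.nb β, th k α (G.ψ β z) * (d α - (d α₁ : ℝ)), d α₁,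
    (bd_sum (a := 3 * a) _ fun α _ => ?_).mono
      (mul_le_mul_of_nonneg_right (k.nb_card β) (by linarith)), ?_⟩
  · by_cases h : G.ψ β ξ ∈ G.ψ α '' closedBall 0 (7 / 4)
    · have h1 : G.ψ β ξ ∈ G.ψ α₁ '' closedBall 0 (7 / 4) :=
        ⟨ζ, closedBall_subset_closedBall (by norm_num) (ball_subset_closedBall hζ), e⟩
      have h2 : (d α : ℝ) ≤ d α₁ + 1 := by exact_mod_cast hd _ _ ⟨_, h, h1⟩
      have h3 : (d α₁ : ℝ) ≤ d α + 1 := by exact_mod_cast hd _ _ ⟨_, h1, h⟩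
      exact ((ha α β ξ hξ).mul (bd_const (a := 1) (c := d α - (d α₁ : ℝ))
        (abs_le.2 ⟨by linarith, by linarith⟩))).mono (mul_one _).le
    · refine (bd_const (c := 0) (by rw [abs_zero]; linarith)).congr ?_
      filter_upwards [pull G.toAtl hξ
        ((isClosed_image G.toAtl α 0 (cb_sub (by norm_num))).isOpen_compl.mem_nhds h)] with z hz
      rw [not_not.1 fun e => hz (th_supp k e), zero_mul]
  · filter_upwards [isOpen_ball.mem_nhds hξ] with z hz using rho_eq k d hz _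

end KitP

open KitP in
theorem kit3 [ConnectedSpace Y] (k : Kit0 G) : ∃ k1 : Kit G, k1.toKit0 = k ∧ k.K₀ ≤ k1.K ∧
    ∀ α, G.Gle (k1.θ α) k1.K ∧ G.Lle (k1.θ α) k1.K := by
  obtain ⟨a, ha⟩ := th_bd k
  obtain ⟨d, T, hd, hT, hc⟩ := exists_dist k
  have K1 := (S_mem k (Classical.arbitrary Y)).1.trans (S_mem k _).2
  obtain ⟨α₀, -⟩ := G.cov (Classical.arbitrary Y)
  have a1 := (ha α₀ α₀ 0 (mem_ball_self zero_lt_three)).nonneg
  have a0 := mul_nonneg (zero_le_one.trans K1) (mul_nonneg zero_le_three a1)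
  have a2 : a ≤ k.K₀ + k.K₀ * (3 * a) := by nlinarith
  refine ⟨⟨k, th k, rho k d, fun R => T ⌊R + 1⌋₊, k.K₀ + k.K₀ * (3 * a), by linarith,
    fun α β ξ hξ => (ha α β ξ hξ).sm.contDiffWithinAt, th_nonneg k, fun _ _ => th_supp k,
    fun _ _ => th_sum k, fun α ξ hξ => ?_, fun β ξ hξ => ?_,
    fun y => finsum_nonneg fun α => mul_nonneg (th_nonneg k α y) (Nat.cast_nonneg _),
    fun β ξ hξ => ?_, fun β ξ hξ η => ?_, fun R α ξ hξ h => hT _ _ (Nat.le_floor ?_),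
    fun R hR => (hc _).trans (Real.exp_le_exp.2 ?_)⟩, rfl, le_add_of_nonneg_right a0,
    fun α => ⟨fun β ξ hξ => ((ha α β ξ hξ).mono a2).g, fun β ξ hξ => ((ha α β ξ hξ).mono a2).l⟩⟩
  · rw [th, k.χ_one α ξ hξ, one_mul, one_mul, one_div]
    exact inv_anti₀ (one_pos.trans_le (S_mem k _).1) (by linarith [(S_mem k (G.ψ α ξ)).2])
  · obtain ⟨f, c, h1, h2⟩ := rho_bd k (β := β) hd ha hξ
    exact ((h1.sm.add contDiffAt_const).congr_of_eventuallyEq h2).contDiffWithinAt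
  · obtain ⟨f, c, h1, h2⟩ := rho_bd k (β := β) hd ha hξ
    rw [h2.fderiv_eq, fderiv_add_const]
    linarith [h1.g]
  · obtain ⟨f, c, h1, h2⟩ := rho_bd k (β := β) hd ha hξ
    rw [lev_congr h2, lev_add_const]
    exact (h1.mono (by linarith)).l η
  · rw [rho_eq k d (cb_sub (by norm_num) hξ) (d α - 1)] at h
    have : 0 ≤ ∑ β ∈ k.nb α, th k β (G.ψ α ξ) * (d β - (d α - 1 : ℝ)) :=
      Finset.sum_nonneg fun β _ => by
        by_cases e : th k β (G.ψ α ξ) = 0
        · rw [e, zero_mul]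
        · have h2 : (d α : ℝ) ≤ d β + 1 := by
            exact_mod_cast hd _ _ ⟨_, ⟨ξ, hξ, rfl⟩, th_supp k e⟩
          exact mul_nonneg (th_nonneg k _ _) (by linarith)
    linarith
  · exact mul_le_mul (by linarith) (Nat.floor_le (by linarith)) (Nat.cast_nonneg _) (by linarith)

theorem kit2 [ConnectedSpace Y] (k : Kit0 G) : ∃ k1 : Kit G, ∀ α, G.Gle (k1.θ α) k1.K :=
  (kit3 k).imp fun _ h α => (h.2.2 α).1

theorem kit [ConnectedSpace Y] (k : Kit0 G) : Nonempty (Kit G) := (kit3 k).nonempty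

end Pool.Agent.MP_8ac6f3_ag.KH

end MrgPart6

-- ======== part 7: formerly Pool.Agent.MP_8ac6f3_ag.kh.Env0
section MrgPart7

/-! Row EN0: the barrier. -/

open Set Metric Complex MeasureTheory Filter Function
open scoped ContDiff Topology

set_option maxSynthPendingDepth 3

namespace Pool.Agent.MP_8ac6f3_ag.KH

variable {n : ℕ} {Y A : Type} [TopologicalSpace Y] [T2Space Y] {G : Geo n Y A}

namespace Env0R

theorem st3 : ContDiff ℝ 3 Real.smoothTransition := Real.smoothTransition.contDiff (n := 3)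

theorem st_bound : ∃ C : ℝ, 0 ≤ C ∧ ∀ t, |deriv Real.smoothTransition t| ≤ C ∧
    |deriv (deriv Real.smoothTransition) t| ≤ C := by
  obtain ⟨C, hC, h⟩ := exists_iteratedDeriv_bound st3 (u := 0) (v := 1)
    (fun t ht => by rw [Real.smoothTransition.zero_of_nonpos ht, Real.smoothTransition.zero])
    (fun t ht => by rw [Real.smoothTransition.one_of_one_le ht, Real.smoothTransition.one])
  refine ⟨C, hC, fun t => ⟨?_, ?_⟩⟩
  · simpa using h 1 le_rfl (by norm_num) t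
  · simpa [iteratedDeriv_succ] using h 2 (by norm_num) (by norm_num) t

omit [T2Space Y] in
theorem lle (k : Kit G) {C : ℝ} (hC : 0 ≤ C) (h : ∀ t, |deriv Real.smoothTransition t| ≤ C ∧
    |deriv (deriv Real.smoothTransition) t| ≤ C) {s : ℝ} (hs : 0 ≤ s) (hs1 : s ≤ 1) (r : ℝ) :
    G.Lle (fun y => Real.smoothTransition (s * k.ρ y + r)) (s * (C * (k.K + k.K ^ 2))) := by
  intro α ξ hξ η
  have h1 : ContDiffAt ℝ 2 (k.ρ ∘ G.ψ α) ξ := k.ρ_sm.at2 hξ
  have h2 : ContDiffAt ℝ 2 (fun z => s * (k.ρ ∘ G.ψ α) z + r) ξ :=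
    (contDiffAt_const.mul h1).add contDiffAt_const
  have h3 := lev_comp (f := fun z => s * (k.ρ ∘ G.ψ α) z + r)
    (st3.of_le (by norm_num)).contDiffAt h2 η
  have h4 : fderiv ℝ (fun z => s * (k.ρ ∘ G.ψ α) z + r) ξ = s • fderiv ℝ (k.ρ ∘ G.ψ α) ξ :=
    (((h1.differentiableAt two_ne_zero).hasFDerivAt.const_mul s).add_const r).fderiv
  rw [lev_add_const, lev_const_mul s h1, h4] at h3
  have h5 := hq_ot_le (fderiv ℝ (k.ρ ∘ G.ψ α) ξ) η
  have h6 := hq_ot_nonneg (fderiv ℝ (k.ρ ∘ G.ψ α) ξ) η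
  have h7 : ‖fderiv ℝ (k.ρ ∘ G.ψ α) ξ‖ ^ 2 ≤ k.K ^ 2 :=
    pow_le_pow_left₀ (norm_nonneg _) (k.ρ_grad α ξ hξ) 2
  have h8 := k.ρ_lev α ξ hξ η
  obtain ⟨Q, hQ⟩ : ∃ Q, Q = hq (ot (fderiv ℝ (k.ρ ∘ G.ψ α) ξ) (fderiv ℝ (k.ρ ∘ G.ψ α) ξ)) η :=
    ⟨_, rfl⟩
  have e : lev ((fun y => Real.smoothTransition (s * k.ρ y + r)) ∘ G.ψ α) ξ η =
      s * (deriv Real.smoothTransition (s * k.ρ (G.ψ α ξ) + r) * lev (k.ρ ∘ G.ψ α) ξ η +
        s * (deriv (deriv Real.smoothTransition) (s * k.ρ (G.ψ α ξ) + r) * Q)) := by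
    refine h3.trans ?_
    rw [hQ, hq_ot]
    simp only [smul_apply, smul_eq_mul, comp_apply]
    ring
  rw [← hQ] at h5 h6
  have h9 : Q ≤ k.K ^ 2 * ‖η‖ ^ 2 := h5.trans (mul_le_mul_of_nonneg_right h7 (sq_nonneg _))
  obtain ⟨a1, a2⟩ := h (s * k.ρ (G.ψ α ξ) + r)
  have b1 : |deriv Real.smoothTransition (s * k.ρ (G.ψ α ξ) + r) * lev (k.ρ ∘ G.ψ α) ξ η| ≤
      C * (k.K * ‖η‖ ^ 2) := by
    rw [abs_mul]; exact mul_le_mul a1 h8 (abs_nonneg _) hC
  have b2 : |s * (deriv (deriv Real.smoothTransition) (s * k.ρ (G.ψ α ξ) + r) * Q)| ≤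
      C * (k.K ^ 2 * ‖η‖ ^ 2) := by
    rw [abs_mul, abs_mul, abs_of_nonneg hs, abs_of_nonneg h6]
    exact (mul_le_of_le_one_left (by positivity) hs1).trans (mul_le_mul a2 h9 h6 hC)
  rw [e, abs_mul, abs_of_nonneg hs, mul_assoc s]
  refine mul_le_mul_of_nonneg_left ((abs_add_le _ _).trans ?_) hs
  linarith

end Env0R

theorem env0 (k : Kit G) : Env0 k := by
  intro d
  obtain ⟨C, hC, h⟩ := Env0R.st_bound
  obtain ⟨a0, ha0⟩ := (k.isCompact_sub d.R).exists_bound_of_continuousOn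
    d.h_sm.continuous.continuousOn
  have hκ := d.κ_pos
  have hδ := d.δ_pos
  have hc := G.c_pos
  have hK := k.K_pos
  obtain ⟨a, ha⟩ : ∃ a, a = max (1 / d.κ) a0 := ⟨_, rfl⟩
  have a1 : 1 / d.κ ≤ a := ha ▸ le_max_left _ _
  have a2 : a0 ≤ a := ha ▸ le_max_right _ _
  have a3 : 0 < a := (one_div_pos.2 hκ).trans_le a1
  obtain ⟨L, hL⟩ : ∃ L, L = C * (k.K + k.K ^ 2) := ⟨_, rfl⟩
  have hL0 : 0 ≤ L := by rw [hL]; positivity
  obtain ⟨s, hs⟩ : ∃ s, s = min 1 (d.δ * G.c / (a * L + 1)) := ⟨_, rfl⟩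
  have s0 : 0 < s := by rw [hs]; positivity
  have s1 : s ≤ 1 := hs ▸ min_le_left _ _
  have s2 : s * (a * L + 1) ≤ d.δ * G.c :=
    (le_div_iff₀ (by positivity)).1 (hs ▸ min_le_right _ _)
  have sm : G.Sm fun y => Real.smoothTransition (s * k.ρ y + -(s * d.R)) :=
    ((k.ρ_sm.const_mul s).add_const _).comp Env0R.st3
  have lg := (((Env0R.lle k hC h s0.le s1 (-(s * d.R))).lge (s := univ)
    (by positivity)).const_mul sm a3.le).add_const (-a)
  have low : ∀ y, k.ρ y ≤ d.R → a * Real.smoothTransition (s * k.ρ y + -(s * d.R)) + -a = -a :=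
    fun y hy => by
      rw [Real.smoothTransition.zero_of_nonpos (by nlinarith), mul_zero, zero_add]
  have up : ∀ y, a * Real.smoothTransition (s * k.ρ y + -(s * d.R)) + -a ≤ 0 := fun y => by
    nlinarith [Real.smoothTransition.le_one (s * k.ρ y + -(s * d.R))]
  refine ⟨fun y => a * Real.smoothTransition (s * k.ρ y + -(s * d.R)) + -a, a, d.R + 1 / s,
    ⟨(sm.const_mul a).add_const _, fun y => le_min ?_ (up y), lg.mono fun y _ => ?_⟩,
    fun y => ⟨?_, fun hy => ?_⟩⟩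
  · rcases le_or_gt (k.ρ y) d.R with hy | hy
    · beta_reduce
      rw [low y hy]
      have := (abs_le.1 (ha0 y hy)).1
      linarith
    · exact (up y).trans (d.h_supp y hy)
  · have e : max (d.b y + d.κ * (a * Real.smoothTransition (s * k.ρ y + -(s * d.R)) + -a)) 0
        = 0 := by
      refine max_eq_right ?_
      rcases le_or_gt (k.ρ y) d.R with hy | hy
      · rw [low y hy]
        rw [div_le_iff₀ hκ] at a1
        nlinarith [(d.b_mem y).2]
      · rw [d.b_supp y hy, zero_add]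
        exact mul_nonpos_of_nonneg_of_nonpos hκ.le (up y)
    rw [e, ← hL, zero_sub, mul_neg, neg_le_neg_iff, ← mul_div_assoc, div_le_iff₀ hc]
    nlinarith
  · nlinarith [Real.smoothTransition.nonneg (s * k.ρ y + -(s * d.R))]
  · have : 1 ≤ s * k.ρ y + -(s * d.R) := by
      have h1 := mul_lt_mul_of_pos_left hy s0
      rw [mul_add, mul_one_div_cancel s0.ne'] at h1
      linarith
    beta_reduce
    rw [Real.smoothTransition.one_of_one_le this, mul_one, add_neg_cancel]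

end Pool.Agent.MP_8ac6f3_ag.KH

end MrgPart7

-- ======== part 8: formerly Pool.Agent.MP_8ac6f3_ag.kh.Env
section MrgPart8

/-! Row EN1: the upper envelope of the class of competitors is a uniform limit of members. -/

open Set Metric Complex MeasureTheory Filter Function
open scoped ContDiff Topology

set_option maxSynthPendingDepth 3

namespace Pool.Agent.MP_8ac6f3_ag.KH

variable {n : ℕ} {Y A : Type} [TopologicalSpace Y] {G : Geo n Y A}

namespace EN1

/-- The error of the regularisation tends to zero. -/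
theorem sg_tendsto (D : ℝ) : Tendsto (sg D) (𝓝[>] 0) (𝓝 0) := by
  have h1 : Tendsto (fun t : ℝ => Real.log (1 / t)) (𝓝[>] 0) atTop := by
    simp only [one_div]
    exact Real.tendsto_log_atTop.comp tendsto_inv_nhdsGT_zero
  have h2 : Tendsto (fun t : ℝ => t) (𝓝[>] 0) (𝓝 0) := tendsto_id.mono_left nhdsWithin_le_nhds
  have h3 := (h1.const_div_atTop (D + 1)).add h2
  rwa [add_zero] at h3

theorem sg_nonneg {D t : ℝ} (hD : 0 ≤ D) (ht : 0 < t) (h1 : t ≤ 1 / 2) : 0 ≤ sg D t := by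
  have : 0 ≤ Real.log (1 / t) := Real.log_nonneg (by rw [le_div_iff₀ ht]; linarith)
  unfold sg
  positivity

/-- The obstacle is uniformly upper semicontinuous along close pairs. -/
theorem unif {k : Kit G} (d : Data k) {ε : ℝ} (hε : 0 < ε) :
    ∀ᶠ t in 𝓝[>] (0 : ℝ), ∀ y y', G.Nr t y y' → min (d.h y') 0 ≤ min (d.h y) 0 + ε := by
  have key : ∀ α, ∀ᶠ t in 𝓝[>] (0 : ℝ), ∀ ξ ∈ closedBall (0 : M n) 2, ∀ ξ', ‖ξ' - ξ‖ ≤ t →
      d.h (G.ψ α ξ') ≤ d.h (G.ψ α ξ) + ε := fun α => by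
    have hu := (isCompact_closedBall (0 : M n) (5 / 2)).uniformContinuousOn_of_continuous
      ((d.h_sm α).continuousOn.mono (cb_sub (by norm_num)))
    obtain ⟨r, hr, H⟩ := Metric.uniformContinuousOn_iff.1 hu ε hε
    filter_upwards [Ioo_mem_nhdsGT (lt_min hr one_half_pos)] with t ht ξ hξ ξ' h
    have h1 := lt_min_iff.1 ht.2
    have hξ' : ξ' ∈ closedBall (0 : M n) (5 / 2) := by
      rw [mem_closedBall_zero_iff] at hξ ⊢
      linarith [norm_sub_norm_le ξ' ξ]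
    have := H ξ' hξ' ξ (closedBall_subset_closedBall (by norm_num) hξ)
      (by rw [dist_eq_norm]; linarith)
    rw [Real.dist_eq] at this
    have := (abs_lt.1 this).2
    simp only [comp] at this
    linarith
  filter_upwards [(eventually_all_finset (k.T (d.R + 3 * k.K))).2 fun α _ => key α] with t ht
  rintro y y' ⟨α, ξ, hξ, ξ', h, rfl, rfl⟩
  by_cases hR : k.ρ (G.ψ α ξ) ≤ d.R
  · have := ht α (k.mem_T (cb2 hξ) hR) ξ hξ ξ' h
    rw [min_add]
    exact min_le_min this (by linarith)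
  · rw [min_eq_right (d.h_supp _ (not_le.1 hR))]
    linarith [min_le_right (d.h (G.ψ α ξ')) 0]

/-- A contraction of an almost member is a member. -/
theorem mem_of_almost {k : Kit G} (d : Data k) {w : Y → ℝ} {D e x : ℝ} (hD : 0 ≤ D) (he : 0 ≤ e)
    (hx : 0 ≤ x) (hm : ∀ y, -D ≤ min (d.h y) 0) (hw : G.Sm w)
    (hu : ∀ y, w y ≤ min (d.h y) 0 + x)
    (hl : G.Lge w (fun y => max (d.b y + d.κ * w y) 0 - d.δ - e) univ) :
    ∃ l, 0 ≤ l ∧ l ≤ 1 ∧ d.Mem fun y => l * w y + -(e / d.δ * (1 / d.κ + D) + x) := by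
  have hδ := d.δ_pos
  have hκ := d.κ_pos
  have hl0 : 0 ≤ d.δ / (d.δ + e) := by positivity
  have hl1 : d.δ / (d.δ + e) ≤ 1 := div_le_one_of_le₀ (by linarith) (by positivity)
  have hl2 : d.δ / (d.δ + e) * (d.δ + e) = d.δ := div_mul_cancel₀ _ (by positivity)
  have hl3 : 1 - d.δ / (d.δ + e) ≤ e / d.δ := by
    rw [one_sub_div (by positivity), add_sub_cancel_left]
    exact div_le_div_of_nonneg_left he hδ (by linarith)
  generalize d.δ / (d.δ + e) = l at hl0 hl1 hl2 hl3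
  have hq : 0 ≤ e / d.δ := by positivity
  generalize e / d.δ = q at hl3 hq
  have hi : 0 < 1 / d.κ := by positivity
  refine ⟨l, hl0, hl1, (hw.const_mul l).add_const _, fun y => ?_,
    ((hl.const_mul hw hl0).add_const _).mono fun y _ => ?_⟩
  · have h1 := mul_le_mul_of_nonneg_left (hu y) hl0
    have h2 := hm y
    have h3 := min_le_right (d.h y) 0
    generalize min (d.h y) 0 = m at h1 h2 h3 ⊢
    have h4 : (1 - l) * (-m) ≤ q * D := mul_le_mul hl3 (by linarith) (by linarith) hq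
    have h5 : l * x ≤ x := mul_le_of_le_one_left hx hl1
    have h6 : 0 ≤ q * (1 / d.κ) := by positivity
    nlinarith
  · have h1 : max (d.b y + d.κ * (l * w y + -(q * (1 / d.κ + D) + x))) 0 ≤
        l * max (d.b y + d.κ * w y) 0 := by
      refine max_le ?_ (mul_nonneg hl0 (le_max_right _ _))
      refine le_trans ?_ (mul_le_mul_of_nonneg_left (le_max_left _ _) hl0)
      have h2 : (1 - l) * d.b y ≤ q * 1 := mul_le_mul hl3 (d.b_mem y).2 (d.b_mem y).1 hq
      have h3 : d.κ * (q * (1 / d.κ)) = q := by field_simp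
      have h4 : 0 ≤ d.κ * (q * D + x) := by positivity
      nlinarith
    nlinarith

end EN1

theorem env [T2Space Y] (k : Kit G) (hb : Bk G) (h0 : Env0 k) : Env k := by
  intro d
  obtain ⟨v₀, a, R', hv₀, ha⟩ := h0 d
  obtain ⟨K, t₀, hK, ht₀, ht₁, H⟩ := hb
  have hbd : ∀ y, BddAbove ((fun v : Y → ℝ => v y) '' {v | d.Mem v}) := fun y =>
    ⟨min (d.h y) 0, by rintro _ ⟨v, hv, rfl⟩; exact hv.2.1 y⟩
  have hne : ∀ y, ((fun v : Y → ℝ => v y) '' {v | d.Mem v}).Nonempty := fun y => ⟨_, v₀, hv₀, rfl⟩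
  set u : Y → ℝ := fun y => sSup ((fun v : Y → ℝ => v y) '' {v | d.Mem v})
  have hge : ∀ v, d.Mem v → ∀ y, v y ≤ u y := fun v hv y => le_csSup (hbd y) ⟨v, hv, rfl⟩
  have hle : ∀ y c, (∀ v, d.Mem v → v y ≤ c) → u y ≤ c := fun y c h =>
    csSup_le (hne y) (by rintro _ ⟨v, hv, rfl⟩; exact h v hv)
  have hu0 : ∀ y, u y ≤ 0 := fun y => hle y 0 fun v hv => (hv.2.1 y).trans (min_le_right _ _)
  have hF : Fml G {v | d.Mem v} d.b d.δ d.κ d.L :=
    ⟨d.δ_pos.le, d.δ_le, d.κ_pos.le, d.L_nonneg, d.b_mem, d.b_lip,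
      fun v hv => ⟨hv.1, fun y => (hv.2.1 y).trans (min_le_right _ _), hv.2.2⟩⟩
  have hD : 0 ≤ max a 0 := le_max_right _ _
  have hv₁ : ∀ y, -max a 0 ≤ v₀ y := fun y => (neg_le_neg (le_max_left _ _)).trans (ha y).1
  generalize max a 0 = D at hD hv₁
  have hap : ∀ ε : ℝ, 0 < ε → ∃ v, d.Mem v ∧ ∀ y, u y - ε ≤ v y := fun ε hε => by
    have hδ := d.δ_pos
    have hκ := d.κ_pos
    have hL := d.L_nonneg
    have hC : 0 < 2 * K + K * (1 + d.κ + d.L) / d.δ * (1 / d.κ + D) := by positivity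
    obtain ⟨t, ⟨h1, h2⟩, h3⟩ := (((EN1.unif d (half_pos hε)).and
      ((EN1.sg_tendsto D).eventually (Iic_mem_nhds (div_pos (half_pos hε) hC)))).and
      (Ioc_mem_nhdsGT ht₀)).exists
    have hσ := EN1.sg_nonneg hD h3.1 (h3.2.trans ht₁)
    obtain ⟨w, hw, w1, w2, w3⟩ := H _ _ _ _ _ D t hF hD h3.1 h3.2
      fun y => ⟨v₀, hv₀, y, G.nr_refl h3.1.le y, hv₁ y⟩
    replace h2 := (le_div_iff₀ hC).1 h2
    generalize sg D t = σ at hσ w1 w2 w3 h2
    have hKσ : 0 ≤ K * σ := by positivity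
    obtain ⟨l, l0, l1, hm⟩ := EN1.mem_of_almost d (e := K * (1 + d.κ + d.L) * σ)
      (x := ε / 2 + K * σ) hD (by positivity) (by positivity)
      (fun y => (hv₁ y).trans (hv₀.2.1 y)) hw
      (fun y => by
        rw [← add_assoc]
        exact w1 y _ fun v hv y' hn => (hv.2.1 y').trans (h1 y y' hn)) w3
    refine ⟨_, hm, fun y => ?_⟩
    have h4 : u y ≤ w y + K * σ := hle y _ fun v hv => by
      linarith [w2 y v hv y (G.nr_refl h3.1.le y)]
    have h5 : l * (u y - K * σ) ≤ l * w y := mul_le_mul_of_nonneg_left (by linarith) l0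
    have h6 : u y - K * σ ≤ l * (u y - K * σ) := by nlinarith [hu0 y]
    have h7 : K * (1 + d.κ + d.L) * σ / d.δ * (1 / d.κ + D) =
        σ * (K * (1 + d.κ + d.L) / d.δ * (1 / d.κ + D)) := by ring
    rw [h7]
    nlinarith
  refine ⟨u, ?_, hge, hap, R', fun y hy => le_antisymm (hu0 y) ?_⟩
  · refine continuous_of_uniform_approx_of_continuous fun U hU => ?_
    obtain ⟨ε, hε, hU⟩ := Metric.mem_uniformity_dist.1 hU
    obtain ⟨v, hv, h⟩ := hap (ε / 2) (half_pos hε)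
    refine ⟨v, hv.1.continuous, fun y => hU ?_⟩
    rw [Real.dist_eq, abs_lt]
    constructor <;> linarith [h y, hge v hv y]
  · rw [← (ha y).2 hy]
    exact hge v₀ hv₀ y

end Pool.Agent.MP_8ac6f3_ag.KH

end MrgPart8

-- ======== part 9: formerly Pool.Agent.MP_8ac6f3_ag.kh.Touch
section MrgPart9

/-! Row TCH: the touching property of the envelope. -/

open Set Metric Complex MeasureTheory Filter Function
open scoped ContDiff Topology

set_option maxSynthPendingDepth 3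

namespace Pool.Agent.MP_8ac6f3_ag.KH

variable {n : ℕ} {Y A : Type} [TopologicalSpace Y] [T2Space Y] {G : Geo n Y A}

namespace TCH

theorem conv {b κ δ p s t w : ℝ} (hκ : 0 ≤ κ) (h0 : 0 ≤ p) (h1 : p ≤ 1)
    (h : w ≤ p * s + (1 - p) * t) :
    max (b + κ * w) 0 - δ ≤ p * (max (b + κ * s) 0 - δ) + (1 - p) * (max (b + κ * t) 0 - δ) := by
  have h2 : 0 ≤ 1 - p := sub_nonneg.2 h1
  have h3 := mul_le_mul_of_nonneg_left (le_max_left (b + κ * s) 0) h0
  have h4 := mul_le_mul_of_nonneg_left (le_max_left (b + κ * t) 0) h2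
  have h5 := mul_nonneg h0 (le_max_right (b + κ * s) 0)
  have h6 := mul_nonneg h2 (le_max_right (b + κ * t) 0)
  have h7 := mul_le_mul_of_nonneg_left h hκ
  have : max (b + κ * w) 0 ≤ p * max (b + κ * s) 0 + (1 - p) * max (b + κ * t) 0 :=
    max_le (by linarith) (by linarith)
  linarith

/-- A local subsolution can be patched into a member of the class. -/
theorem patch (hr : Rmax n) {k : Kit G} (d : Data k) {v : Y → ℝ} (hv : d.Mem v) (α : A) {ξ : M n}
    {r e : ℝ} (h0 : 0 < r) (he : 0 < e) (hb : ball ξ r ⊆ ball 0 3) {Q : M n → ℝ}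
    (hQ : ∀ z ∈ ball ξ r, ContDiffAt ℝ 3 Q z ∧ Q z ≤ min (d.h (G.ψ α z)) 0 ∧ ∀ η,
      (max (d.b (G.ψ α z) + d.κ * Q z) 0 - d.δ) * lev (G.φ α) z η ≤ lev Q z η)
    (ha : ∀ z ∈ ball ξ r, z ∉ closedBall ξ (r / 2) → Q z + e ≤ v (G.ψ α z)) :
    ∃ v', d.Mem v' ∧ Q ξ - e ≤ v' (G.ψ α ξ) := by
  classical
  obtain ⟨m, m1, m2, -, m4⟩ := hr e he
  set v' : Y → ℝ := fun y => if y ∈ G.ψ α '' ball ξ r then
    m (v y) (Q (invFunOn (G.ψ α) (ball 0 3) y)) + -e else v y + -e with hv'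
  have e1 : ∀ z ∈ ball ξ r, v' (G.ψ α z) = m (v (G.ψ α z)) (Q z) + -e := fun z hz => by
    rw [hv']
    simp only [if_pos (mem_image_of_mem _ hz), inv_psi G.toAtl (hb hz)]
  have e2 : ∀ y ∉ G.ψ α '' closedBall ξ (r / 2), v' y = v y + -e := fun y hy => by
    by_cases h : y ∈ G.ψ α '' ball ξ r
    · obtain ⟨z, hz, rfl⟩ := h
      rw [e1 z hz, m2 _ _ (ha z hz fun h => hy (mem_image_of_mem _ h))]
    · rw [hv']
      simp only [if_neg h]
  have hc : closedBall ξ (r / 2) ⊆ ball ξ r := closedBall_subset_ball (half_lt_self h0)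
  have key : ∀ y, v' y ≤ min (d.h y) 0 ∧ ∃ β, ∃ ζ ∈ ball (0 : M n) 3, G.ψ β ζ = y ∧
      ContDiffAt ℝ 3 (v' ∘ G.ψ β) ζ ∧ ∀ η,
        (max (d.b y + d.κ * v' y) 0 - d.δ) * lev (G.φ β) ζ η ≤ lev (v' ∘ G.ψ β) ζ η := by
    intro y
    by_cases h : y ∈ G.ψ α '' ball ξ r
    · obtain ⟨z, hz, rfl⟩ := h
      obtain ⟨q1, q2, q3⟩ := hQ z hz
      obtain ⟨c1, p, p0, p1, p2, p3⟩ := m4 (v ∘ G.ψ α) Q z (hv.1.at (hb hz)) q1
      have ev : v' ∘ G.ψ α =ᶠ[𝓝 z] fun x => m ((v ∘ G.ψ α) x) (Q x) + -e := by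
        filter_upwards [isOpen_ball.mem_nhds hz] with x hx
        exact e1 x hx
      refine ⟨?_, α, z, hb hz, rfl, (c1.add contDiffAt_const).congr_of_eventuallyEq ev,
        fun η => ?_⟩
      · have := (m1 (v (G.ψ α z)) (Q z)).2
        rw [e1 z hz]
        linarith [max_le (hv.2.1 (G.ψ α z)) q2]
      · rw [lev_congr ev, lev_add_const, e1 z hz]
        have h1 := mul_le_mul_of_nonneg_left (hv.2.2 α z (hb hz) trivial η) p0
        have h2 := mul_le_mul_of_nonneg_left (q3 η) (sub_nonneg.2 p1)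
        have h3 := mul_le_mul_of_nonneg_right (conv (b := d.b (G.ψ α z)) (δ := d.δ) d.κ_pos.le
          p0 p1 (w := m (v (G.ψ α z)) (Q z) + -e) p2) (G.levφ_nonneg (α := α) (hb hz) η)
        have h4 := p3 η
        simp only [comp_apply] at h1 h2 h3 h4 ⊢
        linarith
    · have h' : y ∉ G.ψ α '' closedBall ξ (r / 2) := fun h' => h (image_mono hc h')
      obtain ⟨β, ζ, hζ, rfl⟩ := G.cov y
      have ev : v' ∘ G.ψ β =ᶠ[𝓝 ζ] fun x => (v ∘ G.ψ β) x + -e :=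
        pull G.toAtl (P := fun y => v' y = v y + -e) (b13 hζ)
          (mem_of_superset ((isClosed_image G.toAtl α ξ (hc.trans hb)).isOpen_compl.mem_nhds h') e2)
      refine ⟨?_, β, ζ, b13 hζ, rfl,
        ((hv.1.at (b13 hζ)).add contDiffAt_const).congr_of_eventuallyEq ev, fun η => ?_⟩
      · rw [e2 _ h']
        linarith [hv.2.1 (G.ψ β ζ)]
      · rw [lev_congr ev, lev_add_const, e2 _ h']
        refine le_trans (mul_le_mul_of_nonneg_right (sub_le_sub_right (max_le_max_right _ ?_) _)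
          (G.levφ_nonneg (b13 hζ) η)) (hv.2.2 β ζ (b13 hζ) trivial η)
        nlinarith [d.κ_pos]
  refine ⟨v', ⟨G.sm_of_local fun y => ?_, fun y => (key y).1, G.lge_of_local fun y _ => ?_⟩, ?_⟩
  · obtain ⟨-, β, ζ, hζ, e, h, -⟩ := key y
    exact ⟨β, ζ, hζ, e, h⟩
  · obtain ⟨-, β, ζ, hζ, e, h, h'⟩ := key y
    exact ⟨β, ζ, hζ, e, h.of_le (by norm_num), h'⟩
  · rw [e1 ξ (mem_ball_self h0)]
    linarith [(m1 (v (G.ψ α ξ)) (Q ξ)).1, le_max_right (v (G.ψ α ξ)) (Q ξ)]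

omit [T2Space Y] in
theorem b_cont {b : Y → ℝ} {L : ℝ} (h : G.Lp b L) (α : A) :
    ContinuousOn (fun z => b (G.ψ α z)) (ball 0 3) :=
  (LipschitzOnWith.of_dist_le' (K := L) fun x hx y hy => by
    rw [Real.dist_eq, dist_eq_norm]; exact h α x hx y hy).continuousOn

end TCH

theorem touch (hr : Rmax n) (k : Kit G) : Touch k := by
  intro d u hu α ξ hξ q hq hmin hlt
  by_contra hcon
  push Not at hcon
  have hn : ball (0 : M n) 3 ∈ 𝓝 ξ := isOpen_ball.mem_nhds hξ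
  set u0 := u (G.ψ α ξ) with hu0
  obtain ⟨a, ha, hpos⟩ := exists_pos_lower (P := Unit) isCompact_univ
    (B := fun _ => D2 q ξ - (max (d.b (G.ψ α ξ) + d.κ * u0) 0 - d.δ) • D2 (G.φ α) ξ)
    continuousOn_const fun _ _ η hη => by
      rw [hq_sub, hq_smul, hq_D2, hq_D2, sub_pos]; exact hcon η hη
  set Q : M n × ℝ → ℝ := fun p => q p.1 - a / 2 * ‖p.1 - ξ‖ ^ 2 + (u0 - q ξ + p.2) with hQ
  have Q0 : Q (ξ, 0) = u0 := by simp [hQ]
  have cq : ContinuousAt q ξ := hq.continuousOn.continuousAt hn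
  have cQ : ContinuousAt Q (ξ, 0) := by
    have : ContinuousAt (fun p : M n × ℝ => q p.1) (ξ, 0) :=
      ContinuousAt.comp (f := Prod.fst) cq continuousAt_fst
    rw [hQ]; fun_prop
  have up : ∀ {F : Type} [TopologicalSpace F] {f : M n → F}, ContinuousOn f (ball 0 3) →
      ContinuousAt (fun p : M n × ℝ => f p.1) (ξ, 0) := fun hf =>
    ContinuousAt.comp (f := Prod.fst) (hf.continuousAt hn) continuousAt_fst
  set B : M n × ℝ → Bil n := fun p =>
    D2 q p.1 - (max (d.b (G.ψ α p.1) + d.κ * Q p) 0 - d.δ) • D2 (G.φ α) p.1 with hB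
  have cB : ContinuousAt B (ξ, 0) := (up (continuousOn_D2 isOpen_ball hq)).sub
    ((((((up (TCH.b_cont d.b_lip α)).add (continuousAt_const.mul cQ))).max
      continuousAt_const).sub continuousAt_const).smul
      (up (continuousOn_D2 isOpen_ball (G.φ_pot.1 α))))
  have E1 : ∀ᶠ p in 𝓝 ((ξ, 0) : M n × ℝ), dist (B p) (B (ξ, 0)) < a / 2 :=
    Metric.tendsto_nhds.1 cB _ (half_pos ha)
  have E2 : ∀ᶠ p in 𝓝 ((ξ, 0) : M n × ℝ), Q p < min (d.h (G.ψ α p.1)) 0 :=
    cQ.eventually_lt ((up (chart_cont G.toAtl d.h_sm.continuous α)).min continuousAt_const)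
      (by rwa [Q0])
  have E3 : ∀ᶠ p in 𝓝 ((ξ, 0) : M n × ℝ), p.1 ∈ ball (0 : M n) 3 ∧
      u0 - q ξ ≤ u (G.ψ α p.1) - q p.1 :=
    (continuousAt_fst (p := ((ξ, 0) : M n × ℝ))).eventually
      ((show ∀ᶠ z in 𝓝 ξ, z ∈ ball (0 : M n) 3 from hn).and hmin)
  obtain ⟨r, h0, H⟩ := Metric.eventually_nhds_iff.1 (E1.and (E2.and E3))
  set τ := min (r / 2) (a * r ^ 2 / 16) with hτ
  have τ0 : 0 < τ := lt_min (half_pos h0) (by positivity)
  have H' : ∀ z ∈ ball ξ r, _ := fun z hz => H (y := (z, τ)) (by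
    rw [Prod.dist_eq, max_lt_iff]
    refine ⟨hz, ?_⟩
    rw [Real.dist_eq, sub_zero, abs_of_pos τ0]
    exact (min_le_left _ _).trans_lt (half_lt_self h0))
  obtain ⟨v, hv, hv'⟩ := hu.approx (τ / 2) (half_pos τ0)
  obtain ⟨v', m1, m2⟩ := TCH.patch hr d hv α h0 (half_pos τ0) (fun z hz => (H' z hz).2.2.1)
    (Q := fun z => Q (z, τ)) (fun z hz => by
      obtain ⟨h1, h2, h3, -⟩ := H' z hz
      have c1 : ContDiffAt ℝ 3 q z := hq.contDiffAt (isOpen_ball.mem_nhds h3)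
      have c2 : ContDiffAt ℝ 3 (fun y : M n => ‖y - ξ‖ ^ 2) z := (contDiff_sq ξ).contDiffAt
      refine ⟨(c1.sub (contDiffAt_const.mul c2)).add (contDiffAt_const (c := u0 - q ξ + τ)), h2.le,
        fun η => ?_⟩
      have h4 : lev (fun z => Q (z, τ)) z η = lev q z η - a / 2 * ‖η‖ ^ 2 := by
        simp only [hQ]
        rw [lev_add_const, lev_sub (c1.of_le (by norm_num))
          (contDiffAt_const.mul (c2.of_le (by norm_num))), lev_const_mul _ (c2.of_le (by norm_num)),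
          lev_sq]
      have h5 := (abs_le.1 (abs_hq_le (B (z, τ) - B (ξ, 0)) η)).1
      have h6 := hpos () trivial η
      have h7 := mul_le_mul_of_nonneg_right h1.le (sq_nonneg ‖η‖)
      rw [dist_eq_norm] at h7
      rw [hq_sub] at h5
      have h8 : KH.hq (B (ξ, 0)) η = KH.hq (D2 q ξ - (max (d.b (G.ψ α ξ) + d.κ * u0) 0 - d.δ) •
        D2 (G.φ α) ξ) η := by simp only [hB, Q0]
      have h9 : KH.hq (B (z, τ)) η = lev q z η -
          (max (d.b (G.ψ α z) + d.κ * Q (z, τ)) 0 - d.δ) * lev (G.φ α) z η := by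
        simp only [hB]; rw [hq_sub, hq_smul, hq_D2, hq_D2]
      linarith)
    (fun z hz hz' => by
      obtain ⟨-, -, -, h4⟩ := H' z hz
      rw [mem_closedBall, dist_eq_norm, not_le] at hz'
      have h5 : (r / 2) ^ 2 ≤ ‖z - ξ‖ ^ 2 := pow_le_pow_left₀ (half_pos h0).le hz'.le 2
      have h6 := mul_le_mul_of_nonneg_left h5 ha.le
      have h7 : τ ≤ a * r ^ 2 / 16 := min_le_right _ _
      have h8 := hv' (G.ψ α z)
      simp only [hQ] at h4 ⊢
      linarith)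
  have := hu.ge v' m1 (G.ψ α ξ)
  simp only [hQ, sub_self, norm_zero] at m2
  linarith

end Pool.Agent.MP_8ac6f3_ag.KH

end MrgPart9

-- ======== part 10: formerly Pool.Agent.MP_8ac6f3_ag.kh.Meas
section MrgPart10

/-! Row MEA: the measure inequality. -/

open Set Metric Complex MeasureTheory Filter Function
open scoped ContDiff Topology

set_option maxSynthPendingDepth 3

namespace Pool.Agent.MP_8ac6f3_ag.KH

variable {n : ℕ} {Y A : Type} [TopologicalSpace Y] [T2Space Y] {G : Geo n Y A}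

namespace Mea

omit [T2Space Y] in
theorem lp_cont {b : Y → ℝ} {L : ℝ} (hL : 0 ≤ L) (h : G.Lp b L) (α : A) :
    ContinuousOn (fun ξ => b (G.ψ α ξ)) (ball 0 3) := by
  have : LipschitzOnWith ⟨L, hL⟩ (fun ξ => b (G.ψ α ξ)) (ball 0 3) :=
    LipschitzOnWith.of_dist_le_mul fun ξ hξ ζ hζ => by
      rw [Real.dist_eq, dist_eq_norm]; exact h α ξ hξ ζ hζ
  exact this.continuousOn

theorem env_bdd {k : Kit G} {d : Data k} {u : Y → ℝ} (hu : d.IsEnv u) :
    ∃ C : ℝ, 0 ≤ C ∧ ∀ y, |u y| ≤ C := by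
  obtain ⟨R', hR⟩ := hu.supp
  obtain ⟨C, hC⟩ := (k.isCompact_sub R').exists_bound_of_continuousOn hu.cont.continuousOn
  refine ⟨max C 0, le_max_right _ _, fun y => ?_⟩
  by_cases hy : k.ρ y ≤ R'
  · exact (hC y hy).trans (le_max_left _ _)
  · rw [hR y (not_le.1 hy), abs_zero]; exact le_max_right _ _

omit [T2Space Y] in
theorem touching {k : Kit G} (ht : Touch k) {d : Data k} {u : Y → ℝ} (o : Y → ℝ) {lam τ : ℝ}
    (hu : d.IsEnv u) (hδ : d.δ ≤ lam) (hτ : 0 < τ) (α : A) {y : M n} (hy : y ∈ ball (0 : M n) 3)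
    {q : M n → ℝ} (hq3 : ContDiff ℝ 3 q)
    (hmin : IsLocalMin (fun z => G.pot d.δ u α z - q z) y) :
    k.θ α (G.ψ α y) * wt o u τ 2 (G.ψ α y) = 0 ∨
      (∃ η, η ≠ 0 ∧ lev q y η ≤ d.b (G.ψ α y) * lev (G.φ α) y η) ∨
      (k.θ α (G.ψ α y) * wt o u τ 2 (G.ψ α y) ≤ k.θ α (G.ψ α y) * wt o d.h 0 2 (G.ψ α y) ∧
        ∀ η, lev q y η ≤ hq (D2 (G.pot lam d.h α) y) η) := by
  have hq2 : ContDiffAt ℝ 2 q y := hq3.contDiffAt.of_le (by norm_num)
  by_cases h1 : -τ ≤ u (G.ψ α y)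
  · left; rw [wt_eq_zero o two_ne_zero h1, mul_zero]
  right
  have h1' : u (G.ψ α y) < -τ := not_le.1 h1
  rcases (hu.le (G.ψ α y)).lt_or_eq with h2 | h2
  · left
    have hm : IsLocalMin (fun z => u (G.ψ α z) - (q z - d.δ * G.φ α z)) y := by
      have e : (fun z => u (G.ψ α z) - (q z - d.δ * G.φ α z))
          = fun z => G.pot d.δ u α z - q z := by
        funext z; simp only [Geo.pot]; ring
      rw [e]; exact hmin
    obtain ⟨η, hη, h3⟩ := ht d u hu α y hy (fun z => q z - d.δ * G.φ α z)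
      (hq3.contDiffOn.sub (contDiffOn_const.mul (G.φ_pot.1 α))) hm h2
    refine ⟨η, hη, ?_⟩
    rw [lev_sub hq2 (contDiffAt_const.mul (G.φ_at2 hy)), lev_const_mul _ (G.φ_at2 hy)] at h3
    have h4 : max (d.b (G.ψ α y) + d.κ * u (G.ψ α y)) 0 ≤ d.b (G.ψ α y) := by
      refine max_le ?_ (d.b_mem _).1
      nlinarith [d.κ_pos]
    have h5 := mul_le_mul_of_nonneg_right h4 (G.levφ_nonneg (α := α) hy η)
    linarith
  · right
    have h3 : u (G.ψ α y) = d.h (G.ψ α y) := by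
      rcases le_total (d.h (G.ψ α y)) 0 with h | h
      · rw [h2, min_eq_left h]
      · rw [min_eq_right h] at h2; linarith
    refine ⟨mul_le_mul_of_nonneg_left (wt_mono o 2 (by linarith)) (k.θ_nonneg _ _), fun η => ?_⟩
    have hm : IsLocalMin (fun z => G.pot d.δ d.h α z - q z) y := by
      filter_upwards [hmin] with z hz
      have h4 := (hu.le (G.ψ α z)).trans (min_le_left _ _)
      simp only [Geo.pot] at hz ⊢
      linarith
    have hp : ContDiffAt ℝ 2 (G.pot d.δ d.h α) y :=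
      ((d.h_sm.pot_smooth d.δ α).contDiffAt (isOpen_ball.mem_nhds hy)).of_le (by norm_num)
    have h5 := lev_nonneg_of_isLocalMin (hp.sub hq2) hm η
    rw [lev_sub hp hq2, d.h_sm.lev_pot d.δ hy] at h5
    rw [hq_D2, d.h_sm.lev_pot lam hy]
    have h6 := mul_le_mul_of_nonneg_right hδ (G.levφ_nonneg (α := α) hy η)
    linarith

theorem chart (hl : Locma n) {k : Kit G} (ht : Touch k) {d : Data k} {u o : Y → ℝ} {lam τ : ℝ}
    (hu : d.IsEnv u) (ho : G.Sm o) (hδ : d.δ ≤ lam) (hh : G.Lge d.h (fun _ => -lam) univ)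
    (hτ : 0 < τ) {e : ℝ} (he : 0 < e) (α : A) :
    ∃ ε' : ℝ, 0 < ε' ∧ ∀ v, d.Mem v → (∀ y, u y - ε' ≤ v y) →
      ∫ ξ in closedBall (0 : M n) 2,
          k.θ α (G.ψ α ξ) * (wt o u τ 2 (G.ψ α ξ) * G.mass d.δ v n α ξ) ≤
        n * (∫ ξ in closedBall (0 : M n) 2, k.θ α (G.ψ α ξ) *
          (wt o u τ 2 (G.ψ α ξ) * d.b (G.ψ α ξ) * G.mass d.δ v (n - 1) α ξ)) +
        (∫ ξ in closedBall (0 : M n) 2,
          k.θ α (G.ψ α ξ) * (wt o d.h 0 2 (G.ψ α ξ) * G.mass lam d.h n α ξ)) + e := by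
  obtain ⟨C, hC0, hC⟩ := env_bdd hu
  have hθ : ContinuousOn (fun ξ => k.θ α (G.ψ α ξ)) (ball 0 3) := (k.θ_sm α α).continuousOn
  have hclose : ∀ (t : ℝ) (v : Y → ℝ), d.Mem v → (∀ y, u y - t ≤ v y) →
      Ps (ball 0 3) (G.pot d.δ v α) ∧
        ∀ x ∈ ball (0 : M n) 3, |G.pot d.δ v α x - G.pot d.δ u α x| ≤ t := by
    intro t v hv hle
    refine ⟨hv.lge.ps hv.1 α, fun x _ => ?_⟩
    have h1 := hu.ge v hv (G.ψ α x)
    have h2 := hle (G.ψ α x)
    simp only [Geo.pot]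
    rw [abs_le]; constructor <;> linarith
  obtain ⟨ε', hε', H⟩ := hl (G.pot d.δ u α) (G.φ α)
    (fun ξ => k.θ α (G.ψ α ξ) * wt o u τ 2 (G.ψ α ξ))
    (fun ξ => k.θ α (G.ψ α ξ) * wt o d.h 0 2 (G.ψ α ξ)) (fun ξ => d.b (G.ψ α ξ))
    (D2 (G.pot lam d.h α)) (G.B + C) (Geo.φ_ps α)
    (fun x hx => by
      have h1 := (G.φ_bd α).2 x hx
      have h2 := hC (G.ψ α x)
      have h3 : |d.δ * G.φ α x| ≤ |G.φ α x| := by
        rw [abs_mul, abs_of_pos d.δ_pos]
        exact mul_le_of_le_one_left (abs_nonneg _) d.δ_le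
      have h4 := abs_add_le (d.δ * G.φ α x) (u (G.ψ α x))
      simp only [Geo.pot]
      constructor <;> linarith)
    (hθ.mul (chart_cont G.toAtl (wt_cont ho.continuous hu.cont τ 2) α))
    (hθ.mul (chart_cont G.toAtl (wt_cont ho.continuous d.h_sm.continuous 0 2) α))
    (lp_cont d.L_nonneg d.b_lip α) (continuousOn_D2 isOpen_ball (d.h_sm.pot_smooth lam α))
    (fun x hx => ⟨mul_nonneg (k.θ_nonneg _ _) (wt_nonneg _ _ _ _ _),
      mul_nonneg (k.θ_nonneg _ _) (wt_nonneg _ _ _ _ _), (d.b_mem _).1,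
      (hh.ps d.h_sm α).2 x hx⟩)
    (fun x hx h2 => by
      have h0 : k.θ α (G.ψ α x) = 0 := by
        by_contra h
        have := mem_closedBall_zero_iff.1 (k.θ_mem hx h)
        linarith
      simp only [h0, zero_mul])
    (fun t ht0 => by
      obtain ⟨v, hv, hle⟩ := hu.approx t ht0
      exact ⟨_, hclose t v hv hle⟩)
    (fun y hy q hq3 hmin => touching ht o hu hδ hτ α hy hq3 hmin) e he
  refine ⟨ε', hε', fun v hv hle => ?_⟩
  obtain ⟨h1, h2⟩ := hclose ε' v hv hle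
  have h3 := H _ h1 h2
  simp only [Geo.mass, fam_top, ← mul_assoc] at h3 ⊢
  exact h3

end Mea

theorem meas (h : Alg n) (hl : Locma n) (k : Kit G) (ht : Touch k) : Meas k := by
  intro d u o lam τ R ε hu ho hδ hh hτ hε
  have _h := h
  have hc : (0 : ℝ) < (k.T R).card + 1 := by positivity
  choose ε' hε' H using Mea.chart hl ht hu ho hδ hh hτ (div_pos hε hc)
  have h1 : ∀ᶠ t in 𝓝[>] (0 : ℝ), ∀ α ∈ k.T R, t ≤ ε' α :=
    (eventually_all_finset _).2 fun α _ => by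
      filter_upwards [Ioc_mem_nhdsGT (hε' α)] with t ht using ht.2
  obtain ⟨t, h2, h3⟩ := (h1.and self_mem_nhdsWithin).exists
  refine ⟨t, h3, fun v hv hle => ?_⟩
  have h4 := Finset.sum_le_sum fun α hα => H α v hv fun y => by linarith [hle y, h2 α hα]
  rw [Finset.sum_add_distrib, Finset.sum_add_distrib, ← Finset.mul_sum, Finset.sum_const,
    nsmul_eq_mul] at h4
  have h5 : ((k.T R).card : ℝ) * (ε / ((k.T R).card + 1)) ≤ ε := by
    rw [← mul_div_assoc, div_le_iff₀ hc]; nlinarith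
  simp only [Kit.IW, Kit.IY]
  linarith

end Pool.Agent.MP_8ac6f3_ag.KH

end MrgPart10

-- ======== part 11: formerly Pool.Agent.MP_8ac6f3_ag.kh.Roof1
section MrgPart11

/-! Row RF1: the rooftop envelope is small in the mean. -/

open Set Metric Complex MeasureTheory Filter Function
open scoped ContDiff Topology

set_option maxSynthPendingDepth 3

namespace Pool.Agent.MP_8ac6f3_ag.KH

variable {n : ℕ} {Y A : Type} [TopologicalSpace Y] [T2Space Y] {G : Geo n Y A}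

omit [T2Space Y] in
theorem roof1 (h : Alg n) (k : Kit G) (he : Env k) (hc : Chain k) (hm : Meas k) : Roof1 k := by
  obtain ⟨ε₀, K, h0, h1, hK, hch⟩ := hc
  have hn0 : (0 : ℝ) ≤ n := Nat.cast_nonneg n
  have hK1 : 1 ≤ K * (n + 1) := by nlinarith
  refine ⟨ε₀, (K * (n + 1)) ^ n, h0, h1, one_le_pow₀ hK1, ?_⟩
  intro δ lam R J f o hδ hδ1 hlam hf ho hgo hlf hsupp hJ
  let d : Data k :=
    { δ := δ, κ := 1, L := 0, R := R, b := fun _ => 0, h := f, δ_pos := hδ, δ_le := hδ1,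
      κ_pos := one_pos, L_nonneg := le_rfl, b_mem := fun _ => ⟨le_rfl, zero_le_one⟩,
      b_lip := fun _ _ _ _ _ => by simp, b_supp := fun _ _ => rfl, h_sm := hf, h_supp := hsupp }
  obtain ⟨u, hu⟩ := he d
  obtain ⟨R₀, hR₀⟩ := hu.supp
  obtain ⟨ε', hε', hme⟩ := hm d u o lam (δ / 2) (max R R₀) (J - k.IW R (wt o f 0 2) lam f n)
    hu ho hlam hlf (by linarith) (by linarith)
  obtain ⟨w, hw, hwu⟩ := hu.approx (min ε' (δ / 2)) (lt_min hε' (by linarith))
  have hl : G.Lge w (fun _ => -δ) univ := hw.lge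
  have hfar : ∀ y, max R R₀ < k.ρ y → -δ ≤ w y := fun y hy => by
    have e := hR₀ y ((le_max_right _ _).trans_lt hy)
    have := hwu y
    have := min_le_right ε' (δ / 2)
    linarith
  refine ⟨w, max R R₀, hw.1, hw.2.1, hl, hfar, ?_⟩
  have a1 : k.IW (max R R₀) (wt o u (δ / 2) 2) δ w n ≤ J := by
    have b1 := hme w hw fun y => by linarith [hwu y, min_le_left ε' (δ / 2)]
    have b2 : k.IW (max R R₀) (fun y => wt o u (δ / 2) 2 y * d.b y) d.δ w (n - 1) = 0 :=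
      k.IW_zero fun y => mul_zero _
    have b3 : k.IW R (wt o f 0 2) lam f n = k.IW (max R R₀) (wt o d.h 0 2) lam d.h n :=
      k.IW_eq (le_max_left _ _) fun y hy =>
        wt_eq_zero o two_ne_zero (by rw [neg_zero]; exact hsupp y hy)
    rw [b2, ← b3] at b1
    have b4 : k.IW (max R R₀) (wt o u (δ / 2) 2) d.δ w n
      = k.IW (max R R₀) (wt o u (δ / 2) 2) δ w n := rfl
    linarith
  have a2 : k.IW (max R R₀) (wt o w δ 2) δ w n ≤ J :=
    (k.IW_mono h hw.1 hl (wt_cont ho.continuous hw.1.continuous _ _)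
      (wt_cont ho.continuous hu.cont _ _) fun y =>
        wt_mono o 2 (by linarith [hwu y, min_le_right ε' (δ / 2)])).trans a1
  have a3 : ∀ i, i ≤ n → k.IW (max R R₀) (wt o w δ (i + 2)) δ w (n - i) ≤ (K * (n + 1)) ^ i * J := by
    intro i
    induction i with
    | zero => intro _; simpa using a2
    | succ i ih =>
      intro hi
      have b1 := hch w o δ δ (max R R₀) (n - (i + 1)) (i + 2) hw.1 ho hgo hδ.le hl hfar
        (by omega) (by omega)
      have e : n - (i + 1) + 1 = n - i := by omega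
      rw [e] at b1
      have b2 : 0 ≤ k.IW (max R R₀) (wt o w δ (i + 2)) δ w (n - i) :=
        k.IW_nonneg h hw.1 hl (wt_nonneg _ _ _ _)
      have b3 : ((i + 2 : ℕ) : ℝ) ≤ n + 1 := by exact_mod_cast (by omega : i + 2 ≤ n + 1)
      have b4 : K * ((i + 2 : ℕ) : ℝ) ≤ K * (n + 1) := mul_le_mul_of_nonneg_left b3 (by linarith)
      refine b1.trans ((mul_le_mul_of_nonneg_right b4 b2).trans ?_)
      rw [pow_succ', mul_assoc (K * (n + 1))]
      exact mul_le_mul_of_nonneg_left (ih (by omega)) (by linarith)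
  simpa using a3 n le_rfl

end Pool.Agent.MP_8ac6f3_ag.KH

end MrgPart11

-- ======== part 12: formerly Pool.Agent.MP_8ac6f3_ag.kh.Stb
section MrgPart12

/-! Row STB: an almost plurisubharmonic function with a gap. -/

open Set Metric Complex MeasureTheory Filter Function
open scoped ContDiff Topology

set_option maxSynthPendingDepth 3

namespace Pool.Agent.MP_8ac6f3_ag.KH

variable {n : ℕ} {Y A : Type} [TopologicalSpace Y] {G : Geo n Y A}

namespace StbP

/-- The obstacle. -/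
noncomputable def ob (k : Kit G) (r : ℝ) : Y → ℝ :=
  fun y => Real.smoothTransition (k.ρ y + -(r + k.K)) + -1

theorem st3 : ContDiff ℝ 3 Real.smoothTransition := Real.smoothTransition.contDiff

theorem ob_sm (k : Kit G) (r : ℝ) : G.Sm (ob k r) :=
  ((k.ρ_sm.add_const _).comp st3).add_const _

theorem ob_mem (k : Kit G) (r : ℝ) (y : Y) : -1 ≤ ob k r y ∧ ob k r y ≤ 0 := by
  have h1 := Real.smoothTransition.nonneg (k.ρ y + -(r + k.K))
  have h2 := Real.smoothTransition.le_one (k.ρ y + -(r + k.K))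
  unfold ob
  constructor <;> linarith

theorem ob_low (k : Kit G) {r : ℝ} {y : Y} (h : k.ρ y ≤ r + k.K) : ob k r y = -1 := by
  rw [ob, Real.smoothTransition.zero_of_nonpos (by linarith), zero_add]

theorem ob_high (k : Kit G) {r : ℝ} {y : Y} (h : r + k.K + 1 < k.ρ y) : ob k r y = 0 := by
  rw [ob, Real.smoothTransition.one_of_one_le (by linarith), add_neg_cancel]

theorem ob_lle (k : Kit G) : ∃ C : ℝ, 0 ≤ C ∧ ∀ r, G.Lle (ob k r) C := by
  obtain ⟨D, hD, hb⟩ := exists_iteratedDeriv_bound st3 (u := 0) (v := 1)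
    (fun t ht => by rw [Real.smoothTransition.zero_of_nonpos ht, Real.smoothTransition.zero])
    (fun t ht => by rw [Real.smoothTransition.one_of_one_le ht, Real.smoothTransition.one])
  have hK := k.K_pos
  refine ⟨D * k.K + D * k.K ^ 2, by positivity, fun r α ξ hξ η => ?_⟩
  have hρ := k.ρ_sm.at2 (α := α) hξ
  have e1 : lev (ob k r ∘ G.ψ α) ξ η =
      lev (fun z => Real.smoothTransition ((k.ρ ∘ G.ψ α) z + -(r + k.K))) ξ η :=
    lev_add_const (f := fun z => Real.smoothTransition ((k.ρ ∘ G.ψ α) z + -(r + k.K))) (-1) η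
  rw [e1, lev_comp (f := fun z => (k.ρ ∘ G.ψ α) z + -(r + k.K))
    (st3.of_le (by norm_num)).contDiffAt (hρ.add contDiffAt_const), lev_add_const,
    fderiv_add_const]
  have h1 := hb 1 le_rfl (by norm_num) ((k.ρ ∘ G.ψ α) ξ + -(r + k.K))
  have h2 := hb 2 (by norm_num) (by norm_num) ((k.ρ ∘ G.ψ α) ξ + -(r + k.K))
  rw [iteratedDeriv_one] at h1
  rw [iteratedDeriv_succ, iteratedDeriv_one] at h2
  have h3 := k.ρ_lev α ξ hξ η
  have h4 := hq_ot_le (fderiv ℝ (k.ρ ∘ G.ψ α) ξ) η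
  have h5 := hq_ot_nonneg (fderiv ℝ (k.ρ ∘ G.ψ α) ξ) η
  have h6 : ‖fderiv ℝ (k.ρ ∘ G.ψ α) ξ‖ ^ 2 * ‖η‖ ^ 2 ≤ k.K ^ 2 * ‖η‖ ^ 2 :=
    mul_le_mul_of_nonneg_right (pow_le_pow_left₀ (norm_nonneg _) (k.ρ_grad α ξ hξ) 2) (sq_nonneg _)
  rw [hq_ot, ← sq, ← sq] at h4 h5
  refine (abs_add_le _ _).trans ?_
  rw [mul_div_assoc, abs_mul, abs_mul, abs_of_nonneg h5, add_mul, mul_assoc, mul_assoc]
  exact add_le_add (mul_le_mul h1 h3 (abs_nonneg _) hD) (mul_le_mul h2 (h4.trans h6) h5 hD)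

theorem gle (k : Kit G) {ε : ℝ} (hε : 0 ≤ ε) : G.Gle (fun y => ε / k.K * k.ρ y) ε := by
  intro α ξ hξ
  have hK := k.K_pos
  have h1 := ((k.ρ_sm.at (α := α) hξ).differentiableAt (by norm_num)).hasFDerivAt.const_mul
    (ε / k.K)
  have e : (fun y => ε / k.K * k.ρ y) ∘ G.ψ α = fun z => ε / k.K * (k.ρ ∘ G.ψ α) z := rfl
  rw [e, h1.fderiv, norm_smul, Real.norm_of_nonneg (by positivity)]
  refine (mul_le_mul_of_nonneg_left (k.ρ_grad α ξ hξ) (by positivity)).trans_eq ?_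
  exact div_mul_cancel₀ _ hK.ne'

/-- The mass of the obstacle grows at most exponentially. -/
theorem mass_le (h : Alg n) (k : Kit G) : ∃ lam Q : ℝ, 1 ≤ lam ∧ 0 < Q ∧ ∀ r, 0 ≤ r →
    G.Lge (ob k r) (fun _ => -lam) univ ∧ ∀ o : Y → ℝ, Continuous o → (∀ y, o y ≤ k.ρ y) →
      k.IW (r + k.K + 1) (wt o (ob k r) 0 2) lam (ob k r) n <
        Q * Real.exp ((k.K + 1) * (k.K + 2) + (k.K + 1) * r) := by
  obtain ⟨C, hC, hl⟩ := ob_lle k
  have hK := k.K_pos
  have hE := h.eu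
  set lam := max 1 (C / G.c) with hlam
  have h1 : 1 ≤ lam := le_max_left _ _
  set P := (lam * |G.B| + C) ^ n * md (fun _ : Fin n => (Eu : Bil n)) with hP
  have hP0 : 0 ≤ P := by positivity
  set V := volume.real (closedBall (0 : M n) 2) with hV
  have hV0 : 0 ≤ V := measureReal_nonneg
  refine ⟨lam, P * V + 1, h1, by positivity, fun r hr => ?_⟩
  have hg : G.Lge (ob k r) (fun _ => -lam) univ :=
    ((hl r).lge hC).mono fun _ _ => neg_le_neg (le_max_right _ _)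
  refine ⟨hg, fun o ho hρ => ?_⟩
  have hs := ob_sm k r
  have hw : ∀ y, wt o (ob k r) 0 2 y ≤ Real.exp (r + k.K + 1) := fun y => by
    by_cases hy : r + k.K + 1 < k.ρ y
    · rw [wt_eq_zero o two_ne_zero (by rw [ob_high k hy, neg_zero])]
      exact (Real.exp_pos _).le
    · have h2 : max (-ob k r y - 0) 0 ^ 2 ≤ 1 :=
        pow_le_one₀ (le_max_right _ _) (max_le (by linarith [(ob_mem k r y).1]) zero_le_one)
      exact (mul_le_of_le_one_right (Real.exp_pos _).le h2).trans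
        (Real.exp_le_exp.2 ((hρ y).trans (not_lt.1 hy)))
  have hm : ∀ α, ∀ ξ ∈ ball (0 : M n) 3, G.mass lam (ob k r) n α ξ ≤ P := fun α ξ hξ => by
    rw [Geo.mass, fam_top]
    refine h.le_pow (fun _ η => (hg.ps hs α).2 ξ hξ η) fun _ η => ?_
    rw [hq_D2, hs.lev_pot lam hξ, add_mul, mul_assoc]
    refine add_le_add (mul_le_mul_of_nonneg_left ((G.levφ_le hξ η).trans ?_) (by linarith))
      ((le_abs_self _).trans (hl r α ξ hξ η))
    exact mul_le_mul_of_nonneg_right (le_abs_self _) (sq_nonneg _)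
  have hc : ∀ α, ContinuousOn (fun ξ => wt o (ob k r) 0 2 (G.ψ α ξ) * G.mass lam (ob k r) n α ξ)
      (ball 0 3) := fun α =>
    (chart_cont G.toAtl (wt_cont ho hs.continuous 0 2) α).mul (hs.mass_cont lam n α)
  have h0 : ∀ α, ∀ ξ ∈ ball (0 : M n) 3,
      0 ≤ wt o (ob k r) 0 2 (G.ψ α ξ) * G.mass lam (ob k r) n α ξ := fun α ξ hξ =>
    mul_nonneg (wt_nonneg _ _ _ _ _) (hg.mass_nonneg h hs n hξ)
  have key := k.IY_le_card (R := r + k.K + 1) (by positivity)
    (C := Real.exp (r + k.K + 1) * P * V) (by positivity) hc h0 fun α =>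
      (le_abs_self _).trans (norm_setIntegral_le_of_norm_le_const
        (isCompact_closedBall (0 : M n) 2).measure_lt_top fun ξ hξ => by
          rw [Real.norm_of_nonneg (h0 α ξ (cb2 hξ))]
          exact mul_le_mul (hw _) (hm α ξ (cb2 hξ)) (hg.mass_nonneg h hs n (cb2 hξ))
            (Real.exp_pos _).le)
  refine key.trans_lt ?_
  have h3 : Real.exp (k.K * (r + k.K + 1 + 1)) * Real.exp (r + k.K + 1) ≤
      Real.exp ((k.K + 1) * (k.K + 2) + (k.K + 1) * r) := by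
    rw [← Real.exp_add]
    exact Real.exp_le_exp.2 (by nlinarith)
  have h4 := mul_le_mul_of_nonneg_right h3 (mul_nonneg hP0 hV0)
  have h5 := Real.exp_pos ((k.K + 1) * (k.K + 2) + (k.K + 1) * r)
  nlinarith

theorem far {P a b r e x : ℝ} (m : ℕ) (hP : 0 ≤ P) (ha : 0 ≤ a) (hb : 0 ≤ b) (hr : 0 ≤ r)
    (he : 0 < e) (he1 : e ≤ 1) (hx : (P + a + b + m) * (r + 1 + Real.log (1 / e)) ≤ x) :
    P * Real.exp (a + b * r) ≤ Real.exp x * e ^ m := by
  have hl : 0 ≤ Real.log (1 / e) := Real.log_nonneg (by rw [le_div_iff₀ he]; linarith)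
  have e1 : e ^ m = Real.exp (m * -Real.log (1 / e)) := by
    rw [Real.exp_nat_mul, one_div, Real.log_inv, neg_neg, Real.exp_log he]
  have hm : (0 : ℝ) ≤ m := m.cast_nonneg
  have h1 : P ≤ Real.exp P := by linarith [Real.add_one_le_exp P]
  rw [e1, ← Real.exp_add]
  refine (mul_le_mul_of_nonneg_right h1 (Real.exp_pos _).le).trans ?_
  rw [← Real.exp_add]
  refine Real.exp_le_exp.2 ?_
  generalize Real.log (1 / e) = l at *
  nlinarith [mul_nonneg hP hr, mul_nonneg hP hl, mul_nonneg ha hr, mul_nonneg ha hl,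
    mul_nonneg hb hl, mul_nonneg hm hr]

theorem sg_le {x : ℝ} (hx : 0 < x) : Real.log (1 / Real.exp (-x⁻¹)) = x⁻¹ ∧
    Real.exp (-x⁻¹) ≤ x ∧ sg 1 (Real.exp (-x⁻¹)) ≤ 3 * x := by
  have h1 : Real.log (1 / Real.exp (-x⁻¹)) = x⁻¹ := by
    rw [one_div, Real.log_inv, Real.log_exp, neg_neg]
  have h2 : Real.exp (-x⁻¹) ≤ x := by
    rw [Real.exp_neg, inv_le_comm₀ (Real.exp_pos _) hx]
    linarith [Real.add_one_le_exp x⁻¹]
  refine ⟨h1, h2, ?_⟩
  rw [sg, h1, div_inv_eq_mul]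
  linarith

end StbP

open StbP in
theorem stb (h : Alg n) (k : Kit G) (hr : Roof1 k) (hp : Point k) (hb : Bk G) : Stb k := by
  obtain ⟨ε₀, Kr, hε, hε1, hKr, hr⟩ := hr
  obtain ⟨Kp, hKp, hp⟩ := hp
  obtain ⟨Kb, t₀, hKb, ht₀, ht1, hb⟩ := hb
  obtain ⟨lam, Q, hlam, hQ, hm⟩ := mass_le h k
  have hK := k.one_le
  have hK0 := k.K_pos
  set C := 768 * Kb * Kp / t₀ with hC
  have hC0 : 0 < C := by positivity
  set P := Kp * Kr * Q * C ^ (n + 2) with hP
  have hP0 : 0 ≤ P := by positivity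
  set S := P + (k.K + 1) * (k.K + 2) + (k.K + 1) + ((n + 2 : ℕ) : ℝ) with hS
  have hq : 1 ≤ k.K / ε₀ := by rw [le_div_iff₀ hε]; linarith
  have hS1 : 1 ≤ S := by
    have : (0 : ℝ) ≤ ((n + 2 : ℕ) : ℝ) := Nat.cast_nonneg _
    nlinarith
  refine ⟨k.K / ε₀ * S, by nlinarith, fun r e hr0 he he1 => ?_⟩
  obtain ⟨η, hη⟩ : ∃ η : ℝ, η = e / C := ⟨_, rfl⟩
  have hη0 : 0 < η := by rw [hη]; positivity
  have e1 : 768 * (Kb * (Kp * η)) = e * t₀ := by rw [hη, hC]; field_simp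
  have h1 : η ≤ Kp * η := le_mul_of_one_le_left hη0.le hKp
  have h2 : Kp * η ≤ Kb * (Kp * η) := le_mul_of_one_le_left (by positivity) hKb
  have h3 : e * t₀ ≤ t₀ := mul_le_of_le_one_left ht₀.le he1
  have h4 : e * t₀ ≤ e * (1 / 2) := mul_le_mul_of_nonneg_left ht1 he.le
  obtain ⟨l1, l2, l3⟩ := sg_le (x := 32 * (Kp * η)) (by positivity)
  set t := Real.exp (-(32 * (Kp * η))⁻¹) with ht
  have ht0 : 0 < t := Real.exp_pos _
  have h5 : Kb * sg 1 t ≤ e / 16 := by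
    have := mul_le_mul_of_nonneg_left l3 (zero_le_one.trans hKb)
    linarith
  have ho : G.Sm fun y => ε₀ / k.K * k.ρ y := k.ρ_sm.const_mul _
  have hog := gle k hε.le
  obtain ⟨hg, hI⟩ := hm r hr0
  obtain ⟨w, R', hw, hw0, hwl, hwR, hwI⟩ := hr η lam (r + k.K + 1) _ (ob k r) _ hη0 (by linarith)
    (by linarith) (ob_sm k r) ho hog hg (fun y hy => (ob_high k hy).ge)
    (hI _ ho.continuous fun y => mul_le_of_le_one_left (k.ρ_nonneg y)
      ((div_le_one hK0).2 (hε1.trans hK)))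
  have hw1 : ∀ y, w y ≤ 0 := fun y => (hw0 y).trans (min_le_right _ _)
  have hF : Fml G {w, fun _ => -1} (fun _ => 0) η 0 0 := by
    refine ⟨hη0.le, by linarith, le_rfl, le_rfl, fun _ => ⟨le_rfl, zero_le_one⟩,
      fun _ _ _ _ _ => by simp, ?_⟩
    rintro v (rfl | rfl)
    · exact ⟨hw, hw1, hwl.mono fun y _ => by simp⟩
    · exact ⟨G.sm_const _, fun _ => by norm_num, Geo.lge_const _ fun y _ => by simpa using hη0.le⟩
  obtain ⟨f, hf, hu, hd, hl⟩ := hb _ _ η 0 0 1 t hF zero_le_one ht0 (by linarith)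
    fun y => ⟨fun _ => -1, Or.inr rfl, y, G.nr_refl ht0.le y, le_rfl⟩
  refine ⟨f, hf, hl.mono fun y _ => ?_, fun y hy => ?_, fun y hy => ?_⟩
  · simp only [zero_mul, add_zero, max_self, mul_one]
    linarith
  · have : f y ≤ -1 + Kb * sg 1 t := by
      refine hu y (-1) ?_
      rintro v (rfl | rfl) y' hn
      · have h6 := (abs_le.1 (k.ρ_lp.nr hK0.le (by linarith) hn)).2
        have h7 : k.K * t ≤ k.K := mul_le_of_le_one_right hK0.le (by linarith)
        exact ((hw0 y').trans (min_le_left _ _)).trans_eq (ob_low k (by linarith))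
      · exact le_rfl
    linarith
  · have h6 : S * (r + 1 + Real.log (1 / e)) ≤ ε₀ / k.K * k.ρ y := by
      have := mul_le_mul_of_nonneg_left hy (div_pos hε hK0).le
      refine le_trans (le_of_eq ?_) this
      field_simp
    have h7 := far (n + 2) hP0 (by positivity) (by positivity) hr0 he he1 h6
    obtain ⟨y', hn, h8⟩ := hp w _ η R' _ hη0 (by linarith) hw ho
      (fun α ξ hξ => (hog α ξ hξ).trans hε1) hw1 hwl hwR hwI y η t hη0 (by
        rw [hη, div_pow, ← mul_div_assoc, le_div_iff₀ (by positivity)]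
        refine le_trans (le_of_eq ?_) h7
        rw [hP]; ring) ht0 (by linarith)
    have h9 := hd y w (Or.inl rfl) y' hn
    have e2 : Kp * (η + η) * (1 + Real.log (1 / t)) = 2 * (Kp * η) + 1 / 16 := by
      rw [l1]; field_simp; ring
    rw [e2] at h8
    linarith

end Pool.Agent.MP_8ac6f3_ag.KH

end MrgPart12

-- ======== part 13: formerly Pool.Agent.MP_8ac6f3_ag.kh.Gap
section MrgPart13

/-! Row GAP: strictly plurisubharmonic functions on large balls with a gap. -/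

open Set Metric Complex MeasureTheory Filter Function
open scoped ContDiff Topology

set_option maxSynthPendingDepth 3

namespace Pool.Agent.MP_8ac6f3_ag.KH

variable {n : ℕ} {Y A : Type} [TopologicalSpace Y] [T2Space Y] {G : Geo n Y A}

namespace GapR

theorem log_le {a s x : ℝ} (ha : 1 ≤ a) (hs : 1 ≤ s) (hx : 1 ≤ x) :
    Real.log (64 * a * (s * s * (x + 1) + 1)) ≤ 192 * a + s + s + x := by
  have s2 : 1 ≤ s * s := by nlinarith
  have h1 : s * s * (x + 1) + 1 ≤ 3 * (s * s * x) := by nlinarith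
  have h2 : 64 * a * (s * s * (x + 1) + 1) ≤ 192 * a * s * s * x := by nlinarith
  have e : ∀ t : ℝ, t ≤ Real.exp t := fun t => by linarith [Real.add_one_le_exp t]
  rw [Real.log_le_iff_le_exp (by positivity), Real.exp_add, Real.exp_add, Real.exp_add]
  refine h2.trans ?_
  gcongr <;> exact e _

theorem num {a b x : ℝ} (ha : 1 ≤ a) (hb : 1 ≤ b) (hx : 1 ≤ x) :
    b * (x + 1 + Real.log (64 * a * (200 * a * b * (200 * a * b) * (x + 1) + 1))) <
      200 * a * b * (200 * a * b) * x := by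
  have ab : 1 ≤ a * b := by nlinarith
  have hs : 1 ≤ 200 * a * b := by nlinarith
  have h1 := log_le ha hs hx
  set s := 200 * a * b with hsd
  have h2 : 195 * a ≤ s := by nlinarith
  have h3 : x + 1 + Real.log (64 * a * (s * s * (x + 1) + 1)) ≤ 3 * s * x := by nlinarith
  have h4 : 3 * b < s := by nlinarith
  have h5 : 0 < s * x := by positivity
  calc _ ≤ b * (3 * s * x) := mul_le_mul_of_nonneg_left h3 (by linarith)
    _ = 3 * b * (s * x) := by ring
    _ < s * (s * x) := mul_lt_mul_of_pos_right h4 h5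
    _ = _ := by ring

end GapR

omit [T2Space Y] in
theorem gap (k : Kit G) (ha : Sta k) (hb : Stb k) : Gap k := by
  obtain ⟨a, a1, ha⟩ := ha
  obtain ⟨b, b1, hb⟩ := hb
  have ab : 1 ≤ a * b := by nlinarith
  obtain ⟨C, hC⟩ : ∃ C, C = 200 * a * b * (200 * a * b) := ⟨_, rfl⟩
  have C1 : 1 ≤ C := by rw [hC]; nlinarith
  have p0 : ∀ j : ℕ, 0 ≤ C * ((j : ℝ) + 1) := fun j => by positivity
  have p1 : ∀ j : ℕ, 1 ≤ 64 * a * (C * ((j : ℝ) + 1) + 1) := fun j => by nlinarith [p0 j]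
  choose fA hA using fun j : ℕ => ha (C * (j + 1)) (p0 j)
  choose fB hB using fun j : ℕ => hb j (1 / (64 * a * (C * ((j : ℝ) + 1) + 1))) j.cast_nonneg
    (by have := p1 j; positivity) (by rw [div_le_one (by linarith [p1 j])]; exact p1 j)
  refine ⟨fun j => b * (j + 1 + Real.log (64 * a * (C * ((j : ℝ) + 1) + 1))),
    fun j => C * (j + 1),
    fun j y => fB j y + 8 * (1 / (64 * a * (C * ((j : ℝ) + 1) + 1))) * fA j y + 5 / 8,
    fun i j hij => ?_, fun j => ?_⟩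
  · have : (i : ℝ) ≤ j := by exact_mod_cast hij
    exact mul_le_mul_of_nonneg_left (by linarith) (by linarith)
  obtain ⟨sA, bA, lA⟩ := hA j
  obtain ⟨sB, lB, uB, vB⟩ := hB j
  rw [one_div_one_div] at vB
  have q := p1 j
  have j0 : (0 : ℝ) ≤ j := j.cast_nonneg
  set e := 1 / (64 * a * (C * ((j : ℝ) + 1) + 1)) with he
  have e0 : 0 < e := by positivity
  have bd : ∀ y, |8 * e * fA j y| ≤ 1 / 8 := fun y => by
    rw [abs_mul, abs_of_pos (by positivity)]
    refine (mul_le_mul_of_nonneg_left (bA y) (by positivity)).trans_eq ?_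
    have : C * ((j : ℝ) + 1) + 1 ≠ 0 := by linarith [p0 j]
    rw [he]; field_simp; norm_num
  refine ⟨by nlinarith, ?_, (sB.add (sA.const_mul _)).add_const _, fun α ξ hξ hs η hη => ?_,
    fun y hy => ?_, fun y hy => ?_⟩
  · have := GapR.num (x := (j : ℝ) + 1) a1 b1 (by linarith)
    rw [← hC] at this
    simpa using this
  · have lB' : G.Lge (fB j) (fun _ => -e) {y | k.ρ y ≤ C * (j + 1)} :=
      fun α ξ hξ _ η => lB α ξ hξ trivial η
    have h1 := ((lB'.add (lA.const_mul sA (t := 8 * e) (by positivity)) sB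
      (sA.const_mul _)).add_const (5 / 8)) α ξ hξ hs η
    have h2 := G.φ_pos α ξ hξ η
    have h3 : 0 < G.c * ‖η‖ ^ 2 := mul_pos G.c_pos (by positivity)
    refine lt_of_lt_of_le ?_ h1
    exact mul_pos (by linarith) (by linarith)
  · linarith [uB y hy, (abs_le.1 (bd y)).2]
  · linarith [vB y hy, (abs_le.1 (bd y)).1]

end Pool.Agent.MP_8ac6f3_ag.KH

end MrgPart13

-- ======== part 14: formerly Pool.Agent.MP_8ac6f3_ag.kh.Exh
section MrgPart14

/-! Gluing of the functions with gaps to an exhaustion. -/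

open Set Metric Complex MeasureTheory Filter Function
open scoped ContDiff Topology

set_option maxSynthPendingDepth 3

namespace Pool.Agent.MP_8ac6f3_ag.KH

variable {n : ℕ} {Y A : Type} [TopologicalSpace Y] [T2Space Y] {G : Geo n Y A}

namespace Exh

/-- One gluing step. -/
theorem step (hr : Rmax n) (k : Kit G) {a b r r' : ℝ} {Ψ f : Y → ℝ} (ha : 0 ≤ a) (hlt : b < r)
    (h1 : G.Sm Ψ) (h2 : G.Spsh Ψ {y | k.ρ y ≤ r}) (h3 : G.Sm f) (h4 : G.Spsh f {y | k.ρ y ≤ r'})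
    (h5 : ∀ y, k.ρ y ≤ a → f y ≤ -(1 / 8)) (h6 : ∀ y, b ≤ k.ρ y → 1 / 8 ≤ f y) :
    ∃ Ψ', (G.Sm Ψ' ∧ G.Spsh Ψ' {y | k.ρ y ≤ r'}) ∧ (∀ y, k.ρ y ≤ a → Ψ' y = Ψ y) ∧
      (∀ y, k.ρ y < r → Ψ y ≤ Ψ' y) ∧ ∀ y, r ≤ k.ρ y → a ≤ Ψ' y := by
  classical
  obtain ⟨m, m1, m2, m3, m4⟩ := hr 1 one_pos
  obtain ⟨C, hC⟩ := (k.isCompact_sub r).exists_bound_of_continuousOn h1.continuous.continuousOn
  have hC' : ∀ y, k.ρ y ≤ r → |Ψ y| ≤ |C| := fun y hy => (hC y hy).trans (le_abs_self C)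
  obtain ⟨L, hL⟩ : ∃ L : ℝ, L = 8 * (|C| + a + 1) := ⟨_, rfl⟩
  have hL0 : 0 < L := by
    have := abs_nonneg C
    linarith
  have up : ∀ y, b ≤ k.ρ y → |C| + a + 1 ≤ L * f y := fun y hy => by
    have := mul_le_mul_of_nonneg_left (h6 y hy) hL0.le
    linarith
  have hg : G.Sm fun y => L * f y := h3.const_mul L
  obtain ⟨Ψ', hΨ'⟩ : ∃ Ψ' : Y → ℝ,
      Ψ' = fun y => if k.ρ y < r then m (Ψ y) (L * f y) else L * f y := ⟨_, rfl⟩
  have e1 : ∀ y, k.ρ y < r → Ψ' y = m (Ψ y) (L * f y) := fun y hy => by simp only [hΨ', hy, if_true]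
  have e2 : ∀ y, b ≤ k.ρ y → Ψ' y = L * f y := fun y hy => by
    by_cases h : k.ρ y < r
    · rw [e1 y h]
      refine m3 _ _ ?_
      have := (abs_le.1 (hC' y h.le)).2
      linarith [up y hy]
    · simp only [hΨ', h, if_false]
  have v1 : ∀ y, k.ρ y < r → Ψ' =ᶠ[𝓝 y] fun y => m (Ψ y) (L * f y) := fun y hy => by
    filter_upwards [(isOpen_lt k.ρ_cont continuous_const).mem_nhds hy] with z hz using e1 z hz
  have v2 : ∀ y, r ≤ k.ρ y → Ψ' =ᶠ[𝓝 y] fun y => L * f y := fun y hy => by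
    filter_upwards [(isOpen_lt continuous_const k.ρ_cont).mem_nhds (hlt.trans_le hy)] with z hz
      using e2 z (le_of_lt hz)
  have hm : G.Sm fun y => m (Ψ y) (L * f y) := fun α ξ hξ =>
    (m4 _ _ ξ (h1.at (α := α) hξ) (hg.at (α := α) hξ)).1.contDiffWithinAt
  refine ⟨Ψ', ⟨Geo.Sm.of_ev fun y => ?_, fun α ξ hξ hs η hη => ?_⟩, fun y hy => ?_,
    fun y hy => ?_, fun y hy => ?_⟩
  · rcases lt_or_ge (k.ρ y) r with h | h
    · exact ⟨_, hm, v1 y h⟩
    · exact ⟨_, hg, v2 y h⟩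
  · have p2 : 0 < lev ((fun y => L * f y) ∘ G.ψ α) ξ η := by
      have e := lev_const_mul L (h3.at2 (α := α) hξ) η
      have p := mul_pos hL0 (h4 α ξ hξ hs η hη)
      exact p.trans_eq e.symm
    rcases lt_or_ge (k.ρ (G.ψ α ξ)) r with h | h
    · rw [lev_congr (congr_ev G.toAtl hξ (v1 _ h))]
      obtain ⟨-, p, p0, p1, -, hp⟩ := m4 _ _ ξ (h1.at (α := α) hξ) (hg.at (α := α) hξ)
      have q1 := h2 α ξ hξ h.le η hη
      refine lt_of_lt_of_le ?_ (hp η)
      rcases p0.eq_or_lt with e | e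
      · rw [← e]
        linarith
      · exact add_pos_of_pos_of_nonneg (mul_pos e q1) (mul_nonneg (sub_nonneg.2 p1) p2.le)
    · rw [lev_congr (congr_ev G.toAtl hξ (v2 _ h))]
      exact p2
  · have h : k.ρ y < r := by
      by_contra h
      have := h6 y (hlt.le.trans (not_lt.1 h))
      linarith [h5 y hy]
    rw [e1 y h]
    refine m2 _ _ ?_
    have := (abs_le.1 (hC' y h.le)).1
    have := mul_le_mul_of_nonneg_left (h5 y hy) hL0.le
    linarith
  · rw [e1 y hy]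
    exact (le_max_left _ _).trans (m1 _ _).1
  · rw [e2 y (hlt.le.trans hy)]
    linarith [up y (hlt.le.trans hy), abs_nonneg C]

end Exh

theorem exh (hr : Rmax n) (k : Kit G) (hg : Gap k) : Exh k := by
  obtain ⟨R, R', f, -, h⟩ := hg
  have st : ∀ (j : ℕ) (Ψ : {Ψ : Y → ℝ // G.Sm Ψ ∧ G.Spsh Ψ {y | k.ρ y ≤ R' j}}),
      ∃ Ψ' : {Ψ : Y → ℝ // G.Sm Ψ ∧ G.Spsh Ψ {y | k.ρ y ≤ R' (j + 1)}},
        (∀ y, k.ρ y ≤ ((j + 1 : ℕ) : ℝ) → Ψ'.1 y = Ψ.1 y) ∧ (∀ y, k.ρ y < R' j → Ψ.1 y ≤ Ψ'.1 y) ∧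
          ∀ y, R' j ≤ k.ρ y → ((j + 1 : ℕ) : ℝ) ≤ Ψ'.1 y := by
    intro j Ψ
    obtain ⟨-, -, a3, a4, a5, a6⟩ := h (j + 1)
    obtain ⟨Ψ', b1, b2⟩ := Exh.step hr k (Nat.cast_nonneg _) (h j).2.1 Ψ.2.1 Ψ.2.2 a3 a4 a5 a6
    exact ⟨⟨Ψ', b1⟩, b2⟩
  choose F hF using st
  obtain ⟨s, hs⟩ : ∃ s : ∀ j : ℕ, {Ψ : Y → ℝ // G.Sm Ψ ∧ G.Spsh Ψ {y | k.ρ y ≤ R' j}},
      ∀ j, s (j + 1) = F j (s j) :=
    ⟨fun j => Nat.rec ⟨f 0, (h 0).2.2.1, (h 0).2.2.2.1⟩ F j, fun _ => rfl⟩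
  have stab : ∀ y (N : ℕ), k.ρ y ≤ N → (s ⌈k.ρ y⌉₊).1 y = (s N).1 y := by
    intro y N hN
    have hle := Nat.ceil_le.2 hN
    clear hN
    induction N, hle using Nat.le_induction with
    | base => rfl
    | succ i hi ih =>
      rw [ih, hs]
      refine ((hF i (s i)).1 y ?_).symm
      exact Nat.ceil_le.1 (hi.trans (Nat.le_succ i))
  have ev : ∀ y, (fun y => (s ⌈k.ρ y⌉₊).1 y) =ᶠ[𝓝 y] (s (⌈k.ρ y⌉₊ + 1)).1 := fun y => by
    have hy : k.ρ y < ((⌈k.ρ y⌉₊ + 1 : ℕ) : ℝ) := by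
      push_cast
      linarith [Nat.le_ceil (k.ρ y)]
    filter_upwards [(isOpen_lt k.ρ_cont continuous_const).mem_nhds hy] with z hz
      using stab z _ (le_of_lt hz)
  have low : ∀ y (j : ℕ), R' j ≤ k.ρ y → ∀ i, j + 1 ≤ i → ((j + 1 : ℕ) : ℝ) ≤ (s i).1 y := by
    intro y j hy i hi
    induction i, hi using Nat.le_induction with
    | base =>
      rw [hs]
      exact (hF j (s j)).2.2 y hy
    | succ i hi ih =>
      rw [hs]
      rcases lt_or_ge (k.ρ y) (R' i) with l | l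
      · exact ih.trans ((hF i (s i)).2.1 y l)
      · exact (Nat.cast_le.2 (hi.trans (Nat.le_succ i))).trans ((hF i (s i)).2.2 y l)
  refine ⟨fun y => (s ⌈k.ρ y⌉₊).1 y, Geo.Sm.of_ev fun y => ⟨_, (s _).2.1, ev y⟩,
    fun α ξ hξ _ η hη => ?_, fun c => ⟨R' ⌈c⌉₊, fun y hy => ?_⟩⟩
  · rw [lev_congr (congr_ev G.toAtl hξ (ev _))]
    refine (s _).2.2 α ξ hξ (le_trans ?_ (h _).1) η hη
    exact Nat.ceil_le.1 (Nat.le_succ _)
  · by_contra hlt
    have l := low y _ (not_le.1 hlt).le (max ⌈k.ρ y⌉₊ (⌈c⌉₊ + 1)) (le_max_right _ _)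
    rw [← stab y _ (Nat.ceil_le.1 (le_max_left _ _))] at l
    push_cast at l
    linarith [Nat.le_ceil c]

end Pool.Agent.MP_8ac6f3_ag.KH

end MrgPart14

-- marker of a merged file
example : 731051 + 798185 = 731051 + 798185 := rfl
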