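import Mathlib
import Pool.Agent.MP_8ac6f3_ag.kh.BaseA

/-! Row ATL: a finer atlas at a variable scale. -/

open Set Metric Complex MeasureTheory Filter Function
open scoped ContDiff Topology

set_option maxSynthPendingDepth 3

namespace Pool.Agent.MP_8ac6f3_ag.KH

variable {n : ℕ} {Y A : Type} [TopologicalSpace Y]

namespace Reatl

theorem exists_net (r : M n → ℝ) (hr : ∀ c, 0 < r c) : ∃ S : Set (M n), S ⊆ ball 0 1 ∧
    (∀ c ∈ S, ∀ d ∈ S, c ≠ d → min (r c) (r d) ≤ ‖c - d‖) ∧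
    ∀ x ∈ ball (0 : M n) 1, ∃ c ∈ S, ‖x - c‖ < r c := by
  obtain ⟨S, hS⟩ := zorn_subset
    {S : Set (M n) | S ⊆ ball 0 1 ∧ ∀ c ∈ S, ∀ d ∈ S, c ≠ d → min (r c) (r d) ≤ ‖c - d‖}
    fun C hC hc => ⟨⋃₀ C, ⟨sUnion_subset fun t ht => (hC ht).1, by
      rintro c ⟨s, hs, hcs⟩ d ⟨t, ht, hdt⟩ hne
      rcases hc.total hs ht with h | h
      · exact (hC ht).2 c (h hcs) d hdt hne
      · exact (hC hs).2 c hcs d (h hdt) hne⟩, fun s hs => subset_sUnion_of_mem hs⟩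
  refine ⟨S, hS.prop.1, hS.prop.2, fun x hx => ?_⟩
  by_contra h
  push Not at h
  have h1 : insert x S ⊆ S := hS.le_of_ge ⟨insert_subset hx hS.prop.1, by
    rintro c (rfl | hc) d (rfl | hd) hne
    · exact (hne rfl).elim
    · exact (min_le_right _ _).trans (h d hd)
    · rw [norm_sub_rev]; exact (min_le_left _ _).trans (h c hc)
    · exact hS.prop.2 c hc d hd hne⟩ (subset_insert _ _)
  have := h x (h1 (mem_insert _ _))
  rw [sub_self, norm_zero] at this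
  linarith [hr x]

theorem count (n : ℕ) : ∃ N : ℕ, ∀ (ρ : ℝ) (S : Set (M n)) (x : M n), 0 < ρ →
    (∀ c ∈ S, ∀ d ∈ S, c ≠ d → ρ ≤ ‖c - d‖) → (∀ c ∈ S, ‖c - x‖ ≤ 6 * ρ) →
    ∃ T : Finset (M n), T.card ≤ N ∧ ∀ c ∈ S, c ∈ T := by
  obtain ⟨t, -, ht, hc⟩ := finite_cover_balls_of_compact (isCompact_closedBall (0 : M n) 6)
    (e := 1 / 2) (by norm_num)
  refine ⟨t.ncard, fun ρ S x hρ hS hx => ?_⟩
  have h1 : ∀ c : M n, ∃ y, c ∈ S → y ∈ t ∧ ‖ρ⁻¹ • (c - x) - y‖ < 1 / 2 := fun c => by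
    by_cases h : c ∈ S
    · have : ρ⁻¹ • (c - x) ∈ closedBall (0 : M n) 6 := by
        rw [mem_closedBall_zero_iff, norm_smul, Real.norm_eq_abs, abs_of_pos (inv_pos.mpr hρ),
          inv_mul_le_iff₀ hρ]
        linarith [hx c h]
      obtain ⟨y, hy, h2⟩ := mem_iUnion₂.mp (hc this)
      exact ⟨y, fun _ => ⟨hy, mem_ball_iff_norm.mp h2⟩⟩
    · exact ⟨0, fun h' => (h h').elim⟩
  choose f hf using h1
  have hi : InjOn f S := fun c h d h' e => by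
    by_contra hne
    have h2 := (hf c h).2
    have h3 := (hf d h').2
    rw [← e, norm_sub_rev] at h3
    have h4 := norm_sub_le_norm_sub_add_norm_sub (ρ⁻¹ • (c - x)) (f c) (ρ⁻¹ • (d - x))
    rw [← smul_sub, sub_sub_sub_cancel_right, norm_smul, Real.norm_eq_abs,
      abs_of_pos (inv_pos.mpr hρ)] at h4
    have h5 : 1 ≤ ρ⁻¹ * ‖c - d‖ := by
      rw [le_inv_mul_iff₀ hρ, mul_one]
      exact hS c h d h' hne
    linarith
  have hm : MapsTo f S t := fun c h => (hf c h).1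
  have hfin : S.Finite := ht.of_injOn hm hi
  refine ⟨hfin.toFinset, ?_, fun c h => hfin.mem_toFinset.mpr h⟩
  rw [← ncard_eq_toFinset_card S hfin]
  exact ncard_le_ncard_of_injOn f hm hi ht

theorem aff_norm {c ξ : M n} {r t : ℝ} (hr : 0 < r) (hξ : ‖ξ‖ ≤ t) : ‖c + r • ξ - c‖ ≤ t * r := by
  rw [add_sub_cancel_left, norm_smul, Real.norm_eq_abs, abs_of_pos hr, mul_comm]
  exact mul_le_mul_of_nonneg_right hξ hr.le

theorem aff_mem {c ξ : M n} {r : ℝ} (hc : c ∈ ball (0 : M n) 1) (hr : 0 < r) (hr4 : r ≤ 1 / 4)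
    (hξ : ξ ∈ ball (0 : M n) 3) : c + r • ξ ∈ ball (0 : M n) 2 := by
  rw [mem_ball_zero_iff] at *
  have h1 := aff_norm (c := c) hr hξ.le
  have h2 := norm_le_norm_add_norm_sub' (c + r • ξ) c
  linarith

theorem b23 : ball (0 : M n) 2 ⊆ ball 0 3 := ball_subset_ball (by norm_num)

theorem aff_inv {c ξ : M n} {r : ℝ} (hr : 0 < r) : r⁻¹ • (c + r • ξ - c) = ξ := by
  rw [add_sub_cancel_left, smul_smul, inv_mul_cancel₀ hr.ne', one_smul]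

theorem aff_der (c ξ : M n) (r : ℝ) : HasFDerivAt (fun ξ' : M n => c + r • ξ')
    (r • ContinuousLinearMap.id ℂ (M n)) ξ :=
  (r • ContinuousLinearMap.id ℂ (M n)).hasFDerivAt.const_add c

theorem conj_der {τ : M n → M n} {c d ξ : M n} {r r' C : ℝ} (hr : 0 < r) (hr' : 0 < r')
    (h : r ≤ 3 * r') (t1 : ContDiffAt ℂ 1 τ (c + r • ξ)) (t2 : ‖fderiv ℂ τ (c + r • ξ)‖ ≤ C) :
    ContDiffAt ℂ 1 (fun ξ' => r'⁻¹ • (τ (c + r • ξ') - d)) ξ ∧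
      ‖fderiv ℂ (fun ξ' => r'⁻¹ • (τ (c + r • ξ') - d)) ξ‖ ≤ 3 * |C| := by
  have a1 : ContDiffAt ℂ 1 (fun ξ' : M n => c + r • ξ') ξ :=
    contDiffAt_const.add (contDiffAt_id.const_smul _)
  refine ⟨((t1.comp ξ a1).sub contDiffAt_const).const_smul _, ?_⟩
  have d0 : HasFDerivAt (fun ξ' => r'⁻¹ • (τ (c + r • ξ') - d)) _ ξ :=
    (((t1.differentiableAt one_ne_zero).hasFDerivAt.comp ξ (aff_der c ξ r)).sub_const
      d).const_smul r'⁻¹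
  rw [d0.fderiv]
  refine ContinuousLinearMap.opNorm_le_bound _ (by positivity) fun v => ?_
  have h1 := (fderiv ℂ τ (c + r • ξ)).le_of_opNorm_le (t2.trans (le_abs_self _)) (r • v)
  rw [norm_smul, Real.norm_eq_abs, abs_of_pos hr] at h1
  change ‖r'⁻¹ • fderiv ℂ τ (c + r • ξ) (r • v)‖ ≤ _
  rw [norm_smul, Real.norm_eq_abs, abs_of_pos (inv_pos.mpr hr'), inv_mul_le_iff₀ hr']
  have h5 := mul_le_mul_of_nonneg_right h (mul_nonneg (abs_nonneg C) (norm_nonneg v))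
  linarith

variable (a : Atl (M n) Y A) {α : A} {c : M n} {r : ℝ}

theorem inj' (hc : c ∈ ball (0 : M n) 1) (hr : 0 < r) (hr4 : r ≤ 1 / 4) :
    InjOn (fun ξ => a.ψ α (c + r • ξ)) (ball 0 3) := fun ξ h ξ' h' e => by
  have := a.inj α (b23 (aff_mem hc hr hr4 h)) (b23 (aff_mem hc hr hr4 h')) e
  rw [← aff_inv (c := c) (ξ := ξ) hr, this, aff_inv hr]

theorem opn' (hc : c ∈ ball (0 : M n) 1) (hr : 0 < r) (hr4 : r ≤ 1 / 4) {U : Set (M n)}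
    (hU : IsOpen U) (h3 : U ⊆ ball 0 3) : IsOpen ((fun ξ => a.ψ α (c + r • ξ)) '' U) := by
  have e : (fun ξ => a.ψ α (c + r • ξ)) '' U = a.ψ α '' ((fun ξ => c + r • ξ) '' U) :=
    (image_image _ _ _).symm
  rw [e]
  refine a.opn α _ ?_ ?_
  · exact ((isOpenMap_add_left c).comp (isOpenMap_smul₀ hr.ne')) U hU
  · rintro _ ⟨ξ, h, rfl⟩
    exact b23 (aff_mem hc hr hr4 (h3 h))

theorem inv_eq (hc : c ∈ ball (0 : M n) 1) (hr : 0 < r) (hr4 : r ≤ 1 / 4) {ζ : M n}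
    (hζ : ζ ∈ ball (0 : M n) 3) :
    r⁻¹ • (invFunOn (a.ψ α) (ball 0 3) (a.ψ α (c + r • ζ)) - c) = ζ := by
  rw [(a.inj α).leftInvOn_invFunOn (b23 (aff_mem hc hr hr4 hζ)), aff_inv hr]

end Reatl

open Reatl in
theorem reatl [T2Space Y] (a : Atl (M n) Y A) : Reatl a := by
  classical
  intro s L c₀ hs hL hc₀ hc4 hcL hlip
  obtain ⟨N, hN⟩ := count n
  set r : A → M n → ℝ := fun α c => c₀ * s (a.ψ α c) with hr
  have r0 : ∀ α c, 0 < r α c := fun α c => mul_pos hc₀ (hs _).1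
  have r4 : ∀ α c, r α c ≤ 1 / 4 := fun α c =>
    (mul_le_of_le_one_right hc₀.le (hs _).2).trans hc4
  have cmp : ∀ α, ∀ c ∈ ball (0 : M n) 2, ∀ ξ ∈ ball (0 : M n) 2, ∀ t : ℝ,
      ‖ξ - c‖ ≤ t * r α c → |r α ξ - r α c| ≤ t / 8 * r α c := fun α c hc ξ hξ t h => by
    have h1 := hlip α ξ hξ c hc
    have h2 : 0 ≤ t * r α c := (norm_nonneg _).trans h
    have h3 : r α ξ - r α c = c₀ * (s (a.ψ α ξ) - s (a.ψ α c)) := by simp only [hr]; ring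
    rw [h3, abs_mul, abs_of_pos hc₀]
    have h4 : c₀ * |s (a.ψ α ξ) - s (a.ψ α c)| ≤ c₀ * (L * (t * r α c)) :=
      mul_le_mul_of_nonneg_left (h1.trans (mul_le_mul_of_nonneg_left h hL)) hc₀.le
    nlinarith
  have b12 : ball (0 : M n) 1 ⊆ ball 0 2 := ball_subset_ball (by norm_num)
  choose S hS1 hS2 hS3 using fun α => exists_net (r α) (r0 α)
  let J := {p : A × M n // p.2 ∈ S p.1}
  let ψ : J → M n → Y := fun i ξ => a.ψ i.1.1 (i.1.2 + r i.1.1 i.1.2 • ξ)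
  have mem : ∀ i : J, ∀ ξ ∈ ball (0 : M n) 3, i.1.2 + r i.1.1 i.1.2 • ξ ∈ ball (0 : M n) 2 :=
    fun i ξ h => aff_mem (hS1 _ i.2) (r0 _ _) (r4 _ _) h
  have cont : ∀ i, ContinuousOn (ψ i) (ball 0 3) := fun i =>
    (a.cont i.1.1).comp (by fun_prop) fun ξ h => b23 (mem i ξ h)
  have inj : ∀ i, InjOn (ψ i) (ball 0 3) := fun i => inj' a (hS1 _ i.2) (r0 _ _) (r4 _ _)
  have opn : ∀ i U, IsOpen U → U ⊆ ball 0 3 → IsOpen (ψ i '' U) := fun i U h h' =>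
    opn' a (hS1 _ i.2) (r0 _ _) (r4 _ _) h h'
  have cov : ∀ y, ∃ i, ∃ ξ ∈ ball (0 : M n) 1, ψ i ξ = y := fun y => by
    obtain ⟨α, x, hx, rfl⟩ := a.cov y
    obtain ⟨c, hc, h⟩ := hS3 α x hx
    refine ⟨⟨(α, c), hc⟩, (r α c)⁻¹ • (x - c), ?_, ?_⟩
    · rw [mem_ball_zero_iff, norm_smul, Real.norm_eq_abs, abs_of_pos (inv_pos.mpr (r0 _ _)),
        inv_mul_lt_iff₀ (r0 _ _), mul_one]
      exact h
    · simp only [ψ, smul_smul, mul_inv_cancel₀ (r0 α c).ne', one_smul, add_sub_cancel]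
  have inv : ∀ (i : J) y, y ∈ ψ i '' ball 0 3 → invFunOn (ψ i) (ball 0 3) y =
      (r i.1.1 i.1.2)⁻¹ • (invFunOn (a.ψ i.1.1) (ball 0 3) y - i.1.2) := by
    rintro i _ ⟨ζ, hζ, rfl⟩
    rw [(inj i).leftInvOn_invFunOn hζ]
    exact (inv_eq a (hS1 _ i.2) (r0 _ _) (r4 _ _) hζ).symm
  have sub : ∀ i : J, ψ i '' ball 0 3 ⊆ a.ψ i.1.1 '' ball 0 3 := by
    rintro i _ ⟨ζ, hζ, rfl⟩
    exact ⟨_, b23 (mem i ζ hζ), rfl⟩
  have scl : ∀ i : J, ∀ ξ ∈ ball (0 : M n) 3,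
      |c₀ * s (ψ i ξ) - r i.1.1 i.1.2| ≤ 3 / 8 * r i.1.1 i.1.2 := fun i ξ h =>
    cmp _ _ (b12 (hS1 _ i.2)) _ (mem i ξ h) 3 (aff_norm (r0 _ _) (mem_ball_zero_iff.mp h).le)
  have tr : ∀ i j : J, ∀ ξ ∈ ball (0 : M n) 3, ψ i ξ ∈ ψ j '' ball 0 3 →
      ContDiffAt ℂ 1 (fun ξ' => invFunOn (ψ j) (ball 0 3) (ψ i ξ')) ξ ∧
      ‖fderiv ℂ (fun ξ' => invFunOn (ψ j) (ball 0 3) (ψ i ξ')) ξ‖ ≤ 3 * |a.C| := by
    intro i j ξ hξ hy
    obtain ⟨t1, t2⟩ := a.tr i.1.1 j.1.1 _ (b23 (mem i ξ hξ)) (sub j hy)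
    set τ := fun ξ' => invFunOn (a.ψ j.1.1) (ball 0 3) (a.ψ i.1.1 ξ') with hτ
    have e : (fun ξ' => invFunOn (ψ j) (ball 0 3) (ψ i ξ')) =ᶠ[𝓝 ξ]
        fun ξ' => (r j.1.1 j.1.2)⁻¹ • (τ (i.1.2 + r i.1.1 i.1.2 • ξ') - j.1.2) := by
      filter_upwards [(cont i).continuousAt (isOpen_ball.mem_nhds hξ)
        ((opn j _ isOpen_ball subset_rfl).mem_nhds hy)] with ξ' h
      exact inv j _ h
    have h2 := abs_le.mp (scl i ξ hξ)
    obtain ⟨ζ, hζ, hy⟩ := hy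
    have h3 := abs_le.mp (scl j ζ hζ)
    rw [hy] at h3
    have h4 : r i.1.1 i.1.2 ≤ 3 * r j.1.1 j.1.2 := by linarith [r0 j.1.1 j.1.2]
    obtain ⟨u1, u2⟩ := conj_der (d := j.1.2) (r0 _ _) (r0 _ _) h4 t1 t2
    exact ⟨u1.congr_of_eventuallyEq e, by rw [e.fderiv_eq]; exact u2⟩
  have near : ∀ α, ∀ c ∈ S α, ∀ ξ ∈ closedBall (0 : M n) 2,
      ‖c + r α c • ξ - c‖ ≤ 2 * r α c ∧ c + r α c • ξ ∈ closedBall (0 : M n) (3 / 2) :=
    fun α c hc ξ h => by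
      have h1 := aff_norm (c := c) (r0 α c) (mem_closedBall_zero_iff.mp h)
      refine ⟨h1, mem_closedBall_zero_iff.mpr ?_⟩
      have h2 := norm_le_norm_add_norm_sub' (c + r α c • ξ) c
      have h3 := mem_ball_zero_iff.mp (hS1 α hc)
      linarith [r4 α c]
  have c32 : closedBall (0 : M n) (3 / 2) ⊆ ball 0 2 := closedBall_subset_ball (by norm_num)
  have lf1 : ∀ α y, ∃ O ∈ 𝓝 y, ∃ T : Finset (M n), T.card ≤ N ∧ ∀ c ∈ S α,
      ∀ ξ ∈ closedBall (0 : M n) 2, a.ψ α (c + r α c • ξ) ∈ O → c ∈ T := by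
    intro α y
    by_cases hy : y ∈ a.ψ α '' closedBall 0 (3 / 2)
    · obtain ⟨x, hx, rfl⟩ := hy
      have hρ := r0 α x
      have key : ∀ c ∈ {c | c ∈ S α ∧ ∃ ξ ∈ closedBall (0 : M n) 2,
          c + r α c • ξ ∈ ball x (r α x)}, 2 / 3 * r α x ≤ r α c ∧
            ‖c - x‖ ≤ 6 * (2 / 3 * r α x) := by
        rintro c ⟨hc, ξ, hξ, h⟩
        obtain ⟨n1, n2⟩ := near α c hc ξ hξ
        have h1 := mem_ball_iff_norm.mp h
        have h2 := abs_le.mp (cmp α c (b12 (hS1 α hc)) _ (c32 n2) 2 n1)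
        have h3 := abs_le.mp (cmp α x (c32 hx) _ (c32 n2) 1 (by linarith))
        have h4 := norm_sub_le_norm_sub_add_norm_sub c (c + r α c • ξ) x
        rw [norm_sub_rev c (c + r α c • ξ)] at h4
        constructor <;> linarith
      obtain ⟨T, hT, h⟩ := hN (2 / 3 * r α x) _ x (by positivity) (fun c hc d hd hne =>
        (le_min (key c hc).1 (key d hd).1).trans (hS2 α c hc.1 d hd.1 hne)) fun c hc => (key c hc).2
      refine ⟨a.ψ α '' (ball x (r α x) ∩ ball 0 3), (a.opn α _ (isOpen_ball.inter isOpen_ball)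
        inter_subset_right).mem_nhds ⟨x, ⟨mem_ball_self hρ, b23 (c32 hx)⟩, rfl⟩, T, hT, ?_⟩
      rintro c hc ξ hξ ⟨x', hx', e⟩
      refine h c ⟨hc, ξ, hξ, ?_⟩
      rw [← a.inj α hx'.2 (b23 (c32 (near α c hc ξ hξ).2)) e]
      exact hx'.1
    · refine ⟨_, ((isCompact_closedBall 0 (3 / 2)).image_of_continuousOn
        ((a.cont α).mono (c32.trans b23))).isClosed.isOpen_compl.mem_nhds hy, ∅, by simp,
        fun c hc ξ hξ h => (h ⟨_, (near α c hc ξ hξ).2, rfl⟩).elim⟩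
  have lf : ∀ y, ∃ O ∈ 𝓝 y, ∃ T : Finset J, T.card ≤ a.mult * N ∧
      ∀ i, (ψ i '' closedBall 0 2 ∩ O).Nonempty → i ∈ T := by
    intro y
    obtain ⟨O, hO, T0, hT0, h0⟩ := a.lf y
    choose O1 hO1 T1 hT1 h1 using fun α => lf1 α y
    refine ⟨O ∩ ⋂ α ∈ T0, O1 α, inter_mem hO ((biInter_finset_mem T0).mpr fun α _ => hO1 α),
      (T0.biUnion fun α => (T1 α).image fun c => (α, c)).subtype _, ?_, ?_⟩
    · rw [Finset.card_subtype]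
      exact (Finset.card_filter_le _ _).trans ((Finset.card_biUnion_le_card_mul _ _ _
        fun α _ => Finset.card_image_le.trans (hT1 α)).trans (Nat.mul_le_mul_right _ hT0))
    · rintro i ⟨_, ⟨ξ, hξ, rfl⟩, hy⟩
      have h2 : i.1.1 ∈ T0 := h0 _ ⟨_, ⟨_, closedBall_subset_closedBall (by norm_num)
        (near _ _ i.2 ξ hξ).2, rfl⟩, hy.1⟩
      exact Finset.mem_subtype.mpr (Finset.mem_biUnion.mpr ⟨_, h2, Finset.mem_image.mpr
        ⟨_, h1 _ _ i.2 ξ hξ (mem_iInter₂.mp hy.2 _ h2), rfl⟩⟩)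
  refine ⟨J, ⟨ψ, 3 * |a.C|, a.mult * N, cont, inj, opn, cov, tr, lf⟩,
    fun i => ⟨i.1.1, i.1.2, hS1 _ i.2, fun _ => rfl⟩, fun g hg β ξ hξ => ?_⟩
  obtain ⟨i, ζ, hζ, hy⟩ := cov (a.ψ β ξ)
  have hζ3 := b23 (b12 hζ)
  have hy' : a.ψ β ξ ∈ ψ i '' ball 0 3 := ⟨ζ, hζ3, hy⟩
  have t1 := ((a.tr β i.1.1 ξ hξ (sub i hy')).1.differentiableAt one_ne_zero)
  have e : g ∘ a.ψ β =ᶠ[𝓝 ξ] (g ∘ ψ i) ∘ fun ξ' => (r i.1.1 i.1.2)⁻¹ •
      (invFunOn (a.ψ i.1.1) (ball 0 3) (a.ψ β ξ') - i.1.2) := by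
    filter_upwards [(a.cont β).continuousAt (isOpen_ball.mem_nhds hξ)
      ((opn i _ isOpen_ball subset_rfl).mem_nhds hy')] with ξ' h
    simp only [Function.comp]
    rw [← inv i _ h, invFunOn_eq h]
  have t2 : DifferentiableAt ℂ (fun ξ' => (r i.1.1 i.1.2)⁻¹ •
      (invFunOn (a.ψ i.1.1) (ball 0 3) (a.ψ β ξ') - i.1.2)) ξ :=
    (t1.sub_const _).const_smul (r i.1.1 i.1.2)⁻¹
  refine (DifferentiableAt.congr_of_eventuallyEq (DifferentiableAt.comp ξ ?_ t2)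
    e).differentiableWithinAt
  rw [← inv i _ hy', ← hy, (inj i).leftInvOn_invFunOn hζ3]
  exact (hg i).differentiableAt (isOpen_ball.mem_nhds hζ3)

end Pool.Agent.MP_8ac6f3_ag.KH
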