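import Pool.Agent.MP_8ac6f3_ag.kh.Sta
import Pool.Agent.MP_8ac6f3_ag.kh.Decay
import Pool.Agent.MP_8ac6f3_ag.kh.Point
import Pool.Agent.MP_8ac6f3_ag.kh.Exh

/-! The rows of PROJECT KH put together. -/

open scoped Manifold ContDiff

namespace Pool.Agent.MP_8ac6f3_ag.KH

variable {n : ℕ} {Y A : Type} [TopologicalSpace Y]

theorem exh_of_prim [T2Space Y] {G : Geo n Y A} (hn : 0 < n) (P : Prim G) (k : Kit G) :
    Exh k := by
  have c1 := cln1 (n := n) alg lst
  have hb := bk (bk1 three (smax lse) (lip G.toAtl)) (glue lse k.toKit0)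
  have he := env k hb (env0 k)
  have hc := chain alg P k (gst alg lst (cov _) k)
  have hm := meas alg (locma alg (alg2 alg) c1 (cln2 alg lst c1) molS (c11a molS) (c11b molS)
    (extS rmax) (envl (smax lse) rmax)) k (touch rmax k)
  have hr := roof1 alg k he hc hm
  have hp := point alg three k
  exact exh rmax k (gap k (sta k he (decay hn alg c1 rmax k hc hm) hr hp hb) (stb alg k hr hp hb))

theorem stein_of_prim [T2Space Y] [ConnectedSpace Y] [ChartedSpace (M n) Y] {G : Geo n Y A}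
    (hol : ∀ g : Y → ℂ, G.toAtl.Hol g → MDifferentiable 𝓘(ℂ, M n) 𝓘(ℂ, ℂ) g) (P : Prim G) :
    Stein (M n) Y := by
  rcases Nat.eq_zero_or_pos n with rfl | hn
  · exact stein_zero
  obtain ⟨k0⟩ := kit0 (lip G.toAtl)
  obtain ⟨k⟩ := kit k0
  exact stein_of_exh k (exh_of_prim hn P k) hol

theorem kh_main (X : Type) [TopologicalSpace X] [T2Space X] [CompactSpace X]
    [ChartedSpace (M n) X] [IsManifold 𝓘(ℂ, M n) ω X] (h : X → M n → ℝ) (hh : IsKaehler h)
    (Y : Type) [TopologicalSpace Y] [ConnectedSpace Y] [ChartedSpace (M n) Y]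
    [IsManifold 𝓘(ℂ, M n) ω Y] (p : Y → X) (hp : IsCoveringMap p)
    (hp' : IsLocalDiffeomorph 𝓘(ℂ, M n) 𝓘(ℂ, M n) ω p) (hb : BoundedPrimitive p h) :
    Stein (M n) Y := by
  obtain ⟨β, C, h1, h2, h3⟩ := hb
  have := t2_of_cover hp
  obtain ⟨A, G, L⟩ := geo1 X h hh Y p hp hp'
  obtain ⟨P⟩ := geo2 X h Y p A G L β C h1 h2 h3
  exact stein_of_prim L.hol P

end Pool.Agent.MP_8ac6f3_ag.KH
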